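import Pool.Agent.Lib.TP.Stm

/-!
MP_00e23e_nt, directory Lib/TP, part S (helper81): Selberg weights, the sieve weight in progressions, rough integers.

RULES. Module Xyz: file Pool/Agent/Lib/TP/Xyz.lean, first line `import Pool.Agent.Lib.TP.SpecS`, then `namespace Pool.Agent.Lib.TP`,
`open Finset Pool.Agent.Lib.EH3 Pool.Agent.Lib.TB`, private lemmas starting with Xyz_, final theorem
`theorem tXyz (h1 : AStmt) ... : XyzStmt`; the statements under Uses are hypotheses, in this order. Never use congr!.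
-/

namespace Pool.Agent.Lib.TP

open Finset Pool.Agent.Lib.EH3 Pool.Agent.Lib.TB

/-- G(E) = ∑_{k ≤ E squarefree} 1/φ(k) -/
noncomputable def Gs (E : ℕ) : ℝ := ∑ k ∈ (Icc 1 E).filter Squarefree, 1 / (k.totient : ℝ)

/-- the Selberg weights λ_e = (e μ(e)/G(E)) ∑_{k ≤ E squarefree, e | k} 1/φ(k) -/
noncomputable def sl (E e : ℕ) : ℝ :=
  (e : ℝ) * ((ArithmeticFunction.moebius e : ℤ) : ℝ) / Gs E *
    ∑ k ∈ (Icc 1 E).filter (fun k => Squarefree k ∧ e ∣ k), 1 / (k.totient : ℝ)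

/-- Module Sga (120 lines). Uses: nothing.
Proof. log E ≤ ∑_{n ≤ E} 1/n (Mathlib: log_add_one_le_harmonic, harmonic sum). Group the n ≤ E by their radical k = ∏ of the primes dividing n (k ≤ n ≤ E, squarefree): n = k m with m in Nat.factoredNumbers k.primeFactors, so
∑_{n ≤ E, rad n = k} 1/n ≤ (1/k) ∑_{m ∈ factoredNumbers} 1/m = (1/k) ∏_{p | k} (1 - 1/p)⁻¹ = 1/φ(k) (EulerProduct.summable_and_hasSum_factoredNumbers_prod_filter_prime_geometric for the completely multiplicative m ↦ 1/m, Nat.totient_eq_mul_prod_factors). -/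
def SgaStmt : Prop := ∀ E : ℕ, 1 ≤ E → Real.log E ≤ Gs E

/-- Module Sla (150 lines). Uses: nothing.
Proof. Gs E ≥ 1 > 0 (k = 1). sl E 1 = Gs/Gs = 1. If e is not squarefree, sl = 0. Let e be squarefree, S = ∑_{j ≤ E/e, (j,e) = 1, squarefree} 1/φ(j). The squarefree k ≤ E with e | k are the k = e j, φ(k) = φ(e) φ(j): |sl E e| = e S/(φ(e) Gs E).
Lower bound for Gs E: for every l | e the numbers k = l j, j ≤ E/e (so l j ≤ E), (j, e) = 1, j squarefree, are squarefree with gcd(k, e) = l; the pairs (l, j) ↦ l j is injective (l = gcd(k,e)). So Gs E ≥ ∑_{l | e} (1/φ(l)) S = (e/φ(e)) S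
(∑_{l | e} 1/φ(l) = ∏_{p | e} (1 + 1/(p-1)) = e/φ(e) for squarefree e; or: ∑_{l | e} φ(e)/φ(l) = ∑_{l | e} φ(e/l) = e, Nat.sum_totient, since φ(e) = φ(l) φ(e/l)). For e = 0: sl = 0. -/
def SlaStmt : Prop := ∀ E : ℕ, 1 ≤ E → sl E 1 = 1 ∧ ∀ e : ℕ, |sl E e| ≤ 1

/-- Module Slq (150 lines). The quadratic form. Uses: nothing.
Proof. 1/lcm(e,e') = gcd(e,e')/(e e') = (1/(e e')) ∑_{k | gcd(e,e')} φ(k) (Nat.sum_totient). So the left side is ∑_{k ≤ E} φ(k) z_k^2, z_k = ∑_{e ≤ E, k | e} sl E e/e = (1/Gs) ∑_{l ≤ E squarefree, k | l} (1/φ(l)) ∑_{e : k | e | l} μ(e), and for l squarefree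
∑_{e : k | e | l} μ(e) = μ(k) ∑_{d | l/k} μ(d) = μ(k) if l = k, 0 otherwise. So z_k = μ(k)/(φ(k) Gs) (0 if k is not squarefree), and the sum is (1/Gs^2) ∑_{k squarefree} 1/φ(k) = 1/Gs. -/
def SlqStmt : Prop := ∀ E : ℕ, 1 ≤ E →
  ∑ e ∈ Icc 1 E, ∑ e' ∈ Icc 1 E, sl E e * sl E e' / (Nat.lcm e e' : ℝ) = 1 / Gs E

/-- Module Sel (20 lines). Uses: SgaStmt, SlaStmt, SlqStmt. Proof. lam = sl E. -/
def SelsStmt : Prop := SelStmt -- theorem tSel (h1 : SgaStmt) (h2 : SlaStmt) (h3 : SlqStmt) : SelStmt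

/-- Module Svp (100 lines). Uses: SsbdStmt (of TB/Stm2).
Proof. nu lam E n = ∑_{e,e' ≤ E} lam e lam e' [lcm(e,e') | n], so the left side is ∑ lam e lam e' SS N q l a 0, l = lcm(e,e'). q is prime to l: its prime factors are > E, those of l are ≤ E. So MM N q l a 0 = N/(q l), |SS - MM| ≤ lcm(q,l)/N ≤ q E^2/N. Sum: ≤ (N/q) ∑ lam e lam e'/l + E^2 q E^2/N,
and the form is ≤ 1/log E. -/
def SvpsStmt : Prop := SvpStmt -- theorem tSvp (h1 : SsbdStmt) : SvpStmt

/-- Module Rgs (150 lines). Uses: SelStmt, SvpStmt.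
Proof. z < 2^20: 1 + log X ≤ 20 (1 + log X/log z) (log z ≤ 14). Let z ≥ 2^20, E = floor(z^(1/10)) ≥ 4, log E ≥ (1/20) log z. A rough d > 1 is > z. Let Q = 2^i ≤ X with 2Q > z. For rough d in (Q, 2Q], N = 4Q: tri N d ≥ 1/2 and nu lam E d = 1 (no e with 1 < e ≤ E ≤ z divides d). Svp with q = 1, a = 0:
the number of such d is ≤ 2 (4Q/log E + E^4/(4Q)) ≤ 8 Q/log E + 1 ≤ 10 Q/log E (E^4 ≤ z^(4/10) ≤ 2Q), so ∑_{rough d in (Q,2Q]} 1/d ≤ 10/log E ≤ 200/log z. At most log X/log 2 + 1 ≤ 3 log X values of i (X ≥ 2). Total ≤ 1 + 600 log X/log z. -/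
def RgssStmt : Prop := RgsStmt -- theorem tRgs (h1 : SelStmt) (h2 : SvpStmt) : RgsStmt

/-- Module Rgd (80 lines). Uses: nothing.
Proof. Strong induction on m. If no prime p > z divides m, the only rough divisor is 1, and the right side is ≥ 1. Otherwise m = p m', p > z prime; a rough divisor d of m divides m' or p | d and d/p is a rough divisor of m' (d/p | m' since d | p m'). So the number is ≤ 2 · 2^(log m'/log z), and
log m = log m' + log p ≥ log m' + log z. -/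
def RgddStmt : Prop := RgdStmt -- theorem tRgd : RgdStmt

end Pool.Agent.Lib.TP
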