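import Pool.Agent.Lib.TP.Stm
import Pool.Agent.Lib.TB.Dia

/-!
MP_00e23e_nt, directory Lib/TP, part D (helper31): the diagonal moment with the sieve weight,
`DiaVStmt` from `SvpStmt`, `RgsStmt`, `RgdStmt`.
-/

namespace Pool.Agent.Lib.TP

open Finset Pool.Agent.Lib.EH3 Pool.Agent.Lib.TB Pool.Agent.Results.MP_00e23e_nt

lemma DiaV_dvd {z d e : ℕ} (h : Rgh z d) (he : e ∣ d) : Rgh z e :=
  fun p hp hpe => h p hp (hpe.trans he)

/-- the sum over the divisors, without the condition r ≤ R -/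
noncomputable def DiaV_h (r : ℕ) (m : ℤ) : ℝ :=
  ∑ e ∈ r.divisors, (e : ℝ) * (if (e : ℤ) ∣ m then 1 else 0)

lemma DiaV_h0 (r : ℕ) (m : ℤ) : 0 ≤ DiaV_h r m :=
  Finset.sum_nonneg fun e _ => mul_nonneg (by positivity) (by split_ifs <;> norm_num)

/-- the majorant of |1_{d | m} - l_d(m)| -/
noncomputable def DiaV_g (d : ℕ) (m : ℤ) : ℝ :=
  (if (d : ℤ) ∣ m then 1 else 0) + (1 / (d : ℝ)) * ∑ r ∈ d.divisors, DiaV_h r m

lemma DiaV_g0 (d : ℕ) (m : ℤ) : 0 ≤ DiaV_g d m :=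
  add_nonneg (by split_ifs <;> norm_num)
    (mul_nonneg (by positivity) (Finset.sum_nonneg fun r _ => DiaV_h0 r m))

lemma DiaV_dd (R d : ℕ) (m : ℤ) : |dd R d m| ≤ DiaV_g d m := by
  unfold dd DiaV_g
  refine (abs_sub _ _).trans ?_
  have h3 : |(if (d : ℤ) ∣ m then (1 : ℝ) else 0)| = if (d : ℤ) ∣ m then (1 : ℝ) else 0 := by
    split_ifs <;> simp
  rw [h3]
  refine add_le_add le_rfl ?_
  unfold ld
  rw [abs_mul, abs_of_nonneg (by positivity : (0 : ℝ) ≤ 1 / (d : ℝ))]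
  refine mul_le_mul_of_nonneg_left ?_ (by positivity)
  calc |∑ r ∈ d.divisors.filter (fun r => r ≤ R), rs r m| ≤
      ∑ r ∈ d.divisors.filter (fun r => r ≤ R), |rs r m| := Finset.abs_sum_le_sum_abs _ _
    _ ≤ ∑ r ∈ d.divisors.filter (fun r => r ≤ R), DiaV_h r m :=
        Finset.sum_le_sum fun r _ => Dia_rs_le r m
    _ ≤ _ := Finset.sum_le_sum_of_subset_of_nonneg (Finset.filter_subset _ _)
        fun r _ _ => DiaV_h0 r m

/-- the sum of the reciprocals of the rough integers -/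
noncomputable def DiaV_S (z D : ℕ) : ℝ := ∑ d ∈ (Icc 1 D).filter (Rgh z), 1 / (d : ℝ)

lemma DiaV_S0 (z D : ℕ) : 0 ≤ DiaV_S z D := Finset.sum_nonneg fun d _ => by positivity

/-- ∑_{d ≤ D rough} (1/d) ∑_{r | d} g(r) ≤ S ∑_{r ≤ D rough} g(r)/r -/
lemma DiaV_swap (z D : ℕ) (g : ℕ → ℝ) (hg : ∀ r, 0 ≤ g r) :
    ∑ d ∈ (Icc 1 D).filter (Rgh z), (1 / (d : ℝ)) * ∑ r ∈ d.divisors, g r ≤
      DiaV_S z D * ∑ r ∈ (Icc 1 D).filter (Rgh z), g r / r := by
  have hF : ∀ r : ℕ, 0 ≤ (if Rgh z r then g r / (r : ℝ) else 0) := fun r => by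
    split_ifs
    · exact div_nonneg (hg r) (by positivity)
    · exact le_rfl
  have hG : ∀ k : ℕ, 0 ≤ (if Rgh z k then 1 / (k : ℝ) else 0) := fun k => by
    split_ifs
    · positivity
    · exact le_rfl
  have h1 := LdB_conv D (fun r => if Rgh z r then g r / (r : ℝ) else 0)
    (fun k => if Rgh z k then 1 / (k : ℝ) else 0) hF hG
  have h2 : (∑ a ∈ Icc 1 D, if Rgh z a then g a / (a : ℝ) else 0) * (∑ b ∈ Icc 1 D,
      if Rgh z b then 1 / (b : ℝ) else 0) =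
      DiaV_S z D * ∑ r ∈ (Icc 1 D).filter (Rgh z), g r / r := by
    unfold DiaV_S
    rw [Finset.sum_filter, Finset.sum_filter, mul_comm]
  rw [← h2]
  refine le_trans ?_ h1
  rw [Finset.sum_filter]
  refine Finset.sum_le_sum fun d hd => ?_
  rw [mem_Icc] at hd
  split_ifs with hr
  · have h3 := Nat.sum_divisorsAntidiagonal (n := d) (f := fun r k =>
      (if Rgh z r then g r / (r : ℝ) else 0) * (if Rgh z k then 1 / (k : ℝ) else 0))
    have h4 : ∑ q ∈ d.divisorsAntidiagonal, (if Rgh z q.1 then g q.1 / (q.1 : ℝ) else 0) *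
        (if Rgh z q.2 then 1 / (q.2 : ℝ) else 0) = ∑ i ∈ d.divisors,
        (if Rgh z i then g i / (i : ℝ) else 0) * (if Rgh z (d / i) then 1 / ((d / i : ℕ) : ℝ) else 0) := h3
    rw [h4, Finset.mul_sum]
    refine Finset.sum_le_sum fun r hrd => ?_
    obtain ⟨k, hk⟩ := Nat.dvd_of_mem_divisors hrd
    have hr0 : r ≠ 0 := fun h => by
      rw [h, zero_mul] at hk
      omega
    have hk0 : k ≠ 0 := fun h => by
      rw [h, mul_zero] at hk
      omega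
    have h5 : d / r = k := by
      rw [hk, Nat.mul_div_cancel_left _ (Nat.pos_of_ne_zero hr0)]
    have h6 : Rgh z r := DiaV_dvd hr (hk ▸ Dvd.intro _ rfl)
    have h7 : Rgh z k := DiaV_dvd hr (hk ▸ Dvd.intro_left _ rfl)
    rw [h5, if_pos h6, if_pos h7, hk]
    have hr0' : (r : ℝ) ≠ 0 := by exact_mod_cast hr0
    have hk0' : (k : ℝ) ≠ 0 := by exact_mod_cast hk0
    push_cast
    refine le_of_eq ?_
    field_simp
  · exact Finset.sum_nonneg fun q _ => mul_nonneg (hF _) (hG _)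

/-- the number of the rough divisors of m -/
noncomputable def DiaV_T (z m : ℕ) : ℝ := (((m.divisors).filter (Rgh z)).card : ℝ)

lemma DiaV_cnt (z D : ℕ) (m : ℤ) (hm : m ≠ 0) :
    ∑ d ∈ (Icc 1 D).filter (Rgh z), (if (d : ℤ) ∣ m then (1 : ℝ) else 0) ≤ DiaV_T z m.natAbs := by
  rw [← Finset.sum_filter, Finset.sum_const, nsmul_eq_mul, mul_one]
  unfold DiaV_T
  have h2 : (((Icc 1 D).filter (Rgh z)).filter (fun e : ℕ => (e : ℤ) ∣ m)).card ≤
      ((m.natAbs.divisors).filter (Rgh z)).card := by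
    refine Finset.card_le_card ?_
    intro e he
    rw [mem_filter, mem_filter] at he
    rw [mem_filter, Nat.mem_divisors]
    exact ⟨⟨Int.natCast_dvd.1 he.2, Int.natAbs_ne_zero.2 hm⟩, he.1.2⟩
  exact_mod_cast h2

/-- (1) the sum of g(d, m) over the rough d -/
lemma DiaV_one (z D : ℕ) (m : ℤ) (hm : m ≠ 0) :
    ∑ d ∈ (Icc 1 D).filter (Rgh z), DiaV_g d m ≤
      (1 + DiaV_S z D * DiaV_S z D) * DiaV_T z m.natAbs := by
  unfold DiaV_g
  rw [Finset.sum_add_distrib]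
  have h1 := DiaV_cnt z D m hm
  have h2 := DiaV_swap z D (fun r => DiaV_h r m) (fun r => DiaV_h0 r m)
  have h3 : ∑ r ∈ (Icc 1 D).filter (Rgh z), DiaV_h r m / r ≤ DiaV_S z D * DiaV_T z m.natAbs := by
    have h4 := DiaV_swap z D (fun e => (e : ℝ) * (if (e : ℤ) ∣ m then 1 else 0))
      (fun e => mul_nonneg (by positivity) (by split_ifs <;> norm_num))
    have h5 : ∑ e ∈ (Icc 1 D).filter (Rgh z), ((e : ℝ) * (if (e : ℤ) ∣ m then 1 else 0)) / e =
        ∑ d ∈ (Icc 1 D).filter (Rgh z), (if (d : ℤ) ∣ m then (1 : ℝ) else 0) := by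
      refine Finset.sum_congr rfl fun e he => ?_
      rw [mem_filter, mem_Icc] at he
      have he0 : (e : ℝ) ≠ 0 := by
        have : e ≠ 0 := by omega
        exact_mod_cast this
      field_simp
    have h6 : ∑ r ∈ (Icc 1 D).filter (Rgh z), DiaV_h r m / r =
        ∑ d ∈ (Icc 1 D).filter (Rgh z), (1 / (d : ℝ)) *
          ∑ r ∈ d.divisors, (r : ℝ) * (if (r : ℤ) ∣ m then 1 else 0) := by
      refine Finset.sum_congr rfl fun r _ => ?_
      unfold DiaV_h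
      ring
    rw [h6]
    refine h4.trans (mul_le_mul_of_nonneg_left ?_ (DiaV_S0 z D))
    rw [h5]
    exact h1
  have h7 := mul_le_mul_of_nonneg_left h3 (DiaV_S0 z D)
  calc _ ≤ DiaV_T z m.natAbs + DiaV_S z D * (DiaV_S z D * DiaV_T z m.natAbs) :=
        add_le_add h1 (h2.trans h7)
    _ = _ := by ring

/-- (2) the sum of the weight times g(d, n - a) over n, from the bound for the progressions -/
lemma DiaV_two (N d : ℕ) (w : ℤ → ℝ) (a : ℤ) (K T : ℝ) (hd : 1 ≤ d) (hK0 : 0 ≤ K)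
    (hK : ∀ q : ℕ, q ∣ d → (q : ℝ) * ∑ n ∈ Icc (-(N : ℤ)) N, w n * (if (q : ℤ) ∣ n - a then 1 else 0) ≤ K)
    (hT : (d.divisors.card : ℝ) ≤ T) :
    ∑ n ∈ Icc (-(N : ℤ)) N, w n * DiaV_g d (n - a) ≤ (1 / (d : ℝ)) * ((1 + T ^ 2) * K) := by
  have hd0 : (0 : ℝ) < d := by exact_mod_cast hd
  have hT0 : 0 ≤ T := le_trans (by positivity) hT
  have h1 : ∑ n ∈ Icc (-(N : ℤ)) N, w n * (if (d : ℤ) ∣ n - a then 1 else 0) ≤ (1 / (d : ℝ)) * K := by
    have := hK d dvd_rfl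
    rw [one_div_mul_eq_div, le_div_iff₀ hd0, mul_comm]
    exact this
  have h2 : ∀ r ∈ d.divisors, ∑ n ∈ Icc (-(N : ℤ)) N, w n * DiaV_h r (n - a) ≤ T * K := by
    intro r hr
    have hrd := Nat.dvd_of_mem_divisors hr
    have h3 : ∑ n ∈ Icc (-(N : ℤ)) N, w n * DiaV_h r (n - a) = ∑ e ∈ r.divisors,
        (e : ℝ) * ∑ n ∈ Icc (-(N : ℤ)) N, w n * (if (e : ℤ) ∣ n - a then 1 else 0) := by
      unfold DiaV_h
      simp only [Finset.mul_sum]
      rw [Finset.sum_comm]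
      refine Finset.sum_congr rfl fun e _ => Finset.sum_congr rfl fun n _ => ?_
      ring
    rw [h3]
    calc ∑ e ∈ r.divisors, (e : ℝ) * ∑ n ∈ Icc (-(N : ℤ)) N, w n * (if (e : ℤ) ∣ n - a then 1 else 0) ≤
        ∑ _e ∈ r.divisors, K := Finset.sum_le_sum fun e he =>
          hK e ((Nat.dvd_of_mem_divisors he).trans hrd)
      _ = (r.divisors.card : ℝ) * K := by rw [Finset.sum_const, nsmul_eq_mul]
      _ ≤ T * K := by
          refine mul_le_mul_of_nonneg_right (le_trans ?_ hT) hK0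
          exact_mod_cast Finset.card_le_card (Nat.divisors_subset_of_dvd (by omega) hrd)
  have h4 : ∑ n ∈ Icc (-(N : ℤ)) N, w n * DiaV_g d (n - a) =
      ∑ n ∈ Icc (-(N : ℤ)) N, w n * (if (d : ℤ) ∣ n - a then 1 else 0) +
        (1 / (d : ℝ)) * ∑ r ∈ d.divisors, ∑ n ∈ Icc (-(N : ℤ)) N, w n * DiaV_h r (n - a) := by
    unfold DiaV_g
    rw [Finset.sum_comm, Finset.mul_sum, ← Finset.sum_add_distrib]
    refine Finset.sum_congr rfl fun n _ => ?_
    rw [← Finset.mul_sum]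
    ring
  rw [h4]
  have h5 : ∑ r ∈ d.divisors, ∑ n ∈ Icc (-(N : ℤ)) N, w n * DiaV_h r (n - a) ≤ T * (T * K) := by
    calc _ ≤ ∑ _r ∈ d.divisors, T * K := Finset.sum_le_sum h2
      _ = (d.divisors.card : ℝ) * (T * K) := by rw [Finset.sum_const, nsmul_eq_mul]
      _ ≤ T * (T * K) := mul_le_mul_of_nonneg_right hT (mul_nonneg hT0 hK0)
  calc _ ≤ (1 / (d : ℝ)) * K + (1 / (d : ℝ)) * (T * (T * K)) :=
        add_le_add h1 (mul_le_mul_of_nonneg_left h5 (by positivity))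
    _ = _ := by ring

/-- Cauchy-Schwarz -/
lemma DiaV_cs (z R D : ℕ) (c : ℕ → ℝ) (m : ℤ) (hc : ∀ d, c d ≠ 0 → Rgh z d) (C1 : ℝ)
    (h1 : m ≠ 0 → ∑ d ∈ (Icc 1 D).filter (Rgh z), DiaV_g d m ≤ C1) (hC1 : 0 ≤ C1) :
    GF R D c m ^ 2 ≤ C1 * ∑ d ∈ (Icc 1 D).filter (Rgh z), c d ^ 2 * DiaV_g d m := by
  have h0 : 0 ≤ ∑ d ∈ (Icc 1 D).filter (Rgh z), c d ^ 2 * DiaV_g d m :=
    Finset.sum_nonneg fun d _ => mul_nonneg (sq_nonneg _) (DiaV_g0 d m)
  unfold GF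
  split_ifs with hm
  · have := mul_nonneg hC1 h0
    simpa using this
  · have h2 : |∑ d ∈ Ioc R D, c d * dd R d m| ≤
        ∑ d ∈ (Icc 1 D).filter (Rgh z), |c d| * DiaV_g d m := by
      calc |∑ d ∈ Ioc R D, c d * dd R d m| ≤ ∑ d ∈ Ioc R D, |c d * dd R d m| :=
            Finset.abs_sum_le_sum_abs _ _
        _ ≤ ∑ d ∈ Ioc R D, |c d| * DiaV_g d m := by
            refine Finset.sum_le_sum fun d _ => ?_
            rw [abs_mul]
            exact mul_le_mul_of_nonneg_left (DiaV_dd R d m) (abs_nonneg _)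
        _ ≤ ∑ d ∈ Icc 1 D, |c d| * DiaV_g d m := by
            refine Finset.sum_le_sum_of_subset_of_nonneg ?_
              fun d _ _ => mul_nonneg (abs_nonneg _) (DiaV_g0 d m)
            intro d hd
            rw [mem_Ioc] at hd
            rw [mem_Icc]
            omega
        _ = ∑ d ∈ (Icc 1 D).filter (Rgh z), |c d| * DiaV_g d m := by
            rw [Finset.sum_filter]
            refine Finset.sum_congr rfl fun d _ => ?_
            split_ifs with hr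
            · rfl
            · have : c d = 0 := by
                by_contra h
                exact hr (hc d h)
              rw [this]
              simp
    have h3 : (∑ d ∈ (Icc 1 D).filter (Rgh z), |c d| * DiaV_g d m) ^ 2 ≤
        (∑ d ∈ (Icc 1 D).filter (Rgh z), DiaV_g d m) *
          ∑ d ∈ (Icc 1 D).filter (Rgh z), c d ^ 2 * DiaV_g d m := by
      refine Finset.sum_sq_le_sum_mul_sum_of_sq_le_mul _ (fun d _ => DiaV_g0 d m)
        (fun d _ => mul_nonneg (sq_nonneg _) (DiaV_g0 d m)) fun d _ => le_of_eq ?_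
      rw [mul_pow, sq_abs]
      ring
    calc (∑ d ∈ Ioc R D, c d * dd R d m) ^ 2 = |∑ d ∈ Ioc R D, c d * dd R d m| ^ 2 := (sq_abs _).symm
      _ ≤ (∑ d ∈ (Icc 1 D).filter (Rgh z), |c d| * DiaV_g d m) ^ 2 :=
          pow_le_pow_left₀ (abs_nonneg _) h2 2
      _ ≤ _ := h3
      _ ≤ C1 * ∑ d ∈ (Icc 1 D).filter (Rgh z), c d ^ 2 * DiaV_g d m :=
          mul_le_mul_of_nonneg_right (h1 hm) h0

lemma DiaV_nu (lam : ℕ → ℝ) (E : ℕ) (n : ℤ) : 0 ≤ nu lam E n := sq_nonneg _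

/-- assembly with constants -/
lemma DiaV_asm (N z R D : ℕ) (w : ℤ → ℝ) (c : ℤ → ℕ → ℝ) (A : Finset ℤ) (W C1 C2 S : ℝ)
    (hw : ∀ n, 0 ≤ w n) (hc : ∀ a d, c a d ≠ 0 → Rgh z d) (hW : ∀ d, ∑ a ∈ A, c a d ^ 2 ≤ W)
    (hC1 : 0 ≤ C1) (hC2 : 0 ≤ C2)
    (h1 : ∀ a ∈ A, ∀ n ∈ Icc (-(N : ℤ)) N, n - a ≠ 0 →
      ∑ d ∈ (Icc 1 D).filter (Rgh z), DiaV_g d (n - a) ≤ C1)
    (h2 : ∀ a ∈ A, ∀ d ∈ (Icc 1 D).filter (Rgh z),
      ∑ n ∈ Icc (-(N : ℤ)) N, w n * DiaV_g d (n - a) ≤ (1 / (d : ℝ)) * C2)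
    (hS : DiaV_S z D ≤ S) :
    ∑ a ∈ A, ∑ n ∈ Icc (-(N : ℤ)) N, w n * GF R D (c a) (n - a) ^ 2 ≤ C1 * C2 * S * W := by
  have hW0 : 0 ≤ W := (Finset.sum_nonneg fun a _ => sq_nonneg _).trans (hW 0)
  have h3 : ∀ a ∈ A, ∑ n ∈ Icc (-(N : ℤ)) N, w n * GF R D (c a) (n - a) ^ 2 ≤
      C1 * ∑ d ∈ (Icc 1 D).filter (Rgh z), c a d ^ 2 * ((1 / (d : ℝ)) * C2) := by
    intro a ha
    calc ∑ n ∈ Icc (-(N : ℤ)) N, w n * GF R D (c a) (n - a) ^ 2 ≤ ∑ n ∈ Icc (-(N : ℤ)) N,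
          w n * (C1 * ∑ d ∈ (Icc 1 D).filter (Rgh z), c a d ^ 2 * DiaV_g d (n - a)) := by
          refine Finset.sum_le_sum fun n hn => mul_le_mul_of_nonneg_left ?_ (hw n)
          exact DiaV_cs z R D (c a) (n - a) (hc a) C1 (h1 a ha n hn) hC1
      _ = C1 * ∑ d ∈ (Icc 1 D).filter (Rgh z), c a d ^ 2 *
          ∑ n ∈ Icc (-(N : ℤ)) N, w n * DiaV_g d (n - a) := by
          simp only [Finset.mul_sum]
          rw [Finset.sum_comm]
          refine Finset.sum_congr rfl fun d _ => Finset.sum_congr rfl fun n _ => ?_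
          ring
      _ ≤ _ := by
          refine mul_le_mul_of_nonneg_left ?_ hC1
          exact Finset.sum_le_sum fun d hd => mul_le_mul_of_nonneg_left (h2 a ha d hd) (sq_nonneg _)
  calc ∑ a ∈ A, ∑ n ∈ Icc (-(N : ℤ)) N, w n * GF R D (c a) (n - a) ^ 2 ≤
      ∑ a ∈ A, C1 * ∑ d ∈ (Icc 1 D).filter (Rgh z), c a d ^ 2 * ((1 / (d : ℝ)) * C2) :=
        Finset.sum_le_sum h3
    _ = (C1 * C2) * ∑ d ∈ (Icc 1 D).filter (Rgh z), (1 / (d : ℝ)) * ∑ a ∈ A, c a d ^ 2 := by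
        simp only [Finset.mul_sum]
        rw [Finset.sum_comm]
        refine Finset.sum_congr rfl fun d _ => Finset.sum_congr rfl fun a _ => ?_
        ring
    _ ≤ (C1 * C2) * ∑ d ∈ (Icc 1 D).filter (Rgh z), (1 / (d : ℝ)) * W := by
        refine mul_le_mul_of_nonneg_left ?_ (mul_nonneg hC1 hC2)
        exact Finset.sum_le_sum fun d _ => mul_le_mul_of_nonneg_left (hW d) (by positivity)
    _ = (C1 * C2) * (DiaV_S z D * W) := by
        unfold DiaV_S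
        rw [Finset.sum_mul]
    _ ≤ (C1 * C2) * (S * W) :=
        mul_le_mul_of_nonneg_left (mul_le_mul_of_nonneg_right hS hW0) (mul_nonneg hC1 hC2)
    _ = _ := by ring

/-- the exponents: q E^4 / N is small -/
lemma DiaV_exp (N E q D : ℕ) (κ : ℝ) (hκ : 0 < κ) (hN : 2 ≤ N) (hE1 : (N : ℝ) ^ κ ≤ E)
    (hE2 : (E : ℝ) ≤ (N : ℝ) ^ ((1 : ℝ) / 10)) (hD : (D : ℝ) ≤ 2 * (N : ℝ) ^ ((3 : ℝ) / 4))
    (hq : q ≤ D) (hq1 : 1 ≤ q) :
    (q : ℝ) * ((N : ℝ) / (q * Real.log E) + q * (E : ℝ) ^ 4 / N) ≤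
      (1 / κ + 40) * ((N : ℝ) / Real.log N) := by
  have hNr : (2 : ℝ) ≤ N := by exact_mod_cast hN
  have hN0 : (0 : ℝ) < N := by linarith
  have hL0 : 0 < Real.log N := Real.log_pos (by linarith)
  have hq0 : (0 : ℝ) < q := by exact_mod_cast hq1
  have hE0 : (0 : ℝ) < E := lt_of_lt_of_le (Real.rpow_pos_of_pos hN0 κ) hE1
  have hLE : κ * Real.log N ≤ Real.log E := by
    rw [← Real.log_rpow hN0]
    exact Real.log_le_log (Real.rpow_pos_of_pos hN0 κ) hE1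
  have hκL : 0 < κ * Real.log N := mul_pos hκ hL0
  have h1 : (q : ℝ) * ((N : ℝ) / (q * Real.log E)) ≤ (1 / κ) * ((N : ℝ) / Real.log N) := by
    have h2 : (q : ℝ) * ((N : ℝ) / (q * Real.log E)) = (N : ℝ) / Real.log E := by
      field_simp
    rw [h2]
    calc (N : ℝ) / Real.log E ≤ (N : ℝ) / (κ * Real.log N) :=
          div_le_div_of_nonneg_left hN0.le hκL hLE
      _ = _ := by field_simp
  have h3 : (q : ℝ) * (q * (E : ℝ) ^ 4 / N) ≤ 40 * ((N : ℝ) / Real.log N) := by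
    have h4 : (q : ℝ) ≤ 2 * (N : ℝ) ^ ((3 : ℝ) / 4) := by
      refine le_trans ?_ hD
      exact_mod_cast hq
    have h5 : (E : ℝ) ^ 4 ≤ (N : ℝ) ^ ((4 : ℝ) / 10) := by
      calc (E : ℝ) ^ 4 ≤ ((N : ℝ) ^ ((1 : ℝ) / 10)) ^ 4 := pow_le_pow_left₀ hE0.le hE2 4
        _ = (N : ℝ) ^ ((4 : ℝ) / 10) := by
            rw [← Real.rpow_natCast, ← Real.rpow_mul hN0.le]
            norm_num
    have h6 : (q : ℝ) ^ 2 ≤ 4 * (N : ℝ) ^ ((3 : ℝ) / 2) := by
      calc (q : ℝ) ^ 2 ≤ (2 * (N : ℝ) ^ ((3 : ℝ) / 4)) ^ 2 := pow_le_pow_left₀ hq0.le h4 2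
        _ = 4 * (N : ℝ) ^ ((3 : ℝ) / 2) := by
            rw [mul_pow, ← Real.rpow_natCast ((N : ℝ) ^ ((3 : ℝ) / 4)), ← Real.rpow_mul hN0.le]
            norm_num
    have h7 : (q : ℝ) ^ 2 * (E : ℝ) ^ 4 ≤ 4 * (N : ℝ) ^ ((19 : ℝ) / 10) := by
      calc (q : ℝ) ^ 2 * (E : ℝ) ^ 4 ≤ (4 * (N : ℝ) ^ ((3 : ℝ) / 2)) * (N : ℝ) ^ ((4 : ℝ) / 10) :=
            mul_le_mul h6 h5 (by positivity) (by positivity)
        _ = 4 * (N : ℝ) ^ ((19 : ℝ) / 10) := by
            rw [mul_assoc, ← Real.rpow_add hN0]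
            norm_num
    have h8 : Real.log N ≤ 10 * (N : ℝ) ^ ((1 : ℝ) / 10) := by
      have h9 := Real.log_le_rpow_div hN0.le (by norm_num : (0 : ℝ) < 1 / 10)
      have h10 : 0 ≤ (N : ℝ) ^ ((1 : ℝ) / 10) := by positivity
      refine h9.trans ?_
      rw [div_le_iff₀ (by norm_num)]
      nlinarith
    have h11 : (N : ℝ) ^ ((19 : ℝ) / 10) * (N : ℝ) ^ ((1 : ℝ) / 10) = (N : ℝ) ^ 2 := by
      rw [← Real.rpow_add hN0, ← Real.rpow_natCast]
      norm_num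
    have h12 : (q : ℝ) * (q * (E : ℝ) ^ 4 / N) = (q : ℝ) ^ 2 * (E : ℝ) ^ 4 / N := by ring
    rw [h12, div_le_iff₀ hN0]
    have h13 : 40 * ((N : ℝ) / Real.log N) * N = 40 * (N : ℝ) ^ 2 / Real.log N := by ring
    rw [h13, le_div_iff₀ hL0]
    calc (q : ℝ) ^ 2 * (E : ℝ) ^ 4 * Real.log N ≤
        (4 * (N : ℝ) ^ ((19 : ℝ) / 10)) * (10 * (N : ℝ) ^ ((1 : ℝ) / 10)) :=
          mul_le_mul h7 h8 hL0.le (by positivity)
      _ = 40 * ((N : ℝ) ^ ((19 : ℝ) / 10) * (N : ℝ) ^ ((1 : ℝ) / 10)) := by ring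
      _ = 40 * (N : ℝ) ^ 2 := by rw [h11]
  calc (q : ℝ) * ((N : ℝ) / (q * Real.log E) + q * (E : ℝ) ^ 4 / N) =
      (q : ℝ) * ((N : ℝ) / (q * Real.log E)) + (q : ℝ) * (q * (E : ℝ) ^ 4 / N) := by ring
    _ ≤ (1 / κ) * ((N : ℝ) / Real.log N) + 40 * ((N : ℝ) / Real.log N) := add_le_add h1 h3
    _ = _ := by ring

/-- log(4N) ≤ (3/κ) log E -/
lemma DiaV_log (N E X : ℕ) (κ : ℝ) (hκ : 0 < κ) (hN : 2 ≤ N) (hE1 : (N : ℝ) ^ κ ≤ E)
    (hX : (X : ℝ) ≤ 4 * N) (hX1 : 1 ≤ X) : Real.log X / Real.log E ≤ 3 / κ := by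
  have hNr : (2 : ℝ) ≤ N := by exact_mod_cast hN
  have hN0 : (0 : ℝ) < N := by linarith
  have hL0 : 0 < Real.log N := Real.log_pos (by linarith)
  have hX0 : (0 : ℝ) < X := by exact_mod_cast hX1
  have hLE : κ * Real.log N ≤ Real.log E := by
    rw [← Real.log_rpow hN0]
    exact Real.log_le_log (Real.rpow_pos_of_pos hN0 κ) hE1
  have hE0 : 0 < Real.log E := lt_of_lt_of_le (mul_pos hκ hL0) hLE
  have h1 : Real.log X ≤ 3 * Real.log N := by
    calc Real.log X ≤ Real.log (4 * N) := Real.log_le_log hX0 hX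
      _ ≤ Real.log ((N : ℝ) ^ 3) := by
          refine Real.log_le_log (by positivity) ?_
          nlinarith [mul_nonneg hN0.le (sub_nonneg.2 hNr), mul_nonneg (mul_nonneg hN0.le hN0.le) (sub_nonneg.2 hNr)]
      _ = 3 * Real.log N := by
          rw [Real.log_pow]
          norm_num
  rw [div_le_div_iff₀ hE0 hκ]
  nlinarith

/-- (DIAV) -/
theorem tDiaV (h1 : SvpStmt) (h2 : RgsStmt) (h3 : RgdStmt) : DiaVStmt := by
  intro κ hκ
  obtain ⟨Cr, hCr⟩ := h2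
  set T : ℝ := (2 : ℝ) ^ (3 / κ) with hTdef
  set S : ℝ := |Cr| * (1 + 3 / κ) with hSdef
  have hT0 : 0 < T := Real.rpow_pos_of_pos (by norm_num) _
  have hS0 : 0 ≤ S := by positivity
  refine ⟨((1 + S * S) * T) * ((1 + T ^ 2) * (1 / κ + 40)) * S,
    fun N R E D lam c A W hN _ hE hE1 hE2 hsel hD hc hW ha => ?_⟩
  have hNr : (2 : ℝ) ≤ N := by exact_mod_cast hN
  have hN0 : (0 : ℝ) < N := by linarith
  have hL0 : 0 < Real.log N := Real.log_pos (by linarith)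
  -- D + 2 ≤ 4 N
  have hDN : (N : ℝ) ^ ((3 : ℝ) / 4) ≤ N := by
    calc (N : ℝ) ^ ((3 : ℝ) / 4) ≤ (N : ℝ) ^ (1 : ℝ) :=
          Real.rpow_le_rpow_of_exponent_le (by linarith) (by norm_num)
      _ = N := Real.rpow_one _
  have hD4 : ((D + 2 : ℕ) : ℝ) ≤ 4 * N := by
    push_cast
    linarith
  have hS : DiaV_S E D ≤ S := by
    have h4 := hCr E (D + 2) hE (by omega)
    have h5 : DiaV_S E D ≤ ∑ d ∈ (Icc 1 (D + 2)).filter (Rgh E), 1 / (d : ℝ) := by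
      unfold DiaV_S
      refine Finset.sum_le_sum_of_subset_of_nonneg ?_ fun d _ _ => by positivity
      intro d hd
      rw [mem_filter, mem_Icc] at hd ⊢
      exact ⟨⟨hd.1.1, by omega⟩, hd.2⟩
    have h6 := DiaV_log N E (D + 2) κ hκ hN hE1 hD4 (by omega)
    have h7 : 0 ≤ Real.log ((D + 2 : ℕ) : ℝ) / Real.log E := by
      refine div_nonneg (Real.log_nonneg ?_) (Real.log_nonneg ?_)
      · push_cast
        have : (0 : ℝ) ≤ D := by positivity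
        linarith
      · have : (2 : ℝ) ≤ E := by exact_mod_cast hE
        linarith
    calc DiaV_S E D ≤ Cr * (1 + Real.log ((D + 2 : ℕ) : ℝ) / Real.log E) := h5.trans h4
      _ ≤ |Cr| * (1 + Real.log ((D + 2 : ℕ) : ℝ) / Real.log E) :=
          mul_le_mul_of_nonneg_right (le_abs_self _) (by linarith)
      _ ≤ S := mul_le_mul_of_nonneg_left (by linarith) (abs_nonneg _)
  have hTm : ∀ m : ℕ, 1 ≤ m → (m : ℝ) ≤ 4 * N → DiaV_T E m ≤ T := by
    intro m hm hm4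
    unfold DiaV_T
    refine (h3 E m hE hm).trans ?_
    rw [hTdef]
    exact Real.rpow_le_rpow_of_exponent_le (by norm_num) (DiaV_log N E m κ hκ hN hE1 hm4 hm)
  have key := DiaV_asm N E R D (fun n => tri N n * nu lam E n) c A W ((1 + S * S) * T)
    ((1 + T ^ 2) * ((1 / κ + 40) * ((N : ℝ) / Real.log N))) S
    (fun n => mul_nonneg (Dia_tri N n).1 (DiaV_nu lam E n)) hc hW (by positivity) (by positivity)
    ?_ ?_ hS
  · refine key.trans (le_of_eq ?_)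
    ring
  · intro a haA n hn hna
    refine (DiaV_one E D (n - a) hna).trans ?_
    have h4 : DiaV_T E (n - a).natAbs ≤ T := by
      refine hTm _ (Int.natAbs_pos.2 hna) ?_
      rw [mem_Icc] at hn
      have h5 := ha a haA
      rw [abs_le] at h5
      have h6 : (n - a).natAbs ≤ 4 * N := by omega
      exact_mod_cast h6
    have h5 : DiaV_S E D * DiaV_S E D ≤ S * S := mul_le_mul hS hS (DiaV_S0 _ _) hS0
    have h6 : 0 ≤ DiaV_S E D * DiaV_S E D := mul_nonneg (DiaV_S0 _ _) (DiaV_S0 _ _)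
    exact mul_le_mul (by linarith) h4 (by unfold DiaV_T; positivity) (by positivity)
  · intro a haA d hd
    rw [mem_filter, mem_Icc] at hd
    refine DiaV_two N d (fun n => tri N n * nu lam E n) a ((1 / κ + 40) * ((N : ℝ) / Real.log N)) T
      hd.1.1 (by positivity) ?_ ?_
    · intro q hqd
      have hq1 : 1 ≤ q := Nat.pos_of_dvd_of_pos hqd hd.1.1
      have hqD : q ≤ D := (Nat.le_of_dvd hd.1.1 hqd).trans hd.1.2
      have h4 := h1 N E q lam a (by omega) hE hq1 hsel (DiaV_dvd hd.2 hqd)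
      have h5 : (q : ℝ) * ∑ n ∈ Icc (-(N : ℤ)) N, tri N n * nu lam E n *
          (if (q : ℤ) ∣ n - a then 1 else 0) ≤
          (q : ℝ) * ((N : ℝ) / (q * Real.log E) + q * (E : ℝ) ^ 4 / N) :=
        mul_le_mul_of_nonneg_left h4 (by positivity)
      exact h5.trans (DiaV_exp N E q D κ hκ hN hE1 hE2 hD hqD hq1)
    · have h6 : ((d.divisors).filter (Rgh E)) = d.divisors := by
        rw [Finset.filter_true_of_mem]
        intro e he
        exact DiaV_dvd hd.2 (Nat.dvd_of_mem_divisors he)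
      have h7 := hTm d hd.1.1 (by
        have : (d : ℝ) ≤ D := by exact_mod_cast hd.1.2
        linarith)
      unfold DiaV_T at h7
      rw [h6] at h7
      exact h7

end Pool.Agent.Lib.TP
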