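import Pool.Agent.Lib.TP.SpecO

/-!
MP_00e23e_nt, module Oab: the sum of |dd| (adapted from TB/Mab).
-/

namespace Pool.Agent.Lib.TP

open Finset Pool.Agent.Lib.EH3 Pool.Agent.Lib.TB

private lemma Oab_rs_le (r : ℕ) (m : ℤ) :
    |rs r m| ≤ ∑ e ∈ r.divisors, if (e : ℤ) ∣ m then (e : ℝ) else 0 := by
  unfold rs
  refine (Finset.abs_sum_le_sum_abs _ _).trans (Finset.sum_le_sum fun e _ => ?_)
  by_cases h : (e : ℤ) ∣ m
  · rw [if_pos h, if_pos h, abs_mul, abs_of_nonneg (Nat.cast_nonneg e)]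
    have h1 : |((ArithmeticFunction.moebius (r / e) : ℤ) : ℝ)| ≤ 1 := by
      have h2 := ArithmeticFunction.abs_moebius_le_one (n := r / e)
      have h3 : |((ArithmeticFunction.moebius (r / e) : ℤ) : ℝ)| =
          ((|ArithmeticFunction.moebius (r / e)| : ℤ) : ℝ) := by push_cast; rfl
      rw [h3]
      exact_mod_cast h2
    calc (e : ℝ) * |((ArithmeticFunction.moebius (r / e) : ℤ) : ℝ)| ≤ e * 1 :=
          mul_le_mul_of_nonneg_left h1 (Nat.cast_nonneg e)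
      _ = e := mul_one _
  · rw [if_neg h, if_neg h, abs_zero]

private lemma Oab_harm (R : ℕ) : ∑ k ∈ Icc 1 R, 1 / (k : ℝ) ≤ 1 + Real.log R := by
  have h := harmonic_le_one_add_log R
  rw [harmonic_eq_sum_Icc] at h
  push_cast at h
  simpa [one_div] using h

/-- the multiples of `e` up to `R` -/
private lemma Oab_mult (R e : ℕ) (he : 1 ≤ e) :
    ∑ r ∈ (Icc 1 R).filter (fun r => e ∣ r), (e : ℝ) / r ≤ 1 + Real.log R := by
  have hinj : Set.InjOn (fun r : ℕ => r / e) ((Icc 1 R).filter (fun r => e ∣ r) : Finset ℕ) := by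
    intro x hx y hy hxy
    have h1 := (Finset.mem_filter.1 hx).2
    have h2 := (Finset.mem_filter.1 hy).2
    have h3 : x / e = y / e := hxy
    rw [← Nat.div_mul_cancel h1, ← Nat.div_mul_cancel h2, h3]
  have h1 : ∑ r ∈ (Icc 1 R).filter (fun r => e ∣ r), (e : ℝ) / r =
      ∑ k ∈ ((Icc 1 R).filter (fun r => e ∣ r)).image (fun r => r / e), 1 / (k : ℝ) := by
    rw [Finset.sum_image hinj]
    refine Finset.sum_congr rfl fun r hr => ?_
    obtain ⟨k, rfl⟩ := (Finset.mem_filter.1 hr).2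
    rw [Nat.mul_div_cancel_left k he]
    push_cast
    have he' : (e : ℝ) ≠ 0 := by
      have : e ≠ 0 := by omega
      exact_mod_cast this
    by_cases hk : (k : ℝ) = 0
    · rw [hk]
      simp
    · field_simp
  rw [h1]
  refine (Finset.sum_le_sum_of_subset_of_nonneg ?_ ?_).trans (Oab_harm R)
  · intro k hk
    obtain ⟨r, hr, rfl⟩ := Finset.mem_image.1 hk
    obtain ⟨hr1, hr2⟩ := Finset.mem_filter.1 hr
    obtain ⟨hr3, hr4⟩ := Finset.mem_Icc.1 hr1
    rw [Finset.mem_Icc]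
    exact ⟨Nat.div_pos (Nat.le_of_dvd (by omega) hr2) (by omega), (Nat.div_le_self _ _).trans hr4⟩
  · intro k _ _
    positivity

private lemma Oab_ld (R d : ℕ) (m : ℤ) :
    |ld R d m| ≤ ∑ r ∈ (Icc 1 R).filter (fun r => r ∣ d), |rs r m| * (1 / (d : ℝ)) := by
  unfold ld
  rw [abs_mul, abs_of_nonneg (by positivity : (0 : ℝ) ≤ 1 / (d : ℝ))]
  rw [← Finset.sum_mul, mul_comm]
  refine mul_le_mul_of_nonneg_right ?_ (by positivity)
  refine (Finset.abs_sum_le_sum_abs _ _).trans ?_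
  refine Finset.sum_le_sum_of_subset_of_nonneg ?_ (fun _ _ _ => abs_nonneg _)
  intro r hr
  obtain ⟨h1, h2⟩ := Finset.mem_filter.1 hr
  rw [Finset.mem_filter, Finset.mem_Icc]
  exact ⟨⟨Nat.pos_of_mem_divisors h1, h2⟩, Nat.dvd_of_mem_divisors h1⟩

private lemma Oab_inv (R D r : ℕ) (hr : 1 ≤ r) :
    ∑ d ∈ (Ioc R D).filter (fun d => r ∣ d), 1 / (d : ℝ) ≤ (1 + Real.log D) / r := by
  have hr0 : (0 : ℝ) < r := by exact_mod_cast hr
  rw [le_div_iff₀ hr0, Finset.sum_mul]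
  refine le_trans ?_ (Oab_mult D r hr)
  have h1 : ∀ d ∈ (Ioc R D).filter (fun d => r ∣ d), 1 / (d : ℝ) * r = (r : ℝ) / d := by
    intro d _
    ring
  rw [Finset.sum_congr rfl h1]
  refine Finset.sum_le_sum_of_subset_of_nonneg ?_ (fun _ _ _ => by positivity)
  intro d hd
  obtain ⟨h2, h3⟩ := Finset.mem_filter.1 hd
  obtain ⟨h4, h5⟩ := Finset.mem_Ioc.1 h2
  rw [Finset.mem_filter, Finset.mem_Icc]
  exact ⟨⟨by omega, h5⟩, h3⟩

private lemma Oab_sum_ld (R D : ℕ) (m : ℤ) (hD : 1 ≤ D) (hm : m ≠ 0) :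
    ∑ d ∈ Ioc R D, |ld R d m| ≤ (1 + Real.log D) * ((m.natAbs.divisors.card : ℝ) * (1 + Real.log R)) := by
  have hL : 0 ≤ 1 + Real.log D := by
    have := Real.log_nonneg (by exact_mod_cast hD : (1 : ℝ) ≤ D)
    linarith
  obtain ⟨L, hLdef⟩ : ∃ L : ℝ, L = 1 + Real.log D := ⟨_, rfl⟩
  rw [← hLdef] at hL ⊢
  have s1 : ∑ d ∈ Ioc R D, |ld R d m| ≤ ∑ d ∈ Ioc R D,
      ∑ r ∈ (Icc 1 R).filter (fun r => r ∣ d), |rs r m| * (1 / (d : ℝ)) :=
    Finset.sum_le_sum fun d _ => Oab_ld R d m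
  have s2 : ∑ d ∈ Ioc R D,
      ∑ r ∈ (Icc 1 R).filter (fun r => r ∣ d), |rs r m| * (1 / (d : ℝ)) =
      ∑ r ∈ Icc 1 R, |rs r m| * ∑ d ∈ (Ioc R D).filter (fun d => r ∣ d), 1 / (d : ℝ) := by
    rw [Finset.sum_congr rfl (fun d _ => Finset.sum_filter (fun r => r ∣ d) _), Finset.sum_comm]
    refine Finset.sum_congr rfl fun r _ => ?_
    rw [Finset.mul_sum, Finset.sum_filter]
  have s3 : ∑ r ∈ Icc 1 R, |rs r m| * ∑ d ∈ (Ioc R D).filter (fun d => r ∣ d), 1 / (d : ℝ) ≤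
      ∑ r ∈ Icc 1 R, ∑ e ∈ m.natAbs.divisors, if e ∣ r then L * ((e : ℝ) / r) else 0 := by
    refine Finset.sum_le_sum fun r hr => ?_
    have hr1 := (Finset.mem_Icc.1 hr).1
    have hr0 : (0 : ℝ) < r := by exact_mod_cast hr1
    calc |rs r m| * ∑ d ∈ (Ioc R D).filter (fun d => r ∣ d), 1 / (d : ℝ)
        ≤ |rs r m| * (L / r) := by
          rw [hLdef]
          exact mul_le_mul_of_nonneg_left (Oab_inv R D r hr1) (abs_nonneg _)
      _ ≤ (∑ e ∈ r.divisors, if (e : ℤ) ∣ m then (e : ℝ) else 0) * (L / r) :=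
          mul_le_mul_of_nonneg_right (Oab_rs_le r m) (by positivity)
      _ = ∑ e ∈ r.divisors, if (e : ℤ) ∣ m then L * ((e : ℝ) / r) else 0 := by
          rw [Finset.sum_mul]
          refine Finset.sum_congr rfl fun e _ => ?_
          by_cases h : (e : ℤ) ∣ m
          · rw [if_pos h, if_pos h]
            ring
          · rw [if_neg h, if_neg h, zero_mul]
      _ = ∑ e ∈ r.divisors.filter (fun e : ℕ => (e : ℤ) ∣ m), L * ((e : ℝ) / r) := by
          rw [Finset.sum_filter]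
      _ ≤ ∑ e ∈ m.natAbs.divisors.filter (fun e => e ∣ r), L * ((e : ℝ) / r) := by
          refine Finset.sum_le_sum_of_subset_of_nonneg ?_ (fun _ _ _ => by positivity)
          intro e he
          obtain ⟨h2, h3⟩ := Finset.mem_filter.1 he
          rw [Finset.mem_filter, Nat.mem_divisors]
          exact ⟨⟨Int.natCast_dvd.1 h3, Int.natAbs_ne_zero.2 hm⟩, Nat.dvd_of_mem_divisors h2⟩
      _ = ∑ e ∈ m.natAbs.divisors, if e ∣ r then L * ((e : ℝ) / r) else 0 := by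
          rw [Finset.sum_filter]
  have s4 : ∑ r ∈ Icc 1 R, ∑ e ∈ m.natAbs.divisors, (if e ∣ r then L * ((e : ℝ) / r) else 0) =
      ∑ e ∈ m.natAbs.divisors, L * ∑ r ∈ (Icc 1 R).filter (fun r => e ∣ r), (e : ℝ) / r := by
    rw [Finset.sum_comm]
    refine Finset.sum_congr rfl fun e _ => ?_
    rw [Finset.mul_sum, Finset.sum_filter]
  have s5 : ∑ e ∈ m.natAbs.divisors, L * ∑ r ∈ (Icc 1 R).filter (fun r => e ∣ r), (e : ℝ) / r ≤
      ∑ e ∈ m.natAbs.divisors, L * (1 + Real.log R) := by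
    refine Finset.sum_le_sum fun e he => ?_
    exact mul_le_mul_of_nonneg_left (Oab_mult R e (Nat.pos_of_mem_divisors he)) hL
  rw [Finset.sum_const, nsmul_eq_mul] at s5
  calc _ ≤ _ := s1
    _ = _ := s2
    _ ≤ _ := s3
    _ = _ := s4
    _ ≤ _ := s5
    _ = L * ((m.natAbs.divisors.card : ℝ) * (1 + Real.log R)) := by ring

theorem tOab : OabStmt := by
  intro R D m hR hD hm
  have hpt : ∀ d : ℕ, |dd R d m| ≤ (if (d : ℤ) ∣ m then (1 : ℝ) else 0) + |ld R d m| := by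
    intro d
    unfold dd
    refine (abs_sub _ _).trans ?_
    gcongr
    by_cases h : (d : ℤ) ∣ m
    · rw [if_pos h, abs_one]
    · rw [if_neg h, abs_zero]
  have hcount : ∑ d ∈ Ioc R D, (if (d : ℤ) ∣ m then (1 : ℝ) else 0) ≤
      (m.natAbs.divisors.card : ℝ) := by
    rw [← Finset.sum_filter, Finset.sum_const, nsmul_eq_mul, mul_one]
    have : ((Ioc R D).filter (fun d : ℕ => (d : ℤ) ∣ m)).card ≤
        m.natAbs.divisors.card := by
      refine Finset.card_le_card fun e he => ?_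
      rw [Nat.mem_divisors]
      exact ⟨Int.natCast_dvd.1 (Finset.mem_filter.1 he).2, Int.natAbs_ne_zero.2 hm⟩
    exact_mod_cast this
  have hld := Oab_sum_ld R D m hD hm
  calc ∑ d ∈ Ioc R D, |dd R d m| ≤
        ∑ d ∈ Ioc R D, ((if (d : ℤ) ∣ m then (1 : ℝ) else 0) + |ld R d m|) :=
        Finset.sum_le_sum fun d _ => hpt d
    _ = ∑ d ∈ Ioc R D, (if (d : ℤ) ∣ m then (1 : ℝ) else 0) +
        ∑ d ∈ Ioc R D, |ld R d m| := Finset.sum_add_distrib
    _ ≤ (m.natAbs.divisors.card : ℝ) +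
        (1 + Real.log D) * ((m.natAbs.divisors.card : ℝ) * (1 + Real.log R)) := add_le_add hcount hld
    _ = (m.natAbs.divisors.card : ℝ) * (1 + (1 + Real.log D) * (1 + Real.log R)) := by ring

end Pool.Agent.Lib.TP
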