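import Pool.Agent.Lib.TP.SpecO

/-!
MP_00e23e_nt, directory Lib/TP, module Obg: the off-diagonal estimate for one f and large N (assembly with exponents).
-/

namespace Pool.Agent.Lib.TP

open Finset Pool.Agent.Lib.EH3 Pool.Agent.Lib.TB

private lemma Obg_pow {x p q : ℝ} (hx : 1 ≤ x) (h : p ≤ q) : x ^ p ≤ x ^ q :=
  Real.rpow_le_rpow_of_exponent_le hx h

/-- facts on RR -/
private lemma Obg_RR {N : ℕ} (hN : 1 ≤ N) : 1 ≤ RR N ∧
    (RR N : ℝ) ≤ (N : ℝ) ^ (249 / 500 : ℝ) ∧ (N : ℝ) ^ (249 / 500 : ℝ) ≤ 2 * (RR N : ℝ) := by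
  have hx : (1 : ℝ) ≤ N := by exact_mod_cast hN
  have e : ((1 : ℝ) / 2 - 1 / 500) = 249 / 500 := by norm_num
  have h1 : (1 : ℝ) ≤ (N : ℝ) ^ (249 / 500 : ℝ) := Real.one_le_rpow hx (by norm_num)
  unfold RR
  rw [e]
  have h2 : 1 ≤ ⌊(N : ℝ) ^ (249 / 500 : ℝ)⌋₊ := by
    rw [Nat.le_floor_iff (by linarith)]
    exact_mod_cast h1
  have h3 := Nat.floor_le (show (0 : ℝ) ≤ (N : ℝ) ^ (249 / 500 : ℝ) by linarith)
  have h4 := Nat.lt_floor_add_one ((N : ℝ) ^ (249 / 500 : ℝ))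
  have h5 : (1 : ℝ) ≤ (⌊(N : ℝ) ^ (249 / 500 : ℝ)⌋₊ : ℝ) := by exact_mod_cast h2
  exact ⟨h2, h3, by linarith⟩

/-- harmonic sum -/
private lemma Obg_harm (R D : ℕ) : ∑ d ∈ Ioc R D, 1 / (d : ℝ) ≤ 1 + Real.log D := by
  have h1 : ∑ d ∈ Ioc R D, 1 / (d : ℝ) ≤ ∑ d ∈ Icc 1 D, 1 / (d : ℝ) := by
    refine Finset.sum_le_sum_of_subset_of_nonneg ?_ fun i _ _ => by positivity
    intro d hd
    rw [mem_Ioc] at hd
    rw [mem_Icc]
    omega
  have h2 := harmonic_le_one_add_log D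
  rw [harmonic_eq_sum_Icc] at h2
  push_cast at h2
  have h3 : ∑ d ∈ Icc 1 D, 1 / (d : ℝ) = ∑ d ∈ Icc 1 D, ((d : ℝ))⁻¹ :=
    Finset.sum_congr rfl fun d _ => by rw [one_div]
  rw [h3] at h1
  exact h1.trans h2

/-- the double sum of d/d' -/
private lemma Obg_dbl (R D : ℕ) : ∑ d ∈ Ioc R D, ∑ d' ∈ Ioc R D, (1 + (d : ℝ) / d' + (d' : ℝ) / d) ≤
    (D : ℝ) * D + 2 * ((D : ℝ) * D * (1 + Real.log D)) := by
  have hcard : ((Ioc R D).card : ℝ) ≤ D := by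
    rw [Nat.card_Ioc]
    have : D - R ≤ D := by omega
    exact_mod_cast this
  have h1 : ∑ d ∈ Ioc R D, ∑ _d' ∈ Ioc R D, (1 : ℝ) ≤ (D : ℝ) * D := by
    rw [Finset.sum_const, Finset.sum_const, nsmul_eq_mul, nsmul_eq_mul, mul_one]
    exact mul_le_mul hcard hcard (by positivity) (by positivity)
  have h2 : ∑ d ∈ Ioc R D, (d : ℝ) ≤ (D : ℝ) * D := by
    have g1 : ∑ d ∈ Ioc R D, (d : ℝ) ≤ ∑ _d ∈ Ioc R D, (D : ℝ) := by
      refine Finset.sum_le_sum fun d hd => ?_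
      rw [mem_Ioc] at hd
      exact_mod_cast hd.2
    rw [Finset.sum_const, nsmul_eq_mul] at g1
    exact g1.trans (mul_le_mul_of_nonneg_right hcard (by positivity))
  have hh := Obg_harm R D
  have h0 : 0 ≤ ∑ d ∈ Ioc R D, 1 / (d : ℝ) := Finset.sum_nonneg fun d _ => by positivity
  have h3 : ∑ d ∈ Ioc R D, ∑ d' ∈ Ioc R D, (d : ℝ) / d' ≤ (D : ℝ) * D * (1 + Real.log D) := by
    have g1 : ∑ d ∈ Ioc R D, ∑ d' ∈ Ioc R D, (d : ℝ) / d' =
        (∑ d ∈ Ioc R D, (d : ℝ)) * ∑ d' ∈ Ioc R D, 1 / (d' : ℝ) := by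
      rw [Finset.sum_mul_sum]
      refine Finset.sum_congr rfl fun d _ => Finset.sum_congr rfl fun d' _ => ?_
      rw [mul_one_div]
    rw [g1]
    exact mul_le_mul h2 hh h0 (by positivity)
  have h4 : ∑ d ∈ Ioc R D, ∑ d' ∈ Ioc R D, (d' : ℝ) / d ≤ (D : ℝ) * D * (1 + Real.log D) := by
    rw [Finset.sum_comm]
    exact h3
  have h5 : ∑ d ∈ Ioc R D, ∑ d' ∈ Ioc R D, (1 + (d : ℝ) / d' + (d' : ℝ) / d) =
      ∑ d ∈ Ioc R D, ∑ _d' ∈ Ioc R D, (1 : ℝ) + ∑ d ∈ Ioc R D, ∑ d' ∈ Ioc R D, (d : ℝ) / d' +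
        ∑ d ∈ Ioc R D, ∑ d' ∈ Ioc R D, (d' : ℝ) / d := by
    rw [← Finset.sum_add_distrib, ← Finset.sum_add_distrib]
    refine Finset.sum_congr rfl fun d _ => ?_
    rw [← Finset.sum_add_distrib, ← Finset.sum_add_distrib]
  rw [h5]
  linarith

theorem tObg (h1 : OdyStmt) (h2 : TauMStmt) (h3 : MmiStmt) (h4 : OmbStmt) (h5 : OcrStmt)
    (h6 : OfuStmt) (h7 : OxcStmt) : ObgStmt := by
  obtain ⟨C1, N1, hC1, hEE⟩ := h1
  obtain ⟨Ce, hCe0, hCe⟩ := h2 (1 / 100000) (by norm_num)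
  obtain ⟨K, hK⟩ : ∃ K : ℝ, K = 100002 := ⟨_, rfl⟩
  have hK1 : 1 ≤ K := by rw [hK]; norm_num
  refine ⟨C1 + 16 * Ce * K ^ 2 + 80 * Ce * K ^ 2 + 192 * K * Ce ^ 4, N1, by positivity, ?_⟩
  intro N D f c c' a b hN1 hN hf1 hfN hD hc hc' hab ha hb
  obtain ⟨x, hxN⟩ : ∃ x : ℝ, x = (N : ℝ) := ⟨_, rfl⟩
  have hx : (1 : ℝ) ≤ x := by
    rw [hxN]
    exact_mod_cast hN
  have hx0 : (0 : ℝ) < x := by linarith
  by_cases hD0 : D = 0
  · have g1 : ∀ (cc : ℕ → ℝ) (m : ℤ), GF (RR N) D cc m = 0 := by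
      intro cc m
      unfold GF
      rw [hD0]
      split_ifs
      · rfl
      · rw [Finset.Ioc_eq_empty (by omega), Finset.sum_empty]
    have g2 : ∑ n ∈ Icc (-(N : ℤ)) N, tri N n * (if (f : ℤ) ∣ n then 1 else 0) *
        (GF (RR N) D c (n - a) * GF (RR N) D c' (n - b)) = 0 := by
      refine Finset.sum_eq_zero fun n _ => ?_
      rw [g1, zero_mul, mul_zero]
    rw [g2, abs_zero]
    positivity
  have hD1 : 1 ≤ D := by omega
  obtain ⟨hR1, hR2, hR3⟩ := Obg_RR hN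
  obtain ⟨R, hR⟩ : ∃ R, R = RR N := ⟨_, rfl⟩
  rw [← hR] at hR1 hR2 hR3 ⊢
  have hDx : (D : ℝ) ≤ 2 * x ^ (501 / 1000 : ℝ) := by
    rw [hxN]
    have e : ((1 : ℝ) / 2 + 1 / 1000) = 501 / 1000 := by norm_num
    rw [← e]
    exact hD
  have hR2' : (R : ℝ) ≤ x ^ (249 / 500 : ℝ) := by
    rw [hxN]
    exact hR2
  have hR3' : x ^ (249 / 500 : ℝ) ≤ 2 * (R : ℝ) := by
    rw [hxN]
    exact hR3
  have hR0 : (1 : ℝ) ≤ R := by exact_mod_cast hR1
  have hf0 : (1 : ℝ) ≤ f := by exact_mod_cast hf1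
  have hfx : (f : ℝ) ≤ x ^ (1 / 100000 : ℝ) := by
    rw [hxN]
    exact hfN
  have hD2x : (D : ℝ) ≤ 2 * x := by
    have g2 : x ^ (501 / 1000 : ℝ) ≤ x ^ (1 : ℝ) := Obg_pow hx (by norm_num)
    rw [Real.rpow_one] at g2
    linarith
  have hRx : (R : ℝ) ≤ x := by
    have g2 : x ^ (249 / 500 : ℝ) ≤ x ^ (1 : ℝ) := Obg_pow hx (by norm_num)
    rw [Real.rpow_one] at g2
    linarith
  have hDr1 : (1 : ℝ) ≤ D := by exact_mod_cast hD1
  -- y = x ^ ε
  obtain ⟨y, hy⟩ : ∃ y : ℝ, y = x ^ (1 / 100000 : ℝ) := ⟨_, rfl⟩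
  have hy1 : (1 : ℝ) ≤ y := by rw [hy]; exact Real.one_le_rpow hx (by norm_num)
  have hy0 : (0 : ℝ) < y := by linarith
  rw [← hy] at hfx
  -- divisor bounds
  have htau : ∀ n : ℕ, 1 ≤ n → (n : ℝ) ≤ 2 * x → (n.divisors.card : ℝ) ≤ 2 * Ce * y := by
    intro n hn hnx
    have g1 := hCe n hn
    have g2 : (n : ℝ) ^ (1 / 100000 : ℝ) ≤ (2 * x) ^ (1 / 100000 : ℝ) :=
      Real.rpow_le_rpow (by positivity) hnx (by norm_num)
    have g3 : (2 * x) ^ (1 / 100000 : ℝ) ≤ 2 * x ^ (1 / 100000 : ℝ) := by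
      rw [Real.mul_rpow (by norm_num) hx0.le]
      have g4 : (2 : ℝ) ^ (1 / 100000 : ℝ) ≤ (2 : ℝ) ^ (1 : ℝ) :=
        Obg_pow (by norm_num) (by norm_num)
      rw [Real.rpow_one] at g4
      exact mul_le_mul_of_nonneg_right g4 (by positivity)
    rw [← hy] at g3
    calc (n.divisors.card : ℝ) ≤ Ce * (n : ℝ) ^ (1 / 100000 : ℝ) := g1
      _ ≤ Ce * (2 * y) := mul_le_mul_of_nonneg_left (g2.trans g3) hCe0.le
      _ = 2 * Ce * y := by ring
  -- logarithms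
  have hlogx : Real.log x ≤ 100000 * y := by
    have g4 := Real.log_le_rpow_div hx0.le (show (0 : ℝ) < 1 / 100000 by norm_num)
    have g5 : x ^ (1 / 100000 : ℝ) / (1 / 100000) = 100000 * y := by rw [hy]; ring
    rw [g5] at g4
    exact g4
  have hLD : 1 + Real.log D ≤ K * y := by
    have g1 : Real.log D ≤ Real.log (2 * x) := Real.log_le_log (by linarith) hD2x
    rw [Real.log_mul (by norm_num) (by linarith)] at g1
    have g2 : Real.log 2 ≤ 1 := by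
      have := Real.log_two_lt_d9
      linarith
    rw [hK]
    linarith
  have hLR : 1 + Real.log R ≤ K * y := by
    have g1 : Real.log R ≤ Real.log x := Real.log_le_log (by linarith) hRx
    rw [hK]
    linarith
  have hLD0 : 0 ≤ Real.log D := Real.log_nonneg hDr1
  have hLR0 : 0 ≤ Real.log R := Real.log_nonneg hR0
  obtain ⟨m, hm⟩ : ∃ m : ℤ, m = a - b := ⟨_, rfl⟩
  have hm0 : m ≠ 0 := by
    rw [hm]
    exact sub_ne_zero.2 hab
  have htm : (m.natAbs.divisors.card : ℝ) ≤ 2 * Ce * y := by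
    apply htau _ (Int.natAbs_pos.2 hm0)
    have g1 : m.natAbs ≤ 2 * N := by
      rw [hm]
      rw [abs_le] at ha hb
      omega
    rw [hxN]
    exact_mod_cast g1
  -- the target
  obtain ⟨Y, hY⟩ : ∃ Y : ℝ, Y = x ^ ((1 : ℝ) - 1 / 8000) := ⟨_, rfl⟩
  have hyp : ∀ (k : ℕ), y ^ k = x ^ ((k : ℝ) / 100000) := by
    intro k
    rw [hy, ← Real.rpow_natCast, ← Real.rpow_mul hx0.le]
    congr 1
    ring
  have hKy0 : 0 ≤ K * y := by positivity
  -- the exchange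
  have hX := h7 N R D f c c' a b hR1 hD1 hc.1 hc'.1 hab
  rw [← hm] at hX
  have hXb : 2 * (D : ℝ) * ((m.natAbs.divisors.card : ℝ) *
      (1 + (1 + Real.log D) * (1 + Real.log R))) ≤ 16 * Ce * K ^ 2 * Y := by
    have g6 : 1 + (1 + Real.log D) * (1 + Real.log R) ≤ 2 * (K * y) ^ 2 := by
      have k1 : (1 + Real.log D) * (1 + Real.log R) ≤ (K * y) * (K * y) :=
        mul_le_mul hLD hLR (by linarith) hKy0
      have k2 : 1 ≤ (K * y) * (K * y) := by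
        have : 1 ≤ K * y := one_le_mul_of_one_le_of_one_le hK1 hy1
        exact one_le_mul_of_one_le_of_one_le this this
      nlinarith [k1, k2]
    have g8 : (m.natAbs.divisors.card : ℝ) * (1 + (1 + Real.log D) * (1 + Real.log R)) ≤
        (2 * Ce * y) * (2 * (K * y) ^ 2) :=
      mul_le_mul htm g6 (by positivity) (by positivity)
    have g9 : 2 * (D : ℝ) * ((m.natAbs.divisors.card : ℝ) *
        (1 + (1 + Real.log D) * (1 + Real.log R))) ≤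
        (2 * (2 * x ^ (501 / 1000 : ℝ))) * ((2 * Ce * y) * (2 * (K * y) ^ 2)) :=
      mul_le_mul (by linarith) g8 (by positivity) (by positivity)
    have g10 : (2 * (2 * x ^ (501 / 1000 : ℝ))) * ((2 * Ce * y) * (2 * (K * y) ^ 2)) =
        16 * Ce * K ^ 2 * (x ^ (501 / 1000 : ℝ) * y ^ 3) := by ring
    rw [g10, hyp 3, ← Real.rpow_add hx0] at g9
    refine g9.trans (mul_le_mul_of_nonneg_left ?_ (by positivity))
    rw [hY]
    exact Obg_pow hx (by norm_num)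
  -- the expansion
  have hpos : ∀ d ∈ Ioc R D, 1 ≤ d := fun d hd => by
    rw [mem_Ioc] at hd
    omega
  have hexp : ∑ n ∈ Icc (-(N : ℤ)) N, tri N n * (if (f : ℤ) ∣ n then 1 else 0) *
      ((∑ d ∈ Ioc R D, c d * dd R d (n - a)) * (∑ d' ∈ Ioc R D, c' d' * dd R d' (n - b))) =
      ∑ d ∈ Ioc R D, ∑ d' ∈ Ioc R D, c d * c' d' * (1 / (f : ℝ) *
        (((N : ℝ) / ((d : ℝ) * d')) *
          ∑ s ∈ (Nat.gcd d d').divisors.filter (fun s => R < s), rs s m)) +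
      ∑ d ∈ Ioc R D, ∑ d' ∈ Ioc R D, c d * c' d' * Ef N f d d' a b +
      ∑ d ∈ Ioc R D, ∑ d' ∈ Ioc R D, c d * c' d' *
        (∑ u ∈ d.divisors, ∑ w ∈ d'.divisors, kap R d u * kap R d' w * Ef N f u w a b -
          Ef N f d d' a b) := by
    rw [h6, ← Finset.sum_add_distrib, ← Finset.sum_add_distrib]
    refine Finset.sum_congr rfl fun d hd => ?_
    rw [← Finset.sum_add_distrib, ← Finset.sum_add_distrib]
    refine Finset.sum_congr rfl fun d' hd' => ?_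
    rw [hm, ← h3 N R d d' a b (hpos d hd) (hpos d' hd')]
    have g1 : ∑ u ∈ d.divisors, ∑ w ∈ d'.divisors, kap R d u * kap R d' w * SSf N f u w a b =
        1 / (f : ℝ) * ∑ u ∈ d.divisors, ∑ w ∈ d'.divisors,
          kap R d u * kap R d' w * MM N u w a b +
        ∑ u ∈ d.divisors, ∑ w ∈ d'.divisors, kap R d u * kap R d' w * Ef N f u w a b := by
      rw [Finset.mul_sum, ← Finset.sum_add_distrib]
      refine Finset.sum_congr rfl fun u _ => ?_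
      rw [Finset.mul_sum, ← Finset.sum_add_distrib]
      refine Finset.sum_congr rfl fun w _ => ?_
      unfold Ef
      ring
    rw [g1]
    ring
  have hcc : ∀ (d d' : ℕ) (z : ℝ), |c d * c' d' * z| ≤ |z| := by
    intro d d' z
    rw [abs_mul, abs_mul]
    have g1 : |c d| * |c' d'| ≤ 1 := mul_le_one₀ (hc.1 d) (abs_nonneg _) (hc'.1 d')
    calc |c d| * |c' d'| * |z| ≤ 1 * |z| := mul_le_mul_of_nonneg_right g1 (abs_nonneg _)
      _ = |z| := one_mul _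
  -- main terms
  have hA : |∑ d ∈ Ioc R D, ∑ d' ∈ Ioc R D, c d * c' d' * (1 / (f : ℝ) *
        (((N : ℝ) / ((d : ℝ) * d')) *
          ∑ s ∈ (Nat.gcd d d').divisors.filter (fun s => R < s), rs s m))| ≤
      80 * Ce * K ^ 2 * Y := by
    have hf1' : |1 / (f : ℝ)| ≤ 1 := by
      rw [abs_of_nonneg (by positivity), div_le_one (by linarith)]
      exact hf0
    have g1 : |∑ d ∈ Ioc R D, ∑ d' ∈ Ioc R D, c d * c' d' * (1 / (f : ℝ) *
        (((N : ℝ) / ((d : ℝ) * d')) *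
          ∑ s ∈ (Nat.gcd d d').divisors.filter (fun s => R < s), rs s m))| ≤
        20 * (N : ℝ) * (1 + Real.log D) ^ 2 * (m.natAbs.divisors.card : ℝ) / R := by
      refine le_trans ?_ (h4 N R D m hR1 hD1 hm0)
      refine (Finset.abs_sum_le_sum_abs _ _).trans (Finset.sum_le_sum fun d _ => ?_)
      refine (Finset.abs_sum_le_sum_abs _ _).trans (Finset.sum_le_sum fun d' _ => ?_)
      refine (hcc d d' _).trans ?_
      rw [abs_mul]
      calc |1 / (f : ℝ)| * |((N : ℝ) / ((d : ℝ) * d')) *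
            ∑ s ∈ (Nat.gcd d d').divisors.filter (fun s => R < s), rs s m| ≤
          1 * |((N : ℝ) / ((d : ℝ) * d')) *
            ∑ s ∈ (Nat.gcd d d').divisors.filter (fun s => R < s), rs s m| :=
            mul_le_mul_of_nonneg_right hf1' (abs_nonneg _)
        _ = _ := one_mul _
    refine g1.trans ?_
    rw [← hxN, div_le_iff₀ (by linarith)]
    have g2 : 20 * x * (1 + Real.log D) ^ 2 * (m.natAbs.divisors.card : ℝ) ≤
        20 * x * (K * y) ^ 2 * (2 * Ce * y) := by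
      refine mul_le_mul ?_ htm (by positivity) (by positivity)
      exact mul_le_mul_of_nonneg_left (pow_le_pow_left₀ (by linarith) hLD 2) (by positivity)
    have g3 : 80 * Ce * K ^ 2 * Y * (x ^ (249 / 500 : ℝ) / 2) ≤ 80 * Ce * K ^ 2 * Y * R :=
      mul_le_mul_of_nonneg_left (by linarith) (by rw [hY]; positivity)
    have g4 : 80 * Ce * K ^ 2 * Y * (x ^ (249 / 500 : ℝ) / 2) =
        40 * Ce * K ^ 2 * x ^ ((1 : ℝ) - 1 / 8000 + 249 / 500) := by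
      rw [hY, Real.rpow_add hx0]
      ring
    have g5 : 20 * x * (K * y) ^ 2 * (2 * Ce * y) =
        40 * Ce * K ^ 2 * x ^ ((1 : ℝ) + 3 / 100000) := by
      have e1 : 20 * x * (K * y) ^ 2 * (2 * Ce * y) = 40 * Ce * K ^ 2 * (x * y ^ 3) := by ring
      rw [e1, hyp 3, Real.rpow_add hx0, Real.rpow_one]
      norm_num
    have g6 : 40 * Ce * K ^ 2 * x ^ ((1 : ℝ) + 3 / 100000) ≤
        40 * Ce * K ^ 2 * x ^ ((1 : ℝ) - 1 / 8000 + 249 / 500) :=
      mul_le_mul_of_nonneg_left (Obg_pow hx (by norm_num)) (by positivity)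
    linarith
  -- cross terms
  have hE : |∑ d ∈ Ioc R D, ∑ d' ∈ Ioc R D, c d * c' d' *
        (∑ u ∈ d.divisors, ∑ w ∈ d'.divisors, kap R d u * kap R d' w * Ef N f u w a b -
          Ef N f d d' a b)| ≤ 192 * K * Ce ^ 4 * Y := by
    obtain ⟨T, hT⟩ : ∃ T : ℝ, T = 2 * Ce * y := ⟨_, rfl⟩
    have hT0 : 0 ≤ T := by
      rw [hT]
      positivity
    have g0 : ∀ d ∈ Ioc R D, (d.divisors.card : ℝ) ^ 2 ≤ T ^ 2 := by
      intro d hd
      rw [hT]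
      refine pow_le_pow_left₀ (by positivity) (htau d (hpos d hd) ?_) 2
      rw [mem_Ioc] at hd
      have : (d : ℝ) ≤ D := by exact_mod_cast hd.2
      linarith
    have g1 : |∑ d ∈ Ioc R D, ∑ d' ∈ Ioc R D, c d * c' d' *
        (∑ u ∈ d.divisors, ∑ w ∈ d'.divisors, kap R d u * kap R d' w * Ef N f u w a b -
          Ef N f d d' a b)| ≤
        ∑ d ∈ Ioc R D, ∑ d' ∈ Ioc R D, ((f : ℝ) * (R : ℝ) ^ 2 / N * (T ^ 2 * T ^ 2)) *
          (1 + (d : ℝ) / d' + (d' : ℝ) / d) := by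
      refine (Finset.abs_sum_le_sum_abs _ _).trans (Finset.sum_le_sum fun d hd => ?_)
      refine (Finset.abs_sum_le_sum_abs _ _).trans (Finset.sum_le_sum fun d' hd' => ?_)
      by_cases hz : c d = 0 ∨ c' d' = 0
      · have e1 : c d * c' d' = 0 := mul_eq_zero.2 hz
        rw [e1, zero_mul, abs_zero]
        positivity
      · push Not at hz
        refine (hcc d d' _).trans ?_
        have k1 := h5 N R f d d' a b hN hR1 hf1 (mem_Ioc.1 hd).1 (mem_Ioc.1 hd').1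
          (hc.2 d hz.1) (hc'.2 d' hz.2)
        refine k1.trans ?_
        have k2 : (d.divisors.card : ℝ) ^ 2 * (d'.divisors.card : ℝ) ^ 2 ≤ T ^ 2 * T ^ 2 :=
          mul_le_mul (g0 d hd) (g0 d' hd') (by positivity) (by positivity)
        calc (f : ℝ) * (R : ℝ) ^ 2 / N * (1 + (d : ℝ) / d' + (d' : ℝ) / d) *
              ((d.divisors.card : ℝ) ^ 2 * (d'.divisors.card : ℝ) ^ 2) ≤
            (f : ℝ) * (R : ℝ) ^ 2 / N * (1 + (d : ℝ) / d' + (d' : ℝ) / d) * (T ^ 2 * T ^ 2) :=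
              mul_le_mul_of_nonneg_left k2 (by positivity)
          _ = _ := by ring
    have g2 : ∑ d ∈ Ioc R D, ∑ d' ∈ Ioc R D, ((f : ℝ) * (R : ℝ) ^ 2 / N * (T ^ 2 * T ^ 2)) *
          (1 + (d : ℝ) / d' + (d' : ℝ) / d) =
        ((f : ℝ) * (R : ℝ) ^ 2 / N * (T ^ 2 * T ^ 2)) *
          ∑ d ∈ Ioc R D, ∑ d' ∈ Ioc R D, (1 + (d : ℝ) / d' + (d' : ℝ) / d) := by
      rw [Finset.mul_sum]
      refine Finset.sum_congr rfl fun d _ => ?_
      rw [Finset.mul_sum]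
    rw [g2] at g1
    have g3 : ∑ d ∈ Ioc R D, ∑ d' ∈ Ioc R D, (1 + (d : ℝ) / d' + (d' : ℝ) / d) ≤
        3 * ((D : ℝ) * D * (K * y)) := by
      refine (Obg_dbl R D).trans ?_
      have k1 : (D : ℝ) * D * (1 + Real.log D) ≤ (D : ℝ) * D * (K * y) :=
        mul_le_mul_of_nonneg_left hLD (by positivity)
      have k2 : (D : ℝ) * D * 1 ≤ (D : ℝ) * D * (K * y) :=
        mul_le_mul_of_nonneg_left (one_le_mul_of_one_le_of_one_le hK1 hy1) (by positivity)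
      linarith
    have g4 : ((f : ℝ) * (R : ℝ) ^ 2 / N * (T ^ 2 * T ^ 2)) *
          ∑ d ∈ Ioc R D, ∑ d' ∈ Ioc R D, (1 + (d : ℝ) / d' + (d' : ℝ) / d) ≤
        ((f : ℝ) * (R : ℝ) ^ 2 / N * (T ^ 2 * T ^ 2)) * (3 * ((D : ℝ) * D * (K * y))) :=
      mul_le_mul_of_nonneg_left g3 (by positivity)
    refine g1.trans (g4.trans ?_)
    rw [← hxN]
    have g5 : ((f : ℝ) * (R : ℝ) ^ 2 / x * (T ^ 2 * T ^ 2)) * (3 * ((D : ℝ) * D * (K * y))) =
        ((D : ℝ) * D) * ((R : ℝ) * R) * f * (3 * (T ^ 2 * T ^ 2) * (K * y) / x) := by ring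
    rw [g5]
    have k3 : (D : ℝ) * D ≤ (2 * x ^ (501 / 1000 : ℝ)) * (2 * x ^ (501 / 1000 : ℝ)) :=
      mul_le_mul hDx hDx (by positivity) (by positivity)
    have k4 : (R : ℝ) * R ≤ x ^ (249 / 500 : ℝ) * x ^ (249 / 500 : ℝ) :=
      mul_le_mul hR2' hR2' (by positivity) (by positivity)
    have k5 : ((D : ℝ) * D) * ((R : ℝ) * R) * f ≤
        ((2 * x ^ (501 / 1000 : ℝ)) * (2 * x ^ (501 / 1000 : ℝ))) *
          (x ^ (249 / 500 : ℝ) * x ^ (249 / 500 : ℝ)) * y :=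
      mul_le_mul (mul_le_mul k3 k4 (by positivity) (by positivity)) hfx (by positivity)
        (by positivity)
    have k6 : ((D : ℝ) * D) * ((R : ℝ) * R) * f * (3 * (T ^ 2 * T ^ 2) * (K * y) / x) ≤
        ((2 * x ^ (501 / 1000 : ℝ)) * (2 * x ^ (501 / 1000 : ℝ))) *
          (x ^ (249 / 500 : ℝ) * x ^ (249 / 500 : ℝ)) * y *
          (3 * (T ^ 2 * T ^ 2) * (K * y) / x) :=
      mul_le_mul_of_nonneg_right k5 (by positivity)
    refine k6.trans ?_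
    have k7 : ((2 * x ^ (501 / 1000 : ℝ)) * (2 * x ^ (501 / 1000 : ℝ))) *
          (x ^ (249 / 500 : ℝ) * x ^ (249 / 500 : ℝ)) * y *
          (3 * (T ^ 2 * T ^ 2) * (K * y) / x) =
        192 * K * Ce ^ 4 * (x ^ (501 / 1000 : ℝ) * x ^ (501 / 1000 : ℝ) * x ^ (249 / 500 : ℝ) *
          x ^ (249 / 500 : ℝ) * y ^ 6 / x) := by
      rw [hT]
      ring
    have k8 : x ^ (501 / 1000 : ℝ) * x ^ (501 / 1000 : ℝ) * x ^ (249 / 500 : ℝ) *
          x ^ (249 / 500 : ℝ) * y ^ 6 / x =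
        x ^ ((501 / 1000 : ℝ) + 501 / 1000 + 249 / 500 + 249 / 500 + ((6 : ℕ) : ℝ) / 100000 - 1) := by
      rw [hyp 6, Real.rpow_sub hx0, Real.rpow_one, Real.rpow_add hx0, Real.rpow_add hx0,
        Real.rpow_add hx0, Real.rpow_add hx0]
    rw [k7, k8]
    refine mul_le_mul_of_nonneg_left ?_ (by positivity)
    rw [hY]
    exact Obg_pow hx (by norm_num)
  -- the error terms
  have hB := hEE N D f c c' a b hN1 hN hf1 hfN hD hc hc' hab ha hb
  rw [← hR, ← hxN] at hB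
  have hB' : |∑ d ∈ Ioc R D, ∑ d' ∈ Ioc R D, c d * c' d' * Ef N f d d' a b| ≤ C1 * Y := by
    refine hB.trans (mul_le_mul_of_nonneg_left ?_ hC1)
    rw [hY]
    exact Obg_pow hx (by norm_num)
  rw [← hxN, ← hY]
  rw [hexp] at hX
  have hX' := hX.trans hXb
  rw [abs_le] at hX' hA hE hB' ⊢
  constructor
  · linarith [hX'.1, hA.1, hE.1, hB'.1]
  · linarith [hX'.2, hA.2, hE.2, hB'.2]

end Pool.Agent.Lib.TP
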