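import Pool.Agent.Lib.TP.SpecO
import Pool.Agent.Lib.TB.Basic

namespace Pool.Agent.Lib.TP

open Finset Pool.Agent.Lib.EH3 Pool.Agent.Lib.TB

private lemma Obl_sum (A : ℕ) (hA : 0 < A) (S T : Finset ℕ) (G : ℕ → ℂ) (h : ∀ m ∈ S, A * m ∈ T) :
    ∑ x ∈ T, (if A ∣ x ∧ x / A ∈ S then G x else 0) = ∑ m ∈ S, G (A * m) := by
  rw [← Finset.sum_filter]
  have h1 : T.filter (fun x => A ∣ x ∧ x / A ∈ S) = S.image (fun m => A * m) := by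
    ext x
    simp only [Finset.mem_filter, Finset.mem_image]
    constructor
    · rintro ⟨_, ⟨m, rfl⟩, h2⟩
      rw [Nat.mul_div_cancel_left _ hA] at h2
      exact ⟨m, h2, rfl⟩
    · rintro ⟨m, hm, rfl⟩
      refine ⟨h m hm, dvd_mul_right _ _, ?_⟩
      rwa [Nat.mul_div_cancel_left _ hA]
  rw [h1, Finset.sum_image]
  intro a _ b _ hab
  exact Nat.eq_of_mul_eq_mul_left hA hab

private lemma Obl_cop {z m a : ℕ} (hm : Rgh z m) (ha : ∀ p : ℕ, p.Prime → p ∣ a → p ≤ z) :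
    m.Coprime a := by
  by_contra h
  obtain ⟨p, hp, h1, h2⟩ := Nat.Prime.not_coprime_iff_dvd.1 h
  have h3 := hm p hp h1
  have h4 := ha p hp h2
  omega

private lemma Obl_phase (f i B m n : ℕ) (θ : ℤ) (ϑ : ℝ) (hf : 1 ≤ f) (hm : 1 ≤ m) (hn : 1 ≤ n)
    (hB : 1 ≤ B) (hc : (2 ^ i * f * m).Coprime (B * n)) :
    ee (((θ * 2 ^ i * B : ℤ) : ℝ) * (iv (2 ^ i * f * m) (B * n) : ℝ) / ((B * n : ℕ) : ℝ) +
      (ϑ * (2 ^ i * f : ℕ) * B) / (((2 ^ i * f * m : ℕ) : ℝ) * ((B * n : ℕ) : ℝ))) =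
    ee ((θ : ℝ) * (iv (f * m) n : ℝ) / (n : ℝ) + ϑ / ((m : ℝ) * n)) := by
  have hf0 : (f : ℝ) ≠ 0 := by positivity
  have hm0 : (m : ℝ) ≠ 0 := by positivity
  have hn0 : (n : ℝ) ≠ 0 := by positivity
  have hB0 : (B : ℝ) ≠ 0 := by positivity
  set v : ℕ := iv (2 ^ i * f * m) (B * n) with hv
  have hBn : 1 ≤ B * n := Nat.mul_pos hB hn
  have d1 : ((B * n : ℕ) : ℤ) ∣ (v : ℤ) * ((2 ^ i * f * m : ℕ) : ℤ) - 1 := iv_dvd hc hBn
  have d2 : (n : ℤ) ∣ (v : ℤ) * ((2 ^ i * f * m : ℕ) : ℤ) - 1 := by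
    refine dvd_trans ?_ d1
    push_cast
    exact dvd_mul_left _ _
  have hc2 : (f * m).Coprime n := by
    have h1 : (f * m) ∣ 2 ^ i * f * m := ⟨2 ^ i, by ring⟩
    exact Nat.Coprime.coprime_dvd_left h1 (Nat.Coprime.coprime_dvd_right (dvd_mul_left n B) hc)
  have d3 : (n : ℤ) ∣ (2 ^ i * (v : ℤ)) - iv (f * m) n := by
    apply iv_unique hc2 hn
    have h2 : (2 ^ i * (v : ℤ)) * ((f * m : ℕ) : ℤ) - 1 = (v : ℤ) * ((2 ^ i * f * m : ℕ) : ℤ) - 1 := by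
      push_cast
      ring
    rw [h2]
    exact d2
  have d4 : (n : ℤ) ∣ θ * (2 ^ i * (v : ℤ)) - θ * (iv (f * m) n : ℤ) := by
    rw [← mul_sub]
    exact Dvd.dvd.mul_left d3 θ
  have e1 := ee_congr d4
  have e2 : ((θ * 2 ^ i * B : ℤ) : ℝ) * (v : ℝ) / ((B * n : ℕ) : ℝ) =
      ((θ * (2 ^ i * (v : ℤ)) : ℤ) : ℝ) / n := by
    push_cast
    field_simp
  have e3 : (ϑ * (2 ^ i * f : ℕ) * B) / (((2 ^ i * f * m : ℕ) : ℝ) * ((B * n : ℕ) : ℝ)) =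
      ϑ / ((m : ℝ) * n) := by
    push_cast
    field_simp
  have e4 : (θ : ℝ) * (iv (f * m) n : ℝ) / (n : ℝ) = ((θ * (iv (f * m) n : ℤ) : ℤ) : ℝ) / n := by
    push_cast
    rfl
  rw [e2, e3, e4, ee_add, ee_add, e1]

private lemma Obl_tr (P2 f i B X : ℕ) (S : Finset ℕ) (α β : ℕ → ℂ) (θ : ℤ) (ϑ : ℝ) (hf : 1 ≤ f)
    (hB : 1 ≤ B) (hX : X = B * P2) (hS : ∀ m ∈ S, 1 ≤ m ∧ 2 ^ i * f * m ∈ Ioc X (2 * X))
    (hcA : ∀ m n, α m ≠ 0 → β n ≠ 0 → (m.Coprime n ↔ (2 ^ i * f * m).Coprime (B * n))) :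
    ∑ m ∈ S, ∑ n ∈ (Ioc P2 (2 * P2)).filter (fun n => m.Coprime n),
      α m * β n * ee ((θ : ℝ) * (iv (f * m) n : ℝ) / (n : ℝ) + ϑ / ((m : ℝ) * n)) =
    ∑ m ∈ Ioc X (2 * X), ∑ n ∈ (Ioc X (2 * X)).filter (fun n => m.Coprime n),
      (if (2 ^ i * f) ∣ m ∧ m / (2 ^ i * f) ∈ S then α (m / (2 ^ i * f)) else 0) *
      (if B ∣ n ∧ n / B ∈ Ioc P2 (2 * P2) then β (n / B) else 0) *
      ee (((θ * 2 ^ i * B : ℤ) : ℝ) * (iv m n : ℝ) / (n : ℝ) +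
        (ϑ * (2 ^ i * f : ℕ) * B) / ((m : ℝ) * n)) := by
  have hA : 0 < 2 ^ i * f := by positivity
  have hN : ∀ n ∈ Ioc P2 (2 * P2), B * n ∈ Ioc X (2 * X) := by
    intro n hn
    rw [Finset.mem_Ioc] at hn ⊢
    rw [hX]
    refine ⟨Nat.mul_lt_mul_of_pos_left hn.1 hB, ?_⟩
    calc B * n ≤ B * (2 * P2) := Nat.mul_le_mul_left _ hn.2
      _ = 2 * (B * P2) := by ring
  set e2 : ℕ → ℕ → ℂ := fun m n => ee (((θ * 2 ^ i * B : ℤ) : ℝ) * (iv m n : ℝ) / (n : ℝ) +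
        (ϑ * (2 ^ i * f : ℕ) * B) / ((m : ℝ) * n)) with he2
  have r1 : ∑ m ∈ Ioc X (2 * X), ∑ n ∈ (Ioc X (2 * X)).filter (fun n => m.Coprime n),
      (if (2 ^ i * f) ∣ m ∧ m / (2 ^ i * f) ∈ S then α (m / (2 ^ i * f)) else 0) *
      (if B ∣ n ∧ n / B ∈ Ioc P2 (2 * P2) then β (n / B) else 0) * e2 m n =
      ∑ m ∈ Ioc X (2 * X), (if (2 ^ i * f) ∣ m ∧ m / (2 ^ i * f) ∈ S then
        ∑ n ∈ Ioc X (2 * X), (if B ∣ n ∧ n / B ∈ Ioc P2 (2 * P2) then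
          (if m.Coprime n then α (m / (2 ^ i * f)) * β (n / B) * e2 m n else 0) else 0) else 0) := by
    refine Finset.sum_congr rfl fun m _ => ?_
    rw [Finset.sum_filter]
    by_cases h1 : (2 ^ i * f) ∣ m ∧ m / (2 ^ i * f) ∈ S
    · simp only [if_pos h1]
      refine Finset.sum_congr rfl fun n _ => ?_
      by_cases h2 : B ∣ n ∧ n / B ∈ Ioc P2 (2 * P2)
      · simp only [if_pos h2]
      · simp only [if_neg h2, mul_zero, zero_mul, ite_self]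
    · simp only [if_neg h1, zero_mul, ite_self, Finset.sum_const_zero]
  have r2 := Obl_sum (2 ^ i * f) hA S (Ioc X (2 * X)) (fun m => ∑ n ∈ Ioc X (2 * X),
    (if B ∣ n ∧ n / B ∈ Ioc P2 (2 * P2) then
      (if m.Coprime n then α (m / (2 ^ i * f)) * β (n / B) * e2 m n else 0) else 0))
    (fun m hm => (hS m hm).2)
  rw [r1, r2]
  refine Finset.sum_congr rfl fun m hm => ?_
  have r3 := Obl_sum B hB (Ioc P2 (2 * P2)) (Ioc X (2 * X)) (fun n =>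
    (if (2 ^ i * f * m).Coprime n then α (2 ^ i * f * m / (2 ^ i * f)) * β (n / B) *
      e2 (2 ^ i * f * m) n else 0)) hN
  rw [r3, Finset.sum_filter]
  refine Finset.sum_congr rfl fun n hn => ?_
  rw [Nat.mul_div_cancel_left _ hA, Nat.mul_div_cancel_left _ hB]
  by_cases ha : α m = 0
  · simp [ha]
  by_cases hb : β n = 0
  · simp [hb]
  have hc := hcA m n ha hb
  by_cases h5 : m.Coprime n
  · rw [if_pos h5, if_pos (hc.1 h5)]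
    rw [Finset.mem_Ioc] at hn
    have hn1 : 1 ≤ n := by omega
    rw [← Obl_phase f i B m n θ ϑ hf (hS m hm).1 hn1 hB (hc.1 h5)]
  · rw [if_neg h5, if_neg (fun h6 => h5 (hc.2 h6))]

private lemma Obl_eqv {f i j m n : ℕ} (hf : 1 ≤ f) (hm : Rgh (4 * f) m) (hn : Rgh (4 * f) n) :
    m.Coprime n ↔ (2 ^ i * f * m).Coprime ((2 * f + 1) ^ j * n) := by
  constructor
  · intro h
    have a1 : (2 ^ i * f).Coprime ((2 * f + 1) ^ j) := by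
      apply Nat.Coprime.pow_right
      apply Nat.Coprime.mul_left
      · apply Nat.Coprime.pow_left
        rw [Nat.coprime_two_left]
        exact ⟨f, rfl⟩
      · have h1 : Nat.Coprime f (1 + f * 2) := by simp
        have h2 : 2 * f + 1 = 1 + f * 2 := by ring
        rw [h2]
        exact h1
    have a2 : n.Coprime (2 ^ i * f) := by
      apply Obl_cop hn
      intro p hp h1
      rcases hp.dvd_mul.1 h1 with h2 | h2
      · have h3 := Nat.le_of_dvd (by norm_num) (hp.dvd_of_dvd_pow h2)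
        omega
      · have h3 := Nat.le_of_dvd (by omega) h2
        omega
    have a3 : m.Coprime ((2 * f + 1) ^ j) := by
      apply Obl_cop hm
      intro p hp h1
      have h3 := Nat.le_of_dvd (by omega) (hp.dvd_of_dvd_pow h1)
      omega
    exact Nat.Coprime.mul_left (Nat.Coprime.mul_right a1 a2.symm) (Nat.Coprime.mul_right a3 h)
  · intro h
    exact Nat.Coprime.coprime_dvd_left (dvd_mul_left m _) (Nat.Coprime.coprime_dvd_right (dvd_mul_left n _) h)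

private lemma Obl_num (C ε t v s f X D P : ℝ) (hC : 0 ≤ C) (hε : 0 < ε) (ht : 1 ≤ t) (hv : 0 ≤ v) (hs : 1 ≤ s)
    (hf : 1 ≤ f) (hX1 : 1 ≤ X) (hX2 : X ≤ 3 * f ^ 2 * s) (hD0 : 0 ≤ D) (hP : 1 ≤ P)
    (hD : f * D * P ≤ 2 * X ^ 2) :
    C * (t * D) ^ (ε / 4) * X ^ ((2 : ℝ) - 1 / 65) * (1 + (t * D + v * (f * D)) / X ^ 2) ^ ((1 : ℝ) / 4) ≤
      18 * C * (18 : ℝ) ^ (ε / 4) * t ^ ε * (f * s) ^ ε * f ^ 4 * s ^ ((2 : ℝ) - 1 / 65) *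
        (1 + (t + v) / P) ^ ((1 : ℝ) / 4) := by
  have t0 : 0 ≤ t := by linarith only [ht]
  have s0 : 0 ≤ s := by linarith only [hs]
  have f0 : 0 ≤ f := by linarith only [hf]
  have X0 : 0 < X := by linarith only [hX1]
  have P0 : 0 < P := by linarith only [hP]
  have X20 : 0 < X ^ 2 := by positivity
  have hfD : 0 ≤ f * D := by positivity
  have d1 : f * D ≤ 2 * X ^ 2 := by
    have h1 : f * D * 1 ≤ f * D * P := mul_le_mul_of_nonneg_left hP hfD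
    linarith only [h1, hD]
  have d2 : D ≤ f * D := by
    have h1 : 1 * D ≤ f * D := mul_le_mul_of_nonneg_right hf hD0
    linarith only [h1]
  have d3 : X ^ 2 ≤ 9 * f ^ 4 * s ^ 2 := by
    have h1 : X ^ 2 ≤ (3 * f ^ 2 * s) ^ 2 := pow_le_pow_left₀ X0.le hX2 2
    have h2 : (3 * f ^ 2 * s) ^ 2 = 9 * f ^ 4 * s ^ 2 := by ring
    linarith only [h1, h2]
  have d4 : f ^ 4 * s ^ 2 ≤ (f * s) ^ 4 := by
    have h1 : s ^ 2 ≤ s ^ 4 := pow_le_pow_right₀ hs (by norm_num)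
    have h2 : f ^ 4 * s ^ 2 ≤ f ^ 4 * s ^ 4 := mul_le_mul_of_nonneg_left h1 (by positivity)
    have h3 : (f * s) ^ 4 = f ^ 4 * s ^ 4 := by ring
    linarith only [h2, h3]
  have d5 : D ≤ 18 * (f * s) ^ 4 := by linarith only [d1, d2, d3, d4]
  have u1 : (t * D) ^ (ε / 4) ≤ t ^ ε * ((18 : ℝ) ^ (ε / 4) * (f * s) ^ ε) := by
    rw [Real.mul_rpow t0 hD0]
    apply mul_le_mul
    · exact Real.rpow_le_rpow_of_exponent_le ht (by linarith only [hε])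
    · have h1 : D ^ (ε / 4) ≤ (18 * (f * s) ^ 4) ^ (ε / 4) :=
        Real.rpow_le_rpow hD0 d5 (by linarith only [hε])
      have h2 : (18 * (f * s) ^ 4) ^ (ε / 4) = (18 : ℝ) ^ (ε / 4) * (f * s) ^ ε := by
        rw [Real.mul_rpow (by norm_num) (by positivity)]
        rw [← Real.rpow_natCast (f * s) 4, ← Real.rpow_mul (by positivity)]
        have h3 : ((4 : ℕ) : ℝ) * (ε / 4) = ε := by
          push_cast
          ring
        rw [h3]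
      linarith only [h1, h2]
    · exact Real.rpow_nonneg hD0 _
    · exact Real.rpow_nonneg t0 _
  have u2 : X ^ ((2 : ℝ) - 1 / 65) ≤ 9 * f ^ 4 * s ^ ((2 : ℝ) - 1 / 65) := by
    have h1 : X ^ ((2 : ℝ) - 1 / 65) ≤ (3 * f ^ 2 * s) ^ ((2 : ℝ) - 1 / 65) :=
      Real.rpow_le_rpow X0.le hX2 (by norm_num)
    rw [Real.mul_rpow (by positivity) s0] at h1
    have h2 : (3 * f ^ 2) ^ ((2 : ℝ) - 1 / 65) ≤ (3 * f ^ 2) ^ (2 : ℝ) := by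
      apply Real.rpow_le_rpow_of_exponent_le
      · have h3 : 1 ≤ f ^ 2 := one_le_pow₀ hf
        linarith only [h3]
      · norm_num
    have h4 : (3 * f ^ 2) ^ (2 : ℝ) = 9 * f ^ 4 := by
      rw [Real.rpow_two]
      ring
    rw [h4] at h2
    have h5 := mul_le_mul_of_nonneg_right h2 (Real.rpow_nonneg s0 ((2 : ℝ) - 1 / 65))
    linarith only [h1, h5]
  have u3 : (1 + (t * D + v * (f * D)) / X ^ 2) ^ ((1 : ℝ) / 4) ≤ 2 * (1 + (t + v) / P) ^ ((1 : ℝ) / 4) := by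
    have h0 : 0 ≤ (t + v) / P := by positivity
    have h1 : (t * D + v * (f * D)) / X ^ 2 ≤ 2 * ((t + v) / P) := by
      have h2 : t * D + v * (f * D) ≤ (t + v) * (f * D) := by
        have h3 : t * D ≤ t * (f * D) := mul_le_mul_of_nonneg_left d2 t0
        have h4 : (t + v) * (f * D) = t * (f * D) + v * (f * D) := by ring
        linarith only [h3, h4]
      have h5 : f * D ≤ 2 * X ^ 2 / P := by
        rw [le_div_iff₀ P0]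
        exact hD
      have h6 : (t + v) * (f * D) ≤ (t + v) * (2 * X ^ 2 / P) :=
        mul_le_mul_of_nonneg_left h5 (by positivity)
      rw [div_le_iff₀ X20]
      have h7 : 2 * ((t + v) / P) * X ^ 2 = (t + v) * (2 * X ^ 2 / P) := by ring
      linarith only [h2, h6, h7]
    have h8 : 1 + (t * D + v * (f * D)) / X ^ 2 ≤ 16 * (1 + (t + v) / P) := by
      linarith only [h0, h1]
    have h9 : (1 + (t * D + v * (f * D)) / X ^ 2) ^ ((1 : ℝ) / 4) ≤ (16 * (1 + (t + v) / P)) ^ ((1 : ℝ) / 4) :=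
      Real.rpow_le_rpow (by positivity) h8 (by norm_num)
    rw [Real.mul_rpow (by norm_num) (by positivity)] at h9
    have h10 : (16 : ℝ) ^ ((1 : ℝ) / 4) = 2 := by
      have h11 : (16 : ℝ) = (2 : ℝ) ^ (4 : ℝ) := by norm_num
      rw [h11, ← Real.rpow_mul (by norm_num)]
      norm_num
    rw [h10] at h9
    exact h9
  have w1 := Real.rpow_nonneg t0 ε
  have w2 : 0 ≤ (18 : ℝ) ^ (ε / 4) := by positivity
  have w3 : 0 ≤ (f * s) ^ ε := Real.rpow_nonneg (by positivity) _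
  have w4 : 0 ≤ X ^ ((2 : ℝ) - 1 / 65) := Real.rpow_nonneg X0.le _
  have w5 : 0 ≤ (1 + (t * D + v * (f * D)) / X ^ 2) ^ ((1 : ℝ) / 4) := Real.rpow_nonneg (by positivity) _
  have w6 : 0 ≤ s ^ ((2 : ℝ) - 1 / 65) := Real.rpow_nonneg s0 _
  have w7 : C * (t * D) ^ (ε / 4) ≤ C * (t ^ ε * ((18 : ℝ) ^ (ε / 4) * (f * s) ^ ε)) :=
    mul_le_mul_of_nonneg_left u1 hC
  have w8 : 0 ≤ C * (t ^ ε * ((18 : ℝ) ^ (ε / 4) * (f * s) ^ ε)) := by positivity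
  have w9 : C * (t * D) ^ (ε / 4) * X ^ ((2 : ℝ) - 1 / 65) ≤
      C * (t ^ ε * ((18 : ℝ) ^ (ε / 4) * (f * s) ^ ε)) * (9 * f ^ 4 * s ^ ((2 : ℝ) - 1 / 65)) :=
    mul_le_mul w7 u2 w4 w8
  have w10 : 0 ≤ C * (t ^ ε * ((18 : ℝ) ^ (ε / 4) * (f * s) ^ ε)) * (9 * f ^ 4 * s ^ ((2 : ℝ) - 1 / 65)) := by
    positivity
  have w11 := mul_le_mul w9 u3 w5 w10
  calc C * (t * D) ^ (ε / 4) * X ^ ((2 : ℝ) - 1 / 65) * (1 + (t * D + v * (f * D)) / X ^ 2) ^ ((1 : ℝ) / 4)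
      ≤ C * (t ^ ε * ((18 : ℝ) ^ (ε / 4) * (f * s) ^ ε)) * (9 * f ^ 4 * s ^ ((2 : ℝ) - 1 / 65)) *
        (2 * (1 + (t + v) / P) ^ ((1 : ℝ) / 4)) := w11
    _ = 18 * C * (18 : ℝ) ^ (ε / 4) * t ^ ε * (f * s) ^ ε * f ^ 4 * s ^ ((2 : ℝ) - 1 / 65) *
        (1 + (t + v) / P) ^ ((1 : ℝ) / 4) := by ring

private lemma Obl_part (C ε : ℝ) (hC : 0 ≤ C) (hε : 0 < ε)
    (hb : ∀ (Q : ℕ) (α β : ℕ → ℂ) (θ : ℤ) (ϑ : ℝ), 1 ≤ Q → (∀ m, ‖α m‖ ≤ 1) → (∀ n, ‖β n‖ ≤ 1) → θ ≠ 0 →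
      ‖∑ m ∈ Ioc Q (2 * Q), ∑ n ∈ (Ioc Q (2 * Q)).filter (fun n => m.Coprime n),
          α m * β n * ee ((θ : ℝ) * (iv m n : ℝ) / (n : ℝ) + ϑ / ((m : ℝ) * n))‖ ≤
        C * |(θ : ℝ)| ^ (ε / 4) * (Q : ℝ) ^ ((2 : ℝ) - 1 / 65) *
          (1 + (|(θ : ℝ)| + |ϑ|) / (Q : ℝ) ^ 2) ^ ((1 : ℝ) / 4))
    (P1 P2 f i j X : ℕ) (S : Finset ℕ) (α β : ℕ → ℂ) (θ : ℤ) (ϑ : ℝ) (hP1 : 1 ≤ P1) (hP2 : 1 ≤ P2) (hf : 1 ≤ f)
    (hα : ∀ m, ‖α m‖ ≤ 1) (hβ : ∀ n, ‖β n‖ ≤ 1) (hαR : ∀ m, α m ≠ 0 → Rgh (4 * f) m)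
    (hβR : ∀ n, β n ≠ 0 → Rgh (4 * f) n) (hθ : θ ≠ 0) (hX : X = (2 * f + 1) ^ j * P2)
    (hX2 : X ≤ 3 * f ^ 2 * (P1 + P2)) (hi : 2 ^ i * f * P1 ≤ 2 * X)
    (hS : ∀ m ∈ S, 1 ≤ m ∧ 2 ^ i * f * m ∈ Ioc X (2 * X)) :
    ‖∑ m ∈ S, ∑ n ∈ (Ioc P2 (2 * P2)).filter (fun n => m.Coprime n),
      α m * β n * ee ((θ : ℝ) * (iv (f * m) n : ℝ) / (n : ℝ) + ϑ / ((m : ℝ) * n))‖ ≤
    18 * C * (18 : ℝ) ^ (ε / 4) * |(θ : ℝ)| ^ ε * ((f : ℝ) * (P1 + P2)) ^ ε * (f : ℝ) ^ 4 *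
      ((P1 : ℝ) + P2) ^ ((2 : ℝ) - 1 / 65) * (1 + (|(θ : ℝ)| + |ϑ|) / ((P1 : ℝ) * P2)) ^ ((1 : ℝ) / 4) := by
  set B : ℕ := (2 * f + 1) ^ j with hB
  have hB1 : 1 ≤ B := Nat.one_le_pow _ _ (by omega)
  have hX1 : 1 ≤ X := by
    rw [hX]
    exact Nat.mul_pos hB1 hP2
  rw [Obl_tr P2 f i B X S α β θ ϑ hf hB1 hX hS
    (fun m n ha hb => Obl_eqv hf (hαR m ha) (hβR n hb))]
  have hθ' : θ * 2 ^ i * (B : ℤ) ≠ 0 := by
    have h1 : (B : ℤ) ≠ 0 := by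
      have : (1 : ℤ) ≤ B := by exact_mod_cast hB1
      omega
    have h2 : (2 : ℤ) ^ i ≠ 0 := by positivity
    exact mul_ne_zero (mul_ne_zero hθ h2) h1
  have h3 := hb X (fun m => if (2 ^ i * f) ∣ m ∧ m / (2 ^ i * f) ∈ S then α (m / (2 ^ i * f)) else 0)
    (fun n => if B ∣ n ∧ n / B ∈ Ioc P2 (2 * P2) then β (n / B) else 0) (θ * 2 ^ i * B)
    (ϑ * (2 ^ i * f : ℕ) * B) hX1 (fun m => by
      show ‖(if _ then _ else _ : ℂ)‖ ≤ 1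
      split_ifs
      · exact hα _
      · simp) (fun n => by
      show ‖(if _ then _ else _ : ℂ)‖ ≤ 1
      split_ifs
      · exact hβ _
      · simp) hθ'
  refine le_trans h3 ?_
  have ht : (1 : ℝ) ≤ |(θ : ℝ)| := by
    have h4 : (1 : ℤ) ≤ |θ| := Int.one_le_abs hθ
    exact_mod_cast h4
  have e1 : |((θ * 2 ^ i * (B : ℤ) : ℤ) : ℝ)| = |(θ : ℝ)| * ((2 : ℝ) ^ i * B) := by
    push_cast
    rw [abs_mul, abs_mul, abs_of_nonneg (by positivity : (0 : ℝ) ≤ 2 ^ i),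
      abs_of_nonneg (by positivity : (0 : ℝ) ≤ (B : ℝ))]
    ring
  have e2 : |ϑ * ((2 ^ i * f : ℕ) : ℝ) * (B : ℝ)| = |ϑ| * ((f : ℝ) * ((2 : ℝ) ^ i * B)) := by
    rw [abs_mul, abs_mul, abs_of_nonneg (by positivity : (0 : ℝ) ≤ ((2 ^ i * f : ℕ) : ℝ)),
      abs_of_nonneg (by positivity : (0 : ℝ) ≤ (B : ℝ))]
    push_cast
    ring
  rw [e1, e2]
  have hP1' : (1 : ℝ) ≤ P1 := by exact_mod_cast hP1
  have hP2' : (1 : ℝ) ≤ P2 := by exact_mod_cast hP2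
  have hf' : (1 : ℝ) ≤ f := by exact_mod_cast hf
  have hX1' : (1 : ℝ) ≤ X := by exact_mod_cast hX1
  have hX2' : (X : ℝ) ≤ 3 * (f : ℝ) ^ 2 * ((P1 : ℝ) + P2) := by exact_mod_cast hX2
  have hi' : (2 : ℝ) ^ i * f * P1 ≤ 2 * X := by exact_mod_cast hi
  have hX' : (X : ℝ) = B * P2 := by exact_mod_cast hX
  have hD : (f : ℝ) * ((2 : ℝ) ^ i * B) * ((P1 : ℝ) * P2) ≤ 2 * (X : ℝ) ^ 2 := by
    have h5 : (2 : ℝ) ^ i * f * P1 * X ≤ 2 * X * X := mul_le_mul_of_nonneg_right hi' (by linarith only [hX1'])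
    have h6 : (f : ℝ) * ((2 : ℝ) ^ i * B) * ((P1 : ℝ) * P2) = (2 : ℝ) ^ i * f * P1 * (B * P2) := by ring
    rw [h6, ← hX']
    have h7 : 2 * (X : ℝ) * X = 2 * (X : ℝ) ^ 2 := by ring
    linarith only [h5, h7]
  have hPP : (1 : ℝ) ≤ (P1 : ℝ) * P2 := by
    have h8 : (1 : ℝ) * 1 ≤ (P1 : ℝ) * P2 := mul_le_mul hP1' hP2' (by norm_num) (by linarith only [hP1'])
    linarith only [h8]
  exact Obl_num C ε |(θ : ℝ)| |ϑ| ((P1 : ℝ) + P2) f X ((2 : ℝ) ^ i * B) ((P1 : ℝ) * P2) hC hε ht (abs_nonneg _)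
    (by linarith only [hP1', hP2']) hf' hX1' hX2' (by positivity) hPP hD

theorem tObl (h : BilStmt) : OblStmt := by
  intro ε hε
  obtain ⟨C0, hC0⟩ := h (ε / 4) (by linarith only [hε])
  set C := max C0 0 with hCd
  have hC : 0 ≤ C := le_max_right _ _
  have hb : ∀ (Q : ℕ) (α β : ℕ → ℂ) (θ : ℤ) (ϑ : ℝ), 1 ≤ Q → (∀ m, ‖α m‖ ≤ 1) → (∀ n, ‖β n‖ ≤ 1) → θ ≠ 0 →
      ‖∑ m ∈ Ioc Q (2 * Q), ∑ n ∈ (Ioc Q (2 * Q)).filter (fun n => m.Coprime n),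
          α m * β n * ee ((θ : ℝ) * (iv m n : ℝ) / (n : ℝ) + ϑ / ((m : ℝ) * n))‖ ≤
        C * |(θ : ℝ)| ^ (ε / 4) * (Q : ℝ) ^ ((2 : ℝ) - 1 / 65) *
          (1 + (|(θ : ℝ)| + |ϑ|) / (Q : ℝ) ^ 2) ^ ((1 : ℝ) / 4) := by
    intro Q α β θ ϑ hQ hα hβ hθ
    refine le_trans (hC0 Q α β θ ϑ hQ hα hβ hθ) ?_
    have h1 : C0 ≤ C := le_max_left _ _
    have h2 : 0 ≤ |(θ : ℝ)| ^ (ε / 4) := Real.rpow_nonneg (abs_nonneg _) _
    have h3 : 0 ≤ (Q : ℝ) ^ ((2 : ℝ) - 1 / 65) := Real.rpow_nonneg (by positivity) _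
    have h4 : 0 ≤ (1 + (|(θ : ℝ)| + |ϑ|) / (Q : ℝ) ^ 2) ^ ((1 : ℝ) / 4) := Real.rpow_nonneg (by positivity) _
    exact mul_le_mul_of_nonneg_right (mul_le_mul_of_nonneg_right (mul_le_mul_of_nonneg_right h1 h2) h3) h4
  refine ⟨36 * C * (18 : ℝ) ^ (ε / 4), by positivity, ?_⟩
  intro P1 P2 f α β θ ϑ hP1 hP2 hf hα hβ hαR hβR hθ
  have ej : ∃ j : ℕ, f * P1 < (2 * f + 1) ^ j * P2 := by
    refine ⟨f * P1, ?_⟩
    have h1 : f * P1 < (2 * f + 1) ^ (f * P1) := Nat.lt_pow_self (by omega)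
    calc f * P1 < (2 * f + 1) ^ (f * P1) := h1
      _ ≤ (2 * f + 1) ^ (f * P1) * P2 := Nat.le_mul_of_pos_right _ hP2
  obtain ⟨j, hj1, hj2⟩ : ∃ j : ℕ, f * P1 < (2 * f + 1) ^ j * P2 ∧ (2 * f + 1) ^ j * P2 ≤ 3 * f ^ 2 * (P1 + P2) := by
    classical
    refine ⟨Nat.find ej, Nat.find_spec ej, ?_⟩
    rcases Nat.eq_zero_or_pos (Nat.find ej) with h0 | h0
    · rw [h0, pow_zero, one_mul]
      have h1 : 1 ≤ 3 * f ^ 2 := by
        have : 1 ≤ f ^ 2 := Nat.one_le_pow _ _ hf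
        omega
      calc P2 ≤ P1 + P2 := Nat.le_add_left _ _
        _ = 1 * (P1 + P2) := (one_mul _).symm
        _ ≤ 3 * f ^ 2 * (P1 + P2) := Nat.mul_le_mul_right _ h1
    · have h1 := Nat.find_min ej (m := Nat.find ej - 1) (by omega)
      rw [not_lt] at h1
      obtain ⟨q, hq⟩ : ∃ q, Nat.find ej = q + 1 := ⟨Nat.find ej - 1, by omega⟩
      rw [hq] at h1 ⊢
      rw [Nat.add_sub_cancel] at h1
      calc (2 * f + 1) ^ (q + 1) * P2 = (2 * f + 1) * ((2 * f + 1) ^ q * P2) := by ring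
        _ ≤ (2 * f + 1) * (f * P1) := Nat.mul_le_mul_left _ h1
        _ ≤ (3 * f) * (f * P1) := Nat.mul_le_mul_right _ (by omega)
        _ = 3 * f ^ 2 * P1 := by ring
        _ ≤ 3 * f ^ 2 * (P1 + P2) := Nat.mul_le_mul_left _ (Nat.le_add_right _ _)
  set X : ℕ := (2 * f + 1) ^ j * P2 with hX
  have ek : ∃ k : ℕ, X ≤ 2 ^ k * f * P1 := by
    refine ⟨X, ?_⟩
    have h1 : X < 2 ^ X := Nat.lt_pow_self (by norm_num)
    have h2 : 1 ≤ f * P1 := Nat.mul_pos hf hP1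
    calc X ≤ 2 ^ X := h1.le
      _ ≤ 2 ^ X * (f * P1) := Nat.le_mul_of_pos_right _ h2
      _ = 2 ^ X * f * P1 := by ring
  obtain ⟨k, hk1, hk2⟩ : ∃ k : ℕ, X ≤ 2 ^ (k + 1) * f * P1 ∧ 2 ^ k * f * P1 < X := by
    classical
    rcases Nat.eq_zero_or_pos (Nat.find ek) with h0 | h0
    · exfalso
      have h1 := Nat.find_spec ek
      rw [h0, pow_zero, one_mul] at h1
      omega
    · refine ⟨Nat.find ek - 1, ?_, ?_⟩
      · have h1 := Nat.find_spec ek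
        have h2 : Nat.find ek - 1 + 1 = Nat.find ek := by omega
        rw [h2]
        exact h1
      · have h1 := Nat.find_min ek (m := Nat.find ek - 1) (by omega)
        exact not_le.1 h1
  have two : ∀ m : ℕ, 2 ^ (k + 1) * f * m = 2 * (2 ^ k * f * m) := fun m => by ring
  rw [← Finset.sum_filter_add_sum_filter_not (Ioc P1 (2 * P1)) (fun m => 2 ^ (k + 1) * f * m ≤ 2 * X)]
  have p1 := Obl_part C ε hC hε hb P1 P2 f (k + 1) j X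
    ((Ioc P1 (2 * P1)).filter (fun m => 2 ^ (k + 1) * f * m ≤ 2 * X)) α β θ ϑ hP1 hP2 hf hα hβ hαR hβR hθ hX hj2
    (by
      have h1 := two P1
      omega) (by
      intro m hm
      rw [Finset.mem_filter, Finset.mem_Ioc] at hm
      refine ⟨by omega, ?_⟩
      rw [Finset.mem_Ioc]
      refine ⟨?_, hm.2⟩
      have hA : 0 < 2 ^ (k + 1) * f := by positivity
      have h1 : 2 ^ (k + 1) * f * P1 < 2 ^ (k + 1) * f * m := Nat.mul_lt_mul_of_pos_left hm.1.1 hA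
      omega)
  have p2 := Obl_part C ε hC hε hb P1 P2 f k j X
    ((Ioc P1 (2 * P1)).filter (fun m => ¬ 2 ^ (k + 1) * f * m ≤ 2 * X)) α β θ ϑ hP1 hP2 hf hα hβ hαR hβR hθ hX hj2
    (by omega) (by
      intro m hm
      rw [Finset.mem_filter, Finset.mem_Ioc] at hm
      refine ⟨by omega, ?_⟩
      rw [Finset.mem_Ioc]
      have h1 := two m
      have h2 : 2 ^ k * f * m ≤ 2 ^ k * f * (2 * P1) := Nat.mul_le_mul_left _ hm.1.2
      have h3 : 2 ^ k * f * (2 * P1) = 2 * (2 ^ k * f * P1) := by ring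
      omega)
  refine le_trans (norm_add_le _ _) ?_
  refine le_trans (add_le_add p1 p2) (le_of_eq ?_)
  ring

end Pool.Agent.Lib.TP
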