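import Pool.Agent.Lib.TP.SpecO

/-!
MP_00e23e_nt, Lib/TP, part O, module Ocd: trivial bound for GF.
-/

namespace Pool.Agent.Lib.TP

open Finset Pool.Agent.Lib.EH3 Pool.Agent.Lib.TB

private lemma Ocd_rs (r : ℕ) (m : ℤ) : |rs r m| ≤ (r : ℝ) ^ 2 := by
  unfold rs
  have h1 : |∑ e ∈ r.divisors, if (e : ℤ) ∣ m then
      (e : ℝ) * ((ArithmeticFunction.moebius (r / e) : ℤ) : ℝ) else 0| ≤ ∑ e ∈ r.divisors, (r : ℝ) := by
    refine (Finset.abs_sum_le_sum_abs _ _).trans (Finset.sum_le_sum fun e he => ?_)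
    have her : (e : ℝ) ≤ r := by exact_mod_cast Nat.divisor_le he
    by_cases h : (e : ℤ) ∣ m
    · rw [if_pos h, abs_mul, abs_of_nonneg (Nat.cast_nonneg e)]
      have h1 : |((ArithmeticFunction.moebius (r / e) : ℤ) : ℝ)| ≤ 1 := by
        have h2 := ArithmeticFunction.abs_moebius_le_one (n := r / e)
        have h3 : |((ArithmeticFunction.moebius (r / e) : ℤ) : ℝ)| =
            ((|ArithmeticFunction.moebius (r / e)| : ℤ) : ℝ) := by push_cast; rfl
        rw [h3]
        exact_mod_cast h2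
      calc (e : ℝ) * |((ArithmeticFunction.moebius (r / e) : ℤ) : ℝ)| ≤ e * 1 :=
            mul_le_mul_of_nonneg_left h1 (Nat.cast_nonneg e)
        _ = e := mul_one _
        _ ≤ r := her
    · rw [if_neg h, abs_zero]
      exact Nat.cast_nonneg r
  refine h1.trans ?_
  rw [sum_const, nsmul_eq_mul, sq]
  exact mul_le_mul_of_nonneg_right (by exact_mod_cast Nat.card_divisors_le_self r) (Nat.cast_nonneg r)

private lemma Ocd_ld (R d : ℕ) (m : ℤ) (hd : 1 ≤ d) : |ld R d m| ≤ (d : ℝ) ^ 2 := by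
  unfold ld
  have hd' : (0 : ℝ) < d := by exact_mod_cast hd
  rw [abs_mul, abs_of_nonneg (by positivity : (0 : ℝ) ≤ 1 / (d : ℝ))]
  have h1 : |∑ r ∈ d.divisors.filter (fun r => r ≤ R), rs r m| ≤ (d : ℝ) * (d : ℝ) ^ 2 := by
    refine (Finset.abs_sum_le_sum_abs _ _).trans ?_
    refine (sum_le_sum (g := fun _ => (d : ℝ) ^ 2) fun r hr => ?_).trans ?_
    · have hrd : (r : ℝ) ≤ d := by exact_mod_cast Nat.divisor_le (mem_filter.1 hr).1
      exact (Ocd_rs r m).trans (pow_le_pow_left₀ (Nat.cast_nonneg r) hrd 2)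
    · rw [sum_const, nsmul_eq_mul]
      refine mul_le_mul_of_nonneg_right ?_ (by positivity)
      have : (d.divisors.filter (fun r => r ≤ R)).card ≤ d :=
        (card_filter_le _ _).trans (Nat.card_divisors_le_self d)
      exact_mod_cast this
  calc 1 / (d : ℝ) * |∑ r ∈ d.divisors.filter (fun r => r ≤ R), rs r m| ≤
      1 / (d : ℝ) * ((d : ℝ) * (d : ℝ) ^ 2) := mul_le_mul_of_nonneg_left h1 (by positivity)
    _ = (d : ℝ) ^ 2 := by field_simp

private lemma Ocd_dd (R d : ℕ) (m : ℤ) (hd : 1 ≤ d) : |dd R d m| ≤ 1 + (d : ℝ) ^ 2 := by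
  unfold dd
  have h1 := Ocd_ld R d m hd
  have h2 : |(if (d : ℤ) ∣ m then (1 : ℝ) else 0)| ≤ 1 := by
    split_ifs <;> simp
  exact (abs_sub _ _).trans (by linarith)

theorem tOcd : OcdStmt := by
  intro R D c m hc
  unfold GF
  split_ifs with hm
  · rw [abs_zero]
    positivity
  · refine (Finset.abs_sum_le_sum_abs _ _).trans ?_
    refine (sum_le_sum (g := fun _ => 1 + (D : ℝ) ^ 2) fun d hd => ?_).trans ?_
    · have h := mem_Ioc.1 hd
      have hdD : (d : ℝ) ≤ D := by exact_mod_cast h.2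
      rw [abs_mul]
      calc |c d| * |dd R d m| ≤ 1 * (1 + (d : ℝ) ^ 2) :=
            mul_le_mul (hc d) (Ocd_dd R d m (by omega)) (abs_nonneg _) zero_le_one
        _ ≤ 1 + (D : ℝ) ^ 2 := by
            rw [one_mul]
            have := pow_le_pow_left₀ (Nat.cast_nonneg d) hdD 2
            linarith
    · rw [sum_const, nsmul_eq_mul, Nat.card_Ioc]
      refine mul_le_mul_of_nonneg_right ?_ (by positivity)
      exact_mod_cast Nat.sub_le D R

end Pool.Agent.Lib.TP
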