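import Pool.Agent.Lib.TP.SpecO

/-!
MP_00e23e_nt, Lib/TP, part O, module Ody: from the dyadic blocks to the whole range.
-/

namespace Pool.Agent.Lib.TP

open Finset Pool.Agent.Lib.EH3 Pool.Agent.Lib.TB

private lemma Ody_J (N D : ℕ) (hN : 1 ≤ N) (hD : (D : ℝ) ≤ 2 * (N : ℝ) ^ ((1 : ℝ) / 2 + 1 / 1000)) :
    ((Nat.log 2 D + 1 : ℕ) : ℝ) ≤ 168002 * (N : ℝ) ^ ((1 : ℝ) / 84000) := by
  have hN' : (1 : ℝ) ≤ N := by exact_mod_cast hN
  have h1 : (1 : ℝ) ≤ (N : ℝ) ^ ((1 : ℝ) / 84000) := Real.one_le_rpow hN' (by norm_num)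
  rcases Nat.eq_zero_or_pos D with h0 | hpos
  · subst h0
    simp only [Nat.log_zero_right, zero_add, Nat.cast_one]
    linarith
  · have h2 : ((2 : ℝ)) ^ (Nat.log 2 D) ≤ D := by exact_mod_cast Nat.pow_log_le_self 2 (by omega)
    have hl2 : (0.5 : ℝ) ≤ Real.log 2 := by have := Real.log_two_gt_d9; linarith
    have h3 : (Nat.log 2 D : ℝ) * Real.log 2 ≤ Real.log 2 + Real.log N := by
      have h4 : Real.log ((2 : ℝ) ^ (Nat.log 2 D)) ≤ Real.log (2 * N) := by
        refine Real.log_le_log (by positivity) (h2.trans (hD.trans ?_))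
        have : (N : ℝ) ^ ((1 : ℝ) / 2 + 1 / 1000) ≤ (N : ℝ) ^ (1 : ℝ) :=
          Real.rpow_le_rpow_of_exponent_le hN' (by norm_num)
        rw [Real.rpow_one] at this
        linarith
      rw [Real.log_pow, Real.log_mul (by norm_num) (by positivity)] at h4
      exact h4
    have h5 : Real.log N ≤ (N : ℝ) ^ ((1 : ℝ) / 84000) / ((1 : ℝ) / 84000) :=
      Real.log_le_rpow_div (by positivity) (by norm_num)
    have h6 : (N : ℝ) ^ ((1 : ℝ) / 84000) / ((1 : ℝ) / 84000) = 84000 * (N : ℝ) ^ ((1 : ℝ) / 84000) := by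
      ring
    rw [h6] at h5
    have h7 : 0 ≤ Real.log (N : ℝ) := Real.log_nonneg hN'
    have h8 : (Nat.log 2 D : ℝ) ≤ 1 + 2 * Real.log N := by
      by_contra hcon
      have hcon := not_le.1 hcon
      have : (1 + 2 * Real.log N) * Real.log 2 < (Nat.log 2 D : ℝ) * Real.log 2 :=
        mul_lt_mul_of_pos_right hcon (by linarith)
      nlinarith
    push_cast
    linarith

private lemma Ody_blocks (R J : ℕ) (F : ℕ → ℝ) :
    ∑ d ∈ Ioc R (R * 2 ^ J), F d = ∑ i ∈ range J, ∑ d ∈ Ioc (R * 2 ^ i) (2 * (R * 2 ^ i)), F d := by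
  induction J with
  | zero => simp
  | succ J ih =>
    rw [sum_range_succ, ← ih]
    have h1 : R ≤ R * 2 ^ J := Nat.le_mul_of_pos_right _ (by positivity)
    have h2 : R * 2 ^ J ≤ R * 2 ^ (J + 1) := Nat.mul_le_mul_left _ (Nat.pow_le_pow_right (by norm_num) (by omega))
    have h3 : R * 2 ^ (J + 1) = 2 * (R * 2 ^ J) := by ring
    rw [← sum_Ioc_consecutive F h1 h2, h3]

private lemma Ody_cof {f D : ℕ} {c : ℕ → ℝ} (h : Cof f c) : Cof f (fun d => if d ≤ D then c d else 0) := by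
  refine ⟨fun d => ?_, fun d hd => ?_⟩
  · show |if d ≤ D then c d else 0| ≤ 1
    split_ifs
    · exact h.1 d
    · simp
  · have hd' : (if d ≤ D then c d else 0) ≠ 0 := hd
    split_ifs at hd' with h1
    · exact h.2 d hd'
    · exact absurd rfl hd'

theorem tOdy (h1 : Og8Stmt) : OdyStmt := by
  obtain ⟨C, N0, hC, hmain⟩ := h1
  refine ⟨168002 ^ 2 * C, N0, by positivity, ?_⟩
  intro N D f c c' a b hN0 hN hf hfN hD hc hc' hab ha hb
  have hN' : (1 : ℝ) ≤ N := by exact_mod_cast hN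
  set R := RR N with hRdef
  have hR : 1 ≤ R := by
    rw [hRdef]
    unfold RR
    refine Nat.le_floor ?_
    rw [Nat.cast_one]
    exact Real.one_le_rpow hN' (by norm_num)
  set J := Nat.log 2 D + 1 with hJdef
  have hJ := Ody_J N D hN hD
  rw [← hJdef] at hJ
  have hDX : D ≤ R * 2 ^ J := by
    have h2 : D < 2 ^ J := Nat.lt_pow_succ_log_self (by norm_num) D
    calc D ≤ 1 * 2 ^ J := by omega
      _ ≤ R * 2 ^ J := Nat.mul_le_mul_right _ hR
  set e : ℕ → ℝ := fun d => if d ≤ D then c d else 0 with he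
  set e' : ℕ → ℝ := fun d => if d ≤ D then c' d else 0 with he'
  have hce : Cof f e := Ody_cof hc
  have hce' : Cof f e' := Ody_cof hc'
  have hz : ∀ d, D < d → e d = 0 := fun d hd => if_neg (by omega)
  have hz' : ∀ d, D < d → e' d = 0 := fun d hd => if_neg (by omega)
  have hexp : ∀ d, ∑ d' ∈ Ioc R D, e d * e' d' * Ef N f d d' a b =
      ∑ d' ∈ Ioc R (R * 2 ^ J), e d * e' d' * Ef N f d d' a b := by
    intro d
    refine sum_subset (Ioc_subset_Ioc_right hDX) ?_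
    intro x hx hx'
    have h3 := mem_Ioc.1 hx
    have h4 : D < x := by
      by_contra hcon
      exact hx' (mem_Ioc.2 ⟨h3.1, by omega⟩)
    rw [hz' x h4]
    ring
  have htot : ∑ d ∈ Ioc R D, ∑ d' ∈ Ioc R D, c d * c' d' * Ef N f d d' a b =
      ∑ i ∈ range J, ∑ j ∈ range J, ∑ d ∈ Ioc (R * 2 ^ i) (2 * (R * 2 ^ i)),
        ∑ d' ∈ Ioc (R * 2 ^ j) (2 * (R * 2 ^ j)), e d * e' d' * Ef N f d d' a b := by
    calc ∑ d ∈ Ioc R D, ∑ d' ∈ Ioc R D, c d * c' d' * Ef N f d d' a b =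
        ∑ d ∈ Ioc R D, ∑ d' ∈ Ioc R D, e d * e' d' * Ef N f d d' a b := by
          refine sum_congr rfl fun d hd => sum_congr rfl fun d' hd' => ?_
          have h3 : e d = c d := if_pos (mem_Ioc.1 hd).2
          have h4 : e' d' = c' d' := if_pos (mem_Ioc.1 hd').2
          rw [h3, h4]
      _ = ∑ d ∈ Ioc R D, ∑ d' ∈ Ioc R (R * 2 ^ J), e d * e' d' * Ef N f d d' a b :=
          sum_congr rfl fun d _ => hexp d
      _ = ∑ d ∈ Ioc R (R * 2 ^ J), ∑ d' ∈ Ioc R (R * 2 ^ J), e d * e' d' * Ef N f d d' a b := by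
          refine sum_subset (Ioc_subset_Ioc_right hDX) ?_
          intro x hx hx'
          have h3 := mem_Ioc.1 hx
          have h4 : D < x := by
            by_contra hcon
            exact hx' (mem_Ioc.2 ⟨h3.1, by omega⟩)
          rw [hz x h4]
          exact sum_eq_zero fun _ _ => by ring
      _ = ∑ i ∈ range J, ∑ d ∈ Ioc (R * 2 ^ i) (2 * (R * 2 ^ i)),
            ∑ d' ∈ Ioc R (R * 2 ^ J), e d * e' d' * Ef N f d d' a b := Ody_blocks R J _
      _ = _ := by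
          refine sum_congr rfl fun i _ => ?_
          refine (sum_congr rfl fun d _ => Ody_blocks R J _).trans ?_
          exact sum_comm
  have hblock : ∀ i j : ℕ, |∑ d ∈ Ioc (R * 2 ^ i) (2 * (R * 2 ^ i)),
      ∑ d' ∈ Ioc (R * 2 ^ j) (2 * (R * 2 ^ j)), e d * e' d' * Ef N f d d' a b| ≤
      C * (N : ℝ) ^ ((1 : ℝ) - 1 / 6000) := by
    intro i j
    have hnn : 0 ≤ C * (N : ℝ) ^ ((1 : ℝ) - 1 / 6000) := by positivity
    by_cases hi : R * 2 ^ i ≤ D
    · by_cases hj : R * 2 ^ j ≤ D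
      · refine hmain N (R * 2 ^ i) (R * 2 ^ j) f e e' a b hN0 hN hf hfN ?_ ?_ ?_ ?_ hce hce' hab ha hb
        · exact Nat.le_mul_of_pos_right _ (by positivity)
        · exact Nat.le_mul_of_pos_right _ (by positivity)
        · exact le_trans (by exact_mod_cast hi) hD
        · exact le_trans (by exact_mod_cast hj) hD
      · have : ∑ d ∈ Ioc (R * 2 ^ i) (2 * (R * 2 ^ i)),
            ∑ d' ∈ Ioc (R * 2 ^ j) (2 * (R * 2 ^ j)), e d * e' d' * Ef N f d d' a b = 0 := by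
          refine sum_eq_zero fun d _ => sum_eq_zero fun d' hd' => ?_
          have h3 := (mem_Ioc.1 hd').1
          rw [hz' d' (by omega)]
          ring
        rw [this, abs_zero]
        exact hnn
    · have : ∑ d ∈ Ioc (R * 2 ^ i) (2 * (R * 2 ^ i)),
          ∑ d' ∈ Ioc (R * 2 ^ j) (2 * (R * 2 ^ j)), e d * e' d' * Ef N f d d' a b = 0 := by
        refine sum_eq_zero fun d hd => sum_eq_zero fun d' _ => ?_
        have h3 := (mem_Ioc.1 hd).1
        rw [hz d (by omega)]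
        ring
      rw [this, abs_zero]
      exact hnn
  rw [htot]
  calc |∑ i ∈ range J, ∑ j ∈ range J, ∑ d ∈ Ioc (R * 2 ^ i) (2 * (R * 2 ^ i)),
        ∑ d' ∈ Ioc (R * 2 ^ j) (2 * (R * 2 ^ j)), e d * e' d' * Ef N f d d' a b| ≤
      ∑ i ∈ range J, ∑ j ∈ range J, C * (N : ℝ) ^ ((1 : ℝ) - 1 / 6000) := by
        refine (abs_sum_le_sum_abs _ _).trans (sum_le_sum fun i _ => ?_)
        exact (abs_sum_le_sum_abs _ _).trans (sum_le_sum fun j _ => hblock i j)
    _ = (J : ℝ) ^ 2 * (C * (N : ℝ) ^ ((1 : ℝ) - 1 / 6000)) := by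
        simp only [sum_const, card_range, nsmul_eq_mul]
        ring
    _ ≤ (168002 * (N : ℝ) ^ ((1 : ℝ) / 84000)) ^ 2 * (C * (N : ℝ) ^ ((1 : ℝ) - 1 / 6000)) := by
        refine mul_le_mul_of_nonneg_right ?_ (by positivity)
        exact pow_le_pow_left₀ (Nat.cast_nonneg J) hJ 2
    _ = 168002 ^ 2 * C * ((N : ℝ) ^ ((1 : ℝ) / 84000) * (N : ℝ) ^ ((1 : ℝ) / 84000) *
          (N : ℝ) ^ ((1 : ℝ) - 1 / 6000)) := by ring
    _ = 168002 ^ 2 * C * (N : ℝ) ^ ((1 : ℝ) - 1 / 7000) := by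
        rw [← Real.rpow_add (by linarith), ← Real.rpow_add (by linarith)]
        norm_num

end Pool.Agent.Lib.TP
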