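import Pool.Agent.Lib.TP.SpecO

/-!
MP_00e23e_nt, directory Lib/TP, module Ofn: the off-diagonal estimate OffVStmt with the sieve weight.
-/

namespace Pool.Agent.Lib.TP

open Finset Pool.Agent.Lib.EH3 Pool.Agent.Lib.TB

private lemma Ofn_tri (N : ℕ) (n : ℤ) : |tri N n| ≤ 1 := by
  unfold tri
  have h0 : 0 ≤ |(n : ℝ)| / (N : ℝ) := div_nonneg (abs_nonneg _) (Nat.cast_nonneg _)
  rw [abs_of_nonneg (le_max_left _ _)]
  exact max_le zero_le_one (by linarith)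

/-- the weight as a double sum -/
private lemma Ofn_nu (lam : ℕ → ℝ) (E : ℕ) (n : ℤ) :
    nu lam E n = ∑ e ∈ Icc 1 E, ∑ e' ∈ Icc 1 E,
      lam e * lam e' * (if ((Nat.lcm e e' : ℕ) : ℤ) ∣ n then 1 else 0) := by
  unfold nu
  rw [sq, Finset.sum_mul_sum]
  refine Finset.sum_congr rfl fun e _ => Finset.sum_congr rfl fun e' _ => ?_
  have h : ((Nat.lcm e e' : ℕ) : ℤ) ∣ n ↔ (e : ℤ) ∣ n ∧ (e' : ℤ) ∣ n := by
    rw [Int.natCast_dvd, Int.natCast_dvd, Int.natCast_dvd]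
    exact Nat.lcm_dvd_iff
  by_cases h1 : (e : ℤ) ∣ n
  · by_cases h2 : (e' : ℤ) ∣ n
    · rw [if_pos h1, if_pos h2, if_pos (h.2 ⟨h1, h2⟩), mul_one]
    · rw [if_neg h2, if_neg (fun h3 => h2 (h.1 h3).2), mul_zero, mul_zero]
  · rw [if_neg h1, if_neg (fun h3 => h1 (h.1 h3).1), zero_mul, mul_zero]

/-- bound of the weight -/
private lemma Ofn_nule (lam : ℕ → ℝ) (E : ℕ) (n : ℤ) (h : ∀ e, |lam e| ≤ 1) :
    |nu lam E n| ≤ (E : ℝ) ^ 2 := by
  unfold nu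
  have h1 : |∑ e ∈ Icc 1 E, if (e : ℤ) ∣ n then lam e else 0| ≤ (E : ℝ) := by
    refine (Finset.abs_sum_le_sum_abs _ _).trans ?_
    calc ∑ e ∈ Icc 1 E, |if (e : ℤ) ∣ n then lam e else 0| ≤ ∑ _e ∈ Icc 1 E, (1 : ℝ) := by
          refine Finset.sum_le_sum fun e _ => ?_
          split_ifs
          · exact h e
          · rw [abs_zero]
            exact zero_le_one
      _ = (E : ℝ) := by
          rw [Finset.sum_const, Nat.card_Icc, nsmul_eq_mul, mul_one]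
          norm_num
  rw [abs_pow]
  exact pow_le_pow_left₀ (abs_nonneg _) h1 2

theorem tOfn (h1 : ObgStmt) (h2 : OcdStmt) : OfnStmt := by
  obtain ⟨C, N0, hC, hB⟩ := h1
  obtain ⟨B, hBdef⟩ : ∃ B : ℝ, B = 2 * (N0 : ℝ) * (1 + (2 * (N0 : ℝ)) ^ 2) := ⟨_, rfl⟩
  obtain ⟨C1, hC1⟩ : ∃ C1 : ℝ, C1 = (2 * (N0 : ℝ) + 1) * ((N0 : ℝ) ^ 2 * (B * B)) := ⟨_, rfl⟩
  have hB0 : 0 ≤ B := by rw [hBdef]; positivity
  have hC10 : 0 ≤ C1 := by rw [hC1]; positivity
  refine ⟨C + C1, 1 / 9000, 1 / 200000, by norm_num, by norm_num, ?_⟩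
  intro N E D lam c c' a b hN hE hEN hD hlam hc hc' hcr hcr' hab ha hb
  have hN1 : (1 : ℝ) ≤ N := by exact_mod_cast hN
  have hN0 : (0 : ℝ) < N := by linarith
  have hY1 : (1 : ℝ) ≤ (N : ℝ) ^ ((1 : ℝ) - 1 / 9000) := Real.one_le_rpow hN1 (by norm_num)
  have hE1 : (1 : ℝ) ≤ E := by exact_mod_cast hE
  by_cases hcase : N0 ≤ N
  · -- large N
    have hEE : (E : ℝ) * E ≤ (N : ℝ) ^ ((1 : ℝ) / 100000) := by
      have g1 : (E : ℝ) * E ≤ (N : ℝ) ^ ((1 : ℝ) / 200000) * (N : ℝ) ^ ((1 : ℝ) / 200000) :=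
        mul_le_mul hEN hEN (by positivity) (by positivity)
      rw [← Real.rpow_add hN0] at g1
      norm_num at g1
      norm_num
      exact g1
    obtain ⟨G, hG⟩ : ∃ G : ℤ → ℝ, G = fun n => GF (RR N) D c (n - a) * GF (RR N) D c' (n - b) :=
      ⟨_, rfl⟩
    have hG' : ∀ n, GF (RR N) D c (n - a) * GF (RR N) D c' (n - b) = G n := fun n => by rw [hG]
    have e1 : ∑ n ∈ Icc (-(N : ℤ)) N, tri N n * nu lam E n *
        (GF (RR N) D c (n - a) * GF (RR N) D c' (n - b)) =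
        ∑ e ∈ Icc 1 E, ∑ e' ∈ Icc 1 E, lam e * lam e' *
          ∑ n ∈ Icc (-(N : ℤ)) N, tri N n * (if ((Nat.lcm e e' : ℕ) : ℤ) ∣ n then 1 else 0) *
            G n := by
      have k1 : ∑ n ∈ Icc (-(N : ℤ)) N, tri N n * nu lam E n *
          (GF (RR N) D c (n - a) * GF (RR N) D c' (n - b)) =
          ∑ n ∈ Icc (-(N : ℤ)) N, ∑ e ∈ Icc 1 E, ∑ e' ∈ Icc 1 E, lam e * lam e' *
            (tri N n * (if ((Nat.lcm e e' : ℕ) : ℤ) ∣ n then 1 else 0) * G n) := by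
        refine Finset.sum_congr rfl fun n _ => ?_
        rw [hG', Ofn_nu, Finset.mul_sum, Finset.sum_mul]
        refine Finset.sum_congr rfl fun e _ => ?_
        rw [Finset.mul_sum, Finset.sum_mul]
        refine Finset.sum_congr rfl fun e' _ => ?_
        ring
      rw [k1, Finset.sum_comm]
      refine Finset.sum_congr rfl fun e _ => ?_
      rw [Finset.sum_comm]
      refine Finset.sum_congr rfl fun e' _ => ?_
      rw [Finset.mul_sum]
    rw [e1]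
    have e2 : ∀ e ∈ Icc 1 E, ∀ e' ∈ Icc 1 E, |lam e * lam e' *
          ∑ n ∈ Icc (-(N : ℤ)) N, tri N n * (if ((Nat.lcm e e' : ℕ) : ℤ) ∣ n then 1 else 0) *
            G n| ≤ C * (N : ℝ) ^ ((1 : ℝ) - 1 / 8000) := by
      intro e he e' he'
      rw [mem_Icc] at he he'
      obtain ⟨f, hf⟩ : ∃ f, f = Nat.lcm e e' := ⟨_, rfl⟩
      rw [← hf]
      have hf1 : 1 ≤ f := by
        rw [hf]
        exact Nat.lcm_pos (by omega) (by omega)
      have hfE : f ≤ E * E := by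
        rw [hf]
        exact (Nat.le_of_dvd (Nat.mul_pos (by omega) (by omega))
          (Nat.lcm_dvd (Dvd.intro _ rfl) (Dvd.intro_left _ rfl))).trans
          (Nat.mul_le_mul he.2 he'.2)
      have hfN : (f : ℝ) ≤ (N : ℝ) ^ ((1 : ℝ) / 100000) := by
        have g1 : (f : ℝ) ≤ (E : ℝ) * E := by exact_mod_cast hfE
        exact g1.trans hEE
      have hr : ∀ d, Rgh (4 * E ^ 2) d → Rgh (4 * f) d := by
        intro d hd p hp hpd
        have g1 := hd p hp hpd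
        have g2 : 4 * f ≤ 4 * E ^ 2 := by
          rw [sq]
          exact Nat.mul_le_mul_left 4 hfE
        omega
      have g3 := hB N D f c c' a b hcase hN hf1 hfN hD ⟨hc, fun d hd => hr d (hcr d hd)⟩
        ⟨hc', fun d hd => hr d (hcr' d hd)⟩ hab ha hb
      have g4 : ∑ n ∈ Icc (-(N : ℤ)) N, tri N n * (if (f : ℤ) ∣ n then 1 else 0) *
          (GF (RR N) D c (n - a) * GF (RR N) D c' (n - b)) =
          ∑ n ∈ Icc (-(N : ℤ)) N, tri N n * (if (f : ℤ) ∣ n then 1 else 0) * G n :=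
        Finset.sum_congr rfl fun n _ => by rw [hG']
      rw [g4] at g3
      rw [abs_mul, abs_mul]
      have g5 : |lam e| * |lam e'| ≤ 1 := mul_le_one₀ (hlam e) (abs_nonneg _) (hlam e')
      calc |lam e| * |lam e'| * |∑ n ∈ Icc (-(N : ℤ)) N,
            tri N n * (if (f : ℤ) ∣ n then 1 else 0) * G n| ≤
          1 * |∑ n ∈ Icc (-(N : ℤ)) N, tri N n * (if (f : ℤ) ∣ n then 1 else 0) * G n| :=
            mul_le_mul_of_nonneg_right g5 (abs_nonneg _)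
        _ = |∑ n ∈ Icc (-(N : ℤ)) N, tri N n * (if (f : ℤ) ∣ n then 1 else 0) * G n| :=
            one_mul _
        _ ≤ _ := g3
    have e3 : |∑ e ∈ Icc 1 E, ∑ e' ∈ Icc 1 E, lam e * lam e' *
          ∑ n ∈ Icc (-(N : ℤ)) N, tri N n * (if ((Nat.lcm e e' : ℕ) : ℤ) ∣ n then 1 else 0) *
            G n| ≤ ∑ _e ∈ Icc 1 E, ∑ _e' ∈ Icc 1 E, C * (N : ℝ) ^ ((1 : ℝ) - 1 / 8000) := by
      refine (Finset.abs_sum_le_sum_abs _ _).trans (Finset.sum_le_sum fun e he => ?_)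
      exact (Finset.abs_sum_le_sum_abs _ _).trans (Finset.sum_le_sum fun e' he' => e2 e he e' he')
    refine e3.trans ?_
    rw [Finset.sum_const, Finset.sum_const, Nat.card_Icc, nsmul_eq_mul, nsmul_eq_mul,
      Nat.add_sub_cancel]
    have g6 : (E : ℝ) * (E * (C * (N : ℝ) ^ ((1 : ℝ) - 1 / 8000))) ≤
        (N : ℝ) ^ ((1 : ℝ) / 100000) * (C * (N : ℝ) ^ ((1 : ℝ) - 1 / 8000)) := by
      rw [← mul_assoc]
      exact mul_le_mul_of_nonneg_right hEE (by positivity)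
    have g7 : (N : ℝ) ^ ((1 : ℝ) / 100000) * (C * (N : ℝ) ^ ((1 : ℝ) - 1 / 8000)) =
        C * (N : ℝ) ^ ((1 : ℝ) / 100000 + ((1 : ℝ) - 1 / 8000)) := by
      rw [Real.rpow_add hN0]
      ring
    have g8 : (N : ℝ) ^ ((1 : ℝ) / 100000 + ((1 : ℝ) - 1 / 8000)) ≤
        (N : ℝ) ^ ((1 : ℝ) - 1 / 9000) :=
      Real.rpow_le_rpow_of_exponent_le hN1 (by norm_num)
    calc (E : ℝ) * (E * (C * (N : ℝ) ^ ((1 : ℝ) - 1 / 8000))) ≤
        C * (N : ℝ) ^ ((1 : ℝ) / 100000 + ((1 : ℝ) - 1 / 8000)) := g6.trans g7.le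
      _ ≤ C * (N : ℝ) ^ ((1 : ℝ) - 1 / 9000) := mul_le_mul_of_nonneg_left g8 hC
      _ ≤ (C + C1) * (N : ℝ) ^ ((1 : ℝ) - 1 / 9000) :=
          mul_le_mul_of_nonneg_right (by linarith) (by positivity)
  · -- small N
    push Not at hcase
    have hNN0 : (N : ℝ) ≤ N0 := by exact_mod_cast hcase.le
    have hpowN : ∀ p : ℝ, p ≤ 1 → (N : ℝ) ^ p ≤ N := by
      intro p hp
      calc (N : ℝ) ^ p ≤ (N : ℝ) ^ (1 : ℝ) := Real.rpow_le_rpow_of_exponent_le hN1 hp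
        _ = N := Real.rpow_one _
    have hEN0 : (E : ℝ) ≤ N0 := hEN.trans ((hpowN _ (by norm_num)).trans hNN0)
    have hDN0 : (D : ℝ) ≤ 2 * N0 := by
      have g1 := hpowN ((1 : ℝ) / 2 + 1 / 1000) (by norm_num)
      linarith
    have hGB : ∀ (cc : ℕ → ℝ) (m : ℤ), (∀ d, |cc d| ≤ 1) → |GF (RR N) D cc m| ≤ B := by
      intro cc m hcc
      refine (h2 (RR N) D cc m hcc).trans ?_
      rw [hBdef]
      have g1 : (D : ℝ) ^ 2 ≤ (2 * (N0 : ℝ)) ^ 2 := pow_le_pow_left₀ (by positivity) hDN0 2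
      exact mul_le_mul hDN0 (by linarith) (by positivity) (by positivity)
    have hsum : |∑ n ∈ Icc (-(N : ℤ)) N, tri N n * nu lam E n * (GF (RR N) D c (n - a) *
        GF (RR N) D c' (n - b))| ≤ ∑ _n ∈ Icc (-(N : ℤ)) (N : ℤ), (N0 : ℝ) ^ 2 * (B * B) := by
      refine (Finset.abs_sum_le_sum_abs _ _).trans (Finset.sum_le_sum fun n _ => ?_)
      rw [abs_mul, abs_mul, abs_mul]
      have g1 : |tri N n| * |nu lam E n| ≤ (N0 : ℝ) ^ 2 := by
        calc |tri N n| * |nu lam E n| ≤ 1 * (E : ℝ) ^ 2 :=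
              mul_le_mul (Ofn_tri N n) (Ofn_nule lam E n hlam) (abs_nonneg _) zero_le_one
          _ = (E : ℝ) ^ 2 := one_mul _
          _ ≤ (N0 : ℝ) ^ 2 := pow_le_pow_left₀ (by positivity) hEN0 2
      exact mul_le_mul g1 (mul_le_mul (hGB c _ hc) (hGB c' _ hc') (abs_nonneg _) hB0)
        (by positivity) (by positivity)
    have hcard : ∑ _n ∈ Icc (-(N : ℤ)) (N : ℤ), (N0 : ℝ) ^ 2 * (B * B) =
        (2 * (N : ℝ) + 1) * ((N0 : ℝ) ^ 2 * (B * B)) := by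
      rw [Finset.sum_const, Int.card_Icc, nsmul_eq_mul]
      have g1 : ((N : ℤ) + 1 - -(N : ℤ)).toNat = 2 * N + 1 := by omega
      rw [g1]
      push_cast
      ring
    rw [hcard] at hsum
    have g8 : (2 * (N : ℝ) + 1) * ((N0 : ℝ) ^ 2 * (B * B)) ≤ C1 := by
      rw [hC1]
      exact mul_le_mul_of_nonneg_right (by linarith) (by positivity)
    calc _ ≤ C1 := hsum.trans g8
      _ ≤ C + C1 := by linarith
      _ = (C + C1) * 1 := (mul_one _).symm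
      _ ≤ (C + C1) * (N : ℝ) ^ ((1 : ℝ) - 1 / 9000) :=
          mul_le_mul_of_nonneg_left hY1 (by linarith)

end Pool.Agent.Lib.TP
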