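import Pool.Agent.Lib.TP.SpecO

/-!
MP_00e23e_nt, directory Lib/TP, module Ofu: expansion of the full sum.
-/

namespace Pool.Agent.Lib.TP

open Finset Pool.Agent.Lib.EH3 Pool.Agent.Lib.TB

private lemma Ofu_point (h1 : MkaStmt) (R f d d' : ℕ) (x y t : ℝ) (a b n : ℤ) (hd : 1 ≤ d)
    (hd' : 1 ≤ d') :
    t * (if (f : ℤ) ∣ n then 1 else 0) * (x * dd R d (n - a) * (y * dd R d' (n - b))) =
      ∑ u ∈ d.divisors, ∑ w ∈ d'.divisors, x * y * (kap R d u * kap R d' w *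
        (t * (if (f : ℤ) ∣ n ∧ (u : ℤ) ∣ n - a ∧ (w : ℤ) ∣ n - b then 1 else 0))) := by
  rw [h1.1 R d (n - a) hd, h1.1 R d' (n - b) hd']
  have e1 : t * (if (f : ℤ) ∣ n then 1 else 0) *
      (x * (∑ e ∈ d.divisors, kap R d e * (if (e : ℤ) ∣ n - a then 1 else 0)) *
      (y * ∑ e ∈ d'.divisors, kap R d' e * (if (e : ℤ) ∣ n - b then 1 else 0))) =
      (x * y * (t * (if (f : ℤ) ∣ n then 1 else 0))) *
      ((∑ e ∈ d.divisors, kap R d e * (if (e : ℤ) ∣ n - a then (1 : ℝ) else 0)) *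
      (∑ e ∈ d'.divisors, kap R d' e * (if (e : ℤ) ∣ n - b then (1 : ℝ) else 0))) := by ring
  rw [e1, Finset.sum_mul_sum, Finset.mul_sum]
  refine Finset.sum_congr rfl fun u _ => ?_
  rw [Finset.mul_sum]
  refine Finset.sum_congr rfl fun w _ => ?_
  have e2 : (if (f : ℤ) ∣ n ∧ (u : ℤ) ∣ n - a ∧ (w : ℤ) ∣ n - b then (1 : ℝ) else 0) =
      (if (f : ℤ) ∣ n then (1 : ℝ) else 0) * ((if (u : ℤ) ∣ n - a then (1 : ℝ) else 0) *
      (if (w : ℤ) ∣ n - b then (1 : ℝ) else 0)) := by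
    by_cases hf : (f : ℤ) ∣ n <;> by_cases hu : (u : ℤ) ∣ n - a <;>
      by_cases hw : (w : ℤ) ∣ n - b <;> simp [hf, hu, hw]
  rw [e2]
  ring

theorem tOfu (h1 : MkaStmt) : OfuStmt := by
  intro N R D f c c' a b
  have key : ∀ n : ℤ, tri N n * (if (f : ℤ) ∣ n then 1 else 0) *
      ((∑ d ∈ Ioc R D, c d * dd R d (n - a)) *
      (∑ d' ∈ Ioc R D, c' d' * dd R d' (n - b))) =
      ∑ d ∈ Ioc R D, ∑ d' ∈ Ioc R D, ∑ u ∈ d.divisors, ∑ w ∈ d'.divisors,
        c d * c' d' * (kap R d u * kap R d' w *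
        (tri N n * (if (f : ℤ) ∣ n ∧ (u : ℤ) ∣ n - a ∧ (w : ℤ) ∣ n - b then 1 else 0))) := by
    intro n
    rw [Finset.sum_mul_sum, Finset.mul_sum]
    refine Finset.sum_congr rfl fun d hd => ?_
    rw [Finset.mul_sum]
    refine Finset.sum_congr rfl fun d' hd' => ?_
    have h2 := (Finset.mem_Ioc.1 hd).1
    have h3 := (Finset.mem_Ioc.1 hd').1
    exact Ofu_point h1 R f d d' (c d) (c' d') (tri N n) a b n (by omega) (by omega)
  rw [Finset.sum_congr rfl (fun n _ => key n), Finset.sum_comm]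
  refine Finset.sum_congr rfl fun d _ => ?_
  rw [Finset.sum_comm]
  refine Finset.sum_congr rfl fun d' _ => ?_
  rw [Finset.sum_comm, Finset.mul_sum]
  refine Finset.sum_congr rfl fun u _ => ?_
  rw [Finset.sum_comm, Finset.mul_sum]
  refine Finset.sum_congr rfl fun w _ => ?_
  unfold SSf
  rw [← Finset.mul_sum, ← Finset.mul_sum]

end Pool.Agent.Lib.TP
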