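import Pool.Agent.Lib.TP.SpecO

/-!
MP_00e23e_nt, directory Lib/TP: module Og2, the trivial bound for one greatest common divisor.
-/

namespace Pool.Agent.Lib.TP

open Finset Pool.Agent.Lib.EH3 Pool.Agent.Lib.TB

private lemma Og2_cop {f u : ℕ} (hf : 1 ≤ f) (h : Rgh (4 * f) u) : f.Coprime u := by
  rw [Nat.coprime_iff_gcd_eq_one]
  by_contra hne
  obtain ⟨p, hp, hpd⟩ := Nat.exists_prime_and_dvd hne
  have h1 : p ∣ f := hpd.trans (Nat.gcd_dvd_left _ _)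
  have h2 : p ∣ u := hpd.trans (Nat.gcd_dvd_right _ _)
  have h3 := h p hp h2
  have h4 := Nat.le_of_dvd (by omega) h1
  omega

/-- one pair: the error term is at most `4 N g / (Q Q') + 1` -/
private lemma Og2_pair (h : OsbStmt) (N Q Q' f g : ℕ) (c c' : ℕ → ℝ) (a b : ℤ) (hN : 1 ≤ N) (hQ : 1 ≤ Q)
    (hQ' : 1 ≤ Q') (hf : 1 ≤ f) (hg : 1 ≤ g) (hc : Cof f c) (hc' : Cof f c') {m n : ℕ} (hm : Q / g < m)
    (hn : Q' / g < n) (hmn : m.Coprime n) :
    ‖fEf N f g c c' a b m n‖ ≤ 4 * (N : ℝ) * g / ((Q : ℝ) * Q') + 1 := by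
  have hgR : (0 : ℝ) < g := by exact_mod_cast hg
  have hQR : (0 : ℝ) < Q := by exact_mod_cast hQ
  have hQR' : (0 : ℝ) < Q' := by exact_mod_cast hQ'
  have hNR : (0 : ℝ) < N := by exact_mod_cast hN
  have hrhs : 0 ≤ 4 * (N : ℝ) * g / ((Q : ℝ) * Q') + 1 := by positivity
  unfold fEf
  rw [Complex.norm_real, Real.norm_eq_abs, abs_mul, abs_mul]
  by_cases hz : c (g * m) = 0
  · rw [hz, abs_zero, zero_mul, zero_mul]
    exact hrhs
  by_cases hz' : c' (g * n) = 0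
  · rw [hz', abs_zero, mul_zero, zero_mul]
    exact hrhs
  have hcop : f.Coprime ((g * m) * (g * n)) :=
    Nat.Coprime.mul_right (Og2_cop hf (hc.2 _ hz)) (Og2_cop hf (hc'.2 _ hz'))
  have hm1 : Q < g * m := by
    have := (Nat.div_lt_iff_lt_mul hg).1 hm
    rwa [mul_comm] at this
  have hn1 : Q' < g * n := by
    have := (Nat.div_lt_iff_lt_mul hg).1 hn
    rwa [mul_comm] at this
  have hl : Nat.lcm (g * m) (g * n) = g * (m * n) := by
    rw [Nat.lcm_mul_left, hmn.lcm_eq_mul]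
  have h2 := (h N f (g * m) (g * n) a b hN hf (by omega) (by omega) hcop).2
  rw [hl] at h2
  have hmR : (Q : ℝ) < g * m := by exact_mod_cast hm1
  have hnR : (Q' : ℝ) < g * n := by exact_mod_cast hn1
  have hlow : ((Q : ℝ) * Q') / g ≤ ((g * (m * n) : ℕ) : ℝ) := by
    rw [div_le_iff₀ hgR]
    push_cast
    have h3 : (Q : ℝ) * Q' ≤ (g * m) * (g * n) :=
      mul_le_mul hmR.le hnR.le hQR'.le (hQR.trans hmR).le
    nlinarith [h3]
  have hpos : (0 : ℝ) < ((Q : ℝ) * Q') / g := by positivity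
  have h4 : 4 * (N : ℝ) / ((g * (m * n) : ℕ) : ℝ) ≤ 4 * (N : ℝ) * g / ((Q : ℝ) * Q') := by
    have h5 : 4 * (N : ℝ) / ((g * (m * n) : ℕ) : ℝ) ≤ 4 * (N : ℝ) / (((Q : ℝ) * Q') / g) :=
      div_le_div_of_nonneg_left (by positivity) hpos hlow
    refine h5.trans (le_of_eq ?_)
    field_simp
  have h6 : |c (g * m)| * |c' (g * n)| ≤ 1 := mul_le_one₀ (hc.1 _) (abs_nonneg _) (hc'.1 _)
  calc |c (g * m)| * |c' (g * n)| * |Ef N f (g * m) (g * n) a b|
      ≤ 1 * |Ef N f (g * m) (g * n) a b| :=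
        mul_le_mul_of_nonneg_right h6 (abs_nonneg _)
    _ ≤ 4 * (N : ℝ) * g / ((Q : ℝ) * Q') + 1 := by
        rw [one_mul]
        linarith

/-- the number of indices -/
private lemma Og2_card (Q g : ℕ) : (((Ioc (Q / g) (2 * Q / g)).card : ℕ) : ℝ) ≤ 2 * (Q : ℝ) / g := by
  rw [Nat.card_Ioc]
  have h1 : (((2 * Q / g - Q / g : ℕ)) : ℝ) ≤ ((2 * Q / g : ℕ) : ℝ) := by
    exact_mod_cast Nat.sub_le _ _
  have h2 : ((2 * Q / g : ℕ) : ℝ) ≤ ((2 * Q : ℕ) : ℝ) / g := Nat.cast_div_le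
  push_cast at h2
  exact h1.trans h2

/-- trivial bound for one greatest common divisor -/
theorem tOg2 (h : OsbStmt) : Og2Stmt := by
  intro N Q Q' f g c c' a b hN hQ hQ' hf hg hc hc'
  have hgR : (0 : ℝ) < g := by exact_mod_cast hg
  have hQR : (0 : ℝ) < Q := by exact_mod_cast hQ
  have hQR' : (0 : ℝ) < Q' := by exact_mod_cast hQ'
  set B : ℝ := 4 * (N : ℝ) * g / ((Q : ℝ) * Q') + 1 with hB
  have hB0 : 0 ≤ B := by positivity
  have hcard := Og2_card Q g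
  have hcard' := Og2_card Q' g
  have hcard0 : (0 : ℝ) ≤ (((Ioc (Q / g) (2 * Q / g)).card : ℕ) : ℝ) := Nat.cast_nonneg _
  unfold pg2
  have h1 : ∀ m ∈ Ioc (Q / g) (2 * Q / g),
      ‖∑ n ∈ (Ioc (Q' / g) (2 * Q' / g)).filter (fun n => m.Coprime n), fEf N f g c c' a b m n‖ ≤
        2 * (Q' : ℝ) / g * B := by
    intro m hm
    refine (norm_sum_le _ _).trans ?_
    have h2 : ∀ n ∈ (Ioc (Q' / g) (2 * Q' / g)).filter (fun n => m.Coprime n),
        ‖fEf N f g c c' a b m n‖ ≤ B := by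
      intro n hn
      rw [mem_filter, mem_Ioc] at hn
      exact Og2_pair h N Q Q' f g c c' a b hN hQ hQ' hf hg hc hc' (mem_Ioc.1 hm).1 hn.1.1 hn.2
    refine (sum_le_card_nsmul _ _ _ h2).trans ?_
    rw [nsmul_eq_mul]
    refine mul_le_mul_of_nonneg_right ?_ hB0
    refine le_trans ?_ hcard'
    exact_mod_cast card_filter_le _ _
  refine (norm_sum_le _ _).trans ((sum_le_card_nsmul _ _ _ h1).trans ?_)
  rw [nsmul_eq_mul]
  have h3 : (((Ioc (Q / g) (2 * Q / g)).card : ℕ) : ℝ) * (2 * (Q' : ℝ) / g * B) ≤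
      2 * (Q : ℝ) / g * (2 * (Q' : ℝ) / g * B) :=
    mul_le_mul_of_nonneg_right hcard (by positivity)
  refine h3.trans (le_of_eq ?_)
  rw [hB]
  field_simp
  ring

end Pool.Agent.Lib.TP
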