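import Pool.Agent.Lib.TP.SpecO

/-! MP_00e23e_nt, Lib/TP: module Og3 (no contribution when g does not divide b - a). -/

namespace Pool.Agent.Lib.TP

open Finset Pool.Agent.Lib.EH3 Pool.Agent.Lib.TB

theorem tOg3 (h : OscStmt) : Og3Stmt := by
  intro N Q Q' f g c c' a b hg
  unfold pg2
  apply sum_eq_zero
  intro m _
  apply sum_eq_zero
  intro n hn
  have hc : m.Coprime n := (mem_filter.mp hn).2
  have hgcd : Nat.gcd (g * m) (g * n) = g := by
    rw [Nat.gcd_mul_left, hc.gcd_eq_one, mul_one]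
  have hnd : ¬ (((Nat.gcd (g * m) (g * n) : ℕ) : ℤ) ∣ a - b) := by
    rw [hgcd]
    intro hd
    apply hg
    have := (dvd_neg (a := (g : ℤ))).mpr hd
    rwa [neg_sub] at this
  have h1 := h.2 N f (g * m) (g * n) a b hnd
  unfold fEf
  rw [h1]
  simp

end Pool.Agent.Lib.TP
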