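import Pool.Agent.Lib.TP.SpecO
import Pool.Agent.Lib.TB.Basic

/-!
MP_00e23e_nt, directory Lib/TP, module Og4: the error term of one pair, phase with f.
-/

namespace Pool.Agent.Lib.TP

open Finset Pool.Agent.Lib.EH3 Pool.Agent.Lib.TB

private lemma Og4_arg {f g m n : ℕ} (hf : 1 ≤ f) (hg : 1 ≤ g) (hm : 1 ≤ m) (hn : 1 ≤ n) (h K a z1 z2 I J i1 i2 : ℤ)
    (e1 : I * f + J * (g * m * n) - 1 = f * (g * m * n) * z1) (e2 : I * i1 - i2 = n * z2) (t : ℝ) :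
    (h : ℝ) * (t - (f : ℝ) * I * (a + (g : ℝ) * m * K * i1)) / ((f : ℝ) * ((g : ℝ) * m * n)) =
      (((h * a : ℤ) : ℝ) * J / f + (((-(h * K) : ℤ) : ℝ) * i2 / n + ((h : ℝ) * (t - a) / ((f : ℝ) * g)) / ((m : ℝ) * n))) +
        ((-(h * a * z1) - h * K * z2 : ℤ) : ℝ) := by
  have h0 : (f : ℝ) ≠ 0 := by positivity
  have h1 : (g : ℝ) ≠ 0 := by positivity
  have h2 : (m : ℝ) ≠ 0 := by positivity
  have h3 : (n : ℝ) ≠ 0 := by positivity
  have e1' : (I : ℝ) * f + J * (g * m * n) - 1 = f * (g * m * n) * z1 := by exact_mod_cast e1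
  have e2' : (I : ℝ) * i1 - i2 = n * z2 := by exact_mod_cast e2
  have hz1 : (z1 : ℝ) = ((I : ℝ) * f + J * (g * m * n) - 1) / (f * (g * m * n)) := by
    rw [e1']
    field_simp
  have hz2 : (z2 : ℝ) = ((I : ℝ) * i1 - i2) / n := by
    rw [e2']
    field_simp
  push_cast
  rw [hz1, hz2]
  field_simp
  ring

theorem tOg4 (h1 : TruncStmt) (h2 : OscStmt) : Og4Stmt := by
  intro N H f g m n a b hN hH hf hg hm hn hmn hfc hdvd hH2
  obtain ⟨K, hK⟩ := hdvd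
  have hg0 : (g : ℤ) ≠ 0 := by positivity
  have hKe : (b - a) / (g : ℤ) = K := by
    rw [hK, Int.mul_ediv_cancel_left _ hg0]
  rw [hKe]
  have hfg : f.Coprime g := Nat.Coprime.coprime_dvd_right ⟨m * n, by ring⟩ hfc
  have hfm : f.Coprime m := Nat.Coprime.coprime_dvd_right ⟨g * n, by ring⟩ hfc
  have hfn : f.Coprime n := Nat.Coprime.coprime_dvd_right ⟨g * m, by ring⟩ hfc
  have hw1 : 1 ≤ g * m * n := Nat.mul_pos (Nat.mul_pos hg hm) hn
  have hfmn : (f * m).Coprime n := Nat.Coprime.mul_left hfn hmn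
  -- the inverses
  obtain ⟨c1, hc1⟩ := iv_dvd hfc hw1
  obtain ⟨c2, hc2⟩ := iv_dvd hfc.symm hf
  obtain ⟨c3, hc3⟩ := iv_dvd hmn hn
  obtain ⟨c4, hc4⟩ := iv_dvd hfmn hn
  set I : ℤ := (iv f (g * m * n) : ℤ) with hI
  set J : ℤ := (iv (g * m * n) f : ℤ) with hJ
  set i1 : ℤ := (iv m n : ℤ) with hi1
  set i2 : ℤ := (iv (f * m) n : ℤ) with hi2
  push_cast at hc1 hc2 hc3 hc4
  have e1 : ∃ z1 : ℤ, I * f + J * (g * m * n) - 1 = f * (g * m * n) * z1 := by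
    have h3 : (((f : ℤ)) * ((g * m * n : ℕ) : ℤ)) ∣ I * f + J * (g * m * n) - 1 := by
      refine IsCoprime.mul_dvd (Nat.isCoprime_iff_coprime.2 hfc) ?_ ?_
      · refine ⟨I + c2, ?_⟩
        linear_combination hc2
      · refine ⟨J + c1, ?_⟩
        push_cast
        linear_combination hc1
    obtain ⟨z, hz⟩ := h3
    exact ⟨z, by rw [hz]; push_cast; ring⟩
  obtain ⟨z1, hz1⟩ := e1
  have e2 : ∃ z2 : ℤ, I * i1 - i2 = n * z2 := by
    have h3 : (n : ℤ) ∣ (I * i1 - i2) * ((f * m : ℕ) : ℤ) := by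
      refine ⟨i1 * m * (g * m * c1) + c3 - c4, ?_⟩
      push_cast
      linear_combination (i1 * m) * hc1 + hc3 - hc4
    have h4 : IsCoprime (n : ℤ) ((f * m : ℕ) : ℤ) := (Nat.isCoprime_iff_coprime.2 hfmn).symm
    exact h4.dvd_of_dvd_mul_right h3
  obtain ⟨z2, hz2⟩ := e2
  set ν : ℤ := f * I * (a + (g : ℤ) * m * K * i1) with hν
  have hq : Nat.lcm (g * m) (g * n) = g * m * n := by
    rw [Nat.lcm_mul_left, hmn.lcm_eq_mul, mul_assoc]
  have hd0 : (f : ℤ) ∣ ν := ⟨I * (a + (g : ℤ) * m * K * i1), by rw [hν]; ring⟩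
  have hd1 : (((g * m : ℕ) : ℤ)) ∣ ν - a := by
    refine ⟨n * c1 * (a + (g : ℤ) * m * K * i1) + K * i1, ?_⟩
    rw [hν]
    push_cast
    linear_combination (a + (g : ℤ) * m * K * i1) * hc1
  have hd2 : (((g * n : ℕ) : ℤ)) ∣ ν - b := by
    refine ⟨m * c1 * (a + (g : ℤ) * m * K * i1) + K * c3, ?_⟩
    rw [hν]
    push_cast
    linear_combination (a + (g : ℤ) * m * K * i1) * hc1 + (g : ℤ) * K * hc3 - hK
  have hfu : f.Coprime (g * m * (g * n)) :=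
    Nat.Coprime.mul_right (Nat.Coprime.mul_right hfg hfm) (Nat.Coprime.mul_right hfg hfn)
  obtain ⟨hS, hM⟩ := h2.1 N f (g * m) (g * n) a b ν hf (Nat.mul_pos hg hm) (Nat.mul_pos hg hn) hfu hd0 hd1 hd2
  have hE : Ef N f (g * m) (g * n) a b = cl N (f * (g * m * n)) ν - (N : ℝ) / ((f * (g * m * n) : ℕ) : ℝ) := by
    unfold Ef
    rw [hS, hM, hq]
  rw [hE]
  have h4 := h1 N (f * (g * m * n)) H ν hN (Nat.mul_pos hf hw1) hH hH2
  have h5 : ((cl N (f * (g * m * n)) ν - (N : ℝ) / ((f * (g * m * n) : ℕ) : ℝ) : ℝ) : ℂ) =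
      ((cl N (f * (g * m * n)) ν : ℝ) : ℂ) - (N : ℂ) / ((f * (g * m * n) : ℕ) : ℂ) := by
    push_cast
    rfl
  have h6 : (1 / ((f : ℂ) * g * m * n)) = (1 / ((f * (g * m * n) : ℕ) : ℂ)) := by
    push_cast
    ring
  have h7 : ((f : ℝ) * (g * m * n) / ((N : ℝ) * H)) = (((f * (g * m * n) : ℕ) : ℝ) / ((N : ℝ) * H)) := by
    push_cast
    rfl
  have hphase : ∀ (h : ℤ) (t : ℝ),
      ee ((h : ℝ) * (t - (ν : ℝ)) / ((f * (g * m * n) : ℕ) : ℝ)) =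
        chf f g (h * a) m n * eBf f (-(h * K)) ((h : ℝ) * (t - a) / ((f : ℝ) * g)) m n := by
    intro h t
    have h9 := Og4_arg hf hg hm hn h K a z1 z2 I J i1 i2 hz1 hz2 t
    have h10 : (ν : ℝ) = (f : ℝ) * I * (a + (g : ℝ) * m * K * i1) := by
      rw [hν]
      push_cast
      ring
    have h12 : ((f * (g * m * n) : ℕ) : ℝ) = (f : ℝ) * ((g : ℝ) * m * n) := by push_cast; ring
    rw [h10, h12, h9, ee_add_int, ee_add]
    unfold chf eBf
    have h13 : (J : ℝ) = (iv (g * m * n) f : ℝ) := by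
      rw [hJ]
      norm_cast
    have h14 : (i2 : ℝ) = (iv (f * m) n : ℝ) := by
      rw [hi2]
      norm_cast
    rw [h13, h14]
  have h8 : ∀ (h : ℕ) (t : ℤ),
      ee ((h : ℝ) * ((t : ℝ) - (ν : ℝ)) / ((f * (g * m * n) : ℕ) : ℝ)) =
        chf f g ((h : ℤ) * a) m n * eBf f (-((h : ℤ) * K)) ((h : ℝ) * ((t : ℝ) - a) / ((f : ℝ) * g)) m n ∧
      ee (-((h : ℝ) * ((t : ℝ) - (ν : ℝ)) / ((f * (g * m * n) : ℕ) : ℝ))) =
        chf f g (-((h : ℤ) * a)) m n * eBf f ((h : ℤ) * K) (-((h : ℝ) * ((t : ℝ) - a) / ((f : ℝ) * g))) m n := by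
    intro h t
    constructor
    · have h9 := hphase (h : ℤ) t
      rw [Int.cast_natCast] at h9
      exact h9
    · have h9 := hphase (-(h : ℤ)) t
      have h10 : (((-(h : ℤ)) : ℤ) : ℝ) * ((t : ℝ) - (ν : ℝ)) / ((f * (g * m * n) : ℕ) : ℝ) =
          -((h : ℝ) * ((t : ℝ) - (ν : ℝ)) / ((f * (g * m * n) : ℕ) : ℝ)) := by
        push_cast
        ring
      have h11 : (((-(h : ℤ)) : ℤ) : ℝ) * ((t : ℝ) - a) / ((f : ℝ) * g) = -((h : ℝ) * ((t : ℝ) - a) / ((f : ℝ) * g)) := by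
        push_cast
        ring
      rw [h10, h11, neg_mul, neg_mul, neg_neg] at h9
      exact h9
  rw [h5, h6, h7]
  refine le_trans (le_of_eq ?_) h4
  congr 2
  refine congrArg _ (Finset.sum_congr rfl fun h _ => Finset.sum_congr rfl fun t _ => ?_)
  rw [(h8 h t).1, (h8 h t).2]

end Pool.Agent.Lib.TP
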