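import Pool.Agent.Lib.TP.SpecO

/-!
MP_00e23e_nt, directory Lib/TP, module Og6 (helper51): one g dividing b - a (adapted from TB/G6).
-/

set_option autoImplicit false

namespace Pool.Agent.Lib.TP

open Finset Pool.Agent.Lib.EH3 Pool.Agent.Lib.TB

/-- the main part of the term of a pair -/
private noncomputable def Og6_W (N H f g : ℕ) (c c' : ℕ → ℝ) (a b : ℤ) (m n : ℕ) : ℂ :=
  ((c (g * m) * c' (g * n) : ℝ) : ℂ) * ((1 / ((f : ℂ) * g * m * n)) * ∑ h ∈ Icc 1 H,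
    ∑ t ∈ Icc (-(N : ℤ)) N, ((tri N t : ℝ) : ℂ) *
      (chf f g ((h : ℤ) * a) m n * eBf f (-((h : ℤ) * ((b - a) / g))) ((h : ℝ) * ((t : ℝ) - a) / ((f : ℝ) * g)) m n +
        chf f g (-((h : ℤ) * a)) m n *
          eBf f ((h : ℤ) * ((b - a) / g)) (-((h : ℝ) * ((t : ℝ) - a) / ((f : ℝ) * g))) m n))

/-- the summands of the bilinear forms -/
private noncomputable def Og6_v (f g : ℕ) (c c' : ℕ → ℝ) (k th : ℤ) (vt : ℝ) (m n : ℕ) : ℂ :=
  ((c (g * m) * c' (g * n) : ℝ) : ℂ) * (1 / ((m : ℂ) * n)) * (chf f g k m n * eBf f th vt m n)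

private lemma Og6_pg_sub (Q Q' g : ℕ) (F F' : ℕ → ℕ → ℂ) :
    pg2 Q Q' g F - pg2 Q Q' g F' = pg2 Q Q' g (fun m n => F m n - F' m n) := by
  unfold pg2
  rw [← sum_sub_distrib]
  apply sum_congr rfl
  intro m _
  rw [← sum_sub_distrib]

private lemma Og6_pg_add (Q Q' g : ℕ) (F F' : ℕ → ℕ → ℂ) :
    pg2 Q Q' g (fun m n => F m n + F' m n) = pg2 Q Q' g F + pg2 Q Q' g F' := by
  unfold pg2
  rw [← sum_add_distrib]
  apply sum_congr rfl
  intro m _
  rw [← sum_add_distrib]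

private lemma Og6_pg_mul (Q Q' g : ℕ) (z : ℂ) (F : ℕ → ℕ → ℂ) :
    pg2 Q Q' g (fun m n => z * F m n) = z * pg2 Q Q' g F := by
  unfold pg2
  rw [mul_sum]
  apply sum_congr rfl
  intro m _
  rw [mul_sum]

private lemma Og6_pg_sum {ι : Type} (s : Finset ι) (Q Q' g : ℕ) (F : ι → ℕ → ℕ → ℂ) :
    pg2 Q Q' g (fun m n => ∑ i ∈ s, F i m n) = ∑ i ∈ s, pg2 Q Q' g (F i) := by
  classical
  induction s using Finset.induction_on with
  | empty =>
    simp only [sum_empty]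
    unfold pg2
    simp
  | insert i s hi ih =>
    simp only [sum_insert hi]
    rw [Og6_pg_add, ih]

private lemma Og6_pg_congr (Q Q' g : ℕ) (F F' : ℕ → ℕ → ℂ)
    (h : ∀ m n, m ∈ Ioc (Q / g) (2 * Q / g) → n ∈ Ioc (Q' / g) (2 * Q' / g) → m.Coprime n →
      F m n = F' m n) : pg2 Q Q' g F = pg2 Q Q' g F' := by
  unfold pg2
  apply sum_congr rfl
  intro m hm
  apply sum_congr rfl
  intro n hn
  rw [mem_filter] at hn
  exact h m n hm hn.1 hn.2

private lemma Og6_card (Q g : ℕ) : ((Ioc (Q / g) (2 * Q / g)).card : ℝ) ≤ 2 * (Q : ℝ) := by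
  rw [Nat.card_Ioc]
  have : 2 * Q / g - Q / g ≤ 2 * Q := by
    refine (Nat.sub_le _ _).trans (Nat.div_le_self _ _)
  exact_mod_cast this

private lemma Og6_pg_norm (Q Q' g : ℕ) (F : ℕ → ℕ → ℂ) (B : ℝ) (hB : 0 ≤ B)
    (h : ∀ m n, m ∈ Ioc (Q / g) (2 * Q / g) → n ∈ Ioc (Q' / g) (2 * Q' / g) → m.Coprime n →
      ‖F m n‖ ≤ B) : ‖pg2 Q Q' g F‖ ≤ (2 * (Q : ℝ)) * ((2 * (Q' : ℝ)) * B) := by
  unfold pg2
  calc ‖∑ m ∈ Ioc (Q / g) (2 * Q / g),
        ∑ n ∈ (Ioc (Q' / g) (2 * Q' / g)).filter (fun n => m.Coprime n), F m n‖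
      ≤ ∑ m ∈ Ioc (Q / g) (2 * Q / g),
        ‖∑ n ∈ (Ioc (Q' / g) (2 * Q' / g)).filter (fun n => m.Coprime n), F m n‖ := norm_sum_le _ _
    _ ≤ ∑ _m ∈ Ioc (Q / g) (2 * Q / g), (2 * (Q' : ℝ)) * B := by
        apply sum_le_sum
        intro m hm
        calc ‖∑ n ∈ (Ioc (Q' / g) (2 * Q' / g)).filter (fun n => m.Coprime n), F m n‖
            ≤ ∑ n ∈ (Ioc (Q' / g) (2 * Q' / g)).filter (fun n => m.Coprime n), ‖F m n‖ :=
              norm_sum_le _ _
          _ ≤ ∑ _n ∈ (Ioc (Q' / g) (2 * Q' / g)).filter (fun n => m.Coprime n), B := by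
              apply sum_le_sum
              intro n hn
              rw [mem_filter] at hn
              exact h m n hm hn.1 hn.2
          _ = (((Ioc (Q' / g) (2 * Q' / g)).filter (fun n => m.Coprime n)).card : ℝ) * B := by
              rw [sum_const, nsmul_eq_mul]
          _ ≤ (2 * (Q' : ℝ)) * B := by
              apply mul_le_mul_of_nonneg_right _ hB
              refine le_trans ?_ (Og6_card Q' g)
              exact_mod_cast card_filter_le _ _
    _ = ((Ioc (Q / g) (2 * Q / g)).card : ℝ) * ((2 * (Q' : ℝ)) * B) := by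
        rw [sum_const, nsmul_eq_mul]
    _ ≤ (2 * (Q : ℝ)) * ((2 * (Q' : ℝ)) * B) := by
        apply mul_le_mul_of_nonneg_right (Og6_card Q g) (by positivity)

private lemma Og6_cop (f g m n : ℕ) (hf : 1 ≤ f) (hm : Rgh (4 * f) (g * m)) (hn : Rgh (4 * f) (g * n)) :
    f.Coprime (g * m * n) := by
  rw [Nat.coprime_iff_gcd_eq_one]
  by_contra hcon
  obtain ⟨p, hp, hpd⟩ := Nat.exists_prime_and_dvd hcon
  have hpf : p ∣ f := hpd.trans (Nat.gcd_dvd_left _ _)
  have hpg : p ∣ g * m * n := hpd.trans (Nat.gcd_dvd_right _ _)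
  have hle : p ≤ f := Nat.le_of_dvd hf hpf
  rcases (Nat.Prime.dvd_mul hp).mp hpg with h | h
  · have := hm p hp h
    omega
  · have := hn p hp (Dvd.dvd.mul_left h g)
    omega

theorem tOg6 (h4 : Og4Stmt) (h5 : Og5Stmt) : Og6Stmt := by
  intro ε hε
  obtain ⟨C, hC, hC5⟩ := h5 ε hε
  refine ⟨C, hC, ?_⟩
  intro N Q Q' H f g c c' a b hN hH hf hg hgQ hgQ' hHg hc hc' hab ha hb hdvd
  have hN' : (1 : ℝ) ≤ N := by exact_mod_cast hN
  have hH' : (1 : ℝ) ≤ H := by exact_mod_cast hH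
  have hf' : (1 : ℝ) ≤ f := by exact_mod_cast hf
  have hg' : (1 : ℝ) ≤ g := by exact_mod_cast hg
  have hfg' : (1 : ℝ) ≤ (f : ℝ) * g := by
    have := mul_le_mul hf' hg' zero_le_one (by linarith : (0 : ℝ) ≤ f)
    linarith
  obtain ⟨K, hK⟩ := hdvd
  have hK1 : (b - a) / (g : ℤ) = K := by
    rw [hK]
    exact Int.mul_ediv_cancel_left K (by omega)
  have hK0 : K ≠ 0 := by
    rintro rfl
    apply hab
    rw [mul_zero] at hK
    omega
  have hcc : ∀ m n : ℕ, ‖((c (g * m) * c' (g * n) : ℝ) : ℂ)‖ ≤ 1 := by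
    intro m n
    rw [Complex.norm_real, Real.norm_eq_abs, abs_mul]
    have := mul_le_mul (hc.1 (g * m)) (hc'.1 (g * n)) (abs_nonneg _) zero_le_one
    linarith
  -- bounds for the pairs
  have hmem : ∀ q m : ℕ, m ∈ Ioc (q / g) (2 * q / g) → 1 ≤ m ∧ q < g * m ∧ g * m ≤ 2 * q := by
    intro q m hm
    rw [mem_Ioc] at hm
    refine ⟨lt_of_le_of_lt (Nat.zero_le _) hm.1, ?_, ?_⟩
    · have := (Nat.div_lt_iff_lt_mul (by omega : 0 < g)).mp hm.1
      rw [mul_comm]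
      exact this
    · have := (Nat.le_div_iff_mul_le (by omega : 0 < g)).mp hm.2
      rw [mul_comm]
      exact this
  -- the error part
  have e1 : ‖pg2 Q Q' g (fEf N f g c c' a b) - pg2 Q Q' g (Og6_W N H f g c c' a b)‖ ≤
      16 * (f : ℝ) * ((Q : ℝ) * Q') ^ 2 / ((N : ℝ) * H) := by
    rw [Og6_pg_sub]
    refine (Og6_pg_norm Q Q' g _ ((f : ℝ) * (4 * ((Q : ℝ) * Q')) / ((N : ℝ) * H)) (by positivity) ?_).trans ?_
    · intro m n hm hn hmn
      obtain ⟨m1, m2, m3⟩ := hmem Q m hm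
      obtain ⟨n1, n2, n3⟩ := hmem Q' n hn
      have e : fEf N f g c c' a b m n - Og6_W N H f g c c' a b m n =
          ((c (g * m) * c' (g * n) : ℝ) : ℂ) *
          (((Ef N f (g * m) (g * n) a b : ℝ) : ℂ) -
            (1 / ((f : ℂ) * g * m * n)) * ∑ h ∈ Icc 1 H, ∑ t ∈ Icc (-(N : ℤ)) N,
            ((tri N t : ℝ) : ℂ) *
        (chf f g ((h : ℤ) * a) m n * eBf f (-((h : ℤ) * ((b - a) / g))) ((h : ℝ) * ((t : ℝ) - a) / ((f : ℝ) * g)) m n +
          chf f g (-((h : ℤ) * a)) m n *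
            eBf f ((h : ℤ) * ((b - a) / g)) (-((h : ℝ) * ((t : ℝ) - a) / ((f : ℝ) * g))) m n)) := by
        unfold fEf Og6_W
        rw [Complex.ofReal_mul, mul_sub]
      rw [e]
      by_cases hz : c (g * m) * c' (g * n) = 0
      · rw [hz, Complex.ofReal_zero, zero_mul, norm_zero]
        positivity
      have hz1 : c (g * m) ≠ 0 := fun h => hz (by rw [h, zero_mul])
      have hz2 : c' (g * n) ≠ 0 := fun h => hz (by rw [h, mul_zero])
      have hcop : f.Coprime (g * m * n) := Og6_cop f g m n hf (hc.2 _ hz1) (hc'.2 _ hz2)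
      have hgmn : (g * m) * (g * n) = g * (g * m * n) := by ring
      have hlow : 2 * H < g * m * n := by
        have h1 : Q * Q' < (g * m) * (g * n) := Nat.mul_lt_mul'' m2 n2
        rw [hgmn] at h1
        by_contra hcon
        push Not at hcon
        have h2 : g * (g * m * n) ≤ g * (2 * H) := Nat.mul_le_mul_left g hcon
        have h3 : Q * Q' < g * (2 * H) := lt_of_lt_of_le h1 h2
        have h4 : 2 * H * g = g * (2 * H) := by ring
        rw [h4] at hHg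
        omega
      have hlow' : 2 * H < f * (g * m * n) :=
        lt_of_lt_of_le hlow (Nat.le_mul_of_pos_left _ hf)
      have hup : (g : ℝ) * m * n ≤ 4 * ((Q : ℝ) * Q') := by
        have h1 : g * m * n ≤ (g * m) * (g * n) := by
          calc g * m * n = (g * m) * (1 * n) := by ring
            _ ≤ (g * m) * (g * n) := Nat.mul_le_mul_left _ (Nat.mul_le_mul_right _ hg)
        have h2 : (g * m) * (g * n) ≤ (2 * Q) * (2 * Q') := Nat.mul_le_mul m3 n3
        have h3 : g * m * n ≤ 4 * (Q * Q') := by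
          calc g * m * n ≤ (2 * Q) * (2 * Q') := h1.trans h2
            _ = 4 * (Q * Q') := by ring
        exact_mod_cast h3
      have h4' := h4 N H f g m n a b hN hH hf hg m1 n1 hmn hcop ⟨K, hK⟩ hlow'
      rw [norm_mul]
      calc _ ≤ 1 * ((f : ℝ) * (g * m * n) / ((N : ℝ) * H)) :=
            mul_le_mul (hcc m n) h4' (norm_nonneg _) zero_le_one
        _ = (f : ℝ) * (g * m * n) / ((N : ℝ) * H) := one_mul _
        _ ≤ (f : ℝ) * (4 * ((Q : ℝ) * Q')) / ((N : ℝ) * H) := by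
            apply div_le_div_of_nonneg_right _ (by positivity)
            exact mul_le_mul_of_nonneg_left hup (by positivity)
    · apply le_of_eq
      ring
  -- the main part
  have e2 : pg2 Q Q' g (Og6_W N H f g c c' a b) = ∑ h ∈ Icc 1 H, ∑ t ∈ Icc (-(N : ℤ)) N,
      (((tri N t : ℝ) : ℂ) * (1 / ((f : ℂ) * g))) *
      (pg2 Q Q' g (Og6_v f g c c' ((h : ℤ) * a) (-((h : ℤ) * ((b - a) / g))) ((h : ℝ) * ((t : ℝ) - a) / ((f : ℝ) * g))) +
        pg2 Q Q' g (Og6_v f g c c' (-((h : ℤ) * a)) ((h : ℤ) * ((b - a) / g))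
          (-((h : ℝ) * ((t : ℝ) - a) / ((f : ℝ) * g))))) := by
    have s1 : ∀ m n : ℕ, Og6_W N H f g c c' a b m n = ∑ h ∈ Icc 1 H, ∑ t ∈ Icc (-(N : ℤ)) N,
        (((tri N t : ℝ) : ℂ) * (1 / ((f : ℂ) * g))) *
        (Og6_v f g c c' ((h : ℤ) * a) (-((h : ℤ) * ((b - a) / g))) ((h : ℝ) * ((t : ℝ) - a) / ((f : ℝ) * g)) m n +
          Og6_v f g c c' (-((h : ℤ) * a)) ((h : ℤ) * ((b - a) / g)) (-((h : ℝ) * ((t : ℝ) - a) / ((f : ℝ) * g))) m n) := by
      intro m n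
      have hinv : (1 / ((f : ℂ) * g * m * n)) = (1 / ((f : ℂ) * g)) * (1 / ((m : ℂ) * n)) := by
        rw [mul_assoc ((f : ℂ) * g), one_div_mul_one_div]
      unfold Og6_W Og6_v
      rw [hinv, mul_sum, mul_sum]
      apply sum_congr rfl
      intro h _
      rw [mul_sum, mul_sum]
      apply sum_congr rfl
      intro t _
      ring
    rw [Og6_pg_congr Q Q' g _ _ (fun m n _ _ _ => s1 m n), Og6_pg_sum]
    apply sum_congr rfl
    intro h _
    rw [Og6_pg_sum]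
    apply sum_congr rfl
    intro t _
    rw [Og6_pg_mul, Og6_pg_add]
  have hHN : (0 : ℝ) < 4 * (H : ℝ) * N := by positivity
  have hB0 : 0 ≤ Bd C ε (Q / g) (Q' / g) f (4 * (H : ℝ) * N) := by
    unfold Bd
    positivity
  generalize hBdef : Bd C ε (Q / g) (Q' / g) f (4 * (H : ℝ) * N) = B at hB0 ⊢
  -- the bilinear forms
  have e3 : ∀ (k th : ℤ) (vt : ℝ), th ≠ 0 → |(th : ℝ)| ≤ 2 * (H : ℝ) * N → |vt| ≤ 2 * (H : ℝ) * N →
      ‖pg2 Q Q' g (Og6_v f g c c' k th vt)‖ ≤ B := by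
    intro k th vt hth hth1 hvt
    rw [← hBdef]
    exact hC5 Q Q' f g c c' k th vt (4 * (H : ℝ) * N) hf hg hgQ hgQ' hc hc' hth (by linarith)
  have hKabs : |(K : ℝ)| ≤ 2 * (N : ℝ) := by
    have h1 : |K| ≤ |b - a| := by
      rw [hK, abs_mul]
      have : (1 : ℤ) ≤ |(g : ℤ)| := by
        rw [abs_of_nonneg (by positivity)]
        exact_mod_cast hg
      calc |K| = 1 * |K| := (one_mul _).symm
        _ ≤ |(g : ℤ)| * |K| := mul_le_mul_of_nonneg_right this (abs_nonneg _)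
    have h2 : |b - a| ≤ 2 * (N : ℤ) := by
      have := abs_sub b a
      linarith
    have h3 : |K| ≤ 2 * (N : ℤ) := h1.trans h2
    exact_mod_cast h3
  have haR : |(a : ℝ)| ≤ N := by exact_mod_cast ha
  have e4 : ‖pg2 Q Q' g (Og6_W N H f g c c' a b)‖ ≤ 6 * (H : ℝ) * N * B := by
    rw [e2]
    have hterm : ∀ h ∈ Icc 1 H, ∀ t ∈ Icc (-(N : ℤ)) N,
        ‖(((tri N t : ℝ) : ℂ) * (1 / ((f : ℂ) * g))) *
        (pg2 Q Q' g (Og6_v f g c c' ((h : ℤ) * a) (-((h : ℤ) * ((b - a) / g))) ((h : ℝ) * ((t : ℝ) - a) / ((f : ℝ) * g))) +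
        pg2 Q Q' g (Og6_v f g c c' (-((h : ℤ) * a)) ((h : ℤ) * ((b - a) / g))
          (-((h : ℝ) * ((t : ℝ) - a) / ((f : ℝ) * g)))))‖ ≤ 2 * B := by
      intro h hh t ht
      rw [mem_Icc] at hh ht
      rw [hK1]
      have hh1 : (1 : ℝ) ≤ h := by exact_mod_cast hh.1
      have hh2 : (h : ℝ) ≤ H := by exact_mod_cast hh.2
      have htR : |(t : ℝ)| ≤ N := by
        have : |t| ≤ (N : ℤ) := abs_le.mpr ht
        exact_mod_cast this
      have hv : |(h : ℝ) * ((t : ℝ) - a) / ((f : ℝ) * g)| ≤ 2 * (H : ℝ) * N := by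
        rw [abs_div, abs_mul, abs_of_nonneg (by linarith : (0 : ℝ) ≤ h),
          abs_of_nonneg (by linarith : (0 : ℝ) ≤ (f : ℝ) * g), div_le_iff₀ (by linarith)]
        have g1 : |(t : ℝ) - a| ≤ 2 * N := by
          have := abs_sub (t : ℝ) (a : ℝ)
          linarith
        have g2 : (h : ℝ) * |(t : ℝ) - a| ≤ H * (2 * N) :=
          mul_le_mul hh2 g1 (abs_nonneg _) (by linarith)
        have g3 : (H : ℝ) * (2 * N) ≤ 2 * H * N * ((f : ℝ) * g) := by
          have : 2 * (H : ℝ) * N * 1 ≤ 2 * H * N * ((f : ℝ) * g) :=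
            mul_le_mul_of_nonneg_left hfg' (by positivity)
          linarith
        linarith
      have ht1 : |(((h : ℤ) * K : ℤ) : ℝ)| ≤ 2 * (H : ℝ) * N := by
        push_cast
        rw [abs_mul, abs_of_nonneg (by linarith : (0 : ℝ) ≤ h)]
        calc (h : ℝ) * |(K : ℝ)| ≤ H * (2 * N) :=
              mul_le_mul hh2 hKabs (abs_nonneg _) (by linarith)
          _ = 2 * (H : ℝ) * N := by ring
      have hth0 : (h : ℤ) * K ≠ 0 := mul_ne_zero (by omega) hK0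
      have p1 := e3 (-((h : ℤ) * a)) ((h : ℤ) * K) (-((h : ℝ) * ((t : ℝ) - a) / ((f : ℝ) * g))) hth0 ht1
        (by rw [abs_neg]; exact hv)
      have p2 := e3 ((h : ℤ) * a) (-((h : ℤ) * K)) ((h : ℝ) * ((t : ℝ) - a) / ((f : ℝ) * g)) (neg_ne_zero.mpr hth0)
        (by push_cast at ht1 ⊢; rw [abs_neg]; exact ht1) hv
      have q1 : ‖((tri N t : ℝ) : ℂ) * (1 / ((f : ℂ) * g))‖ ≤ 1 := by
        rw [norm_mul, Complex.norm_real, Real.norm_eq_abs, norm_div, norm_one, norm_mul, Complex.norm_natCast,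
          Complex.norm_natCast]
        have r1 : |tri N t| ≤ 1 := by
          unfold tri
          rw [abs_of_nonneg (le_max_left _ _)]
          apply max_le (by norm_num)
          have : 0 ≤ |(t : ℝ)| / (N : ℝ) := by positivity
          linarith
        have r2 : 1 / ((f : ℝ) * g) ≤ 1 := by
          rw [div_le_one (by linarith)]
          exact hfg'
        have := mul_le_mul r1 r2 (by positivity) zero_le_one
        linarith
      rw [norm_mul]
      calc _ ≤ 1 * (B + B) := by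
            apply mul_le_mul q1 _ (norm_nonneg _) zero_le_one
            exact (norm_add_le _ _).trans (add_le_add p2 p1)
        _ = 2 * B := by ring
    calc _ ≤ ∑ h ∈ Icc 1 H, ‖∑ t ∈ Icc (-(N : ℤ)) N, (((tri N t : ℝ) : ℂ) * (1 / ((f : ℂ) * g))) *
        (pg2 Q Q' g (Og6_v f g c c' ((h : ℤ) * a) (-((h : ℤ) * ((b - a) / g))) ((h : ℝ) * ((t : ℝ) - a) / ((f : ℝ) * g))) +
        pg2 Q Q' g (Og6_v f g c c' (-((h : ℤ) * a)) ((h : ℤ) * ((b - a) / g))
          (-((h : ℝ) * ((t : ℝ) - a) / ((f : ℝ) * g)))))‖ := norm_sum_le _ _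
      _ ≤ ∑ _h ∈ Icc 1 H, (3 * (N : ℝ)) * (2 * B) := by
          apply sum_le_sum
          intro h hh
          calc _ ≤ ∑ t ∈ Icc (-(N : ℤ)) N, ‖(((tri N t : ℝ) : ℂ) * (1 / ((f : ℂ) * g))) *
              (pg2 Q Q' g (Og6_v f g c c' ((h : ℤ) * a) (-((h : ℤ) * ((b - a) / g)))
                ((h : ℝ) * ((t : ℝ) - a) / ((f : ℝ) * g))) +
              pg2 Q Q' g (Og6_v f g c c' (-((h : ℤ) * a)) ((h : ℤ) * ((b - a) / g))
                (-((h : ℝ) * ((t : ℝ) - a) / ((f : ℝ) * g)))))‖ := norm_sum_le _ _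
            _ ≤ ∑ _t ∈ Icc (-(N : ℤ)) N, 2 * B := sum_le_sum (fun t ht => hterm h hh t ht)
            _ = ((Icc (-(N : ℤ)) N).card : ℝ) * (2 * B) := by rw [sum_const, nsmul_eq_mul]
            _ ≤ (3 * (N : ℝ)) * (2 * B) := by
                apply mul_le_mul_of_nonneg_right _ (by positivity)
                rw [Int.card_Icc]
                have : ((N : ℤ) + 1 - -(N : ℤ)).toNat = 2 * N + 1 := by omega
                rw [this]
                push_cast
                linarith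
      _ = (H : ℝ) * ((3 * (N : ℝ)) * (2 * B)) := by
          rw [sum_const, nsmul_eq_mul, Nat.card_Icc]
          simp
      _ = 6 * (H : ℝ) * N * B := by ring
  calc ‖pg2 Q Q' g (fEf N f g c c' a b)‖
      = ‖(pg2 Q Q' g (fEf N f g c c' a b) - pg2 Q Q' g (Og6_W N H f g c c' a b)) +
        pg2 Q Q' g (Og6_W N H f g c c' a b)‖ := by rw [sub_add_cancel]
    _ ≤ 16 * (f : ℝ) * ((Q : ℝ) * Q') ^ 2 / ((N : ℝ) * H) + 6 * (H : ℝ) * N * B :=
        (norm_add_le _ _).trans (add_le_add e1 e4)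

end Pool.Agent.Lib.TP
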