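import Pool.Agent.Lib.TP.SpecO

/-!
MP_00e23e_nt, module Og7: the exponents.
-/

namespace Pool.Agent.Lib.TP

open Finset Pool.Agent.Lib.EH3 Pool.Agent.Lib.TB

private lemma Og7_mono {x a b : ℝ} (hx : 1 ≤ x) (h : a ≤ b) : x ^ a ≤ x ^ b :=
  Real.rpow_le_rpow_of_exponent_le hx h

private lemma Og7_mul {x A B a b : ℝ} (hx : 0 < x) (hA : A ≤ x ^ a) (hB0 : 0 ≤ B) (hB : B ≤ x ^ b) :
    A * B ≤ x ^ (a + b) := by
  rw [Real.rpow_add hx]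
  exact mul_le_mul hA hB hB0 (Real.rpow_nonneg hx.le _)

private lemma Og7_pow {x A a r : ℝ} (hx : 0 < x) (hA0 : 0 ≤ A) (hA : A ≤ x ^ a) (hr : 0 ≤ r) :
    A ^ r ≤ x ^ (a * r) := by
  rw [Real.rpow_mul hx.le]
  exact Real.rpow_le_rpow hA0 hA hr

private lemma Og7_inv {x B b : ℝ} (hx : 0 < x) (hB : x ^ b ≤ B) : 1 / B ≤ x ^ (-b) := by
  rw [Real.rpow_neg hx.le, one_div]
  exact inv_anti₀ (Real.rpow_pos_of_pos hx _) hB

/-- a floor is at least half of the number -/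
private lemma Og7_floor {t : ℝ} (ht : 1 ≤ t) : t / 2 ≤ (⌊t⌋₊ : ℝ) := by
  have h1 : t < (⌊t⌋₊ : ℝ) + 1 := Nat.lt_floor_add_one t
  have h2 : (1 : ℝ) ≤ (⌊t⌋₊ : ℝ) := by
    have : 1 ≤ ⌊t⌋₊ := (Nat.one_le_floor_iff t).mpr ht
    exact_mod_cast this
  linarith

/-- a quotient with floor is at least half of the quotient -/
private lemma Og7_div {Q g : ℕ} (hg : 1 ≤ g) (h : g ≤ Q) : (Q : ℝ) / (2 * g) ≤ ((Q / g : ℕ) : ℝ) := by
  have hg' : (0 : ℝ) < g := by exact_mod_cast hg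
  have h1 : (1 : ℝ) ≤ (Q : ℝ) / g := by
    rw [one_le_div hg']
    exact_mod_cast h
  have h2 := Og7_floor h1
  rw [Nat.floor_div_eq_div] at h2
  have e : (Q : ℝ) / (2 * g) = (Q : ℝ) / g / 2 := by
    field_simp
  rw [e]
  exact h2

/-- the inequality for real numbers -/
private lemma Og7_core {x f H P1 P2 C q q' a b M γ s : ℝ} (hx : 1 ≤ x) (h16 : 16 ≤ x ^ ((1 : ℝ) / 100000))
    (hC0 : 0 ≤ C) (hC : C ≤ x ^ ((1 : ℝ) / 100000)) (hf1 : 1 ≤ f) (hf : f ≤ x ^ ((1 : ℝ) / 100000))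
    (hq0 : 0 ≤ q) (hq : q ≤ x ^ a) (hq0' : 0 ≤ q') (hq' : q' ≤ x ^ b)
    (ha1 : (498 : ℝ) / 1000 - 1 / 100000 ≤ a) (ha2 : a ≤ (501 : ℝ) / 1000 + 1 / 100000)
    (hb1 : (498 : ℝ) / 1000 - 1 / 100000 ≤ b) (hb2 : b ≤ (501 : ℝ) / 1000 + 1 / 100000)
    (hγ0 : 0 ≤ γ) (hγ : γ ≤ 1 / 800) (hMa : a ≤ M) (hMb : b ≤ M) (hM : M = a ∨ M = b)
    (hs0 : 0 ≤ s) (hs1 : 2 * (a + b - 1) ≤ s) (hs : s = 0 ∨ s = 2 * (a + b - 1))
    (hH1 : x ^ ((1 : ℝ) / 4000 + s) ≤ H) (hH2 : H ≤ x ^ ((1 : ℝ) / 4000 + s + 1 / 100000))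
    (hP1l : x ^ (a - 1 / 100000 - γ) ≤ P1) (hP1u : P1 ≤ x ^ (a - γ))
    (hP2l : x ^ (b - 1 / 100000 - γ) ≤ P2) (hP2u : P2 ≤ x ^ (b - γ)) :
    16 * f * (q * q') ^ 2 / (x * H) + 6 * H * x * (C * (4 * H * x) ^ ((1 : ℝ) / 100000) *
      (f * (P1 + P2)) ^ ((1 : ℝ) / 100000) * f ^ 6 * ((P1 + P2) ^ ((2 : ℝ) - 1 / 65) / (P1 * P2)) *
      (1 + 4 * H * x / (P1 * P2)) ^ ((1 : ℝ) / 4) + 1 / P1 + 1 / P2) ≤ 4 * x ^ ((1 : ℝ) - 1 / 5000) := by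
  have hx0 : 0 < x := by linarith
  have hH0 : 0 < H := lt_of_lt_of_le (Real.rpow_pos_of_pos hx0 _) hH1
  have hP1 : 0 < P1 := lt_of_lt_of_le (Real.rpow_pos_of_pos hx0 _) hP1l
  have hP2 : 0 < P2 := lt_of_lt_of_le (Real.rpow_pos_of_pos hx0 _) hP2l
  have hf0 : 0 < f := by linarith
  have hxx : x ≤ x ^ (1 : ℝ) := by rw [Real.rpow_one]
  have hxx' : x ^ (1 : ℝ) ≤ x := by rw [Real.rpow_one]
  -- first term
  have t1 : 16 * f * (q * q') ^ 2 / (x * H) ≤ x ^ ((1 : ℝ) - 1 / 5000) := by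
    have e1 : 16 * f * (q * q') ^ 2 / (x * H) = 16 * f * ((q * q') * (q * q')) * (1 / (x * H)) := by ring
    have e2 : 16 * f ≤ x ^ ((1 : ℝ) / 100000 + 1 / 100000) := Og7_mul hx0 h16 hf0.le hf
    have e3 : q * q' ≤ x ^ (a + b) := Og7_mul hx0 hq hq0' hq'
    have e4 : (q * q') * (q * q') ≤ x ^ (a + b + (a + b)) := Og7_mul hx0 e3 (by positivity) e3
    have e5 : x ^ ((1 : ℝ) + (1 / 4000 + s)) ≤ x * H := by
      rw [Real.rpow_add hx0]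
      exact mul_le_mul hxx' hH1 (Real.rpow_nonneg hx0.le _) hx0.le
    have e6 := Og7_mul hx0 (Og7_mul hx0 e2 (by positivity) e4) (by positivity : 0 ≤ 1 / (x * H)) (Og7_inv hx0 e5)
    rw [e1]
    refine e6.trans (Og7_mono hx ?_)
    linarith
  -- the factors
  have h6 : (6 : ℝ) ≤ x ^ ((1 : ℝ) / 100000) := by linarith
  have h4 : (4 : ℝ) ≤ x ^ ((1 : ℝ) / 100000) := by linarith
  have h2 : (2 : ℝ) ≤ x ^ ((1 : ℝ) / 100000) := by linarith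
  have F0 : 6 * H * x ≤ x ^ ((1 : ℝ) / 100000 + (1 / 4000 + s + 1 / 100000) + 1) :=
    Og7_mul hx0 (Og7_mul hx0 h6 hH0.le hH2) hx0.le hxx
  have F0' : 4 * H * x ≤ x ^ ((1 : ℝ) / 100000 + (1 / 4000 + s + 1 / 100000) + 1) :=
    Og7_mul hx0 (Og7_mul hx0 h4 hH0.le hH2) hx0.le hxx
  have F2 := Og7_pow (r := (1 : ℝ) / 100000) hx0 (by positivity) F0' (by norm_num)
  have hPP : P1 + P2 ≤ x ^ ((1 : ℝ) / 100000 + (M - γ)) := by
    have g1 : P1 ≤ x ^ (M - γ) := hP1u.trans (Og7_mono hx (by linarith))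
    have g2 : P2 ≤ x ^ (M - γ) := hP2u.trans (Og7_mono hx (by linarith))
    calc P1 + P2 ≤ 2 * x ^ (M - γ) := by linarith
      _ ≤ x ^ ((1 : ℝ) / 100000 + (M - γ)) := Og7_mul hx0 h2 (Real.rpow_nonneg hx0.le _) le_rfl
  have F3 := Og7_pow (r := (1 : ℝ) / 100000) hx0 (by positivity) (Og7_mul hx0 hf (by positivity) hPP) (by norm_num)
  have F4 : f ^ 6 ≤ x ^ ((1 : ℝ) / 100000 * 6) := by
    have := Og7_pow (r := (6 : ℝ)) hx0 hf0.le hf (by norm_num)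
    rw [← Real.rpow_natCast f 6]
    exact_mod_cast this
  have F5 := Og7_pow (r := (2 : ℝ) - 1 / 65) hx0 (by positivity) hPP (by norm_num)
  have hPPl : x ^ (a - 1 / 100000 - γ + (b - 1 / 100000 - γ)) ≤ P1 * P2 := by
    rw [Real.rpow_add hx0]
    exact mul_le_mul hP1l hP2l (Real.rpow_nonneg hx0.le _) hP1.le
  have F5' := Og7_inv hx0 hPPl
  have F5'' := Og7_mul hx0 F5 (by positivity) F5'
  have F6 : (1 + 4 * H * x / (P1 * P2)) ≤ x ^ ((1 : ℝ) / 100000 + ((1 : ℝ) / 100000 + (1 / 4000 + s + 1 / 100000) + 1 +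
      -(a - 1 / 100000 - γ + (b - 1 / 100000 - γ)))) := by
    have g1 : 4 * H * x / (P1 * P2) ≤ x ^ ((1 : ℝ) / 100000 + (1 / 4000 + s + 1 / 100000) + 1 +
        -(a - 1 / 100000 - γ + (b - 1 / 100000 - γ))) := by
      have e1 : 4 * H * x / (P1 * P2) = 4 * H * x * (1 / (P1 * P2)) := by ring
      rw [e1]
      exact Og7_mul hx0 F0' (by positivity) F5'
    have g2 : (1 : ℝ) ≤ x ^ ((1 : ℝ) / 100000 + (1 / 4000 + s + 1 / 100000) + 1 +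
        -(a - 1 / 100000 - γ + (b - 1 / 100000 - γ))) := Real.one_le_rpow hx (by linarith)
    refine le_trans ?_ (Og7_mul hx0 h2 (Real.rpow_nonneg hx0.le _) le_rfl)
    linarith
  have F6' := Og7_pow (r := (1 : ℝ) / 4) hx0 (by positivity) F6 (by norm_num)
  -- second term
  have t2 : 6 * H * x * (C * (4 * H * x) ^ ((1 : ℝ) / 100000) *
      (f * (P1 + P2)) ^ ((1 : ℝ) / 100000) * f ^ 6 * ((P1 + P2) ^ ((2 : ℝ) - 1 / 65) / (P1 * P2)) *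
      (1 + 4 * H * x / (P1 * P2)) ^ ((1 : ℝ) / 4)) ≤ x ^ ((1 : ℝ) - 1 / 5000) := by
    have e1 : (P1 + P2) ^ ((2 : ℝ) - 1 / 65) / (P1 * P2) = (P1 + P2) ^ ((2 : ℝ) - 1 / 65) * (1 / (P1 * P2)) := by ring
    rw [e1]
    have g1 := Og7_mul hx0 hC (by positivity) F2
    have g2 := Og7_mul hx0 g1 (by positivity) F3
    have g3 := Og7_mul hx0 g2 (by positivity) F4
    have g4 := Og7_mul hx0 g3 (by positivity) F5''
    have g5 := Og7_mul hx0 g4 (by positivity) F6'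
    have g6 := Og7_mul hx0 F0 (by positivity) g5
    refine g6.trans (Og7_mono hx ?_)
    rcases hM with rfl | rfl <;> rcases hs with rfl | rfl <;> linarith
  have t3 : 6 * H * x * (1 / P1) ≤ x ^ ((1 : ℝ) - 1 / 5000) := by
    refine (Og7_mul hx0 F0 (by positivity) (Og7_inv hx0 hP1l)).trans (Og7_mono hx ?_)
    rcases hs with rfl | rfl <;> linarith
  have t4 : 6 * H * x * (1 / P2) ≤ x ^ ((1 : ℝ) - 1 / 5000) := by
    refine (Og7_mul hx0 F0 (by positivity) (Og7_inv hx0 hP2l)).trans (Og7_mono hx ?_)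
    rcases hs with rfl | rfl <;> linarith
  have e : 6 * H * x * (C * (4 * H * x) ^ ((1 : ℝ) / 100000) *
      (f * (P1 + P2)) ^ ((1 : ℝ) / 100000) * f ^ 6 * ((P1 + P2) ^ ((2 : ℝ) - 1 / 65) / (P1 * P2)) *
      (1 + 4 * H * x / (P1 * P2)) ^ ((1 : ℝ) / 4) + 1 / P1 + 1 / P2) =
      6 * H * x * (C * (4 * H * x) ^ ((1 : ℝ) / 100000) *
      (f * (P1 + P2)) ^ ((1 : ℝ) / 100000) * f ^ 6 * ((P1 + P2) ^ ((2 : ℝ) - 1 / 65) / (P1 * P2)) *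
      (1 + 4 * H * x / (P1 * P2)) ^ ((1 : ℝ) / 4)) + 6 * H * x * (1 / P1) + 6 * H * x * (1 / P2) := by ring
  rw [e]
  linarith

/-- the quotient P = Q / g -/
private lemma Og7_quot {x a γ : ℝ} {Q g : ℕ} (hx : 1 ≤ x) (h2 : 2 ≤ x ^ ((1 : ℝ) / 100000)) (hg : 1 ≤ g) (hgQ : g ≤ Q)
    (ha : x ^ a = Q) (hγ : x ^ γ = g) :
    x ^ (a - 1 / 100000 - γ) ≤ ((Q / g : ℕ) : ℝ) ∧ ((Q / g : ℕ) : ℝ) ≤ x ^ (a - γ) := by
  have hx0 : 0 < x := by linarith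
  have hg0 : (0 : ℝ) < g := by exact_mod_cast hg
  constructor
  · refine le_trans ?_ (Og7_div hg hgQ)
    rw [le_div_iff₀ (by positivity), ← ha, ← hγ]
    have e1 : x ^ (a - 1 / 100000 - γ) * (2 * x ^ γ) = 2 * x ^ (a - 1 / 100000) := by
      rw [mul_left_comm, ← Real.rpow_add hx0]
      congr 2
      ring
    rw [e1]
    have e2 := Og7_mul hx0 h2 (Real.rpow_nonneg hx0.le _) (le_refl (x ^ (a - 1 / 100000)))
    refine e2.trans (Og7_mono hx ?_)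
    linarith
  · refine Nat.cast_div_le.trans ?_
    rw [Real.rpow_sub hx0, ha, hγ]

/-- the exponent of Q -/
private lemma Og7_exp {N Q : ℕ} (hN : (1 : ℝ) < N) (h2 : 2 ≤ (N : ℝ) ^ ((1 : ℝ) / 100000)) (h1 : RR N ≤ Q)
    (hQ : (Q : ℝ) ≤ 2 * (N : ℝ) ^ ((1 : ℝ) / 2 + 1 / 1000)) :
    1 ≤ Q ∧ ∃ a : ℝ, (N : ℝ) ^ a = Q ∧ (498 : ℝ) / 1000 - 1 / 100000 ≤ a ∧ a ≤ (501 : ℝ) / 1000 + 1 / 100000 := by
  have hx0 : (0 : ℝ) < N := by linarith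
  have hRR : (N : ℝ) ^ ((1 : ℝ) / 2 - 1 / 500) / 2 ≤ (RR N : ℝ) :=
    Og7_floor (Real.one_le_rpow hN.le (by norm_num))
  have hlow : (N : ℝ) ^ ((1 : ℝ) / 2 - 1 / 500) / 2 ≤ (Q : ℝ) := hRR.trans (by exact_mod_cast h1)
  have hQ0 : (0 : ℝ) < Q := lt_of_lt_of_le (by positivity) hlow
  refine ⟨by exact_mod_cast hQ0, Real.logb N Q, Real.rpow_logb hx0 hN.ne' hQ0, ?_, ?_⟩
  · rw [Real.le_logb_iff_rpow_le hN hQ0]
    refine le_trans ?_ hlow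
    rw [le_div_iff₀ (by norm_num : (0 : ℝ) < 2)]
    calc (N : ℝ) ^ ((498 : ℝ) / 1000 - 1 / 100000) * 2 ≤
          (N : ℝ) ^ ((498 : ℝ) / 1000 - 1 / 100000) * (N : ℝ) ^ ((1 : ℝ) / 100000) :=
          mul_le_mul_of_nonneg_left h2 (Real.rpow_nonneg hx0.le _)
      _ = (N : ℝ) ^ ((1 : ℝ) / 2 - 1 / 500) := by
          rw [← Real.rpow_add hx0]
          norm_num
  · rw [Real.logb_le_iff_le_rpow hN hQ0]
    refine hQ.trans ?_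
    have e := Og7_mul hx0 h2 (Real.rpow_nonneg hx0.le _) (le_refl ((N : ℝ) ^ ((1 : ℝ) / 2 + 1 / 1000)))
    refine e.trans (Og7_mono hN.le ?_)
    norm_num

theorem tOg7 : Og7Stmt := by
  intro C hC
  have hlim : Filter.Tendsto (fun N : ℕ => (N : ℝ) ^ ((1 : ℝ) / 100000)) Filter.atTop Filter.atTop :=
    (tendsto_rpow_atTop (by norm_num)).comp tendsto_natCast_atTop_atTop
  obtain ⟨N0, hN0⟩ := Filter.eventually_atTop.1 (hlim.eventually_ge_atTop (max 16 C))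
  refine ⟨4, N0, by norm_num, ?_⟩
  intro N Q Q' f hN hN1 hf1 hf hRQ hRQ' hQ hQ'
  have hbig := hN0 N hN
  have h16 : (16 : ℝ) ≤ (N : ℝ) ^ ((1 : ℝ) / 100000) := (le_max_left _ _).trans hbig
  have hCx : C ≤ (N : ℝ) ^ ((1 : ℝ) / 100000) := (le_max_right _ _).trans hbig
  have hx : (1 : ℝ) < N := by
    rcases Nat.lt_or_ge 1 N with h | h
    · exact_mod_cast h
    · exfalso
      have h1 : N = 1 := by omega
      rw [h1, Nat.cast_one, Real.one_rpow] at h16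
      norm_num at h16
  have hx0 : (0 : ℝ) < N := by linarith
  have h2 : (2 : ℝ) ≤ (N : ℝ) ^ ((1 : ℝ) / 100000) := by linarith
  obtain ⟨hQ1, a, ha, ha1, ha2⟩ := Og7_exp hx h2 hRQ hQ
  obtain ⟨hQ1', b, hb, hb1, hb2⟩ := Og7_exp hx h2 hRQ' hQ'
  obtain ⟨s, hs0, hs1, hs⟩ : ∃ s : ℝ, 0 ≤ s ∧ 2 * (a + b - 1) ≤ s ∧ (s = 0 ∨ s = 2 * (a + b - 1)) := by
    rcases le_total (2 * (a + b - 1)) 0 with h | h
    · exact ⟨0, le_rfl, h, Or.inl rfl⟩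
    · exact ⟨2 * (a + b - 1), h, le_rfl, Or.inr rfl⟩
  obtain ⟨M, hMa, hMb, hM⟩ : ∃ M : ℝ, a ≤ M ∧ b ≤ M ∧ (M = a ∨ M = b) := by
    rcases le_total a b with h | h
    · exact ⟨b, h, le_rfl, Or.inr rfl⟩
    · exact ⟨a, le_rfl, h, Or.inl rfl⟩
  obtain ⟨H, hHdef⟩ : ∃ H : ℕ, H = ⌊(N : ℝ) ^ ((1 : ℝ) / 4000 + s)⌋₊ + 1 := ⟨_, rfl⟩
  have hH1 : (N : ℝ) ^ ((1 : ℝ) / 4000 + s) ≤ (H : ℝ) := by
    rw [hHdef]
    push_cast
    exact (Nat.lt_floor_add_one _).le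
  have hH2 : (H : ℝ) ≤ (N : ℝ) ^ ((1 : ℝ) / 4000 + s + 1 / 100000) := by
    have e1 : (⌊(N : ℝ) ^ ((1 : ℝ) / 4000 + s)⌋₊ : ℝ) ≤ (N : ℝ) ^ ((1 : ℝ) / 4000 + s) :=
      Nat.floor_le (Real.rpow_nonneg hx0.le _)
    have e2 : 1 ≤ (N : ℝ) ^ ((1 : ℝ) / 4000 + s) := Real.one_le_rpow hx.le (by linarith)
    have e3 : (H : ℝ) ≤ (N : ℝ) ^ ((1 : ℝ) / 4000 + s) * 2 := by
      rw [hHdef]
      push_cast
      linarith
    refine e3.trans ?_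
    rw [Real.rpow_add hx0 ((1 : ℝ) / 4000 + s)]
    exact mul_le_mul_of_nonneg_left h2 (Real.rpow_nonneg hx0.le _)
  refine ⟨hQ1, hQ1', H, by omega, ?_⟩
  intro g hg hgN
  have hg0 : (0 : ℝ) < g := by exact_mod_cast hg
  obtain ⟨γ, hγ, hγ0, hγ1⟩ : ∃ γ : ℝ, (N : ℝ) ^ γ = g ∧ 0 ≤ γ ∧ γ ≤ 1 / 800 := by
    refine ⟨Real.logb N g, Real.rpow_logb hx0 hx.ne' hg0, Real.logb_nonneg hx (by exact_mod_cast hg), ?_⟩
    rw [Real.logb_le_iff_le_rpow hx hg0]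
    exact hgN
  have hgQ : g ≤ Q := by
    have : (g : ℝ) ≤ Q := by
      rw [← hγ, ← ha]
      exact Og7_mono hx.le (by linarith)
    exact_mod_cast this
  have hgQ' : g ≤ Q' := by
    have : (g : ℝ) ≤ Q' := by
      rw [← hγ, ← hb]
      exact Og7_mono hx.le (by linarith)
    exact_mod_cast this
  obtain ⟨p1, p2⟩ := Og7_quot hx.le h2 hg hgQ ha hγ
  obtain ⟨p3, p4⟩ := Og7_quot hx.le h2 hg hgQ' hb hγ
  refine ⟨hgQ, hgQ', ?_, ?_⟩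
  · have h3 : 2 * (H : ℝ) * g ≤ (Q : ℝ) * Q' := by
      have e1 := Og7_mul hx0 (Og7_mul hx0 h2 (Nat.cast_nonneg H) hH2) hg0.le hγ.ge
      have e2 : (Q : ℝ) * Q' = (N : ℝ) ^ (a + b) := by rw [Real.rpow_add hx0, ha, hb]
      rw [e2]
      refine e1.trans (Og7_mono hx.le ?_)
      rcases hs with h | h
      · rw [h]
        linarith
      · rw [h]
        linarith
    exact_mod_cast h3
  · have hf1' : (1 : ℝ) ≤ f := by exact_mod_cast hf1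
    have := Og7_core hx.le h16 hC hCx hf1' hf (Nat.cast_nonneg Q) ha.ge (Nat.cast_nonneg Q') hb.ge ha1 ha2 hb1 hb2
      hγ0 hγ1 hMa hMb hM hs0 hs1 hs hH1 hH2 p1 p2 p3 p4
    unfold Bd
    exact this

end Pool.Agent.Lib.TP
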