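import Pool.Agent.Lib.TP.SpecO

/-!
MP_00e23e_nt, Lib/TP, module Omb: bound of the main terms for the whole range.
-/

namespace Pool.Agent.Lib.TP

open Finset Pool.Agent.Lib.EH3 Pool.Agent.Lib.TB

/-- `∑_{e | (s, m)} e` -/
private noncomputable def Omb_B (m : ℤ) (s : ℕ) : ℝ :=
  ∑ e ∈ s.divisors, if (e : ℤ) ∣ m then (e : ℝ) else 0

private lemma Omb_B_nonneg (m : ℤ) (s : ℕ) : 0 ≤ Omb_B m s := by
  refine sum_nonneg fun e _ => ?_
  split_ifs
  · exact e.cast_nonneg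
  · exact le_rfl

private lemma Omb_rs (m : ℤ) (s : ℕ) : |rs s m| ≤ Omb_B m s := by
  refine (abs_sum_le_sum_abs _ _).trans (sum_le_sum fun e _ => ?_)
  split_ifs
  · rw [abs_mul, Nat.abs_cast]
    have h : |((ArithmeticFunction.moebius (s / e) : ℤ) : ℝ)| ≤ 1 := by
      rw [← Int.cast_abs]
      exact_mod_cast ArithmeticFunction.abs_moebius_le_one
    exact mul_le_of_le_one_right e.cast_nonneg h
  · rw [abs_zero]

private lemma Omb_tail (e R M : ℕ) (he : 1 ≤ e) (hR : 1 ≤ R) :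
    ∑ s ∈ (Ioc R M).filter (fun s => e ∣ s), (e : ℝ) / (s : ℝ) ^ 2 ≤ 2 / (R : ℝ) := by
  have he0 : (0 : ℝ) < e := by exact_mod_cast he
  have hR0 : (0 : ℝ) < R := by exact_mod_cast hR
  have h1 : (Ioc R M).filter (fun s => e ∣ s) ⊆
      (Ioo (R / e) (M + 1)).image (fun k => e * k) := by
    intro s hs
    rw [mem_filter, mem_Ioc] at hs
    obtain ⟨⟨h1, h2⟩, k, rfl⟩ := hs
    refine mem_image_of_mem _ (mem_Ioo.2 ⟨(Nat.div_lt_iff_lt_mul (by omega)).2 (by
      rwa [mul_comm]), ?_⟩)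
    have h3 : k ≤ e * k := Nat.le_mul_of_pos_left k (by omega)
    omega
  refine (sum_le_sum_of_subset_of_nonneg h1 fun s _ _ => by positivity).trans ?_
  rw [sum_image (fun a _ b _ h => Nat.eq_of_mul_eq_mul_left (show 0 < e by omega) h)]
  have h2 : ∀ k ∈ Ioo (R / e) (M + 1), (e : ℝ) / ((e * k : ℕ) : ℝ) ^ 2 =
      (1 / (e : ℝ)) * ((k : ℝ) ^ 2)⁻¹ := by
    intro k hk
    rw [mem_Ioo] at hk
    have hk0 : (0 : ℝ) < k := by
      have : 0 < k := lt_of_le_of_lt (Nat.zero_le _) hk.1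
      exact_mod_cast this
    push_cast
    field_simp
  rw [sum_congr rfl h2, ← mul_sum]
  have h3 : (R : ℝ) / e ≤ ((R / e : ℕ) : ℝ) + 1 := by
    rw [div_le_iff₀ he0]
    have h4 := (Nat.lt_mul_div_succ R (show 0 < e by omega)).le
    have h5 : (R : ℝ) ≤ (e : ℝ) * (((R / e : ℕ) : ℝ) + 1) := by exact_mod_cast h4
    linarith
  have h6 : (2 : ℝ) / (((R / e : ℕ) : ℝ) + 1) ≤ 2 / ((R : ℝ) / e) :=
    div_le_div_of_nonneg_left (by norm_num) (by positivity) h3
  calc (1 / (e : ℝ)) * ∑ k ∈ Ioo (R / e) (M + 1), ((k : ℝ) ^ 2)⁻¹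
      ≤ (1 / (e : ℝ)) * (2 / (((R / e : ℕ) : ℝ) + 1)) :=
        mul_le_mul_of_nonneg_left (sum_Ioo_inv_sq_le _ _) (by positivity)
    _ ≤ (1 / (e : ℝ)) * (2 / ((R : ℝ) / e)) := mul_le_mul_of_nonneg_left h6 (by positivity)
    _ = 2 / (R : ℝ) := by field_simp

private lemma Omb_sum (R M : ℕ) (m : ℤ) (hR : 1 ≤ R) (hm : m ≠ 0) :
    ∑ s ∈ Ioc R M, Omb_B m s / (s : ℝ) ^ 2 ≤ (m.natAbs.divisors.card : ℝ) * (2 / (R : ℝ)) := by
  have h1 : ∀ s ∈ Ioc R M, Omb_B m s / (s : ℝ) ^ 2 ≤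
      ∑ e ∈ m.natAbs.divisors, if e ∣ s then (e : ℝ) / (s : ℝ) ^ 2 else 0 := by
    intro s hs
    rw [mem_Ioc] at hs
    rw [Omb_B, sum_div, ← sum_filter]
    have h2 : ∀ e ∈ s.divisors, (if (e : ℤ) ∣ m then (e : ℝ) else 0) / (s : ℝ) ^ 2 =
        if (e : ℤ) ∣ m then (e : ℝ) / (s : ℝ) ^ 2 else 0 := by
      intro e _
      split_ifs
      · rfl
      · rw [zero_div]
    rw [sum_congr rfl h2, ← sum_filter]
    refine sum_le_sum_of_subset_of_nonneg ?_ fun e _ _ => by positivity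
    intro e he
    rw [mem_filter, Nat.mem_divisors] at he ⊢
    exact ⟨⟨Int.natCast_dvd.1 he.2, Int.natAbs_ne_zero.2 hm⟩, he.1.1⟩
  refine (sum_le_sum h1).trans ?_
  rw [sum_comm, ← nsmul_eq_mul]
  refine sum_le_card_nsmul _ _ _ fun e he => ?_
  rw [← sum_filter]
  exact Omb_tail e R M (Nat.pos_of_mem_divisors he) hR

private lemma Omb_harm (D : ℕ) : ∑ k ∈ Icc 1 D, (1 : ℝ) / k ≤ 1 + Real.log D := by
  have h := harmonic_le_one_add_log D
  rw [harmonic_eq_sum_Icc] at h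
  push_cast at h
  simpa [one_div] using h

private lemma Omb_mult (R D s : ℕ) (hs : 1 ≤ s) :
    ∑ d ∈ (Ioc R D).filter (fun d => s ∣ d), 1 / (d : ℝ) ≤ (1 + Real.log D) / s := by
  have hs0 : (0 : ℝ) < s := by exact_mod_cast hs
  have h1 : (Ioc R D).filter (fun d => s ∣ d) ⊆ (Icc 1 D).image (fun k => s * k) := by
    intro d hd
    rw [mem_filter, mem_Ioc] at hd
    obtain ⟨⟨h1, h2⟩, k, rfl⟩ := hd
    refine mem_image_of_mem _ (mem_Icc.2 ⟨?_, ?_⟩)
    · rcases Nat.eq_zero_or_pos k with h | h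
      · rw [h, mul_zero] at h1
        omega
      · exact h
    · have h3 : k ≤ s * k := Nat.le_mul_of_pos_left k (by omega)
      omega
  refine (sum_le_sum_of_subset_of_nonneg h1 fun s _ _ => by positivity).trans ?_
  rw [sum_image (fun a _ b _ h => Nat.eq_of_mul_eq_mul_left (show 0 < s by omega) h)]
  have h2 : ∀ k ∈ Icc 1 D, (1 : ℝ) / ((s * k : ℕ) : ℝ) = (1 / (s : ℝ)) * (1 / k) := by
    intro k _
    push_cast
    rw [one_div_mul_one_div]
  rw [sum_congr rfl h2, ← mul_sum]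
  calc (1 / (s : ℝ)) * ∑ k ∈ Icc 1 D, (1 : ℝ) / k ≤ (1 / (s : ℝ)) * (1 + Real.log D) :=
        mul_le_mul_of_nonneg_left (Omb_harm D) (by positivity)
    _ = (1 + Real.log D) / s := by ring

/-- bound of the main terms for the whole range -/
theorem tOmb : OmbStmt := by
  intro N R D m hR hD hm
  have hR0 : (0 : ℝ) < R := by exact_mod_cast hR
  have hL : 0 ≤ 1 + Real.log D := by
    have : 0 ≤ Real.log D := Real.log_nonneg (by exact_mod_cast hD)
    linarith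
  -- the factor of one variable
  set g : ℕ → ℕ → ℝ := fun s d => if s ∣ d then 1 / (d : ℝ) else 0 with hg
  have h2 : ∀ d ∈ Ioc R D, ∀ d' ∈ Ioc R D, |((N : ℝ) / ((d : ℝ) * d')) *
      ∑ s ∈ (Nat.gcd d d').divisors.filter (fun s => R < s), rs s m| ≤
      ∑ s ∈ Ioc R D, (N : ℝ) * Omb_B m s * (g s d * g s d') := by
    intro d hd d' hd'
    rw [mem_Ioc] at hd hd'
    have hd0 : (0 : ℝ) < d := by
      have : 0 < d := by omega
      exact_mod_cast this
    have hd0' : (0 : ℝ) < d' := by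
      have : 0 < d' := by omega
      exact_mod_cast this
    rw [abs_mul, abs_of_nonneg (show (0 : ℝ) ≤ (N : ℝ) / ((d : ℝ) * d') by positivity)]
    have h3 : |∑ s ∈ (Nat.gcd d d').divisors.filter (fun s => R < s), rs s m| ≤
        ∑ s ∈ (Nat.gcd d d').divisors.filter (fun s => R < s), Omb_B m s :=
      (abs_sum_le_sum_abs _ _).trans (sum_le_sum fun s _ => Omb_rs m s)
    refine (mul_le_mul_of_nonneg_left h3 (by positivity)).trans ?_
    rw [mul_sum]
    have h4 : ∀ s ∈ (Nat.gcd d d').divisors.filter (fun s => R < s),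
        (N : ℝ) / ((d : ℝ) * d') * Omb_B m s = (N : ℝ) * Omb_B m s * (g s d * g s d') := by
      intro s hs
      rw [mem_filter, Nat.mem_divisors, Nat.dvd_gcd_iff] at hs
      simp only [hg, if_pos hs.1.1.1, if_pos hs.1.1.2]
      field_simp
    rw [sum_congr rfl h4]
    refine sum_le_sum_of_subset_of_nonneg ?_ fun s _ _ => ?_
    · intro s hs
      rw [mem_filter, Nat.mem_divisors, Nat.dvd_gcd_iff] at hs
      rw [mem_Ioc]
      have h5 := Nat.le_of_dvd (by omega) hs.1.1.1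
      exact ⟨hs.2, by omega⟩
    · have h5 : ∀ t, 0 ≤ g s t := by
        intro t
        simp only [hg]
        split_ifs
        · positivity
        · exact le_rfl
      exact mul_nonneg (mul_nonneg N.cast_nonneg (Omb_B_nonneg m s)) (mul_nonneg (h5 d) (h5 d'))
  have h3 : ∑ d ∈ Ioc R D, ∑ d' ∈ Ioc R D, |((N : ℝ) / ((d : ℝ) * d')) *
      ∑ s ∈ (Nat.gcd d d').divisors.filter (fun s => R < s), rs s m| ≤
      ∑ s ∈ Ioc R D, (N : ℝ) * Omb_B m s *
        ((∑ d ∈ Ioc R D, g s d) * ∑ d' ∈ Ioc R D, g s d') := by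
    refine (sum_le_sum fun d hd => sum_le_sum fun d' hd' => h2 d hd d' hd').trans_eq ?_
    calc ∑ d ∈ Ioc R D, ∑ d' ∈ Ioc R D, ∑ s ∈ Ioc R D,
          (N : ℝ) * Omb_B m s * (g s d * g s d')
        = ∑ d ∈ Ioc R D, ∑ s ∈ Ioc R D, ∑ d' ∈ Ioc R D,
          (N : ℝ) * Omb_B m s * (g s d * g s d') := sum_congr rfl fun d _ => sum_comm
      _ = ∑ s ∈ Ioc R D, ∑ d ∈ Ioc R D, ∑ d' ∈ Ioc R D,
          (N : ℝ) * Omb_B m s * (g s d * g s d') := sum_comm
      _ = _ := by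
          refine sum_congr rfl fun s _ => ?_
          rw [sum_mul_sum, mul_sum]
          refine sum_congr rfl fun d _ => ?_
          rw [mul_sum]
  refine h3.trans ?_
  have h4 : ∀ s ∈ Ioc R D, (N : ℝ) * Omb_B m s *
      ((∑ d ∈ Ioc R D, g s d) * ∑ d' ∈ Ioc R D, g s d') ≤
      (1 + Real.log D) ^ 2 * (N : ℝ) * (Omb_B m s / (s : ℝ) ^ 2) := by
    intro s hs
    rw [mem_Ioc] at hs
    have hs0 : (0 : ℝ) < s := by
      have : 0 < s := by omega
      exact_mod_cast this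
    have h5 : ∑ d ∈ Ioc R D, g s d ≤ (1 + Real.log D) / (s : ℝ) := by
      simp only [hg]
      rw [← sum_filter]
      exact Omb_mult R D s (by omega)
    have h6 : 0 ≤ ∑ d ∈ Ioc R D, g s d := by
      refine sum_nonneg fun t _ => ?_
      simp only [hg]
      split_ifs
      · positivity
      · exact le_rfl
    have h7 := mul_le_mul h5 h5 h6 (by positivity)
    refine (mul_le_mul_of_nonneg_left h7
      (mul_nonneg N.cast_nonneg (Omb_B_nonneg m s))).trans_eq ?_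
    field_simp
  refine (sum_le_sum h4).trans ?_
  rw [← mul_sum]
  have h5 := Omb_sum R D m hR hm
  refine (mul_le_mul_of_nonneg_left h5 (by positivity)).trans ?_
  rw [le_div_iff₀ hR0]
  have h6 : (1 + Real.log D) ^ 2 * (N : ℝ) * ((m.natAbs.divisors.card : ℝ) * (2 / (R : ℝ))) * R =
      2 * ((1 + Real.log D) ^ 2 * (N : ℝ) * (m.natAbs.divisors.card : ℝ)) := by
    field_simp
  rw [h6]
  have h7 : (0 : ℝ) ≤ (1 + Real.log D) ^ 2 * (N : ℝ) * (m.natAbs.divisors.card : ℝ) := by positivity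
  nlinarith

end Pool.Agent.Lib.TP
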