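import Pool.Agent.Lib.TP.SpecO

/-!
MP_00e23e_nt, directory Lib/TP, module Osb: bounds of the error term of a pair of congruences.
-/

namespace Pool.Agent.Lib.TP

open Finset Pool.Agent.Lib.EH3 Pool.Agent.Lib.TB

private lemma Osb_tri (N : ℕ) (n : ℤ) : 0 ≤ tri N n ∧ tri N n ≤ 1 := by
  unfold tri
  refine ⟨le_max_left _ _, max_le zero_le_one ?_⟩
  have : 0 ≤ |(n : ℝ)| / (N : ℝ) := by positivity
  linarith

private lemma Osb_cl_nonneg (N q : ℕ) (ν : ℤ) : 0 ≤ cl N q ν := by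
  unfold cl
  refine Finset.sum_nonneg fun n _ => mul_nonneg (Osb_tri N n).1 ?_
  split_ifs <;> norm_num

private lemma Osb_count (N q : ℕ) (ν : ℤ) (hq : 1 ≤ q) :
    (((Icc (-(N : ℤ)) N).filter (fun n => (q : ℤ) ∣ n - ν)).card : ℝ) ≤ (2 * (N : ℝ) + 1) / q + 1 := by
  have hq0 : (0 : ℤ) < (q : ℤ) := by exact_mod_cast hq
  have hsub : (Icc (-(N : ℤ)) N).filter (fun n => (q : ℤ) ∣ n - ν) ⊆
      (Ioc (-(N : ℤ) - 1) N).filter (fun n => n ≡ ν [ZMOD (q : ℤ)]) := by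
    intro n hn
    rw [mem_filter, mem_Icc] at hn
    rw [mem_filter, mem_Ioc]
    refine ⟨⟨by omega, hn.1.2⟩, ?_⟩
    exact (Int.modEq_iff_dvd.2 (by
      have h := hn.2
      rwa [← dvd_neg, neg_sub] at h))
  have h1 := Finset.card_le_card hsub
  have h2 := Int.Ioc_filter_modEq_card (-(N : ℤ) - 1) (N : ℤ) hq0 ν
  have h3 : (((Ioc (-(N : ℤ) - 1) (N : ℤ)).filter (fun n => n ≡ ν [ZMOD (q : ℤ)])).card : ℤ) ≤
      max (⌊(((N : ℤ) : ℚ) - ν) / (q : ℤ)⌋ - ⌊((((-(N : ℤ) - 1 : ℤ)) : ℚ) - ν) / (q : ℤ)⌋) 0 := by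
    rw [h2]
  have hqQ : (0 : ℚ) < (q : ℚ) := by exact_mod_cast hq
  have h4 : (((Ioc (-(N : ℤ) - 1) (N : ℤ)).filter (fun n => n ≡ ν [ZMOD (q : ℤ)])).card : ℚ) ≤
      (2 * (N : ℚ) + 1) / q + 1 := by
    have h5 : (((Ioc (-(N : ℤ) - 1) (N : ℤ)).filter (fun n => n ≡ ν [ZMOD (q : ℤ)])).card : ℚ) ≤
        ((max (⌊(((N : ℤ) : ℚ) - ν) / (q : ℤ)⌋ - ⌊((((-(N : ℤ) - 1 : ℤ)) : ℚ) - ν) / (q : ℤ)⌋) 0 : ℤ) : ℚ) := by
      exact_mod_cast h3
    refine h5.trans ?_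
    rw [Int.cast_max]
    refine max_le ?_ ?_
    · rw [Int.cast_sub]
      have a1 := Int.floor_le ((((N : ℤ) : ℚ) - ν) / (q : ℤ))
      have a2 := Int.lt_floor_add_one (((((-(N : ℤ) - 1 : ℤ)) : ℚ) - ν) / (q : ℤ))
      have a3 : (((N : ℤ) : ℚ) - ν) / (q : ℤ) - ((((-(N : ℤ) - 1 : ℤ)) : ℚ) - ν) / (q : ℤ) =
          (2 * (N : ℚ) + 1) / q := by
        push_cast
        field_simp
        ring
      linarith
    · rw [Int.cast_zero]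
      positivity
  have h6 : (((Icc (-(N : ℤ)) N).filter (fun n => (q : ℤ) ∣ n - ν)).card : ℚ) ≤
      (2 * (N : ℚ) + 1) / q + 1 := le_trans (by exact_mod_cast h1) h4
  have h7 : ((((Icc (-(N : ℤ)) N).filter (fun n => (q : ℤ) ∣ n - ν)).card : ℚ) : ℝ) ≤
      (((2 * (N : ℚ) + 1) / q + 1 : ℚ) : ℝ) := by exact_mod_cast h6
  simpa using h7

private lemma Osb_cl_le (N q : ℕ) (ν : ℤ) (hq : 1 ≤ q) : cl N q ν ≤ (2 * (N : ℝ) + 1) / q + 1 := by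
  refine le_trans ?_ (Osb_count N q ν hq)
  unfold cl
  rw [← Finset.sum_boole]
  refine Finset.sum_le_sum fun n _ => ?_
  have h := Osb_tri N n
  split_ifs
  · simpa using h.2
  · simp

/-- a common solution of the three congruences -/
private lemma Osb_sol (f u w : ℕ) (a b : ℤ) (hf : f.Coprime (u * w))
    (hg : ((Nat.gcd u w : ℕ) : ℤ) ∣ a - b) :
    ∃ ν : ℤ, (f : ℤ) ∣ ν ∧ (u : ℤ) ∣ ν - a ∧ (w : ℤ) ∣ ν - b := by
  have hg' : ((Int.gcd (u : ℤ) (w : ℤ) : ℕ) : ℤ) ∣ a - b := by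
    rwa [Int.gcd_natCast_natCast]
  obtain ⟨x, y, hxy⟩ : ∃ x y : ℤ, a - b = (u : ℤ) * x + (w : ℤ) * y := by
    obtain ⟨k, hk⟩ := hg'
    refine ⟨Int.gcdA u w * k, Int.gcdB u w * k, ?_⟩
    rw [hk, Int.gcd_eq_gcd_ab]
    ring
  have hc : IsCoprime (f : ℤ) ((u * w : ℕ) : ℤ) := Nat.isCoprime_iff_coprime.2 hf
  obtain ⟨p, q, hpq⟩ := hc
  push_cast at hpq
  have hpq' : p * (f : ℤ) = 1 - q * ((u : ℤ) * w) := by linarith
  refine ⟨(a - u * x) * (p * f), ⟨(a - u * x) * p, by ring⟩, ?_, ?_⟩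
  · rw [hpq']
    exact ⟨-x - (a - u * x) * q * w, by ring⟩
  · rw [hpq']
    refine ⟨y - (a - u * x) * q * u, ?_⟩
    have : b = a - ((u : ℤ) * x + (w : ℤ) * y) := by linarith
    rw [this]
    ring

/-- bounds of the error term of a pair of congruences -/
theorem tOsb (h1 : OscStmt) (h3 : McbStmt) : OsbStmt := by
  intro N f u w a b hN hf hu hw hcop
  have hN0 : (0 : ℝ) < N := by exact_mod_cast hN
  have hN1 : (1 : ℝ) ≤ N := by exact_mod_cast hN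
  have hl : 1 ≤ Nat.lcm u w := Nat.lcm_pos hu hw
  have hl0 : (0 : ℝ) < (Nat.lcm u w : ℝ) := by exact_mod_cast hl
  by_cases hg : ((Nat.gcd u w : ℕ) : ℤ) ∣ a - b
  · obtain ⟨ν, hν1, hν2, hν3⟩ := Osb_sol f u w a b hcop hg
    obtain ⟨hS, hM⟩ := h1.1 N f u w a b ν hf hu hw hcop hν1 hν2 hν3
    have hq : 1 ≤ f * Nat.lcm u w := Nat.mul_pos hf hl
    have hq0 : (0 : ℝ) < ((f * Nat.lcm u w : ℕ) : ℝ) := by exact_mod_cast hq
    have hql : (Nat.lcm u w : ℝ) ≤ ((f * Nat.lcm u w : ℕ) : ℝ) := by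
      exact_mod_cast Nat.le_mul_of_pos_left _ hf
    unfold Ef
    rw [hS, hM]
    constructor
    · have := h3 N (f * Nat.lcm u w) ν hN hq
      rwa [Nat.cast_mul] at this ⊢
    · have c1 := Osb_cl_nonneg N (f * Nat.lcm u w) ν
      have c2 := Osb_cl_le N (f * Nat.lcm u w) ν hq
      have c3 : (0 : ℝ) ≤ (N : ℝ) / ((f * Nat.lcm u w : ℕ) : ℝ) := by positivity
      have c4 : (2 * (N : ℝ) + 1) / ((f * Nat.lcm u w : ℕ) : ℝ) ≤
          4 * (N : ℝ) / (Nat.lcm u w : ℝ) :=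
        div_le_div₀ (by positivity) (by linarith) hl0 hql
      have c5 : (N : ℝ) / ((f * Nat.lcm u w : ℕ) : ℝ) ≤ 4 * (N : ℝ) / (Nat.lcm u w : ℝ) :=
        div_le_div₀ (by positivity) (by linarith) hl0 hql
      rw [abs_le]
      constructor <;> linarith
  · rw [h1.2 N f u w a b hg, abs_zero]
    constructor <;> positivity

end Pool.Agent.Lib.TP
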