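import Pool.Agent.Lib.TP.SpecO

set_option autoImplicit false

/-! Three congruences are one congruence modulo f times the least common multiple. -/

namespace Pool.Agent.Lib.TP

open Finset Pool.Agent.Lib.EH3 Pool.Agent.Lib.TB

private lemma Osc_lcm (u w : ℕ) (m : ℤ) :
    ((Nat.lcm u w : ℕ) : ℤ) ∣ m ↔ (u : ℤ) ∣ m ∧ (w : ℤ) ∣ m := by
  rw [Int.natCast_dvd, Int.natCast_dvd, Int.natCast_dvd, Nat.lcm_dvd_iff]

private lemma Osc_three (f u w : ℕ) (hf : f.Coprime (u * w)) (m : ℤ) :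
    ((f * Nat.lcm u w : ℕ) : ℤ) ∣ m ↔ (f : ℤ) ∣ m ∧ (u : ℤ) ∣ m ∧ (w : ℤ) ∣ m := by
  have hc : f.Coprime (Nat.lcm u w) := by
    refine Nat.Coprime.coprime_dvd_right ?_ hf
    exact Nat.lcm_dvd_mul u w
  have h1 : ((f * Nat.lcm u w : ℕ) : ℤ) ∣ m ↔ (f : ℤ) ∣ m ∧ ((Nat.lcm u w : ℕ) : ℤ) ∣ m := by
    rw [Int.natCast_dvd, Int.natCast_dvd, Int.natCast_dvd]
    exact ⟨fun h => ⟨(Dvd.intro _ rfl).trans h, (Dvd.intro_left _ rfl).trans h⟩,
      fun h => Nat.Coprime.mul_dvd_of_dvd_of_dvd hc h.1 h.2⟩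
  rw [h1, Osc_lcm]

private lemma Osc_a (N f u w : ℕ) (a b ν : ℤ) (hf : 1 ≤ f) (hu : 1 ≤ u) (hw : 1 ≤ w) (hc : f.Coprime (u * w))
    (hfν : (f : ℤ) ∣ ν) (ha : (u : ℤ) ∣ ν - a) (hb : (w : ℤ) ∣ ν - b) :
    SSf N f u w a b = cl N (f * Nat.lcm u w) ν ∧ MM N u w a b / f = (N : ℝ) / ((f * Nat.lcm u w : ℕ) : ℝ) := by
  constructor
  · unfold SSf cl
    refine sum_congr rfl fun n _ => ?_
    have h : ((f : ℤ) ∣ n ∧ (u : ℤ) ∣ n - a ∧ (w : ℤ) ∣ n - b) ↔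
        ((f * Nat.lcm u w : ℕ) : ℤ) ∣ n - ν := by
      rw [Osc_three f u w hc]
      have e0 : n = (n - ν) + ν := by ring
      have e1 : n - a = (n - ν) + (ν - a) := by ring
      have e2 : n - b = (n - ν) + (ν - b) := by ring
      rw [e1, e2, dvd_add_left ha, dvd_add_left hb]
      constructor
      · rintro ⟨h1, h2⟩
        exact ⟨dvd_sub h1 hfν, h2⟩
      · rintro ⟨h1, h2⟩
        refine ⟨?_, h2⟩
        rw [e0]
        exact dvd_add h1 hfν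
    simp only [h]
  · have hg : ((Nat.gcd u w : ℕ) : ℤ) ∣ a - b := by
      have e : a - b = (ν - b) - (ν - a) := by ring
      rw [e]
      exact dvd_sub ((Int.natCast_dvd_natCast.2 (Nat.gcd_dvd_right u w)).trans hb)
        ((Int.natCast_dvd_natCast.2 (Nat.gcd_dvd_left u w)).trans ha)
    unfold MM
    rw [if_pos hg]
    have h1 : (Nat.gcd u w : ℝ) * (Nat.lcm u w : ℝ) = (u : ℝ) * w := by
      exact_mod_cast Nat.gcd_mul_lcm u w
    have hl : (0 : ℝ) < (Nat.lcm u w : ℝ) := by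
      exact_mod_cast Nat.lcm_pos hu hw
    have hg0 : (0 : ℝ) < (Nat.gcd u w : ℝ) := by
      exact_mod_cast Nat.gcd_pos_of_pos_left w hu
    have hf0 : (0 : ℝ) < (f : ℝ) := by exact_mod_cast hf
    rw [← h1]
    push_cast
    field_simp

private lemma Osc_b (N f u w : ℕ) (a b : ℤ) (hg : ¬ (((Nat.gcd u w : ℕ) : ℤ) ∣ a - b)) :
    Ef N f u w a b = 0 := by
  have h1 : SSf N f u w a b = 0 := by
    unfold SSf
    refine sum_eq_zero fun n _ => ?_
    rw [if_neg, mul_zero]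
    rintro ⟨_, ha, hb⟩
    apply hg
    have e : a - b = (n - b) - (n - a) := by ring
    rw [e]
    exact dvd_sub ((Int.natCast_dvd_natCast.2 (Nat.gcd_dvd_right u w)).trans hb)
      ((Int.natCast_dvd_natCast.2 (Nat.gcd_dvd_left u w)).trans ha)
  have h2 : MM N u w a b = 0 := by
    unfold MM
    rw [if_neg hg]
  unfold Ef
  rw [h1, h2, zero_div, sub_zero]

theorem tOsc : OscStmt := ⟨Osc_a, Osc_b⟩

end Pool.Agent.Lib.TP
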