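import Pool.Agent.Lib.TP.SpecP

/-!
TP module Pbt: the Brun-Titchmarsh inequality for rough moduli in short intervals.
-/

namespace Pool.Agent.Lib.TP

open Finset Pool.Agent.Lib.EH3 Pool.Agent.Lib.TB Pool.Agent.Results.MP_00e23e_nt

/-- The sieve weight at a prime larger than the level. -/
private theorem Pbt_nu {lam : ℕ → ℝ} {E p : ℕ} (hE : 2 ≤ E) (h1 : lam 1 = 1) (hp : p.Prime) (hpE : E < p) :
    nu lam E (p : ℤ) = 1 := by
  unfold nu
  rw [Finset.sum_eq_single 1]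
  · rw [if_pos (by simp), h1]
    norm_num
  · intro e he hne
    rw [if_neg]
    intro hd
    have hd' : e ∣ p := by exact_mod_cast hd
    rcases (Nat.dvd_prime hp).1 hd' with h | h
    · exact hne h
    · rw [Finset.mem_Icc] at he
      omega
  · intro h
    exact absurd (Finset.mem_Icc.2 ⟨le_refl _, by omega⟩) h

/-- The triangular weight of half width `2 Y` on `[1, Y]`. -/
private theorem Pbt_tri {Y : ℕ} (hY : 1 ≤ Y) {n : ℤ} (h0 : 0 ≤ n) (h1 : n ≤ Y) : 1 / 2 ≤ tri (2 * Y) n := by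
  unfold tri
  refine le_trans ?_ (le_max_right _ _)
  have hY0 : (0 : ℝ) < Y := by exact_mod_cast hY
  have h2 : |(n : ℝ)| = n := abs_of_nonneg (by exact_mod_cast h0)
  have h3 : (n : ℝ) ≤ Y := by exact_mod_cast h1
  rw [h2]
  push_cast
  have h4 : (n : ℝ) / (2 * Y) ≤ 1 / 2 := by
    rw [div_le_div_iff₀ (by positivity) (by norm_num)]
    linarith
  linarith

theorem tPbt (h1 : SelStmt) (h2 : SvtStmt) : PbtStmt := by
  classical
  intro E q u Y a hE hq hr hY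
  obtain ⟨lam, hlam⟩ := h1 E hE
  have hsv := h2 (2 * Y) E q lam (a - u) u (by omega) hE hq hlam hr
  obtain ⟨S, hS⟩ : ∃ S, (Ioc u (u + Y)).filter (fun p : ℕ => p.Prime ∧ (q : ℤ) ∣ (p : ℤ) - a) = S := ⟨_, rfl⟩
  have hmem : ∀ p, p ∈ S ↔ (u < p ∧ p ≤ u + Y) ∧ (p.Prime ∧ (q : ℤ) ∣ (p : ℤ) - a) := by
    intro p
    rw [← hS, Finset.mem_filter, Finset.mem_Ioc]
  rw [hS]
  have hsplit : S.card = (S.filter (fun p => p ≤ E)).card + (S.filter (fun p => ¬ p ≤ E)).card :=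
    (Finset.card_filter_add_card_filter_not (fun p => p ≤ E)).symm
  have hsmall : (S.filter (fun p => p ≤ E)).card ≤ E := by
    have h3 : S.filter (fun p => p ≤ E) ⊆ Icc 1 E := by
      intro p hp
      rw [Finset.mem_filter, hmem] at hp
      rw [Finset.mem_Icc]
      exact ⟨hp.1.2.1.one_lt.le, hp.2⟩
    have := Finset.card_le_card h3
    rw [Nat.card_Icc] at this
    omega
  obtain ⟨G, hG⟩ : ∃ G : ℤ → ℝ, G = fun n : ℤ =>
    tri (2 * Y) n * nu lam E (n + u) * (if (q : ℤ) ∣ n - (a - u) then 1 else 0) := ⟨_, rfl⟩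
  have hG0 : ∀ n, 0 ≤ G n := by
    intro n
    rw [hG]
    dsimp only
    have e1 : 0 ≤ tri (2 * Y) n := le_max_left _ _
    have e2 : 0 ≤ nu lam E (n + u) := sq_nonneg _
    have e3 : (0 : ℝ) ≤ (if (q : ℤ) ∣ n - (a - u) then 1 else 0) := by
      split_ifs <;> norm_num
    positivity
  have hbig : (((S.filter (fun p => ¬ p ≤ E)).card : ℕ) : ℝ) ≤
      2 * ∑ n ∈ Icc (-((2 * Y : ℕ) : ℤ)) ((2 * Y : ℕ) : ℤ), G n := by
    have h4 : (((S.filter (fun p => ¬ p ≤ E)).card : ℕ) : ℝ) ≤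
        ∑ p ∈ S.filter (fun p => ¬ p ≤ E), 2 * G ((p : ℤ) - u) := by
      rw [Finset.card_eq_sum_ones]
      push_cast
      apply Finset.sum_le_sum
      intro p hp
      rw [Finset.mem_filter, hmem] at hp
      obtain ⟨⟨⟨hp1, hp2⟩, hp3, hp4⟩, hp5⟩ := hp
      rw [hG]
      dsimp only
      rw [show (p : ℤ) - u + u = p by ring, Pbt_nu hE hlam.one hp3 (by omega),
        show (p : ℤ) - u - (a - u) = p - a by ring, if_pos hp4]
      have h5 := Pbt_tri hY (n := (p : ℤ) - u) (by omega) (by omega)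
      linarith
    refine h4.trans ?_
    rw [← Finset.mul_sum]
    apply mul_le_mul_of_nonneg_left _ (by norm_num)
    have h6 : ∑ p ∈ S.filter (fun p => ¬ p ≤ E), G ((p : ℤ) - u) =
        ∑ n ∈ (S.filter (fun p => ¬ p ≤ E)).image (fun p : ℕ => (p : ℤ) - u), G n := by
      rw [Finset.sum_image]
      intro p _ p' _ hpp
      dsimp only at hpp
      omega
    rw [h6]
    apply Finset.sum_le_sum_of_subset_of_nonneg
    · intro n hn
      obtain ⟨p, hp, rfl⟩ := Finset.mem_image.1 hn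
      rw [Finset.mem_filter, hmem] at hp
      rw [Finset.mem_Icc]
      push_cast
      omega
    · intro n _ _
      exact hG0 n
  have hsv' : ∑ n ∈ Icc (-((2 * Y : ℕ) : ℤ)) ((2 * Y : ℕ) : ℤ), G n ≤
      ((2 * Y : ℕ) : ℝ) / (q * Real.log E) + q * (E : ℝ) ^ 4 / ((2 * Y : ℕ) : ℝ) := by
    rw [hG]
    exact hsv
  have hY0 : (0 : ℝ) < Y := by exact_mod_cast hY
  have e1 : 2 * (((2 * Y : ℕ) : ℝ) / (q * Real.log E) + q * (E : ℝ) ^ 4 / ((2 * Y : ℕ) : ℝ)) =
      4 * (Y : ℝ) / (q * Real.log E) + q * (E : ℝ) ^ 4 / Y := by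
    push_cast
    have e2 : q * (E : ℝ) ^ 4 / (2 * (Y : ℝ)) = q * (E : ℝ) ^ 4 / Y / 2 := by
      rw [div_div, mul_comm (Y : ℝ) 2]
    rw [e2]
    ring
  have e3 : ((S.card : ℕ) : ℝ) = ((S.filter (fun p => p ≤ E)).card : ℝ) +
      ((S.filter (fun p => ¬ p ≤ E)).card : ℝ) := by
    rw [hsplit]
    push_cast
    ring
  have e4 : ((S.filter (fun p => p ≤ E)).card : ℝ) ≤ E := by exact_mod_cast hsmall
  rw [e3]
  linarith

end Pool.Agent.Lib.TP
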