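import Pool.Agent.Lib.TP.SpecP

/-!
MP_00e23e_nt, Lib/TP, module Pex: the exceptional set at one point.
-/

namespace Pool.Agent.Lib.TP

open Finset Pool.Agent.Lib.EH3 Pool.Agent.Lib.TB Pool.Agent.Results.MP_00e23e_nt

private lemma Pex_fam {θ η x : ℝ} {J J' : Finset ℕ} {s : ℕ → ℕ → ℤ} (h : Fam θ η x J s)
    (hJ : J' ⊆ J) : Fam θ η x J' s :=
  ⟨fun i hi => h.1 i (hJ hi), fun i hi => h.2.1 i (hJ hi),
    fun i hi j hj => h.2.2 i (hJ hi) j (hJ hj)⟩

/-- Module Pex. -/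
theorem tPex : PexStmt := by
  intro θ Cls hB
  obtain ⟨C, η, hC, hη, h⟩ := hB
  refine ⟨C, η, hC, hη, ?_⟩
  intro ε hε
  obtain ⟨x0, hx0⟩ := h 1
  refine ⟨max x0 (Real.exp (C / ε ^ 2 + 1)), ?_⟩
  intro x y hx hy1 hy2 J s hF
  have hx1 : x0 ≤ x := le_trans (le_max_left _ _) hx
  have hx2 : Real.exp (C / ε ^ 2 + 1) ≤ x := le_trans (le_max_right _ _) hx
  have hxpos : 0 < x := lt_of_lt_of_le (Real.exp_pos _) hx2
  have hlog : C / ε ^ 2 + 1 ≤ Real.log x := by
    rw [Real.le_log_iff_exp_le hxpos]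
    exact hx2
  have hCε : 0 ≤ C / ε ^ 2 := by positivity
  have hlogpos : 0 < Real.log x := by linarith
  have hX : 0 < x / Real.log x := div_pos hxpos hlogpos
  classical
  refine ⟨J.filter (fun i => ¬ RS θ Cls x (fun _ => y) (s i) ≤ ε * (x / Real.log x)),
    Finset.filter_subset _ _, ?_, ?_⟩
  · by_contra hcon
    rw [not_le] at hcon
    set Bad := J.filter (fun i => ¬ RS θ Cls x (fun _ => y) (s i) ≤ ε * (x / Real.log x)) with hBad
    have hn : ⌊C / ε ^ 2⌋₊ + 1 ≤ Bad.card := by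
      have : ⌊C / ε ^ 2⌋₊ < Bad.card := (Nat.floor_lt hCε).mpr hcon
      omega
    obtain ⟨J', hJ', hcard⟩ := Finset.exists_subset_card_eq hn
    have hJ'J : J' ⊆ J := hJ'.trans (Finset.filter_subset _ _)
    have hcardR : (J'.card : ℝ) = (⌊C / ε ^ 2⌋₊ : ℝ) + 1 := by
      rw [hcard]
      push_cast
      ring
    have hle : (J'.card : ℝ) ≤ (Real.log x) ^ (1 : ℝ) := by
      rw [Real.rpow_one, hcardR]
      have := Nat.floor_le hCε
      linarith
    have hgt : C / ε ^ 2 < J'.card := by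
      rw [hcardR]
      exact Nat.lt_floor_add_one _
    have hb := hx0 x y hx1 hy1 hy2 J' s (Pex_fam hF hJ'J) hle
    have hlow : ∑ i ∈ J', (ε * (x / Real.log x)) ^ 2 ≤
        ∑ i ∈ J', RS θ Cls x (fun _ => y) (s i) ^ 2 := by
      apply Finset.sum_le_sum
      intro i hi
      have h1 := (Finset.mem_filter.mp (hJ' hi)).2
      push Not at h1
      exact pow_le_pow_left₀ (by positivity) h1.le 2
    rw [Finset.sum_const, nsmul_eq_mul] at hlow
    have h2 : (J'.card : ℝ) * (ε * (x / Real.log x)) ^ 2 ≤ C * (x / Real.log x) ^ 2 := hlow.trans hb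
    have h3 : C < J'.card * ε ^ 2 := by
      rwa [div_lt_iff₀ (by positivity)] at hgt
    have h4 : C * (x / Real.log x) ^ 2 < (J'.card * ε ^ 2) * (x / Real.log x) ^ 2 :=
      mul_lt_mul_of_pos_right h3 (by positivity)
    have h5 : (J'.card : ℝ) * (ε * (x / Real.log x)) ^ 2 = (J'.card * ε ^ 2) * (x / Real.log x) ^ 2 := by
      ring
    linarith
  · intro i hi hi'
    by_contra hcon
    exact hi' (Finset.mem_filter.mpr ⟨hi, hcon⟩)

end Pool.Agent.Lib.TP
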