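import Pool.Agent.Lib.TP.SpecP

/-!
MP_00e23e_nt, directory Lib/TP, module Pfi: theorem P at the level 501/1000.
-/

namespace Pool.Agent.Lib.TP

open Finset Pool.Agent.Lib.EH3 Pool.Agent.Lib.TB Pool.Agent.Results.MP_00e23e_nt

private theorem Pfi_rgh (ρ x : ℝ) (d : ℕ) (h : Rx ρ x d) : Rgh ⌊x ^ ρ⌋₊ d := by
  intro p hp hd
  exact (Nat.floor_lt' hp.ne_zero).2 (h p hp hd)

theorem tPfi (h1 : PinStmt) (h2 : PbyStmt) (h3 : PexStmt) (h4 : PgrStmt) : PfiStmt := by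
  intro ρ hρ
  have b : BesStmt (501 / 1000) (Rx ρ) :=
    h2 (501 / 1000) (Rx ρ) (by norm_num) (by norm_num) (h1 ρ hρ)
  exact ⟨b, h4 (501 / 1000) ρ 0 (Rx ρ) (by norm_num) (by norm_num) hρ
    (fun x _ d hd => Pfi_rgh ρ x d hd) (h3 (501 / 1000) (Rx ρ) b)⟩

end Pool.Agent.Lib.TP
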