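import Pool.Agent.Lib.TP.SpecP

set_option autoImplicit false

namespace Pool.Agent.Lib.TP

open Finset Pool.Agent.Lib.EH3 Pool.Agent.Lib.TB Pool.Agent.Results.MP_00e23e_nt

theorem Pfr_totient (n : ℕ) (hn : n ≠ 0) : n ≤ n.totient * 2 ^ n.primeFactors.card := by
  have h1 := Nat.totient_mul_prod_primeFactors n
  have h2 : ∏ p ∈ n.primeFactors, p ≤ 2 ^ n.primeFactors.card * ∏ p ∈ n.primeFactors, (p - 1) := by
    rw [← Finset.prod_const, ← Finset.prod_mul_distrib]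
    refine Finset.prod_le_prod (fun p _ => Nat.zero_le _) fun p hp => ?_
    have := (Nat.prime_of_mem_primeFactors hp).two_le
    omega
  have h3 : 0 < ∏ p ∈ n.primeFactors, (p - 1) := by
    refine Finset.prod_pos fun p hp => ?_
    have := (Nat.prime_of_mem_primeFactors hp).two_le
    omega
  refine Nat.le_of_mul_le_mul_right ?_ h3
  rw [← h1, mul_assoc]
  exact Nat.mul_le_mul_left _ h2

theorem Pfr_pow (z n : ℕ) (hn : n ≠ 0) (h : Rgh z n) : z ^ n.primeFactors.card ≤ n := by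
  calc z ^ n.primeFactors.card = ∏ p ∈ n.primeFactors, z := (Finset.prod_const _).symm
    _ ≤ ∏ p ∈ n.primeFactors, p := Finset.prod_le_prod (fun p _ => Nat.zero_le _) fun p hp =>
        (h p (Nat.prime_of_mem_primeFactors hp) (Nat.dvd_of_mem_primeFactors hp)).le
    _ ≤ n := Nat.le_of_dvd (Nat.pos_of_ne_zero hn) (Nat.prod_primeFactors_dvd n)

theorem tPfr (h1 : RgsStmt) : PfrStmt := by
  obtain ⟨C1, hC1⟩ := h1
  intro κ hκ
  refine ⟨(2 : ℝ) ^ (2 / κ) * (|C1| * (1 + 2 / κ)), max 2 ((2 : ℝ) ^ (2 / κ)), fun x hx => ?_⟩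
  have hx2 : (2 : ℝ) ≤ x := (le_max_left _ _).trans hx
  have hx2' : (2 : ℝ) ^ (2 / κ) ≤ x := (le_max_right _ _).trans hx
  have hx0 : (0 : ℝ) < x := by linarith
  have hx1 : (1 : ℝ) < x := by linarith
  have hhalf : (2 : ℝ) ≤ x ^ (κ / 2) := by
    have h := Real.rpow_le_rpow (by positivity) hx2' (by positivity : 0 ≤ κ / 2)
    rw [← Real.rpow_mul (by norm_num)] at h
    have : 2 / κ * (κ / 2) = 1 := by field_simp
    rwa [this, Real.rpow_one] at h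
  have hsq : x ^ κ = x ^ (κ / 2) * x ^ (κ / 2) := by
    rw [← Real.rpow_add hx0]
    congr 1
    ring
  have hz : x ^ (κ / 2) ≤ (⌊x ^ κ⌋₊ : ℝ) := by
    have h := Nat.lt_floor_add_one (x ^ κ)
    nlinarith
  have hz2 : 2 ≤ ⌊x ^ κ⌋₊ := by
    have : (2 : ℝ) ≤ (⌊x ^ κ⌋₊ : ℝ) := hhalf.trans hz
    exact_mod_cast this
  refine ⟨hz2, ?_⟩
  have hX2 : 2 ≤ ⌊x⌋₊ := Nat.le_floor (by exact_mod_cast hx2)
  have hlogz : κ / 2 * Real.log x ≤ Real.log (⌊x ^ κ⌋₊ : ℝ) := by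
    rw [← Real.log_rpow hx0]
    exact Real.log_le_log (by positivity) hz
  have hlogx : 0 < Real.log x := Real.log_pos hx1
  have hratio : Real.log (⌊x⌋₊ : ℝ) / Real.log (⌊x ^ κ⌋₊ : ℝ) ≤ 2 / κ := by
    have h0 : 0 < κ / 2 * Real.log x := by positivity
    rw [div_le_div_iff₀ (h0.trans_le hlogz) hκ]
    have h2 : Real.log (⌊x⌋₊ : ℝ) ≤ Real.log x :=
      Real.log_le_log (by exact_mod_cast (by omega : 0 < ⌊x⌋₊)) (Nat.floor_le hx0.le)
    nlinarith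
  have hterm : ∀ d ∈ (Icc 1 ⌊x⌋₊).filter (Rgh ⌊x ^ κ⌋₊),
      1 / (d.totient : ℝ) ≤ (2 : ℝ) ^ (2 / κ) * (1 / (d : ℝ)) := by
    intro d hd
    rw [Finset.mem_filter, Finset.mem_Icc] at hd
    obtain ⟨⟨hd1, hdx⟩, hr⟩ := hd
    have hd0 : d ≠ 0 := by omega
    have hdx' : (d : ℝ) ≤ x := (Nat.cast_le.2 hdx).trans (Nat.floor_le hx0.le)
    have hcard : (d.primeFactors.card : ℝ) ≤ 2 / κ := by
      have h2 : (x ^ (κ / 2)) ^ d.primeFactors.card ≤ x ^ (1 : ℝ) := by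
        calc (x ^ (κ / 2)) ^ d.primeFactors.card
            ≤ (⌊x ^ κ⌋₊ : ℝ) ^ d.primeFactors.card :=
              pow_le_pow_left₀ (by positivity) hz _
          _ ≤ (d : ℝ) := by exact_mod_cast Pfr_pow _ d hd0 hr
          _ ≤ x ^ (1 : ℝ) := by rw [Real.rpow_one]; exact hdx'
      rw [← Real.rpow_natCast, ← Real.rpow_mul hx0.le, Real.rpow_le_rpow_left_iff hx1] at h2
      rw [le_div_iff₀ hκ]
      linarith
    have ht : 0 < (d.totient : ℝ) := by exact_mod_cast Nat.totient_pos.2 (by omega)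
    have hdpos : (0 : ℝ) < d := by exact_mod_cast (by omega : 0 < d)
    have h3 : (d : ℝ) ≤ d.totient * (2 : ℝ) ^ (2 / κ) := by
      have h4 : (d : ℝ) ≤ d.totient * (2 : ℝ) ^ (d.primeFactors.card) := by
        exact_mod_cast Pfr_totient d hd0
      refine h4.trans (mul_le_mul_of_nonneg_left ?_ ht.le)
      rw [← Real.rpow_natCast]
      exact Real.rpow_le_rpow_of_exponent_le (by norm_num) hcard
    rw [mul_one_div, div_le_div_iff₀ ht hdpos]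
    linarith
  calc ∑ d ∈ (Icc 1 ⌊x⌋₊).filter (Rgh ⌊x ^ κ⌋₊), 1 / (d.totient : ℝ)
      ≤ ∑ d ∈ (Icc 1 ⌊x⌋₊).filter (Rgh ⌊x ^ κ⌋₊), (2 : ℝ) ^ (2 / κ) * (1 / (d : ℝ)) :=
        Finset.sum_le_sum hterm
    _ = (2 : ℝ) ^ (2 / κ) * ∑ d ∈ (Icc 1 ⌊x⌋₊).filter (Rgh ⌊x ^ κ⌋₊), 1 / (d : ℝ) := by
        rw [Finset.mul_sum]
    _ ≤ (2 : ℝ) ^ (2 / κ) * (|C1| * (1 + 2 / κ)) := by
        refine mul_le_mul_of_nonneg_left ?_ (by positivity)
        refine (hC1 _ _ hz2 hX2).trans ?_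
        have hnn : 0 ≤ 1 + Real.log (⌊x⌋₊ : ℝ) / Real.log (⌊x ^ κ⌋₊ : ℝ) := by
          have h1 : 0 ≤ Real.log (⌊x⌋₊ : ℝ) := Real.log_natCast_nonneg _
          have h2 : 0 ≤ Real.log (⌊x ^ κ⌋₊ : ℝ) := Real.log_natCast_nonneg _
          positivity
        calc C1 * (1 + Real.log (⌊x⌋₊ : ℝ) / Real.log (⌊x ^ κ⌋₊ : ℝ))
            ≤ |C1| * (1 + Real.log (⌊x⌋₊ : ℝ) / Real.log (⌊x ^ κ⌋₊ : ℝ)) :=
              mul_le_mul_of_nonneg_right (le_abs_self C1) hnn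
          _ ≤ |C1| * (1 + 2 / κ) := mul_le_mul_of_nonneg_left (by linarith) (abs_nonneg _)

end Pool.Agent.Lib.TP
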