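import Pool.Agent.Lib.TP.SpecP
import Pool.Agent.Lib.TB.GrdS

/-!
# TP: from the points of a grid to arbitrary points y(d)
-/

namespace Pool.Agent.Lib.TP

open Finset Pool.Agent.Lib.EH3 Pool.Agent.Lib.TB Pool.Agent.Results.MP_00e23e_nt

private lemma Pgr_li1 {u v z : ℝ} (hz : 2 ≤ z) (hzu : z ≤ u) (huv : u ≤ v) :
    li v - li u ≤ (v - u) / Real.log z := by
  have hu : 2 ≤ u := hz.trans hzu
  have hlz : 0 < Real.log z := Real.log_pos (by linarith)
  have hint : ∀ a b : ℝ, 2 ≤ a → 2 ≤ b →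
      IntervalIntegrable (fun t => (Real.log t)⁻¹) MeasureTheory.volume a b := by
    intro a b ha hb
    apply ContinuousOn.intervalIntegrable
    intro t ht
    have ht2 : 2 ≤ t := by
      rcases Set.mem_uIcc.1 ht with h | h
      · linarith [h.1]
      · linarith [h.1]
    apply ContinuousAt.continuousWithinAt
    apply ContinuousAt.inv₀
    · exact Real.continuousAt_log (by linarith)
    · exact (Real.log_pos (by linarith)).ne'
  have h1 : li v - li u = ∫ t in u..v, (Real.log t)⁻¹ := by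
    unfold li
    rw [sub_eq_iff_eq_add, add_comm]
    exact (intervalIntegral.integral_add_adjacent_intervals (hint 2 u le_rfl hu)
      (hint u v hu (hu.trans huv))).symm
  rw [h1]
  have h := intervalIntegral.norm_integral_le_of_norm_le_const (a := u) (b := v)
    (f := fun t => (Real.log t)⁻¹) (C := (Real.log z)⁻¹) (by
      intro t ht
      rw [Set.uIoc_of_le huv] at ht
      have h1 : Real.log z ≤ Real.log t := Real.log_le_log (by linarith) (by linarith [ht.1])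
      rw [Real.norm_eq_abs, abs_of_nonneg (inv_nonneg.mpr (by linarith))]
      exact inv_anti₀ hlz h1)
  rw [abs_of_nonneg (by linarith)] at h
  refine le_trans (le_abs_self _) (h.trans (le_of_eq ?_))
  rw [div_eq_mul_inv, mul_comm]

private lemma Pgr_li {u v z : ℝ} (hu : 2 ≤ u) (huv : u ≤ v) (hz : 2 ≤ z) :
    li v - li u ≤ 2 * z + (v - u) / Real.log z := by
  have hlz : 0 < Real.log z := Real.log_pos (by linarith)
  have h0 : 0 ≤ (v - u) / Real.log z := div_nonneg (by linarith) hlz.le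
  rcases le_or_gt v z with h1 | h1
  · have := (GrdS_li hu huv).2
    linarith
  rcases le_or_gt z u with h2 | h2
  · have := Pgr_li1 hz h2 huv
    linarith
  · have h3 := Pgr_li1 hz le_rfl h1.le
    have h4 := (GrdS_li hu h2.le).2
    have h5 : (v - z) / Real.log z ≤ (v - u) / Real.log z :=
      div_le_div_of_nonneg_right (by linarith) hlz.le
    linarith

private lemma Pgr_mono {u v : ℝ} (huv : u ≤ v) (d : ℕ) (a : ℤ) : resCount u d a ≤ resCount v d a := by
  unfold resCount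
  exact Finset.card_le_card (Finset.filter_subset_filter _
    (Finset.Icc_subset_Icc le_rfl (Nat.floor_le_floor huv)))

private lemma Pgr_count {u v : ℝ} (Y d : ℕ) (a : ℤ) (hv : ⌊v⌋₊ ≤ ⌊u⌋₊ + Y) :
    (resCount v d a : ℝ) ≤ (resCount u d a : ℝ) +
      ((((Ioc ⌊u⌋₊ (⌊u⌋₊ + Y)).filter (fun p : ℕ => p.Prime ∧ (d : ℤ) ∣ (p : ℤ) - a)).card : ℕ) : ℝ) := by
  unfold resCount
  have h1 : (Icc 1 ⌊v⌋₊).filter (fun p : ℕ => p.Prime ∧ (d : ℤ) ∣ (p : ℤ) - a) ⊆
      (Icc 1 ⌊u⌋₊).filter (fun p : ℕ => p.Prime ∧ (d : ℤ) ∣ (p : ℤ) - a) ∪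
      (Ioc ⌊u⌋₊ (⌊u⌋₊ + Y)).filter (fun p : ℕ => p.Prime ∧ (d : ℤ) ∣ (p : ℤ) - a) := by
    intro p hp
    rw [Finset.mem_filter, Finset.mem_Icc] at hp
    rw [Finset.mem_union, Finset.mem_filter, Finset.mem_filter, Finset.mem_Icc, Finset.mem_Ioc]
    rcases le_or_gt p ⌊u⌋₊ with h | h
    · exact Or.inl ⟨⟨hp.1.1, h⟩, hp.2⟩
    · exact Or.inr ⟨⟨h, hp.1.2.trans hv⟩, hp.2⟩
  have h2 := (Finset.card_le_card h1).trans (Finset.card_union_le _ _)
  exact_mod_cast h2

/-- one modulus -/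
private lemma Pgr_one (hB : PbtStmt) {x h y L κ : ℝ} {k E d : ℕ} {a : ℤ} (hκ : 0 < κ) (hx : 16 ≤ x) (hL : L = Real.log x)
    (hL1 : 1 ≤ L) (hh : 2 ≤ h) (hy2 : 2 ≤ y) (hyk : y ≤ h * k) (hd : 1 ≤ d) (hE : 2 ≤ E)
    (hR : Rgh E d) (hEL : κ / 2 * L ≤ Real.log E)
    (c1 : (d : ℝ) ^ 2 * (E : ℝ) ^ 4 * L ≤ h ^ 2) (c2 : (E : ℝ) * (d * L) ≤ h)
    (c3 : Real.sqrt x * L ≤ h) :
    |resErr y d a| ≤ ∑ m ∈ Icc 1 k, |resErr (h * m) d a| + (16 / κ + 8) * (h / L) * (1 / (d.totient : ℝ)) := by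
  have hh0 : 0 < h := by linarith
  have hL0 : 0 < L := by linarith
  have hd0 : (0 : ℝ) < d := by exact_mod_cast hd
  have hφ : (0 : ℝ) < (d.totient : ℝ) := by exact_mod_cast Nat.totient_pos.2 hd
  have hφd : (d.totient : ℝ) ≤ d := by exact_mod_cast Nat.totient_le d
  obtain ⟨m, hm⟩ : ∃ m, m = ⌈y / h⌉₊ := ⟨_, rfl⟩
  have hm1 : y ≤ h * m := by
    have := Nat.le_ceil (y / h)
    rw [← hm, div_le_iff₀ hh0] at this
    linarith
  have hm2 : h * m < y + h := by
    have := Nat.ceil_lt_add_one (show 0 ≤ y / h by positivity)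
    rw [← hm] at this
    calc h * m < h * (y / h + 1) := mul_lt_mul_of_pos_left this hh0
      _ = y + h := by field_simp
  have hm0 : 1 ≤ m := by
    rw [hm]
    exact Nat.one_le_ceil_iff.2 (by positivity)
  have hmG : m ≤ k := by
    rw [hm]
    apply Nat.ceil_le.2
    rw [div_le_iff₀ hh0]
    linarith
  -- the term m of the sum
  have hsum : |resErr (h * m) d a| ≤ ∑ m ∈ Icc 1 k, |resErr (h * m) d a| :=
    Finset.single_le_sum (f := fun m : ℕ => |resErr (h * m) d a|) (fun m _ => abs_nonneg _)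
      (Finset.mem_Icc.2 ⟨hm0, hmG⟩)
  -- the primes in the interval
  obtain ⟨Y, hY⟩ : ∃ Y : ℕ, Y = ⌈h⌉₊ + 1 := ⟨_, rfl⟩
  have hY1 : 1 ≤ Y := by omega
  have hYh : h ≤ Y := by
    have := Nat.le_ceil h
    rw [hY]
    push_cast
    linarith
  have hY2 : (Y : ℝ) ≤ 2 * h := by
    have := (Nat.ceil_lt_add_one hh0.le).le
    rw [hY]
    push_cast
    linarith
  have hfl : ⌊h * m⌋₊ ≤ ⌊y⌋₊ + Y := by
    have h1 : h * m < ((⌊y⌋₊ + Y + 1 : ℕ) : ℝ) := by
      have h2 := Nat.lt_floor_add_one y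
      have h3 := Nat.le_ceil h
      rw [hY]
      push_cast
      linarith
    have h2 := (Nat.floor_lt (by positivity)).2 h1
    omega
  have hcnt := Pgr_count (u := y) (v := h * m) Y d a hfl
  have hmono : (resCount y d a : ℝ) ≤ resCount (h * m) d a := by exact_mod_cast Pgr_mono hm1 d a
  have hbt := hB E d ⌊y⌋₊ Y a hE hd hR hY1
  have hlogE : 0 < Real.log E := lt_of_lt_of_le (by positivity) hEL
  have hY0 : (0 : ℝ) < Y := by linarith
  have b1 : 4 * (Y : ℝ) / (d * Real.log E) ≤ 16 / κ * (h / L) * (1 / (d.totient : ℝ)) := by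
    calc 4 * (Y : ℝ) / (d * Real.log E) ≤ 8 * h / (d * (κ / 2 * L)) := by
          apply div_le_div₀ (by positivity) (by linarith) (by positivity)
          exact mul_le_mul_of_nonneg_left hEL hd0.le
      _ ≤ 8 * h / (d.totient * (κ / 2 * L)) := by
          apply div_le_div_of_nonneg_left (by positivity) (by positivity)
          exact mul_le_mul_of_nonneg_right hφd (by positivity)
      _ = 16 / κ * (h / L) * (1 / (d.totient : ℝ)) := by field_simp; ring
  have b2 : (d : ℝ) * (E : ℝ) ^ 4 / Y ≤ h / L * (1 / (d.totient : ℝ)) := by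
    calc (d : ℝ) * (E : ℝ) ^ 4 / Y ≤ (d : ℝ) * (E : ℝ) ^ 4 / h :=
          div_le_div_of_nonneg_left (by positivity) hh0 hYh
      _ ≤ h / L * (1 / (d : ℝ)) := by
          rw [div_mul_div_comm, mul_one, div_le_div_iff₀ hh0 (by positivity)]
          calc (d : ℝ) * (E : ℝ) ^ 4 * (L * d) = (d : ℝ) ^ 2 * (E : ℝ) ^ 4 * L := by ring
            _ ≤ h ^ 2 := c1
            _ = h * h := by ring
      _ ≤ h / L * (1 / (d.totient : ℝ)) := by
          apply mul_le_mul_of_nonneg_left _ (by positivity)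
          exact div_le_div_of_nonneg_left zero_le_one hφ hφd
  have b3 : (E : ℝ) ≤ h / L * (1 / (d.totient : ℝ)) := by
    calc (E : ℝ) ≤ h / L * (1 / (d : ℝ)) := by
          rw [div_mul_div_comm, mul_one, le_div_iff₀ (by positivity)]
          calc (E : ℝ) * (L * d) = (E : ℝ) * (d * L) := by ring
            _ ≤ h := c2
      _ ≤ h / L * (1 / (d.totient : ℝ)) := by
          apply mul_le_mul_of_nonneg_left _ (by positivity)
          exact div_le_div_of_nonneg_left zero_le_one hφ hφd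
  -- the logarithmic integral
  have hsq4 : 4 ≤ Real.sqrt x := by
    rw [show (4 : ℝ) = Real.sqrt 16 by
      rw [show (16 : ℝ) = 4 ^ 2 by norm_num, Real.sqrt_sq (by norm_num)]]
    exact Real.sqrt_le_sqrt hx
  have hlogsq : Real.log (Real.sqrt x) = L / 2 := by
    rw [Real.log_sqrt (by linarith), hL]
  have hli0 := (GrdS_li hy2 hm1).1
  have hli := Pgr_li hy2 hm1 (z := Real.sqrt x) (by linarith)
  rw [hlogsq] at hli
  have hli2 : li (h * m) - li y ≤ 4 * (h / L) := by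
    have h1 : Real.sqrt x ≤ h / L := by
      rw [le_div_iff₀ hL0]
      exact c3
    have h2 : (h * m - y) / (L / 2) ≤ 2 * (h / L) := by
      rw [div_le_iff₀ (by positivity)]
      have : 2 * (h / L) * (L / 2) = h := by field_simp
      rw [this]
      linarith
    linarith
  have hli3 : (li (h * m) - li y) / (d.totient : ℝ) ≤ 4 * (h / L) * (1 / (d.totient : ℝ)) := by
    rw [mul_one_div]
    exact div_le_div_of_nonneg_right hli2 hφ.le
  have hli4 : 0 ≤ (li (h * m) - li y) / (d.totient : ℝ) := div_nonneg hli0 hφ.le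
  have hu0 : 0 ≤ h / L * (1 / (d.totient : ℝ)) := by positivity
  have hexp : (16 / κ + 8) * (h / L) * (1 / (d.totient : ℝ)) =
      16 / κ * (h / L) * (1 / (d.totient : ℝ)) + 8 * (h / L * (1 / (d.totient : ℝ))) := by ring
  have hli5 : 4 * (h / L) * (1 / (d.totient : ℝ)) = 4 * (h / L * (1 / (d.totient : ℝ))) := by ring
  rw [hli5] at hli3
  rw [hexp]
  have hdiff : resErr y d a = resErr (h * m) d a - ((resCount (h * m) d a : ℝ) - resCount y d a) +
      (li (h * m) - li y) / (d.totient : ℝ) := by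
    unfold resErr
    ring
  have habs : |resErr y d a| ≤ |resErr (h * m) d a| + ((resCount (h * m) d a : ℝ) - resCount y d a) +
      (li (h * m) - li y) / (d.totient : ℝ) := by
    rw [hdiff]
    have h1 := abs_nonneg (resErr (h * m) d a)
    have h2 := neg_abs_le (resErr (h * m) d a)
    have h3 := le_abs_self (resErr (h * m) d a)
    rw [abs_le]
    constructor <;> linarith
  have h16 : 0 ≤ 16 / κ * (h / L) * (1 / (d.totient : ℝ)) := by positivity
  linarith

private lemma Pgr_ev (c K : ℝ) (hc : 0 < c) : ∀ᶠ x : ℝ in Filter.atTop, K ≤ x ^ c :=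
  (tendsto_rpow_atTop hc).eventually_ge_atTop K

private lemma Pgr_evlog (c : ℝ) (hc : 0 < c) : ∀ᶠ x : ℝ in Filter.atTop, (Real.log x) ^ 3 ≤ x ^ c := by
  have h := (isLittleO_log_rpow_rpow_atTop 3 hc).bound (show (0 : ℝ) < 1 by norm_num)
  filter_upwards [h, Filter.eventually_gt_atTop 1] with x hx h0
  have hl : 0 ≤ Real.log x := Real.log_nonneg h0.le
  rw [Real.norm_of_nonneg (Real.rpow_nonneg hl _), one_mul,
    Real.norm_of_nonneg (Real.rpow_nonneg (by linarith) _)] at hx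
  have h3 : (Real.log x) ^ (3 : ℝ) = (Real.log x) ^ 3 := by
    rw [show (3 : ℝ) = ((3 : ℕ) : ℝ) by norm_num, Real.rpow_natCast]
  rw [h3] at hx
  exact hx

theorem tPgr (h1 : PbtStmt) (h2 : PfrStmt) : PgrStmt := by
  intro θ κ x1 Cls hθ hθ1 hκ hCls hExc
  classical
  obtain ⟨C, η, hC, hη, hexc⟩ := hExc
  obtain ⟨δ, hδ⟩ : ∃ δ : ℝ, δ = 1 - θ := ⟨_, rfl⟩
  have hδ0 : 0 < δ := by linarith
  obtain ⟨κ', hκ'⟩ : ∃ κ' : ℝ, κ' = min κ δ / 8 := ⟨_, rfl⟩
  have hκ0 : 0 < κ' := by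
    rw [hκ']
    have := lt_min hκ hδ0
    positivity
  have hκκ : κ' ≤ κ := by
    have := min_le_left κ δ
    rw [hκ']
    linarith
  have hκδ : 8 * κ' ≤ δ := by
    have := min_le_right κ δ
    rw [hκ']
    linarith
  obtain ⟨C', xF, hF⟩ := h2 κ' hκ0
  have hC' : 0 ≤ C' :=
    (Finset.sum_nonneg fun d _ => by positivity).trans (hF xF le_rfl).2
  obtain ⟨C3, hC3⟩ : ∃ C3 : ℝ, C3 = (16 / κ' + 8) * C' + 2 := ⟨_, rfl⟩
  have hC32 : 2 ≤ C3 := by
    have : 0 ≤ (16 / κ' + 8) * C' := by positivity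
    linarith
  have hC30 : 0 < C3 := by linarith
  refine ⟨2 * C * C3 ^ 5, η, by positivity, hη, ?_⟩
  intro ε hε hε1
  obtain ⟨ε', hε'⟩ : ∃ ε' : ℝ, ε' = ε / C3 := ⟨_, rfl⟩
  have hε'0 : 0 < ε' := by rw [hε']; positivity
  have hε'1 : ε' ≤ 1 := by
    rw [hε', div_le_one hC30]
    linarith
  obtain ⟨xE, hxE⟩ := hexc (ε' ^ 2) (by positivity)
  obtain ⟨k, hk⟩ : ∃ k : ℕ, k = ⌈1 / ε'⌉₊ := ⟨_, rfl⟩
  have hk1 : 1 / ε' ≤ k := by rw [hk]; exact Nat.le_ceil _
  have hinv1 : 1 ≤ 1 / ε' := by rwa [le_div_iff₀ hε'0, one_mul]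
  have hk2 : (k : ℝ) ≤ 2 / ε' := by
    have h3 := (Nat.ceil_lt_add_one (show 0 ≤ 1 / ε' by positivity)).le
    rw [← hk] at h3
    have h4 : 2 / ε' = 1 / ε' + 1 / ε' := by ring
    linarith
  have hkr : (1 : ℝ) ≤ k := hinv1.trans hk1
  have hk0 : (0 : ℝ) < k := by linarith
  have hev : ∀ᶠ x : ℝ in Filter.atTop, 16 ≤ x ∧ x1 ≤ x ∧ xF ≤ x ∧ xE ≤ x ∧ (k : ℝ) ≤ Real.log x ∧
      (Real.log x) ^ 3 ≤ x ^ (δ / 2) ∧ 2 ≤ x ^ (κ' / 2) ∧ (Real.log x) ^ 3 ≤ x ^ ((1 : ℝ) / 2) := by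
    filter_upwards [Filter.eventually_ge_atTop (16 : ℝ), Filter.eventually_ge_atTop x1,
      Filter.eventually_ge_atTop xF, Filter.eventually_ge_atTop xE,
      Real.tendsto_log_atTop.eventually_ge_atTop (k : ℝ), Pgr_evlog (δ / 2) (by positivity),
      Pgr_ev (κ' / 2) 2 (by positivity), Pgr_evlog (1 / 2) (by norm_num)] with x a1 a2 a3 a4 a5 a6 a7 a8
    exact ⟨a1, a2, a3, a4, a5, a6, a7, a8⟩
  obtain ⟨x0, hx0⟩ := Filter.eventually_atTop.1 hev
  refine ⟨x0, ?_⟩
  intro x hxx J s hFam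
  obtain ⟨hx16, hxx1, hxxF, hxxE, hkL, e1, e2, e3⟩ := hx0 x hxx
  have hxp : 0 < x := by linarith
  have hxone : 1 ≤ x := by linarith
  obtain ⟨L, hL⟩ : ∃ L : ℝ, L = Real.log x := ⟨_, rfl⟩
  rw [← hL] at hkL e1 e3
  have hL1 : 1 ≤ L := hkr.trans hkL
  have hL0 : 0 < L := by linarith
  obtain ⟨h, hh⟩ : ∃ h : ℝ, h = x / k := ⟨_, rfl⟩
  have hhL : x / L ≤ h := by
    rw [hh]
    exact div_le_div_of_nonneg_left hxp.le hk0 hkL
  have hxL0 : 0 < x / L := by positivity
  have hh0 : 0 < h := by linarith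
  have hhk : h * k = x := by
    rw [hh]
    field_simp
  have hsq : x ^ ((1 : ℝ) / 2) = Real.sqrt x := (Real.sqrt_eq_rpow x).symm
  have hsqx : Real.sqrt x * Real.sqrt x = x := Real.mul_self_sqrt hxp.le
  rw [hsq] at e3
  have hsq4 : 4 ≤ Real.sqrt x := by
    rw [show (4 : ℝ) = Real.sqrt 16 by
      rw [show (16 : ℝ) = 4 ^ 2 by norm_num, Real.sqrt_sq (by norm_num)]]
    exact Real.sqrt_le_sqrt hx16
  have hL2 : L ^ 2 ≤ L ^ 3 := pow_le_pow_right₀ hL1 (by norm_num)
  have c3 : Real.sqrt x * L ≤ h := by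
    refine le_trans ?_ hhL
    rw [le_div_iff₀ hL0]
    calc Real.sqrt x * L * L = Real.sqrt x * L ^ 2 := by ring
      _ ≤ Real.sqrt x * Real.sqrt x := mul_le_mul_of_nonneg_left (by linarith) (by linarith)
      _ = x := hsqx
  have hh2 : 2 ≤ h := by
    refine le_trans ?_ c3
    calc (2 : ℝ) ≤ Real.sqrt x * 1 := by linarith
      _ ≤ Real.sqrt x * L := mul_le_mul_of_nonneg_left hL1 (by linarith)
  obtain ⟨E, hE⟩ : ∃ E : ℕ, E = ⌊x ^ κ'⌋₊ := ⟨_, rfl⟩
  obtain ⟨hE2, hsumF⟩ := hF x hxxF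
  rw [← hE] at hE2 hsumF
  have hEx : (E : ℝ) ≤ x ^ κ' := by rw [hE]; exact Nat.floor_le (by positivity)
  have hEL : κ' / 2 * L ≤ Real.log E := by
    have h3 : x ^ (κ' / 2) ≤ E := by
      have h4 : x ^ κ' < (E : ℝ) + 1 := by rw [hE]; exact Nat.lt_floor_add_one _
      have h5 : x ^ κ' = x ^ (κ' / 2) * x ^ (κ' / 2) := by
        rw [← Real.rpow_add hxp]
        congr 1
        ring
      rw [h5] at h4
      have h6 : 2 * x ^ (κ' / 2) ≤ x ^ (κ' / 2) * x ^ (κ' / 2) :=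
        mul_le_mul_of_nonneg_right e2 (by positivity)
      linarith
    rw [hL, ← Real.log_rpow hxp]
    exact Real.log_le_log (by positivity) h3
  have hEr : (0 : ℝ) ≤ E := Nat.cast_nonneg _
  have hE4 : (E : ℝ) ^ 4 ≤ x ^ (δ / 2) := by
    calc (E : ℝ) ^ 4 ≤ (x ^ κ') ^ 4 := pow_le_pow_left₀ hEr hEx 4
      _ = x ^ (4 * κ') := by
          rw [← Real.rpow_natCast, ← Real.rpow_mul hxp.le]
          congr 1
          push_cast
          ring
      _ ≤ x ^ (δ / 2) := Real.rpow_le_rpow_of_exponent_le hxone (by linarith)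
  have hE1 : (E : ℝ) ≤ x ^ (δ / 2) := hEx.trans (Real.rpow_le_rpow_of_exponent_le hxone (by linarith))
  -- the exceptional sets at the grid points
  have hex : ∀ m : ℕ, ∃ S ⊆ J, m ∈ Icc 1 k → (S.card : ℝ) ≤ C / (ε' ^ 2) ^ 2 ∧
      ∀ i ∈ J, i ∉ S → RS θ Cls x (fun _ => h * m) (s i) ≤ ε' ^ 2 * (x / Real.log x) := by
    intro m
    by_cases hm : m ∈ Icc 1 k
    · have hm' := Finset.mem_Icc.1 hm
      have hm1 : (1 : ℝ) ≤ m := by exact_mod_cast hm'.1
      have hm2 : (m : ℝ) ≤ k := by exact_mod_cast hm'.2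
      obtain ⟨S, hS, hS1, hS2⟩ := hxE x (h * m) hxxE (by
        rw [← hL]
        refine hhL.trans ?_
        calc h = h * 1 := (mul_one h).symm
          _ ≤ h * m := mul_le_mul_of_nonneg_left hm1 hh0.le) (by
        rw [← hhk]
        exact mul_le_mul_of_nonneg_left hm2 hh0.le) J s hFam
      exact ⟨S, hS, fun _ => ⟨hS1, hS2⟩⟩
    · exact ⟨∅, Finset.empty_subset _, fun h => absurd h hm⟩
  choose T hTJ hT using hex
  refine ⟨(Icc 1 k).biUnion T, ?_, ?_, ?_⟩
  · rw [Finset.biUnion_subset]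
    exact fun m _ => hTJ m
  · calc (((Icc 1 k).biUnion T).card : ℝ) ≤ ((∑ m ∈ Icc 1 k, (T m).card : ℕ) : ℝ) := by
          exact_mod_cast Finset.card_biUnion_le
      _ = ∑ m ∈ Icc 1 k, ((T m).card : ℝ) := by push_cast; rfl
      _ ≤ ∑ m ∈ Icc 1 k, C / (ε' ^ 2) ^ 2 := Finset.sum_le_sum fun m hm => (hT m hm).1
      _ = k * (C / (ε' ^ 2) ^ 2) := by
          rw [Finset.sum_const, Nat.card_Icc, nsmul_eq_mul]
          simp
      _ ≤ 2 / ε' * (C / (ε' ^ 2) ^ 2) := mul_le_mul_of_nonneg_right hk2 (by positivity)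
      _ = 2 * C * C3 ^ 5 / ε ^ 5 := by
          rw [hε']
          field_simp
  · intro i hi hiS y hy
    have hiT : ∀ m ∈ Icc 1 k, i ∉ T m := by
      intro m hm h3
      exact hiS (Finset.mem_biUnion.2 ⟨m, hm, h3⟩)
    unfold RS
    obtain ⟨Q, hQ⟩ : ∃ Q : Finset ℕ, Q = (Icc 1 ⌊x ^ θ⌋₊).filter
        (fun d : ℕ => Int.gcd (s i d) d = 1 ∧ Cls x d) := ⟨_, rfl⟩
    rw [← hQ]
    have hQd : ∀ d ∈ Q, 1 ≤ d ∧ (d : ℝ) ≤ x ^ θ ∧ Rgh E d := by
      intro d hd
      rw [hQ, Finset.mem_filter, Finset.mem_Icc] at hd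
      refine ⟨hd.1.1, ?_, ?_⟩
      · exact (Nat.le_floor_iff (by positivity)).1 hd.1.2
      · intro p hp hpd
        have h3 := hCls x hxx1 d hd.2.2 p hp hpd
        refine lt_of_le_of_lt ?_ h3
        rw [hE]
        exact Nat.floor_le_floor (Real.rpow_le_rpow_of_exponent_le hxone hκκ)
    have hone : ∀ d ∈ Q, |resErr (y d) d (s i d)| ≤ ∑ m ∈ Icc 1 k, |resErr (h * m) d (s i d)| +
        (16 / κ' + 8) * (h / L) * (1 / (d.totient : ℝ)) := by
      intro d hd
      obtain ⟨hd1, hd2, hd3⟩ := hQd d hd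
      have hd0 : (0 : ℝ) ≤ d := Nat.cast_nonneg _
      refine Pgr_one h1 hκ0 hx16 hL hL1 hh2 (hy d).1 (by rw [hhk]; exact (hy d).2) hd1 hE2 hd3 hEL ?_ ?_ c3
      · calc (d : ℝ) ^ 2 * (E : ℝ) ^ 4 * L ≤ (x ^ θ) ^ 2 * x ^ (δ / 2) * L := by
              apply mul_le_mul_of_nonneg_right _ hL0.le
              exact mul_le_mul (pow_le_pow_left₀ hd0 hd2 2) hE4 (by positivity) (by positivity)
          _ = (x ^ θ) ^ 2 * x ^ (δ / 2) * L ^ 3 / L ^ 2 := by field_simp
          _ ≤ (x ^ θ) ^ 2 * x ^ (δ / 2) * x ^ (δ / 2) / L ^ 2 := by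
              apply div_le_div_of_nonneg_right _ (by positivity)
              exact mul_le_mul_of_nonneg_left e1 (by positivity)
          _ = x ^ (1 + θ) / L ^ 2 := by
              congr 1
              rw [← Real.rpow_natCast, ← Real.rpow_mul hxp.le, ← Real.rpow_add hxp, ← Real.rpow_add hxp]
              congr 1
              rw [hδ]
              push_cast
              ring
          _ ≤ x ^ (2 : ℝ) / L ^ 2 := by
              apply div_le_div_of_nonneg_right _ (by positivity)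
              exact Real.rpow_le_rpow_of_exponent_le hxone (by linarith)
          _ = (x / L) ^ 2 := by
              rw [show (2 : ℝ) = ((2 : ℕ) : ℝ) by norm_num, Real.rpow_natCast, div_pow]
          _ ≤ h ^ 2 := pow_le_pow_left₀ hxL0.le hhL 2
      · calc (E : ℝ) * (d * L) ≤ x ^ (δ / 2) * (x ^ θ * L) := by
              apply mul_le_mul hE1 _ (by positivity) (by positivity)
              exact mul_le_mul_of_nonneg_right hd2 hL0.le
          _ = x ^ (δ / 2) * x ^ θ * L ^ 2 / L := by field_simp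
          _ ≤ x ^ (δ / 2) * x ^ θ * x ^ (δ / 2) / L := by
              apply div_le_div_of_nonneg_right _ hL0.le
              exact mul_le_mul_of_nonneg_left (by linarith) (by positivity)
          _ = x / L := by
              congr 1
              rw [← Real.rpow_add hxp, ← Real.rpow_add hxp]
              conv_rhs => rw [← Real.rpow_one x]
              congr 1
              rw [hδ]
              ring
          _ ≤ h := hhL
    have hgrid : ∀ m ∈ Icc 1 k, ∑ d ∈ Q, |resErr (h * m) d (s i d)| ≤ ε' ^ 2 * (x / L) := by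
      intro m hm
      have h3 := (hT m hm).2 i hi (hiT m hm)
      unfold RS at h3
      rw [← hQ, ← hL] at h3
      exact h3
    have hphi : ∑ d ∈ Q, 1 / (d.totient : ℝ) ≤ C' := by
      refine le_trans ?_ hsumF
      apply Finset.sum_le_sum_of_subset_of_nonneg
      · intro d hd
        obtain ⟨hd1, hd2, hd3⟩ := hQd d hd
        rw [Finset.mem_filter, Finset.mem_Icc]
        refine ⟨⟨hd1, Nat.le_floor ?_⟩, hd3⟩
        refine hd2.trans ?_
        conv_rhs => rw [← Real.rpow_one x]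
        exact Real.rpow_le_rpow_of_exponent_le hxone hθ1.le
      · intro d _ _
        positivity
    have hhx : h ≤ ε' * x := by
      rw [hh, div_le_iff₀ hk0]
      have h3 : 1 ≤ ε' * k := by
        rw [div_le_iff₀ hε'0] at hk1
        linarith
      calc x = x * 1 := (mul_one x).symm
        _ ≤ x * (ε' * k) := mul_le_mul_of_nonneg_left h3 hxp.le
        _ = ε' * x * k := by ring
    calc ∑ d ∈ Q, |resErr (y d) d (s i d)| ≤ ∑ d ∈ Q, (∑ m ∈ Icc 1 k, |resErr (h * m) d (s i d)| +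
          (16 / κ' + 8) * (h / L) * (1 / (d.totient : ℝ))) := Finset.sum_le_sum hone
      _ = ∑ m ∈ Icc 1 k, ∑ d ∈ Q, |resErr (h * m) d (s i d)| +
          (16 / κ' + 8) * (h / L) * ∑ d ∈ Q, 1 / (d.totient : ℝ) := by
          rw [Finset.sum_add_distrib, Finset.sum_comm, Finset.mul_sum]
      _ ≤ ∑ m ∈ Icc 1 k, ε' ^ 2 * (x / L) + (16 / κ' + 8) * (h / L) * C' := by
          apply add_le_add (Finset.sum_le_sum hgrid)
          exact mul_le_mul_of_nonneg_left hphi (by positivity)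
      _ = k * (ε' ^ 2 * (x / L)) + (16 / κ' + 8) * (h / L) * C' := by
          rw [Finset.sum_const, Nat.card_Icc, nsmul_eq_mul]
          simp
      _ ≤ 2 / ε' * (ε' ^ 2 * (x / L)) + (16 / κ' + 8) * (ε' * x / L) * C' := by
          apply add_le_add
          · exact mul_le_mul_of_nonneg_right hk2 (by positivity)
          · apply mul_le_mul_of_nonneg_right _ hC'
            apply mul_le_mul_of_nonneg_left _ (by positivity)
            exact div_le_div_of_nonneg_right hhx hL0.le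
      _ = ε' * C3 * (x / L) := by
          rw [hC3]
          field_simp
          ring
      _ = ε * (x / Real.log x) := by
          rw [← hL, hε', div_mul_cancel₀ _ hC30.ne']

end Pool.Agent.Lib.TP
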