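import Pool.Agent.Lib.TP.SpecP
import Pool.Agent.Lib.TB.Asn

/-!
# TP: the input of the assembly for the level 501/1000 and rough moduli
-/

namespace Pool.Agent.Lib.TP

open Finset Pool.Agent.Lib.EH3 Pool.Agent.Lib.TB Pool.Agent.Results.MP_00e23e_nt

private lemma Pin_ev (c K : ℝ) (hc : 0 < c) : ∀ᶠ x : ℝ in Filter.atTop, K ≤ x ^ c :=
  (tendsto_rpow_atTop hc).eventually_ge_atTop K

/-- the parameters at one x -/
private lemma Pin_par {ρ κ1 x : ℝ} {N : ℕ} (hκ0 : 0 < κ1) (hκρ : κ1 ≤ ρ / 20) (hκ2 : κ1 ≤ 1 / 20) (hx : 16 ≤ x)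
    (hN1 : x ≤ N) (hN2 : (N : ℝ) ≤ 4 * x) (h1 : 4 ≤ x ^ ((1 : ℝ) / 1000)) (h2 : 16 ≤ x ^ (9 * ρ / 10))
    (h3 : 4 ≤ x ^ κ1) :
    2 ≤ ⌊(N : ℝ) ^ κ1⌋₊ ∧ (N : ℝ) ^ (κ1 / 2) ≤ ⌊(N : ℝ) ^ κ1⌋₊ ∧ ((⌊(N : ℝ) ^ κ1⌋₊ : ℕ) : ℝ) ≤ (N : ℝ) ^ κ1 ∧
    ((⌊(N : ℝ) ^ κ1⌋₊ : ℕ) : ℝ) ≤ x ^ ((1 : ℝ) / 10) ∧ 4 * ((⌊(N : ℝ) ^ κ1⌋₊ : ℕ) : ℝ) ^ 2 ≤ x ^ ρ := by
  have hx0 : 0 < x := by linarith
  have hx1 : 1 ≤ x := by linarith
  have hN0 : (0 : ℝ) < N := by linarith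
  obtain ⟨y, hy⟩ : ∃ y : ℝ, y = (N : ℝ) ^ κ1 := ⟨_, rfl⟩
  obtain ⟨t, ht⟩ : ∃ t : ℝ, t = (N : ℝ) ^ (κ1 / 2) := ⟨_, rfl⟩
  have hty : t * t = y := by
    rw [ht, hy, ← Real.rpow_add hN0]
    congr 1
    ring
  have hy4 : 4 ≤ y := by
    rw [hy]
    exact h3.trans (Real.rpow_le_rpow hx0.le hN1 hκ0.le)
  have ht0 : 0 ≤ t := by rw [ht]; positivity
  have ht2 : 2 ≤ t := by nlinarith
  have hfl : ((⌊y⌋₊ : ℕ) : ℝ) ≤ y := Nat.floor_le (by linarith)
  have hfl2 : y < ((⌊y⌋₊ : ℕ) : ℝ) + 1 := Nat.lt_floor_add_one y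
  have htE : t ≤ ((⌊y⌋₊ : ℕ) : ℝ) := by nlinarith
  have hyx : y ≤ 4 * x ^ κ1 := by
    rw [hy]
    calc (N : ℝ) ^ κ1 ≤ (4 * x) ^ κ1 := Real.rpow_le_rpow hN0.le hN2 hκ0.le
      _ = 4 ^ κ1 * x ^ κ1 := Real.mul_rpow (by norm_num) hx0.le
      _ ≤ 4 * x ^ κ1 := by
          apply mul_le_mul_of_nonneg_right _ (Real.rpow_nonneg hx0.le _)
          calc (4 : ℝ) ^ κ1 ≤ 4 ^ (1 : ℝ) :=
                Real.rpow_le_rpow_of_exponent_le (by norm_num) (by linarith)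
            _ = 4 := Real.rpow_one 4
  have hyx2 : y ^ 2 ≤ 4 * x ^ (2 * κ1) := by
    have e1 : y ^ 2 = (N : ℝ) ^ (2 * κ1) := by
      rw [hy, ← Real.rpow_natCast, ← Real.rpow_mul hN0.le]
      congr 1
      push_cast
      ring
    rw [e1]
    calc (N : ℝ) ^ (2 * κ1) ≤ (4 * x) ^ (2 * κ1) := Real.rpow_le_rpow hN0.le hN2 (by linarith)
      _ = 4 ^ (2 * κ1) * x ^ (2 * κ1) := Real.mul_rpow (by norm_num) hx0.le
      _ ≤ 4 * x ^ (2 * κ1) := by
          apply mul_le_mul_of_nonneg_right _ (Real.rpow_nonneg hx0.le _)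
          calc (4 : ℝ) ^ (2 * κ1) ≤ 4 ^ (1 : ℝ) :=
                Real.rpow_le_rpow_of_exponent_le (by norm_num) (by linarith)
            _ = 4 := Real.rpow_one 4
  rw [← hy, ← ht]
  refine ⟨?_, htE, hfl, ?_, ?_⟩
  · have : (2 : ℝ) ≤ ((⌊y⌋₊ : ℕ) : ℝ) := by linarith
    exact_mod_cast this
  · refine hfl.trans (hyx.trans ?_)
    calc 4 * x ^ κ1 ≤ x ^ ((1 : ℝ) / 20) * x ^ ((1 : ℝ) / 20) := by
          apply mul_le_mul
          · exact h1.trans (Real.rpow_le_rpow_of_exponent_le hx1 (by norm_num))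
          · exact Real.rpow_le_rpow_of_exponent_le hx1 hκ2
          · positivity
          · positivity
      _ = x ^ ((1 : ℝ) / 10) := by
          rw [← Real.rpow_add hx0]
          norm_num
  · calc 4 * ((⌊y⌋₊ : ℕ) : ℝ) ^ 2 ≤ 4 * y ^ 2 := by
          apply mul_le_mul_of_nonneg_left _ (by norm_num)
          exact pow_le_pow_left₀ (Nat.cast_nonneg _) hfl 2
      _ ≤ 16 * x ^ (2 * κ1) := by linarith
      _ ≤ x ^ (9 * ρ / 10) * x ^ (ρ / 10) := by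
          apply mul_le_mul h2
          · exact Real.rpow_le_rpow_of_exponent_le hx1 (by linarith)
          · positivity
          · positivity
      _ = x ^ ρ := by
          rw [← Real.rpow_add hx0]
          congr 1
          ring

private lemma Pin_rgh {ρ x : ℝ} {z d : ℕ} (h : (z : ℝ) ≤ x ^ ρ) (hd : Rx ρ x d) : Rgh z d := by
  intro p hp hpd
  have h1 := hd p hp hpd
  have h2 : (z : ℝ) < p := by linarith
  exact_mod_cast h2

theorem tPin (h1 : OffVStmt) (h2 : DiaVStmt) (h3 : SelStmt) : PinStmt := by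
  intro ρ hρ
  obtain ⟨C1, η0, κ, hη0, hκ, hoff⟩ := h1
  obtain ⟨κ1, hκ1⟩ : ∃ κ1 : ℝ, κ1 = min κ (min (ρ / 20) (1 / 20)) := ⟨_, rfl⟩
  have hκ10 : 0 < κ1 := by
    rw [hκ1]
    exact lt_min hκ (lt_min (by positivity) (by norm_num))
  have hκ11 : κ1 ≤ κ := by rw [hκ1]; exact min_le_left _ _
  have hκ12 : κ1 ≤ ρ / 20 := by rw [hκ1]; exact (min_le_right _ _).trans (min_le_left _ _)
  have hκ13 : κ1 ≤ 1 / 20 := by rw [hκ1]; exact (min_le_right _ _).trans (min_le_right _ _)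
  obtain ⟨C2, hdia⟩ := h2 (κ1 / 2) (by positivity)
  obtain ⟨η1, hη1⟩ : ∃ η1 : ℝ, η1 = min η0 1 := ⟨_, rfl⟩
  have hη10 : 0 < η1 := by rw [hη1]; exact lt_min hη0 one_pos
  have hη11 : η1 ≤ η0 := by rw [hη1]; exact min_le_left _ _
  have hη12 : η1 ≤ 1 := by rw [hη1]; exact min_le_right _ _
  have hev : ∀ᶠ x : ℝ in Filter.atTop, 16 ≤ x ∧ 4 ≤ x ^ ((1 : ℝ) / 1000) ∧ 16 ≤ x ^ (9 * ρ / 10) ∧
      4 ≤ x ^ κ1 ∧ 4 * |C1| ≤ x ^ (η1 / 2) := by
    filter_upwards [Filter.eventually_ge_atTop (16 : ℝ), Pin_ev (1 / 1000) 4 (by norm_num),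
      Pin_ev (9 * ρ / 10) 16 (by positivity), Pin_ev κ1 4 hκ10, Pin_ev (η1 / 2) (4 * |C1|) (by positivity)]
      with x a1 a2 a3 a4 a5
    exact ⟨a1, a2, a3, a4, a5⟩
  obtain ⟨x0, hx0⟩ := Filter.eventually_atTop.1 hev
  refine ⟨4 * |C2|, η1 / 2, 1 / 2, 1 / 1000, x0, by positivity, by positivity, by norm_num, by norm_num, ?_⟩
  intro x hxx
  obtain ⟨hx16, e1, e2, e3, e4⟩ := hx0 x hxx
  have hxp : 0 < x := by linarith
  have hx1 : 1 ≤ x := by linarith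
  obtain ⟨hN1, hN2, hN3, hN4⟩ := Asn_N hx16
  obtain ⟨hR1, hR2, hR3⟩ := Asn_RR hx16
  generalize 2 * ⌈x⌉₊ = N at *
  obtain ⟨p1, p2, p3, p4, p5⟩ := Pin_par hκ10 hκ12 hκ13 hx16 hN1 hN2 e1 e2 e3
  generalize ⌊(N : ℝ) ^ κ1⌋₊ = E at *
  have hN1' : (1 : ℝ) ≤ N := by linarith
  have hN0 : (0 : ℝ) < N := by linarith
  have hE2 : (2 : ℝ) ≤ E := by exact_mod_cast p1
  obtain ⟨lam, hlam⟩ := h3 E p1
  have hzE : ((4 * E ^ 2 : ℕ) : ℝ) ≤ x ^ ρ := by
    push_cast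
    exact p5
  have hEz : ((E : ℕ) : ℝ) ≤ x ^ ρ := by
    refine le_trans ?_ p5
    nlinarith
  have habs : ∀ a : ℤ, |(a : ℝ)| ≤ x → |a| ≤ (N : ℤ) := by
    intro a ha
    have h5 : |(a : ℝ)| ≤ (N : ℝ) := ha.trans hN1
    have h6 : ((|a| : ℤ) : ℝ) ≤ ((N : ℤ) : ℝ) := by
      rw [Int.cast_abs, Int.cast_natCast]
      exact h5
    exact_mod_cast h6
  have hD : ((⌊x ^ ((501 : ℝ) / 1000)⌋₊ : ℕ) : ℝ) ≤ (N : ℝ) ^ ((501 : ℝ) / 1000) :=
    (Nat.floor_le (by positivity)).trans (Real.rpow_le_rpow hxp.le hN1 (by norm_num))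
  have hlogx : 0 < Real.log x := Real.log_pos (by linarith)
  refine ⟨RR N, E, Icc (-(N : ℤ)) N, tri N, lam, hR1, ?_, ?_, by omega, p4, hlam.one, ?_, ?_, ?_, ?_⟩
  · have h5 : 4 * x ^ ((1 : ℝ) / 1000) ≤ x ^ ((498 : ℝ) / 1000) := by
      calc 4 * x ^ ((1 : ℝ) / 1000) ≤ x ^ ((1 : ℝ) / 1000) * x ^ ((1 : ℝ) / 1000) :=
            mul_le_mul_of_nonneg_right e1 (by positivity)
        _ = x ^ ((2 : ℝ) / 1000) := by
            rw [← Real.rpow_add hxp]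
            norm_num
        _ ≤ x ^ ((498 : ℝ) / 1000) := Real.rpow_le_rpow_of_exponent_le hx1 (by norm_num)
    have h6 : 0 ≤ x ^ ((1 : ℝ) / 1000) := by positivity
    linarith
  · refine hR2.trans ?_
    calc 4 * x ^ ((498 : ℝ) / 1000) ≤ x ^ ((1 : ℝ) / 1000) * x ^ ((498 : ℝ) / 1000) :=
          mul_le_mul_of_nonneg_right e1 (by positivity)
      _ = x ^ ((1 : ℝ) / 2 - 1 / 1000) := by
          rw [← Real.rpow_add hxp]
          norm_num
  · intro n _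
    exact le_max_left _ _
  · intro n hn0 hnx
    have h5 : n.toNat ≤ ⌊x⌋₊ := by
      apply Nat.le_floor
      have : ((n.toNat : ℕ) : ℝ) = (n : ℝ) := by
        have h7 : ((n.toNat : ℕ) : ℤ) = n := Int.toNat_of_nonneg hn0
        exact_mod_cast congrArg (fun z : ℤ => (z : ℝ)) h7
      rw [this]
      exact hnx
    have h6 : 2 * n ≤ (N : ℤ) := by
      have h7 : ((n.toNat : ℕ) : ℤ) = n := Int.toNat_of_nonneg hn0
      omega
    constructor
    · rw [Finset.mem_Icc]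
      constructor <;> omega
    · refine le_trans ?_ (le_max_right _ _)
      have h7 : (2 : ℝ) * n ≤ N := by exact_mod_cast h6
      have h8 : (0 : ℝ) ≤ n := by exact_mod_cast hn0
      rw [abs_of_nonneg h8]
      have h9 : (n : ℝ) / N ≤ 1 / 2 := by
        rw [div_le_div_iff₀ hN0 (by norm_num)]
        linarith
      linarith
  · intro c c' a b hc hc' hcc hcc' hab ha hb
    refine (hoff N E ⌊x ^ ((501 : ℝ) / 1000)⌋₊ lam c c' a b (by omega) (by omega) ?_ ?_ hlam.le hc hc'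
      (fun d hd => Pin_rgh hzE (hcc d hd)) (fun d hd => Pin_rgh hzE (hcc' d hd)) hab (habs a ha) (habs b hb)).trans ?_
    · exact p3.trans (Real.rpow_le_rpow_of_exponent_le hN1' hκ11)
    · refine hD.trans ?_
      have h5 : (N : ℝ) ^ ((501 : ℝ) / 1000) = (N : ℝ) ^ ((1 : ℝ) / 2 + 1 / 1000) := by
        congr 1
        norm_num
      rw [h5]
      have h6 : 0 ≤ (N : ℝ) ^ ((1 : ℝ) / 2 + 1 / 1000) := by positivity
      linarith
    · calc C1 * (N : ℝ) ^ (1 - η0) ≤ |C1| * (4 * x ^ (1 - η1)) := by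
            apply mul_le_mul (le_abs_self _) _ (by positivity) (abs_nonneg _)
            calc (N : ℝ) ^ (1 - η0) ≤ (N : ℝ) ^ (1 - η1) :=
                  Real.rpow_le_rpow_of_exponent_le hN1' (by linarith)
              _ ≤ (4 * x) ^ (1 - η1) := Real.rpow_le_rpow hN0.le hN2 (by linarith)
              _ = 4 ^ (1 - η1) * x ^ (1 - η1) := Real.mul_rpow (by norm_num) hxp.le
              _ ≤ 4 * x ^ (1 - η1) := by
                  apply mul_le_mul_of_nonneg_right _ (Real.rpow_nonneg hxp.le _)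
                  calc (4 : ℝ) ^ (1 - η1) ≤ 4 ^ (1 : ℝ) :=
                        Real.rpow_le_rpow_of_exponent_le (by norm_num) (by linarith)
                    _ = 4 := Real.rpow_one 4
        _ = (4 * |C1|) * x ^ (1 - η1) := by ring
        _ ≤ x ^ (η1 / 2) * x ^ (1 - η1) := mul_le_mul_of_nonneg_right e4 (by positivity)
        _ = x ^ (1 - η1 / 2) := by
            rw [← Real.rpow_add hxp]
            congr 1
            ring
  · intro c A W hcc hW hA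
    have hW0 : 0 ≤ W := (Finset.sum_nonneg fun a _ => sq_nonneg (c a 0)).trans (hW 0)
    refine (hdia N (RR N) E ⌊x ^ ((501 : ℝ) / 1000)⌋₊ lam c A W hN4 hR1 p1 p2 ?_ hlam ?_
      (fun a d hd => Pin_rgh hEz (hcc a d hd)) hW (fun a ha => habs a (hA a ha))).trans ?_
    · exact p3.trans (Real.rpow_le_rpow_of_exponent_le hN1' (by linarith))
    · refine hD.trans ?_
      have h5 : (N : ℝ) ^ ((501 : ℝ) / 1000) ≤ (N : ℝ) ^ ((3 : ℝ) / 4) :=
        Real.rpow_le_rpow_of_exponent_le hN1' (by norm_num)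
      have h6 : 0 ≤ (N : ℝ) ^ ((3 : ℝ) / 4) := by positivity
      linarith
    · have hlogN : Real.log x ≤ Real.log N := Real.log_le_log hxp hN1
      calc C2 * W * (N : ℝ) / Real.log N ≤ |C2| * W * (4 * x) / Real.log N := by
            apply div_le_div_of_nonneg_right _ (by linarith)
            apply mul_le_mul _ hN2 hN0.le (by positivity)
            exact mul_le_mul_of_nonneg_right (le_abs_self _) hW0
        _ ≤ |C2| * W * (4 * x) / Real.log x := by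
            apply div_le_div_of_nonneg_left (by positivity) hlogx hlogN
        _ = 4 * |C2| * (x / Real.log x) * W := by ring

end Pool.Agent.Lib.TP
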