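import Pool.Agent.Lib.TP.SpecP

/-!
TP module Psp: the small primes.
-/

namespace Pool.Agent.Lib.TP

open Finset Pool.Agent.Lib.EH3 Pool.Agent.Lib.TB Pool.Agent.Results.MP_00e23e_nt

/-- The number of divisors is at most `2 √n`. -/
private theorem Psp_card_le (n : ℕ) : (n.divisors.card : ℝ) ≤ 2 * Real.sqrt n := by
  have h1 : n.divisors ⊆ (Icc 1 n.sqrt) ∪ (Icc 1 n.sqrt).image (fun d => n / d) := by
    intro d hd
    rw [Nat.mem_divisors] at hd
    obtain ⟨⟨e, he⟩, hn⟩ := hd
    have hd0 : 0 < d := Nat.pos_of_ne_zero (by rintro rfl; simp at he; exact hn he)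
    have he0 : 0 < e := Nat.pos_of_ne_zero (by rintro rfl; simp at he; exact hn he)
    rw [Finset.mem_union, Finset.mem_image]
    by_cases h : d ≤ n.sqrt
    · left
      exact Finset.mem_Icc.2 ⟨hd0, h⟩
    · right
      refine ⟨e, Finset.mem_Icc.2 ⟨he0, ?_⟩, ?_⟩
      · by_contra h2
        have h3 : n.sqrt + 1 ≤ d := by omega
        have h4 : n.sqrt + 1 ≤ e := by omega
        have h5 := Nat.mul_le_mul h3 h4
        rw [← he] at h5
        have h6 := Nat.lt_succ_sqrt n
        have h7 : n.sqrt.succ * n.sqrt.succ = (n.sqrt + 1) * (n.sqrt + 1) := rfl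
        omega
      · rw [he]
        exact Nat.mul_div_cancel _ he0
  have h2 := Finset.card_le_card h1
  have h3 := Finset.card_union_le (Icc 1 n.sqrt) ((Icc 1 n.sqrt).image (fun d => n / d))
  have h4 := Finset.card_image_le (s := Icc 1 n.sqrt) (f := fun d => n / d)
  rw [Nat.card_Icc] at h3 h4
  have h5 : n.divisors.card ≤ 2 * n.sqrt := by omega
  have h6 : (n.divisors.card : ℝ) ≤ 2 * (n.sqrt : ℝ) := by exact_mod_cast h5
  have h7 : (n.sqrt : ℝ) ≤ Real.sqrt n := Real.nat_sqrt_le_real_sqrt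
  linarith

theorem tPsp (h : OabStmt) : PspStmt := by
  classical
  intro R D E P0 s X M hR hD hX hEX hP0 hs hM
  obtain ⟨B, hB⟩ : ∃ B, B = 1 + (1 + Real.log D) * (1 + Real.log R) := ⟨_, rfl⟩
  have hlD : 0 ≤ Real.log D := Real.log_nonneg (by exact_mod_cast hD)
  have hlR : 0 ≤ Real.log R := Real.log_nonneg (by exact_mod_cast hR)
  have hB0 : 0 ≤ B := by rw [hB]; positivity
  obtain ⟨A, hA⟩ : ∃ A, A = (Icc 1 D).image s := ⟨_, rfl⟩
  rw [← hA] at hM
  rw [← hB]
  have hM0 : 0 ≤ M := le_trans (Nat.cast_nonneg _) hM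
  have hsX : 0 ≤ Real.sqrt X := Real.sqrt_nonneg X
  -- one modulus
  have h1 : ∀ d ∈ Ioc R D, |gg R P0 (s d) d| ≤
      ∑ p ∈ P0, ∑ a ∈ A, (if (p : ℤ) - a = 0 then 0 else |dd R d ((p : ℤ) - a)|) := by
    intro d hd
    unfold gg
    refine (Finset.abs_sum_le_sum_abs _ _).trans ?_
    apply Finset.sum_le_sum
    intro p _
    have hmem : s d ∈ A := by
      rw [hA]
      apply Finset.mem_image_of_mem
      rw [Finset.mem_Ioc] at hd
      rw [Finset.mem_Icc]
      omega
    have h2 := Finset.single_le_sum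
      (f := fun a : ℤ => (if (p : ℤ) - a = 0 then (0 : ℝ) else |dd R d ((p : ℤ) - a)|))
      (s := A) (fun a _ => by
        split_ifs
        · exact le_refl _
        · exact abs_nonneg _) hmem
    refine le_trans (le_of_eq ?_) h2
    split_ifs
    · exact abs_zero
    · rfl
  -- one prime and one value
  have h2 : ∀ p ∈ P0, ∀ a ∈ A,
      ∑ d ∈ Ioc R D, (if (p : ℤ) - a = 0 then 0 else |dd R d ((p : ℤ) - a)|) ≤ 4 * Real.sqrt X * B := by
    intro p hp a ha
    by_cases h0 : (p : ℤ) - a = 0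
    · simp only [if_pos h0, Finset.sum_const_zero]
      positivity
    · simp only [if_neg h0]
      refine (h R D ((p : ℤ) - a) hR hD h0).trans ?_
      rw [← hB]
      apply mul_le_mul_of_nonneg_right _ hB0
      refine (Psp_card_le _).trans ?_
      have hpE := Finset.mem_Icc.1 (hP0 hp)
      have hpX : (p : ℝ) ≤ X := le_trans (by exact_mod_cast hpE.2) hEX
      have haX : |(a : ℝ)| ≤ X := by
        rw [hA] at ha
        obtain ⟨d, hd, rfl⟩ := Finset.mem_image.1 ha
        exact hs d hd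
      have h3 : ((((p : ℤ) - a).natAbs : ℕ) : ℝ) ≤ 2 * X := by
        rw [Nat.cast_natAbs, Int.cast_abs]
        push_cast
        have h4 : |(p : ℝ) - a| ≤ |(p : ℝ)| + |(a : ℝ)| := abs_sub _ _
        have h5 : |(p : ℝ)| = p := abs_of_nonneg (Nat.cast_nonneg p)
        rw [h5] at h4
        linarith
      have h6 : Real.sqrt ((((p : ℤ) - a).natAbs : ℕ) : ℝ) ≤ 2 * Real.sqrt X := by
        have h7 : Real.sqrt (4 * X) = 2 * Real.sqrt X := by
          rw [Real.sqrt_mul (by norm_num), show (4 : ℝ) = 2 ^ 2 by norm_num,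
            Real.sqrt_sq (by norm_num)]
        rw [← h7]
        apply Real.sqrt_le_sqrt
        linarith
      linarith
  calc ∑ d ∈ Ioc R D, |gg R P0 (s d) d|
      ≤ ∑ d ∈ Ioc R D, ∑ p ∈ P0, ∑ a ∈ A,
          (if (p : ℤ) - a = 0 then 0 else |dd R d ((p : ℤ) - a)|) := Finset.sum_le_sum h1
    _ = ∑ p ∈ P0, ∑ a ∈ A, ∑ d ∈ Ioc R D,
          (if (p : ℤ) - a = 0 then 0 else |dd R d ((p : ℤ) - a)|) := by
        rw [Finset.sum_comm]
        apply Finset.sum_congr rfl
        intro p _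
        rw [Finset.sum_comm]
    _ ≤ ∑ p ∈ P0, ∑ a ∈ A, (4 * Real.sqrt X * B) := by
        apply Finset.sum_le_sum
        intro p hp
        apply Finset.sum_le_sum
        intro a ha
        exact h2 p hp a ha
    _ = (P0.card : ℝ) * ((A.card : ℝ) * (4 * Real.sqrt X * B)) := by
        rw [Finset.sum_const, Finset.sum_const, nsmul_eq_mul, nsmul_eq_mul]
    _ ≤ (E : ℝ) * (M * (4 * Real.sqrt X * B)) := by
        have hc : P0.card ≤ E := by
          have := Finset.card_le_card hP0
          rw [Nat.card_Icc] at this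
          omega
        have hc' : (P0.card : ℝ) ≤ E := by exact_mod_cast hc
        have h5 : 0 ≤ 4 * Real.sqrt X * B := by positivity
        exact mul_le_mul hc' (mul_le_mul_of_nonneg_right hM h5)
          (mul_nonneg (Nat.cast_nonneg _) h5) (Nat.cast_nonneg _)
    _ = 4 * E * M * Real.sqrt X * B := by ring

end Pool.Agent.Lib.TP
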