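import Pool.Agent.Lib.TP.SpecS

/-!
MP_00e23e_nt, directory Lib/TP, module Rgd: the number of rough divisors.
-/

namespace Pool.Agent.Lib.TP

open Finset Pool.Agent.Lib.EH3 Pool.Agent.Lib.TB

private lemma Rgd_sub {z p m' : ℕ} (hp : p.Prime) (hm' : m' ≠ 0) :
    ((p * m').divisors).filter (Rgh z) ⊆
      ((m'.divisors).filter (Rgh z)) ∪ ((m'.divisors).filter (Rgh z)).image (fun d => p * d) := by
  intro d hd
  rw [mem_filter, Nat.mem_divisors] at hd
  obtain ⟨⟨hd1, _⟩, hd2⟩ := hd
  rw [mem_union]
  by_cases hpd : p ∣ d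
  · right
    obtain ⟨d', rfl⟩ := hpd
    rw [mem_image]
    refine ⟨d', ?_, rfl⟩
    rw [mem_filter, Nat.mem_divisors]
    exact ⟨⟨Nat.dvd_of_mul_dvd_mul_left hp.pos hd1, hm'⟩,
      fun q hq hqd => hd2 q hq (hqd.mul_left p)⟩
  · left
    rw [mem_filter, Nat.mem_divisors]
    refine ⟨⟨?_, hm'⟩, hd2⟩
    exact ((Nat.Prime.coprime_iff_not_dvd hp).2 hpd).symm.dvd_of_dvd_mul_left hd1

theorem tRgd : RgddStmt := by
  intro z m hz
  have hz1 : (1 : ℝ) < z := by exact_mod_cast (by omega : 1 < z)
  have hlz : 0 < Real.log z := Real.log_pos hz1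
  induction m using Nat.strong_induction_on with
  | _ m ih =>
    intro hm
    by_cases h : ∃ p : ℕ, p.Prime ∧ p ∣ m ∧ z < p
    · obtain ⟨p, hp, ⟨m', rfl⟩, hzp⟩ := h
      have hm' : 1 ≤ m' := by
        rcases Nat.eq_zero_or_pos m' with h0 | h0
        · rw [h0, mul_zero] at hm
          omega
        · exact h0
      have hlt : m' < p * m' := by
        have := hp.two_le
        nlinarith
      have h1 := ih m' hlt hm'
      have h2 : (((p * m').divisors).filter (Rgh z)).card ≤
          2 * ((m'.divisors).filter (Rgh z)).card := by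
        refine (Finset.card_le_card (Rgd_sub hp (by omega))).trans ?_
        refine (Finset.card_union_le _ _).trans ?_
        have h3 := Finset.card_image_le (s := (m'.divisors).filter (Rgh z)) (f := fun d => p * d)
        omega
      have h3 : ((((p * m').divisors).filter (Rgh z)).card : ℝ) ≤
          2 * (((m'.divisors).filter (Rgh z)).card : ℝ) := by exact_mod_cast h2
      have hp0 : (0 : ℝ) < p := by exact_mod_cast hp.pos
      have hm0 : (0 : ℝ) < m' := by exact_mod_cast hm'
      have h4 : Real.log ((p * m' : ℕ) : ℝ) = Real.log p + Real.log m' := by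
        push_cast
        exact Real.log_mul hp0.ne' hm0.ne'
      have h5 : Real.log z ≤ Real.log p := by
        apply Real.log_le_log (by linarith)
        exact_mod_cast hzp.le
      have h6 : 1 + Real.log m' / Real.log z ≤ Real.log ((p * m' : ℕ) : ℝ) / Real.log z := by
        rw [h4, add_div]
        have : 1 ≤ Real.log p / Real.log z := (one_le_div hlz).2 h5
        linarith
      calc ((((p * m').divisors).filter (Rgh z)).card : ℝ) ≤
          2 * (((m'.divisors).filter (Rgh z)).card : ℝ) := h3
        _ ≤ 2 * (2 : ℝ) ^ (Real.log m' / Real.log z) := by linarith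
        _ = (2 : ℝ) ^ (1 + Real.log m' / Real.log z) := by
            rw [Real.rpow_add (by norm_num), Real.rpow_one]
        _ ≤ _ := Real.rpow_le_rpow_of_exponent_le (by norm_num) h6
    · have h1 : (m.divisors).filter (Rgh z) ⊆ {1} := by
        intro d hd
        rw [mem_filter, Nat.mem_divisors] at hd
        rw [mem_singleton]
        by_contra hd1
        have h2 := Nat.minFac_prime hd1
        exact h ⟨d.minFac, h2, (Nat.minFac_dvd d).trans hd.1.1,
          hd.2 _ h2 (Nat.minFac_dvd d)⟩
      have h2 := Finset.card_le_card h1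
      rw [card_singleton] at h2
      have h3 : (((m.divisors).filter (Rgh z)).card : ℝ) ≤ 1 := by exact_mod_cast h2
      refine h3.trans ?_
      apply Real.one_le_rpow (by norm_num)
      exact div_nonneg (Real.log_nonneg (by exact_mod_cast hm)) hlz.le

end Pool.Agent.Lib.TP
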