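import Pool.Agent.Lib.TP.SpecS

set_option autoImplicit false

namespace Pool.Agent.Lib.TP

open Finset Pool.Agent.Lib.EH3 Pool.Agent.Lib.TB

/-- a rough integer larger than one is larger than z -/
private theorem Rgs_gt (z d : ℕ) (hd : 1 < d) (h : Rgh z d) : z < d := by
  obtain ⟨p, hp, hpd⟩ := Nat.exists_prime_and_dvd (by omega : d ≠ 1)
  exact (h p hp hpd).trans_le (Nat.le_of_dvd (by omega) hpd)

/-- the sieve weight is one at the rough integers -/
private theorem Rgs_nu (lam : ℕ → ℝ) (E z d : ℕ) (h1 : lam 1 = 1) (hE : 1 ≤ E) (hEz : E ≤ z) (h : Rgh z d) :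
    nu lam E (d : ℤ) = 1 := by
  unfold nu
  have e1 : ∑ e ∈ Icc 1 E, (if (e : ℤ) ∣ (d : ℤ) then lam e else 0) = ∑ e ∈ Icc 1 E, (if e = 1 then (1 : ℝ) else 0) := by
    refine Finset.sum_congr rfl fun e he => ?_
    rw [mem_Icc] at he
    by_cases h2 : e = 1
    · subst h2
      simp [h1]
    · rw [if_neg h2, if_neg]
      intro hed
      obtain ⟨p, hp, hpe⟩ := Nat.exists_prime_and_dvd h2
      have h3 : p ∣ d := hpe.trans (Int.natCast_dvd_natCast.1 hed)
      have h4 := h p hp h3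
      have h5 := Nat.le_of_dvd (by omega) hpe
      omega
  rw [e1, Finset.sum_ite_eq' (Icc 1 E) 1 (fun _ => (1 : ℝ)), if_pos (mem_Icc.2 ⟨le_refl 1, hE⟩)]
  norm_num

private theorem Rgs_tri_nonneg (N : ℕ) (n : ℤ) : 0 ≤ tri N n := le_max_left _ _

/-- one dyadic interval -/
private theorem Rgs_dy (h1 : SelStmt) (h2 : SvpStmt) (z k Q : ℕ) (hk : 2 ≤ k) (hkz : 2 ^ (10 * k) ≤ z) (hQ : 1 ≤ Q)
    (hQz : z < 2 * Q) :
    ∑ d ∈ (Ioc Q (2 * Q)).filter (Rgh z), 1 / (d : ℝ) ≤ 10 / (k * Real.log 2) := by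
  classical
  have hE2 : 2 ≤ 2 ^ k := by
    calc 2 = 2 ^ 1 := rfl
      _ ≤ 2 ^ k := Nat.pow_le_pow_right (by norm_num) (by omega)
  obtain ⟨lam, hl⟩ := h1 (2 ^ k) hE2
  have h3 := h2 (4 * Q) (2 ^ k) 1 lam 0 (by omega) hE2 (le_refl 1) hl (fun p hp hp1 => by
    have := Nat.le_of_dvd one_pos hp1
    have := hp.two_le
    omega)
  have hlog2 : 0 < Real.log 2 := Real.log_pos (by norm_num)
  have hk0 : (0 : ℝ) < k := by exact_mod_cast (by omega : 0 < k)
  have hlogE : Real.log ((2 ^ k : ℕ) : ℝ) = k * Real.log 2 := by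
    push_cast
    rw [Real.log_pow]
  have hEz : 2 ^ k ≤ z := (Nat.pow_le_pow_right (by norm_num) (by omega)).trans hkz
  set F : Finset ℕ := (Ioc Q (2 * Q)).filter (Rgh z) with hF
  let g : ℤ → ℝ := fun n => tri (4 * Q) n * nu lam (2 ^ k) n * (if ((1 : ℕ) : ℤ) ∣ n - 0 then 1 else 0)
  have hg0 : ∀ n, 0 ≤ g n := by
    intro n
    refine mul_nonneg (mul_nonneg (Rgs_tri_nonneg _ _) (sq_nonneg _)) ?_
    split_ifs <;> norm_num
  have hQ0 : (0 : ℝ) < Q := by exact_mod_cast hQ
  have hg1 : ∀ d ∈ F, (1 : ℝ) / 2 ≤ g (d : ℤ) := by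
    intro d hd
    rw [hF, mem_filter, mem_Ioc] at hd
    have e1 : nu lam (2 ^ k) (d : ℤ) = 1 := Rgs_nu lam _ z d hl.one (by omega) hEz hd.2
    have e2 : (if ((1 : ℕ) : ℤ) ∣ (d : ℤ) - 0 then (1 : ℝ) else 0) = 1 := if_pos (by simp)
    show (1 : ℝ) / 2 ≤ tri (4 * Q) (d : ℤ) * nu lam (2 ^ k) (d : ℤ) *
      (if ((1 : ℕ) : ℤ) ∣ (d : ℤ) - 0 then 1 else 0)
    rw [e1, e2, mul_one, mul_one]
    refine le_max_of_le_right ?_
    have e3 : |(((d : ℕ) : ℤ) : ℝ)| = (d : ℝ) := by
      rw [Int.cast_natCast]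
      exact abs_of_nonneg (Nat.cast_nonneg d)
    rw [e3]
    have e4 : (d : ℝ) ≤ 2 * Q := by exact_mod_cast hd.1.2
    have e5 : (d : ℝ) / ((4 * Q : ℕ) : ℝ) ≤ 1 / 2 := by
      push_cast
      rw [div_le_div_iff₀ (by positivity) (by norm_num)]
      linarith
    linarith
  have hcard : (F.card : ℝ) * (1 / 2) ≤ ∑ n ∈ Icc (-((4 * Q : ℕ) : ℤ)) ((4 * Q : ℕ) : ℤ), g n := by
    calc (F.card : ℝ) * (1 / 2) = ∑ d ∈ F, (1 : ℝ) / 2 := by rw [sum_const, nsmul_eq_mul]
      _ ≤ ∑ d ∈ F, g (d : ℤ) := Finset.sum_le_sum hg1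
      _ = ∑ n ∈ F.map ⟨fun d : ℕ => (d : ℤ), fun a b h => Int.ofNat.inj h⟩, g n := by
        rw [Finset.sum_map]
        rfl
      _ ≤ _ := by
        refine Finset.sum_le_sum_of_subset_of_nonneg ?_ fun n _ _ => hg0 n
        intro n hn
        rw [mem_map] at hn
        obtain ⟨d, hd, rfl⟩ := hn
        rw [hF, mem_filter, mem_Ioc] at hd
        rw [mem_Icc]
        show -((4 * Q : ℕ) : ℤ) ≤ (d : ℤ) ∧ (d : ℤ) ≤ ((4 * Q : ℕ) : ℤ)
        constructor <;> push_cast <;> omega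
  have h4 : (F.card : ℝ) ≤ 10 * Q / (k * Real.log 2) := by
    have h5 := hcard.trans h3
    rw [hlogE] at h5
    push_cast at h5
    have hE4 : ((2 : ℝ) ^ k) ^ 4 ≤ 2 * Q := by
      have e1 : (2 ^ k) ^ 4 ≤ 2 * Q := by
        calc (2 ^ k) ^ 4 = 2 ^ (k * 4) := by rw [pow_mul]
          _ ≤ 2 ^ (10 * k) := Nat.pow_le_pow_right (by norm_num) (by omega)
          _ ≤ z := hkz
          _ ≤ 2 * Q := by omega
      exact_mod_cast e1
    have hkQ : (k : ℝ) * Real.log 2 ≤ 2 * Q := by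
      have e1 : (k : ℝ) ≤ 2 * Q := by
        have : k ≤ 2 * Q := by
          calc k ≤ 2 ^ k := Nat.lt_two_pow_self.le
            _ ≤ z := hEz
            _ ≤ 2 * Q := by omega
        exact_mod_cast this
      have e2 : Real.log 2 ≤ 1 := by
        have := Real.log_two_lt_d9
        linarith
      calc (k : ℝ) * Real.log 2 ≤ k * 1 := by gcongr
        _ = k := mul_one _
        _ ≤ 2 * Q := e1
    have h6 : (1 : ℝ) * ((2 : ℝ) ^ k) ^ 4 / (4 * Q) ≤ 1 / 2 := by
      rw [div_le_div_iff₀ (by positivity) (by norm_num)]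
      linarith
    have h7 : (1 : ℝ) ≤ 2 * Q / (k * Real.log 2) := by
      rw [le_div_iff₀ (by positivity)]
      linarith
    have h8 : (4 * Q : ℝ) / (1 * (k * Real.log 2)) = 4 * (Q / (k * Real.log 2)) := by
      rw [one_mul, mul_div_assoc]
    rw [h8] at h5
    have h9 : (2 * Q : ℝ) / (k * Real.log 2) = 2 * (Q / (k * Real.log 2)) := by rw [mul_div_assoc]
    have h10 : (10 * Q : ℝ) / (k * Real.log 2) = 10 * (Q / (k * Real.log 2)) := by rw [mul_div_assoc]
    rw [h9] at h7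
    rw [h10]
    linarith
  calc ∑ d ∈ F, 1 / (d : ℝ) ≤ ∑ d ∈ F, 1 / (Q : ℝ) := by
        refine Finset.sum_le_sum fun d hd => ?_
        rw [hF, mem_filter, mem_Ioc] at hd
        have : (Q : ℝ) ≤ d := by exact_mod_cast hd.1.1.le
        exact one_div_le_one_div_of_le hQ0 this
    _ = F.card * (1 / (Q : ℝ)) := by rw [sum_const, nsmul_eq_mul]
    _ ≤ 10 * Q / (k * Real.log 2) * (1 / (Q : ℝ)) := by gcongr
    _ = 10 / (k * Real.log 2) := by
      field_simp

theorem tRgs (h1 : SelStmt) (h2 : SvpStmt) : RgsStmt := by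
  classical
  refine ⟨450, fun z X hz hX => ?_⟩
  have hlog2 : 0 < Real.log 2 := Real.log_pos (by norm_num)
  have hlog2' : Real.log 2 < 0.6931471808 := Real.log_two_lt_d9
  have hlog2'' : 0.6931471803 < Real.log 2 := Real.log_two_gt_d9
  have hz2 : (2 : ℝ) ≤ z := by exact_mod_cast hz
  have hX2 : (2 : ℝ) ≤ X := by exact_mod_cast hX
  have hlz : 0 < Real.log z := Real.log_pos (by linarith)
  have hlX : Real.log 2 ≤ Real.log X := Real.log_le_log (by norm_num) hX2
  have hlX0 : 0 < Real.log X := by linarith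
  by_cases hz20 : z < 2 ^ 20
  · have e1 : ∑ d ∈ (Icc 1 X).filter (Rgh z), 1 / (d : ℝ) ≤ 1 + Real.log X := by
      calc ∑ d ∈ (Icc 1 X).filter (Rgh z), 1 / (d : ℝ) ≤ ∑ d ∈ Icc 1 X, 1 / (d : ℝ) :=
            Finset.sum_le_sum_of_subset_of_nonneg (Finset.filter_subset _ _) fun d _ _ => by positivity
        _ = ((harmonic X : ℚ) : ℝ) := by
          rw [harmonic_eq_sum_Icc]
          push_cast
          exact Finset.sum_congr rfl fun d _ => one_div _
        _ ≤ 1 + Real.log X := harmonic_le_one_add_log X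
    have e2 : Real.log z ≤ 20 * Real.log 2 := by
      have : (z : ℝ) ≤ 2 ^ 20 := by exact_mod_cast hz20.le
      calc Real.log z ≤ Real.log ((2 : ℝ) ^ 20) := Real.log_le_log (by linarith) this
        _ = 20 * Real.log 2 := by rw [Real.log_pow]; norm_num
    have e3 : Real.log X ≤ 14 * (Real.log X / Real.log z) := by
      rw [← mul_div_assoc, le_div_iff₀ hlz]
      have : Real.log z ≤ 14 := by linarith
      nlinarith
    have e4 : 0 ≤ Real.log X / Real.log z := by positivity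
    linarith
  · have hz20' : 2 ^ 20 ≤ z := not_lt.1 hz20
    have hL20 : 20 ≤ Nat.log 2 z := by
      calc 20 = Nat.log 2 (2 ^ 20) := by rw [Nat.log_pow (by norm_num)]
        _ ≤ Nat.log 2 z := Nat.log_mono_right hz20'
    obtain ⟨k, hk⟩ : ∃ k, k = Nat.log 2 z / 10 := ⟨_, rfl⟩
    have hk2 : 2 ≤ k := by omega
    have hk15 : Nat.log 2 z + 1 ≤ 15 * k := by omega
    have hk10 : 10 * k ≤ Nat.log 2 z := by omega
    have hkz : 2 ^ (10 * k) ≤ z :=
      (Nat.pow_le_pow_right (by norm_num) hk10).trans (Nat.pow_log_le_self 2 (by omega))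
    have hk0 : (0 : ℝ) < k := by exact_mod_cast (by omega : 0 < k)
    have hlzk : Real.log z ≤ 15 * (k * Real.log 2) := by
      have e1 : (z : ℝ) ≤ 2 ^ (15 * k) := by
        have : z ≤ 2 ^ (15 * k) := (Nat.lt_pow_succ_log_self (by norm_num) z).le.trans
          (Nat.pow_le_pow_right (by norm_num) hk15)
        exact_mod_cast this
      calc Real.log z ≤ Real.log ((2 : ℝ) ^ (15 * k)) := Real.log_le_log (by linarith) e1
        _ = 15 * (k * Real.log 2) := by rw [Real.log_pow]; push_cast; ring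
    have hb : 10 / (k * Real.log 2) ≤ 150 / Real.log z := by
      rw [div_le_div_iff₀ (by positivity) hlz]
      linarith
    have hi : ∀ i : ℕ, ∑ d ∈ (Ioc (2 ^ i) (2 * 2 ^ i)).filter (Rgh z), 1 / (d : ℝ) ≤ 150 / Real.log z := by
      intro i
      by_cases h : z < 2 * 2 ^ i
      · exact (Rgs_dy h1 h2 z k (2 ^ i) hk2 hkz (Nat.one_le_two_pow) h).trans hb
      · rw [Finset.filter_false_of_mem]
        · rw [Finset.sum_empty]
          positivity
        · intro d hd hr
          rw [mem_Ioc] at hd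
          have h3 : 1 ≤ 2 ^ i := Nat.one_le_two_pow
          have := Rgs_gt z d (by omega) hr
          omega
    have hsub : (Icc 1 X).filter (Rgh z) ⊆ insert 1 ((range (Nat.log 2 X + 1)).biUnion
        fun i => (Ioc (2 ^ i) (2 * 2 ^ i)).filter (Rgh z)) := by
      intro d hd
      rw [mem_filter, mem_Icc] at hd
      rw [mem_insert, mem_biUnion]
      by_cases h : d = 1
      · exact Or.inl h
      · right
        have hd1 : d - 1 ≠ 0 := by omega
        refine ⟨Nat.log 2 (d - 1), ?_, ?_⟩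
        · rw [mem_range, Nat.lt_succ_iff]
          exact Nat.log_mono_right (by omega)
        · rw [mem_filter, mem_Ioc]
          have e1 := Nat.pow_log_le_self 2 hd1
          have e2 := Nat.lt_pow_succ_log_self (b := 2) (by norm_num) (d - 1)
          rw [pow_succ] at e2
          refine ⟨⟨by omega, by omega⟩, hd.2⟩
    have hn : ∀ s : Finset ℕ, ∀ d ∈ s, 0 ≤ 1 / (d : ℝ) := fun s d _ => by positivity
    have hlogX : ((Nat.log 2 X + 1 : ℕ) : ℝ) ≤ 3 * Real.log X := by
      have e1 : (Nat.log 2 X : ℝ) * Real.log 2 ≤ Real.log X := by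
        have : ((2 : ℝ) ^ (Nat.log 2 X)) ≤ X := by exact_mod_cast Nat.pow_log_le_self 2 (by omega)
        calc (Nat.log 2 X : ℝ) * Real.log 2 = Real.log ((2 : ℝ) ^ (Nat.log 2 X)) := by rw [Real.log_pow]
          _ ≤ Real.log X := Real.log_le_log (by positivity) this
      push_cast
      nlinarith
    calc ∑ d ∈ (Icc 1 X).filter (Rgh z), 1 / (d : ℝ)
        ≤ ∑ d ∈ insert 1 ((range (Nat.log 2 X + 1)).biUnion
          fun i => (Ioc (2 ^ i) (2 * 2 ^ i)).filter (Rgh z)), 1 / (d : ℝ) :=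
          Finset.sum_le_sum_of_subset_of_nonneg hsub fun d _ _ => by positivity
      _ ≤ 1 + ∑ i ∈ range (Nat.log 2 X + 1), ∑ d ∈ (Ioc (2 ^ i) (2 * 2 ^ i)).filter (Rgh z), 1 / (d : ℝ) := by
          have e1 : ∑ d ∈ insert 1 ((range (Nat.log 2 X + 1)).biUnion
              fun i => (Ioc (2 ^ i) (2 * 2 ^ i)).filter (Rgh z)), 1 / (d : ℝ) ≤
              1 / ((1 : ℕ) : ℝ) + ∑ d ∈ ((range (Nat.log 2 X + 1)).biUnion
              fun i => (Ioc (2 ^ i) (2 * 2 ^ i)).filter (Rgh z)), 1 / (d : ℝ) := by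
            by_cases h : 1 ∈ ((range (Nat.log 2 X + 1)).biUnion
              fun i => (Ioc (2 ^ i) (2 * 2 ^ i)).filter (Rgh z))
            · rw [Finset.insert_eq_of_mem h]
              have : (0 : ℝ) ≤ 1 / ((1 : ℕ) : ℝ) := by positivity
              linarith
            · rw [Finset.sum_insert h]
          have e2 : ∑ d ∈ ((range (Nat.log 2 X + 1)).biUnion
              fun i => (Ioc (2 ^ i) (2 * 2 ^ i)).filter (Rgh z)), 1 / (d : ℝ) ≤
              ∑ i ∈ range (Nat.log 2 X + 1), ∑ d ∈ (Ioc (2 ^ i) (2 * 2 ^ i)).filter (Rgh z), 1 / (d : ℝ) := by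
            rw [Finset.sum_biUnion]
            intro i _ j _ hij
            rw [Function.onFun, Finset.disjoint_left]
            intro d hd hd'
            rw [mem_filter, mem_Ioc] at hd hd'
            have e1 := hd.1
            have e2 := hd'.1
            rcases lt_or_gt_of_ne hij with h | h
            · have : 2 * 2 ^ i ≤ 2 ^ j := by
                calc 2 * 2 ^ i = 2 ^ (i + 1) := by rw [pow_succ, mul_comm]
                  _ ≤ 2 ^ j := Nat.pow_le_pow_right (by norm_num) h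
              omega
            · have : 2 * 2 ^ j ≤ 2 ^ i := by
                calc 2 * 2 ^ j = 2 ^ (j + 1) := by rw [pow_succ, mul_comm]
                  _ ≤ 2 ^ i := Nat.pow_le_pow_right (by norm_num) h
              omega
          have e3 : (1 : ℝ) / ((1 : ℕ) : ℝ) = 1 := by norm_num
          linarith
      _ ≤ 1 + ∑ i ∈ range (Nat.log 2 X + 1), 150 / Real.log z := by
          have := Finset.sum_le_sum (s := range (Nat.log 2 X + 1)) fun i _ => hi i
          linarith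
      _ = 1 + ((Nat.log 2 X + 1 : ℕ) : ℝ) * (150 / Real.log z) := by
          rw [sum_const, nsmul_eq_mul, card_range]
      _ ≤ 1 + 3 * Real.log X * (150 / Real.log z) := by gcongr
      _ = 1 + 450 * (Real.log X / Real.log z) := by ring
      _ ≤ 450 * (1 + Real.log X / Real.log z) := by
          have : 0 ≤ Real.log X / Real.log z := by positivity
          linarith

end Pool.Agent.Lib.TP
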