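import Pool.Agent.Lib.TP.SpecS

set_option autoImplicit false

namespace Pool.Agent.Lib.TP

open Finset Pool.Agent.Lib.EH3 Pool.Agent.Lib.TB

/-- Selberg weights exist -/
theorem tSel (h1 : SgaStmt) (h2 : SlaStmt) (h3 : SlqStmt) : SelStmt := by
  intro E hE
  obtain ⟨ha, hb⟩ := h2 E (by omega)
  refine ⟨sl E, ha, hb, ?_⟩
  rw [h3 E (by omega)]
  have hE' : (1 : ℝ) < (E : ℝ) := by exact_mod_cast hE
  exact one_div_le_one_div_of_le (Real.log_pos hE') (h1 E (by omega))

end Pool.Agent.Lib.TP
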