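import Pool.Agent.Lib.TP.SpecS

set_option autoImplicit false

namespace Pool.Agent.Lib.TP

open Finset Pool.Agent.Lib.EH3 Pool.Agent.Lib.TB

private lemma Svp_nu (lam : ℕ → ℝ) (E : ℕ) (n : ℤ) :
    nu lam E n = ∑ e ∈ Icc 1 E, ∑ e' ∈ Icc 1 E,
      lam e * lam e' * (if ((Nat.lcm e e' : ℕ) : ℤ) ∣ n then 1 else 0) := by
  unfold nu
  rw [sq, Finset.sum_mul_sum]
  refine sum_congr rfl fun e _ => sum_congr rfl fun e' _ => ?_
  have h : ((Nat.lcm e e' : ℕ) : ℤ) ∣ n ↔ (e : ℤ) ∣ n ∧ (e' : ℤ) ∣ n := by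
    rw [Int.natCast_dvd, Int.natCast_dvd, Int.natCast_dvd, Nat.lcm_dvd_iff]
  by_cases h1 : (e : ℤ) ∣ n
  · by_cases h2 : (e' : ℤ) ∣ n
    · rw [if_pos h1, if_pos h2, if_pos (h.mpr ⟨h1, h2⟩), mul_one]
    · rw [if_neg h2, if_neg (fun h3 => h2 (h.mp h3).2), mul_zero, mul_zero]
  · rw [if_neg h1, if_neg (fun h3 => h1 (h.mp h3).1), mul_zero, zero_mul]

private lemma Svp_expand (N E q : ℕ) (lam : ℕ → ℝ) (a : ℤ) :
    ∑ n ∈ Icc (-(N : ℤ)) N, tri N n * nu lam E n * (if (q : ℤ) ∣ n - a then 1 else 0) =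
      ∑ e ∈ Icc 1 E, ∑ e' ∈ Icc 1 E, lam e * lam e' * SS N q (Nat.lcm e e') a 0 := by
  have h1 : ∀ n ∈ Icc (-(N : ℤ)) N,
      tri N n * nu lam E n * (if (q : ℤ) ∣ n - a then 1 else 0) =
      ∑ e ∈ Icc 1 E, ∑ e' ∈ Icc 1 E, lam e * lam e' * (tri N n *
        (if (q : ℤ) ∣ n - a ∧ ((Nat.lcm e e' : ℕ) : ℤ) ∣ n - 0 then 1 else 0)) := by
    intro n _
    rw [Svp_nu, Finset.mul_sum, Finset.sum_mul]
    refine sum_congr rfl fun e _ => ?_
    rw [Finset.mul_sum, Finset.sum_mul]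
    refine sum_congr rfl fun e' _ => ?_
    rw [sub_zero]
    by_cases h2 : (q : ℤ) ∣ n - a
    · by_cases h3 : ((Nat.lcm e e' : ℕ) : ℤ) ∣ n
      · rw [if_pos h2, if_pos h3, if_pos ⟨h2, h3⟩]
        ring
      · have h4 : ¬ ((q : ℤ) ∣ n - a ∧ ((Nat.lcm e e' : ℕ) : ℤ) ∣ n) := fun h => h3 h.2
        rw [if_neg h3, if_neg h4]
        ring
    · have h4 : ¬ ((q : ℤ) ∣ n - a ∧ ((Nat.lcm e e' : ℕ) : ℤ) ∣ n) := fun h => h2 h.1
      rw [if_neg h2, if_neg h4]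
      ring
  rw [sum_congr rfl h1, sum_comm]
  refine sum_congr rfl fun e _ => ?_
  rw [sum_comm]
  refine sum_congr rfl fun e' _ => ?_
  unfold SS
  rw [Finset.mul_sum]

private lemma Svp_cop (E q e e' : ℕ) (hq : Rgh E q) (he : e ∈ Icc 1 E) (he' : e' ∈ Icc 1 E) :
    Nat.gcd q (Nat.lcm e e') = 1 := by
  rw [mem_Icc] at he he'
  refine Nat.coprime_of_dvd fun p hp hpq hpl => ?_
  have h1 := hq p hp hpq
  rcases (hp.dvd_mul).mp (hpl.trans (Nat.lcm_dvd_mul e e')) with h | h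
  · have := Nat.le_of_dvd (by omega) h
    omega
  · have := Nat.le_of_dvd (by omega) h
    omega

private lemma Svp_lcm (E e e' : ℕ) (he : e ∈ Icc 1 E) (he' : e' ∈ Icc 1 E) :
    1 ≤ Nat.lcm e e' ∧ Nat.lcm e e' ≤ E ^ 2 := by
  rw [mem_Icc] at he he'
  refine ⟨Nat.lcm_pos he.1 he'.1, ?_⟩
  refine (Nat.le_of_dvd (Nat.mul_pos he.1 he'.1) (Nat.lcm_dvd_mul e e')).trans ?_
  rw [sq]
  exact Nat.mul_le_mul he.2 he'.2

/-- the sieve weight in a progression -/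
theorem tSvp (h1 : SsbdStmt) : SvpStmt := by
  intro N E q lam a hN hE hq hs hr
  rw [Svp_expand]
  have hNr : (0 : ℝ) < N := by exact_mod_cast hN
  have hqr : (0 : ℝ) < q := by exact_mod_cast hq
  have hterm : ∀ e ∈ Icc 1 E, ∀ e' ∈ Icc 1 E,
      lam e * lam e' * SS N q (Nat.lcm e e') a 0 ≤
        (N : ℝ) / q * (lam e * lam e' / (Nat.lcm e e' : ℝ)) + (q : ℝ) * (E : ℝ) ^ 2 / N := by
    intro e he e' he'
    obtain ⟨hl1, hl2⟩ := Svp_lcm E e e' he he'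
    have hg := Svp_cop E q e e' hr he he'
    have hlr : (0 : ℝ) < (Nat.lcm e e' : ℝ) := by exact_mod_cast hl1
    have hMM : MM N q (Nat.lcm e e') a 0 = (N : ℝ) / q * (1 / (Nat.lcm e e' : ℝ)) := by
      unfold MM
      rw [hg, if_pos (by rw [Nat.cast_one]; exact one_dvd _), Nat.cast_one, mul_one]
      field_simp
    have hb := (h1 N q (Nat.lcm e e') a 0 hN hq hl1).1
    have hb2 : ((Nat.lcm q (Nat.lcm e e') : ℕ) : ℝ) / N ≤ (q : ℝ) * (E : ℝ) ^ 2 / N := by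
      apply div_le_div_of_nonneg_right _ hNr.le
      have h2 : Nat.lcm q (Nat.lcm e e') ≤ q * E ^ 2 :=
        (Nat.le_of_dvd (Nat.mul_pos hq hl1) (Nat.lcm_dvd_mul _ _)).trans
          (Nat.mul_le_mul_left q hl2)
      exact_mod_cast h2
    have hab : |lam e * lam e'| ≤ 1 := by
      rw [abs_mul]
      calc |lam e| * |lam e'| ≤ 1 * 1 :=
            mul_le_mul (hs.le e) (hs.le e') (abs_nonneg _) zero_le_one
        _ = 1 := one_mul 1
    have h3 : lam e * lam e' * (SS N q (Nat.lcm e e') a 0 - MM N q (Nat.lcm e e') a 0) ≤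
        (q : ℝ) * (E : ℝ) ^ 2 / N := by
      refine (le_abs_self _).trans ?_
      rw [abs_mul]
      calc |lam e * lam e'| * |SS N q (Nat.lcm e e') a 0 - MM N q (Nat.lcm e e') a 0| ≤
            1 * |SS N q (Nat.lcm e e') a 0 - MM N q (Nat.lcm e e') a 0| :=
            mul_le_mul_of_nonneg_right hab (abs_nonneg _)
        _ = |SS N q (Nat.lcm e e') a 0 - MM N q (Nat.lcm e e') a 0| := one_mul _
        _ ≤ _ := hb.trans hb2
    have h4 : lam e * lam e' * SS N q (Nat.lcm e e') a 0 =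
        lam e * lam e' * MM N q (Nat.lcm e e') a 0 +
        lam e * lam e' * (SS N q (Nat.lcm e e') a 0 - MM N q (Nat.lcm e e') a 0) := by ring
    rw [hMM] at h3 h4
    rw [h4]
    have h5 : lam e * lam e' * ((N : ℝ) / q * (1 / (Nat.lcm e e' : ℝ))) =
        (N : ℝ) / q * (lam e * lam e' / (Nat.lcm e e' : ℝ)) := by ring
    rw [h5]
    linarith
  have hsum : ∑ e ∈ Icc 1 E, ∑ e' ∈ Icc 1 E, lam e * lam e' * SS N q (Nat.lcm e e') a 0 ≤
      (N : ℝ) / q * ∑ e ∈ Icc 1 E, ∑ e' ∈ Icc 1 E, lam e * lam e' / (Nat.lcm e e' : ℝ) +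
        (E : ℝ) * ((E : ℝ) * ((q : ℝ) * (E : ℝ) ^ 2 / N)) := by
    calc ∑ e ∈ Icc 1 E, ∑ e' ∈ Icc 1 E, lam e * lam e' * SS N q (Nat.lcm e e') a 0 ≤
          ∑ e ∈ Icc 1 E, ∑ e' ∈ Icc 1 E,
            ((N : ℝ) / q * (lam e * lam e' / (Nat.lcm e e' : ℝ)) + (q : ℝ) * (E : ℝ) ^ 2 / N) :=
          sum_le_sum fun e he => sum_le_sum fun e' he' => hterm e he e' he'
      _ = _ := by
          simp only [sum_add_distrib, sum_const, Nat.card_Icc, nsmul_eq_mul, ← Finset.mul_sum]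
          simp
  refine hsum.trans ?_
  have hlog : 0 < Real.log E := Real.log_pos (by exact_mod_cast hE)
  have h6 : (N : ℝ) / q * ∑ e ∈ Icc 1 E, ∑ e' ∈ Icc 1 E, lam e * lam e' / (Nat.lcm e e' : ℝ) ≤
      (N : ℝ) / q * (1 / Real.log E) := mul_le_mul_of_nonneg_left hs.quad (by positivity)
  have h7 : (N : ℝ) / q * (1 / Real.log E) = (N : ℝ) / (q * Real.log E) := by
    field_simp
  have h8 : (E : ℝ) * ((E : ℝ) * ((q : ℝ) * (E : ℝ) ^ 2 / N)) = q * (E : ℝ) ^ 4 / N := by ring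
  rw [h7] at h6
  rw [h8]
  linarith

end Pool.Agent.Lib.TP
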