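import Pool.Agent.Lib.TB.AllK
import Pool.Agent.Lib.BV.Btt
import Pool.Agent.Lib.TP.DiaV
import Pool.Agent.Lib.TP.Oab
import Pool.Agent.Lib.TP.Obg
import Pool.Agent.Lib.TP.Obl
import Pool.Agent.Lib.TP.Ocd
import Pool.Agent.Lib.TP.Ocr
import Pool.Agent.Lib.TP.Ody
import Pool.Agent.Lib.TP.Ofn
import Pool.Agent.Lib.TP.Ofu
import Pool.Agent.Lib.TP.Og1
import Pool.Agent.Lib.TP.Og2
import Pool.Agent.Lib.TP.Og3
import Pool.Agent.Lib.TP.Og4
import Pool.Agent.Lib.TP.Og5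
import Pool.Agent.Lib.TP.Og6
import Pool.Agent.Lib.TP.Og7
import Pool.Agent.Lib.TP.Og8
import Pool.Agent.Lib.TP.Omb
import Pool.Agent.Lib.TP.Osb
import Pool.Agent.Lib.TP.Osc
import Pool.Agent.Lib.TP.Oxc
import Pool.Agent.Lib.TP.Pbt
import Pool.Agent.Lib.TP.Pby
import Pool.Agent.Lib.TP.Pcu
import Pool.Agent.Lib.TP.Pex
import Pool.Agent.Lib.TP.Pfi
import Pool.Agent.Lib.TP.Pfr
import Pool.Agent.Lib.TP.Pgr
import Pool.Agent.Lib.TP.Pin
import Pool.Agent.Lib.TP.Ppt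
import Pool.Agent.Lib.TP.Psp
import Pool.Agent.Lib.TP.Rgd
import Pool.Agent.Lib.TP.Rgs
import Pool.Agent.Lib.TP.Sel
import Pool.Agent.Lib.TP.Sga
import Pool.Agent.Lib.TP.Sla
import Pool.Agent.Lib.TP.Slq
import Pool.Agent.Lib.TP.Svp
import Pool.Agent.Lib.TP.Svt

/-!
MP_00e23e_nt, directory Lib/TP: theorem P at the level 501/1000 without hypotheses.
-/

namespace Pool.Agent.Lib.TP

open Pool.Agent.Lib.TB

/-- the bounds for the error terms -/
theorem aOsb : OsbStmt := tOsb tOsc (tMcb (tMex tMft) tMsm)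

/-- the off-diagonal estimate with the sieve weight -/
theorem aOffV : OffVStmt :=
  tOfn
    (tObg (tOdy (tOg8 tOg1 (tOg2 aOsb) (tOg3 tOsc) (tOg6 (tOg4 tTrunc tOsc) (tOg5 (tObl tBil))) tOg7 tMta)) tMta
      (tMmi tMrs tMka) tOmb (tOcr tMka aOsb) (tOfu tMka) (tOxc tOab (tMab tMdy))) tOcd

/-- Selberg weights -/
theorem aSel : SelStmt := tSel tSga tSla tSlq

/-- the sieve weight in a progression -/
theorem aSvp : SvpStmt := tSvp tSsbd

/-- the rough integers -/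
theorem aRgs : RgsStmt := tRgs aSel aSvp

/-- the diagonal estimate with the sieve weight -/
theorem aDiaV : DiaVStmt := tDiaV aSvp aRgs tRgd

/-- the Bessel inequality from the input -/
theorem aPby : PbyStmt := tPby tPcu (tPsp tOab) tPpt tLpS Pool.Agent.Lib.BV.aExt Pool.Agent.Lib.BV.aBtt

/-- arbitrary points -/
theorem aPgr : PgrStmt := tPgr (tPbt aSel (tSvt tSsbd)) (tPfr aRgs)

/-- **THEOREM P** at the level 501/1000 -/
theorem aPfi : PfiStmt := tPfi (tPin aOffV aDiaV aSel) aPby tPex aPgr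

end Pool.Agent.Lib.TP
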