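import Pool.Agent.Lib.TP.SpecQ

/-!
MP_00e23e_nt, directory Lib/TP, module Qbl: dyadic blocks of GF.
-/

namespace Pool.Agent.Lib.TP

open Finset Pool.Agent.Lib.EH3 Pool.Agent.Lib.TB Pool.Agent.Results.MP_00e23e_nt

private theorem Qbl_sum (Q0 k : ℕ) (h : ℕ → ℝ) :
    ∑ d ∈ Ioc Q0 (2 ^ k * Q0), h d =
      ∑ i ∈ range k, ∑ d ∈ Ioc (2 ^ i * Q0) (2 * (2 ^ i * Q0)), h d := by
  induction k with
  | zero => simp
  | succ k ih =>
    rw [Finset.sum_range_succ, ← ih]
    have h1 : Q0 ≤ 2 ^ k * Q0 := Nat.le_mul_of_pos_left _ (by positivity)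
    have h2 : 2 ^ (k + 1) * Q0 = 2 * (2 ^ k * Q0) := by ring
    have h3 : 2 ^ k * Q0 ≤ 2 * (2 ^ k * Q0) := by omega
    rw [h2]
    exact (Finset.sum_Ioc_consecutive h h1 h3).symm

theorem tQbl : QblStmt := by
  intro R Q0 D k c m hQ hD hc
  unfold GF FF
  by_cases hm : m = 0
  · simp only [if_pos hm, Finset.sum_const_zero]
  · simp only [if_neg hm]
    rw [← Qbl_sum Q0 k (fun d => (if R < d ∧ d ≤ D then c d else 0) * dd R d m)]
    have h1 : ∑ d ∈ Ioc Q0 (2 ^ k * Q0), (if R < d ∧ d ≤ D then c d else 0) * dd R d m =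
        ∑ d ∈ Ioc Q0 (2 ^ k * Q0), (if R < d ∧ d ≤ D then c d * dd R d m else 0) := by
      refine Finset.sum_congr rfl fun d _ => ?_
      split_ifs
      · rfl
      · exact zero_mul _
    rw [h1, ← Finset.sum_filter]
    symm
    refine Finset.sum_subset ?_ ?_
    · intro d hd
      rw [Finset.mem_filter] at hd
      rw [Finset.mem_Ioc]
      exact hd.2
    · intro d hd hn
      rw [Finset.mem_Ioc] at hd
      have h2 : c d = 0 := by
        by_contra h3
        apply hn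
        rw [Finset.mem_filter, Finset.mem_Ioc]
        exact ⟨⟨hc d h3, hd.2.trans hD⟩, hd⟩
      rw [h2, zero_mul]

end Pool.Agent.Lib.TP
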