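import Pool.Agent.Lib.TP.SpecQ

/-!
MP_00e23e_nt, directory Lib/TP, module Qfi: theorem Q.
-/

namespace Pool.Agent.Lib.TP

open Finset Pool.Agent.Lib.EH3 Pool.Agent.Lib.TB Pool.Agent.Results.MP_00e23e_nt

private theorem Qfi_rgh (ρ x : ℝ) (d : ℕ) (h : Rx ρ x d) : Rgh ⌊x ^ ρ⌋₊ d := by
  intro p hp hd
  exact (Nat.floor_lt' hp.ne_zero).2 (h p hp hd)

/-- the class is empty if the interval of the convenient divisors is empty -/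
private theorem Qfi_empty (δ ε ρ x : ℝ) (d : ℕ) (hx : 1 < x)
    (hlt : 1 / 2 - 7 * δ - ε < 2 * δ + ε) : ¬ Cq δ ε ρ x d := by
  rintro ⟨_, _, s, _, h1, h2⟩
  have h3 : x ^ ((1 : ℝ) / 2 - 7 * δ - ε) < x ^ (2 * δ + ε) := Real.rpow_lt_rpow_of_exponent_lt hx hlt
  linarith

open Classical in
private theorem Qfi_RS (θ : ℝ) (Cls : ℝ → ℕ → Prop) (x : ℝ) (y : ℕ → ℝ) (s : ℕ → ℤ)
    (h : ∀ d, ¬ Cls x d) : RS θ Cls x y s = 0 := by
  unfold RS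
  refine Finset.sum_eq_zero fun d hd => ?_
  exact absurd (Finset.mem_filter.1 hd).2.2 (h d)

private theorem Qfi_bes (θ : ℝ) (Cls : ℝ → ℕ → Prop) (h : ∀ x : ℝ, 1 < x → ∀ d, ¬ Cls x d) :
    BesStmt θ Cls := by
  refine ⟨1, 1, one_pos, one_pos, fun B => ⟨2, fun x y hx _ _ J s _ _ => ?_⟩⟩
  have h1 : ∑ i ∈ J, RS θ Cls x (fun _ => y) (s i) ^ 2 = 0 := by
    refine Finset.sum_eq_zero fun i _ => ?_
    rw [Qfi_RS θ Cls x _ (s i) (h x (by linarith))]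
    norm_num
  rw [h1]
  positivity

private theorem Qfi_grd (θ : ℝ) (Cls : ℝ → ℕ → Prop) (h : ∀ x : ℝ, 1 < x → ∀ d, ¬ Cls x d) :
    GrdStmt θ Cls := by
  refine ⟨1, 1, one_pos, one_pos, fun ε hε _ => ⟨2, fun x hx J s _ => ⟨∅, Finset.empty_subset _, ?_, ?_⟩⟩⟩
  · rw [Finset.card_empty, Nat.cast_zero]
    positivity
  · intro i _ _ y _
    rw [Qfi_RS θ Cls x _ (s i) (h x (by linarith))]
    have h1 : 0 < Real.log x := Real.log_pos (by linarith)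
    have h2 : (0 : ℝ) < x := by linarith
    positivity

theorem tQfi (h1 : QinStmt) (h2 : PbyStmt) (h3 : PexStmt) (h4 : PgrStmt) (h5 : QloStmt)
    (h6 : QunStmt) (h7 : PfiStmt) : QStmt := by
  intro δ ε ρ hδ1 hδ2 hε hρ
  have key : BesStmt (1 / 2 + δ) (Cq δ ε ρ) ∧ GrdStmt (1 / 2 + δ) (Cq δ ε ρ) := by
    by_cases hle : 2 * δ + ε ≤ 1 / 2 - 7 * δ - ε
    · obtain ⟨κ, hκ, hin⟩ := h1 δ ε ρ (by linarith) hε hle hρ
      have b : BesStmt (1 / 2 + δ) (Clow κ (Cq δ ε ρ)) :=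
        h2 (1 / 2 + δ) _ (by linarith) (by linarith) hin
      have g : GrdStmt (1 / 2 + δ) (Clow κ (Cq δ ε ρ)) :=
        h4 (1 / 2 + δ) ρ 0 _ (by linarith) (by linarith) hρ
          (fun x _ d hd => Qfi_rgh ρ x d hd.2.1) (h3 _ _ b)
      have q := h5 (1 / 2 + δ) κ (Cq δ ε ρ) hκ
      exact ⟨q.1 b, q.2 g⟩
    · push Not at hle
      have he : ∀ x : ℝ, 1 < x → ∀ d, ¬ Cq δ ε ρ x d := fun x hx d => Qfi_empty δ ε ρ x d hx hle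
      exact ⟨Qfi_bes _ _ he, Qfi_grd _ _ he⟩
  have hP := h7 ρ hρ
  have hU := h6 (501 / 1000) (1 / 2 + δ) (Rx ρ) (Cq δ ε ρ) (Cu δ ε ρ) (by norm_num) (by linarith) (by
    rintro x _ d ⟨h8, h9⟩
    rcases h9 with h9 | h9
    · exact Or.inl ⟨h8, h9⟩
    · exact Or.inr ⟨h8, h9⟩)
  exact ⟨hU.1 hP.1 key.1, hU.2 hP.2 key.2⟩

end Pool.Agent.Lib.TP
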