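import Pool.Agent.Lib.TP.SpecQ
import Pool.Agent.Lib.TB.Asn

/-!
# TP: the input of the assembly for the level 1/2 + δ and convenient moduli
-/

namespace Pool.Agent.Lib.TP

open Finset Pool.Agent.Lib.EH3 Pool.Agent.Lib.TB Pool.Agent.Results.MP_00e23e_nt

private lemma Qin_ev (c K : ℝ) (hc : 0 < c) : ∀ᶠ x : ℝ in Filter.atTop, K ≤ x ^ c :=
  (tendsto_rpow_atTop hc).eventually_ge_atTop K

private lemma Qin_kpow {K y x u : ℝ} (hK : 1 ≤ K) (hx : 0 < x) (hy0 : 0 ≤ y) (hy : y ≤ K * x) (hu0 : 0 ≤ u)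
    (hu1 : u ≤ 1) : y ^ u ≤ K * x ^ u := by
  calc y ^ u ≤ (K * x) ^ u := Real.rpow_le_rpow hy0 hy hu0
    _ = K ^ u * x ^ u := Real.mul_rpow (by linarith) hx.le
    _ ≤ K * x ^ u := by
        apply mul_le_mul_of_nonneg_right _ (Real.rpow_nonneg hx.le _)
        calc K ^ u ≤ K ^ (1 : ℝ) := Real.rpow_le_rpow_of_exponent_le hK hu1
          _ = K := Real.rpow_one K

private lemma Qin_abs {x u v K : ℝ} (hx : 0 < x) (h : K ≤ x ^ u) : K * x ^ v ≤ x ^ (u + v) := by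
  rw [Real.rpow_add hx]
  exact mul_le_mul_of_nonneg_right h (Real.rpow_nonneg hx.le _)

private lemma Qin_rgh {ρ x : ℝ} {z d : ℕ} (h : (z : ℝ) ≤ x ^ ρ) (hd : Rx ρ x d) : Rgh z d := by
  intro p hp hpd
  have h1 := hd p hp hpd
  have h2 : (z : ℝ) < p := by linarith
  exact_mod_cast h2

/-- the level E = ⌊N^k⌋ -/
private lemma Qin_E {k ρ K x : ℝ} {N : ℕ} (hk0 : 0 < k) (hkρ : k ≤ ρ / 4) (hk2 : k ≤ 1 / 40) (hx : 16 ≤ x)
    (hN1 : x ≤ N) (hN2 : (N : ℝ) ≤ 4 * x) (hK : 1 ≤ K) (h3 : 4 ≤ x ^ k) (h4 : K + 1 ≤ x ^ (k / 2)) :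
    2 ≤ ⌊(N : ℝ) ^ k⌋₊ ∧ K * x ^ (k / 2) ≤ ⌊(N : ℝ) ^ k⌋₊ ∧ ((⌊(N : ℝ) ^ k⌋₊ : ℕ) : ℝ) ≤ (N : ℝ) ^ k ∧
    ((⌊(N : ℝ) ^ k⌋₊ : ℕ) : ℝ) ≤ x ^ ((1 : ℝ) / 10) ∧ ((⌊(N : ℝ) ^ k⌋₊ : ℕ) : ℝ) ≤ x ^ ρ := by
  have hx0 : 0 < x := by linarith
  have hx1 : 1 ≤ x := by linarith
  have hN0 : (0 : ℝ) < N := by linarith
  have hNx : x ^ k ≤ (N : ℝ) ^ k := Real.rpow_le_rpow hx0.le hN1 hk0.le
  have hfl : ((⌊(N : ℝ) ^ k⌋₊ : ℕ) : ℝ) ≤ (N : ℝ) ^ k := Nat.floor_le (by positivity)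
  have hfl2 : (N : ℝ) ^ k < ((⌊(N : ℝ) ^ k⌋₊ : ℕ) : ℝ) + 1 := Nat.lt_floor_add_one _
  have hup : (N : ℝ) ^ k ≤ x ^ (k + k) :=
    (Qin_kpow (by norm_num) hx0 hN0.le hN2 hk0.le (by linarith)).trans (Qin_abs hx0 h3)
  obtain ⟨t, ht⟩ : ∃ t : ℝ, t = x ^ (k / 2) := ⟨_, rfl⟩
  have htt : t * t = x ^ k := by
    rw [ht, ← Real.rpow_add hx0]
    congr 1
    ring
  rw [← ht] at h4 ⊢
  refine ⟨?_, ?_, hfl, ?_, ?_⟩
  · have : (2 : ℝ) ≤ ((⌊(N : ℝ) ^ k⌋₊ : ℕ) : ℝ) := by linarith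
    exact_mod_cast this
  · have h5 : (K + 1) * t ≤ t * t := mul_le_mul_of_nonneg_right h4 (by linarith)
    nlinarith
  · exact hfl.trans (hup.trans (Real.rpow_le_rpow_of_exponent_le hx1 (by linarith)))
  · exact hfl.trans (hup.trans (Real.rpow_le_rpow_of_exponent_le hx1 (by linarith)))

/-- the cut R = ⌊N^e⌋ -/
private lemma Qin_R {e e1 x : ℝ} {N : ℕ} (he : 3 / 8 ≤ e) (he1 : e ≤ 1 / 2 - e1) (hpos : 0 < e1) (hx : 16 ≤ x)
    (hN1 : x ≤ N) (hN2 : (N : ℝ) ≤ 4 * x) (h2 : 2 ≤ x ^ ((1 : ℝ) / 8)) (h4 : 4 ≤ x ^ (e1 / 2)) :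
    1 ≤ ⌊(N : ℝ) ^ e⌋₊ ∧ x ^ (min (e1 / 2) (1 / 8)) ≤ ((⌊(N : ℝ) ^ e⌋₊ : ℕ) : ℝ) ∧
    ((⌊(N : ℝ) ^ e⌋₊ : ℕ) : ℝ) ≤ x ^ ((1 : ℝ) / 2 - min (e1 / 2) (1 / 8)) := by
  have hx0 : 0 < x := by linarith
  have hx1 : 1 ≤ x := by linarith
  have hN0 : (0 : ℝ) < N := by linarith
  have hfl : ((⌊(N : ℝ) ^ e⌋₊ : ℕ) : ℝ) ≤ (N : ℝ) ^ e := Nat.floor_le (by positivity)
  have hfl2 : (N : ℝ) ^ e < ((⌊(N : ℝ) ^ e⌋₊ : ℕ) : ℝ) + 1 := Nat.lt_floor_add_one _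
  obtain ⟨t, ht⟩ : ∃ t : ℝ, t = x ^ ((1 : ℝ) / 8) := ⟨_, rfl⟩
  have ht3 : t * t * t = x ^ ((3 : ℝ) / 8) := by
    rw [ht, ← Real.rpow_add hx0, ← Real.rpow_add hx0]
    norm_num
  have hlow : x ^ ((3 : ℝ) / 8) ≤ (N : ℝ) ^ e :=
    (Real.rpow_le_rpow_of_exponent_le hx1 he).trans (Real.rpow_le_rpow hx0.le hN1 (by linarith))
  rw [← ht] at h2
  have htR : t ≤ ((⌊(N : ℝ) ^ e⌋₊ : ℕ) : ℝ) := by
    have h5 : 2 * t ≤ t * t := mul_le_mul_of_nonneg_right h2 (by linarith)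
    have h6 : 2 * t * t ≤ t * t * t := mul_le_mul_of_nonneg_right h5 (by linarith)
    nlinarith
  have hmin1 : min (e1 / 2) (1 / 8) ≤ e1 / 2 := min_le_left _ _
  have hmin2 : min (e1 / 2) (1 / 8) ≤ 1 / 8 := min_le_right _ _
  refine ⟨?_, ?_, ?_⟩
  · have : (1 : ℝ) ≤ ((⌊(N : ℝ) ^ e⌋₊ : ℕ) : ℝ) := by linarith
    exact_mod_cast this
  · refine le_trans ?_ htR
    rw [ht]
    exact Real.rpow_le_rpow_of_exponent_le hx1 hmin2
  · refine hfl.trans ((Qin_kpow (by norm_num) hx0 hN0.le hN2 (by linarith) (by linarith)).trans ?_)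
    refine (Qin_abs hx0 h4).trans (Real.rpow_le_rpow_of_exponent_le hx1 (by linarith))

theorem tQin (h1 : OffQStmt) (h2 : DiaVStmt) (h3 : SelStmt) (h4 : WqStmt) : QinStmt := by
  intro δ ε ρ hδ hε hδε hρ
  obtain ⟨w1, w4⟩ := h4
  obtain ⟨j, C1, η0, κ1, N0, hη0, hκ1, hoff⟩ := h1 δ (ε / 2) hδ (by linarith) (by linarith)
  obtain ⟨κ', hκ'⟩ : ∃ κ' : ℝ, κ' = min κ1 (1 / 4) := ⟨_, rfl⟩
  have hκ'0 : 0 < κ' := by rw [hκ']; exact lt_min hκ1 (by norm_num)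
  have hκ'1 : κ' ≤ κ1 := by rw [hκ']; exact min_le_left _ _
  have hκ'2 : κ' ≤ 1 / 4 := by rw [hκ']; exact min_le_right _ _
  obtain ⟨k, hk⟩ : ∃ k : ℝ, k = min κ1 (min (ρ / 4) (1 / 40)) := ⟨_, rfl⟩
  have hk0 : 0 < k := by
    rw [hk]
    exact lt_min hκ1 (lt_min (by positivity) (by norm_num))
  have hk1 : k ≤ κ1 := by rw [hk]; exact min_le_left _ _
  have hk2 : k ≤ ρ / 4 := by rw [hk]; exact (min_le_right _ _).trans (min_le_left _ _)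
  have hk3 : k ≤ 1 / 40 := by rw [hk]; exact (min_le_right _ _).trans (min_le_right _ _)
  obtain ⟨C2, hdia⟩ := h2 (k / 2) (by positivity)
  obtain ⟨η1, hη1⟩ : ∃ η1 : ℝ, η1 = min η0 1 := ⟨_, rfl⟩
  have hη10 : 0 < η1 := by rw [hη1]; exact lt_min hη0 one_pos
  have hη11 : η1 ≤ η0 := by rw [hη1]; exact min_le_left _ _
  have hη12 : η1 ≤ 1 := by rw [hη1]; exact min_le_right _ _
  obtain ⟨K, hK⟩ : ∃ K : ℝ, K = 8 * ((j : ℝ) + 1) := ⟨_, rfl⟩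
  have hj0 : (0 : ℝ) ≤ j := Nat.cast_nonneg j
  have hK1 : 1 ≤ K := by rw [hK]; linarith
  have hev : ∀ᶠ x : ℝ in Filter.atTop, (16 ≤ x ∧ (N0 : ℝ) ≤ x ∧ 2 ≤ x ^ ((1 : ℝ) / 8) ∧ 4 ≤ x ^ (ε / 2 / 2)) ∧
      4 ≤ x ^ k ∧ K + 1 ≤ x ^ (k / 2) ∧ 4 * |C1| ≤ x ^ (η1 / 2) ∧ 4 ≤ x ^ (κ' / 2) ∧ 4 ≤ x ^ (ε / 2) := by
    filter_upwards [Filter.eventually_ge_atTop (16 : ℝ), Filter.eventually_ge_atTop (N0 : ℝ),
      Qin_ev (1 / 8) 2 (by norm_num), Qin_ev (ε / 2 / 2) 4 (by positivity),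
      Qin_ev k 4 hk0, Qin_ev (k / 2) (K + 1) (by positivity), Qin_ev (η1 / 2) (4 * |C1|) (by positivity),
      Qin_ev (κ' / 2) 4 (by positivity), Qin_ev (ε / 2) 4 (by positivity)]
      with x a1 a2 a3 a4 a5 a6 a7 a8 a9
    exact ⟨⟨a1, a2, a3, a4⟩, a5, a6, a7, a8, a9⟩
  obtain ⟨x0, hx0⟩ := Filter.eventually_atTop.1 hev
  refine ⟨κ' / 2, by positivity, 2 * K * |C2|, η1 / 2, (1 / 4) ^ (j + 1), min (ε / 2 / 2) (1 / 8), x0,
    by positivity, by positivity, by positivity, lt_min (by positivity) (by norm_num), ?_⟩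
  intro x hxx
  obtain ⟨⟨hx16, hxN0, e2, e3⟩, e4, e5, e6, e7, e8⟩ := hx0 x hxx
  have hxp : 0 < x := by linarith
  have hx1 : 1 ≤ x := by linarith
  obtain ⟨hN1, hN2, hN3, hN4⟩ := Asn_N hx16
  generalize 2 * ⌈x⌉₊ = N at *
  obtain ⟨p1, p2, p3, p4, p5⟩ := Qin_E hk0 hk2 hk3 hx16 hN1 hN2 hK1 e4 e5
  obtain ⟨hR1, hR2, hR3⟩ := Qin_R (e := (1 : ℝ) / 2 - δ - ε / 2) (e1 := ε / 2) (by linarith) (by linarith)
    (by positivity) hx16 hN1 hN2 e2 e3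
  generalize ⌊(N : ℝ) ^ k⌋₊ = E at *
  have hN1' : (1 : ℝ) ≤ N := by linarith
  have hN0 : (0 : ℝ) < N := by linarith
  have hE2 : (2 : ℝ) ≤ E := by exact_mod_cast p1
  obtain ⟨lam, hlam⟩ := h3 E p1
  have habs : ∀ a : ℤ, |(a : ℝ)| ≤ x → |a| ≤ (N : ℤ) := by
    intro a ha
    have h5 : |(a : ℝ)| ≤ (N : ℝ) := ha.trans hN1
    have h6 : ((|a| : ℤ) : ℝ) ≤ ((N : ℤ) : ℝ) := by
      rw [Int.cast_abs, Int.cast_natCast]
      exact h5
    exact_mod_cast h6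
  have hD : ((⌊x ^ ((1 : ℝ) / 2 + δ)⌋₊ : ℕ) : ℝ) ≤ x ^ ((1 : ℝ) / 2 + δ) := Nat.floor_le (by positivity)
  have hlogx : 0 < Real.log x := Real.log_pos (by linarith)
  refine ⟨Pool.Agent.Lib.TN.RN δ (ε / 2) N, E, rn N j, Pool.Agent.Lib.TN.wt N j, lam,
    hR1, hR2, hR3, by omega, p4, hlam.one, fun n _ => (w1 N j n (by omega)).1, ?_, ?_, ?_⟩
  · intro n hn0 hnx
    have h7 : ((n.toNat : ℕ) : ℤ) = n := Int.toNat_of_nonneg hn0
    have h5 : n.toNat ≤ ⌊x⌋₊ := by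
      apply Nat.le_floor
      have : ((n.toNat : ℕ) : ℝ) = (n : ℝ) := by
        exact_mod_cast congrArg (fun z : ℤ => (z : ℝ)) h7
      rw [this]
      exact hnx
    have h6 : 2 * n ≤ (N : ℤ) := by omega
    have h8 : N ≤ (j + 1) * N := Nat.le_mul_of_pos_left N (Nat.succ_pos j)
    constructor
    · rw [Finset.mem_Icc]
      constructor <;> omega
    · exact w4 N j n (by omega) (by rw [abs_of_nonneg hn0]; exact h6)
  · intro c c' a b hc hc' hcc hcc' hab ha hb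
    have hcl : ∀ d : ℕ, Clow (κ' / 2) (Cq δ ε ρ) x d →
        Pool.Agent.Lib.TN.Conv (x ^ (2 * δ + ε)) (x ^ ((1 : ℝ) / 2 - 7 * δ - ε)) d ∧ Rgh E d ∧
          (N : ℝ) ^ ((1 : ℝ) / 2 - κ1) < d := by
      intro d hd
      obtain ⟨hd1, hd2, hd3⟩ := hd
      refine ⟨hd3, Qin_rgh p5 hd2, lt_of_le_of_lt ?_ hd1⟩
      calc (N : ℝ) ^ ((1 : ℝ) / 2 - κ1) ≤ (N : ℝ) ^ ((1 : ℝ) / 2 - κ') :=
            Real.rpow_le_rpow_of_exponent_le hN1' (by linarith)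
        _ ≤ 4 * x ^ ((1 : ℝ) / 2 - κ') :=
            Qin_kpow (by norm_num) hxp hN0.le hN2 (by linarith) (by linarith)
        _ ≤ x ^ (κ' / 2 + ((1 : ℝ) / 2 - κ')) := Qin_abs hxp e7
        _ = x ^ ((1 : ℝ) / 2 - κ' / 2) := by
            congr 1
            ring
    refine (hoff N E ⌊x ^ ((1 : ℝ) / 2 + δ)⌋₊ (x ^ (2 * δ + ε)) (x ^ ((1 : ℝ) / 2 - 7 * δ - ε)) lam c c' a b
      ?_ (by omega) (by omega) ?_ ?_ ?_ ?_ hlam.le hc hc'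
      (fun d hd => hcl d (hcc d hd)) (fun d hd => hcl d (hcc' d hd)) hab (habs a ha) (habs b hb)).trans ?_
    · have : (N0 : ℝ) ≤ N := hxN0.trans hN1
      exact_mod_cast this
    · exact p3.trans (Real.rpow_le_rpow_of_exponent_le hN1' hk1)
    · exact hD.trans (Real.rpow_le_rpow hxp.le hN1 (by linarith))
    · calc (N : ℝ) ^ (2 * δ + ε / 2) ≤ 4 * x ^ (2 * δ + ε / 2) :=
            Qin_kpow (by norm_num) hxp hN0.le hN2 (by linarith) (by linarith)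
        _ ≤ x ^ (ε / 2 + (2 * δ + ε / 2)) := Qin_abs hxp e8
        _ = x ^ (2 * δ + ε) := by
            congr 1
            ring
    · exact (Real.rpow_le_rpow_of_exponent_le hx1 (by linarith)).trans
        (Real.rpow_le_rpow hxp.le hN1 (by linarith))
    · calc C1 * (N : ℝ) ^ (1 - η0) ≤ |C1| * (4 * x ^ (1 - η1)) := by
            apply mul_le_mul (le_abs_self _) _ (by positivity) (abs_nonneg _)
            exact (Real.rpow_le_rpow_of_exponent_le hN1' (by linarith)).trans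
              (Qin_kpow (by norm_num) hxp hN0.le hN2 (by linarith) (by linarith))
        _ = (4 * |C1|) * x ^ (1 - η1) := by ring
        _ ≤ x ^ (η1 / 2 + (1 - η1)) := Qin_abs hxp e6
        _ = x ^ (1 - η1 / 2) := by
            congr 1
            ring
  · intro c A W hcc hW hA
    have hW0 : 0 ≤ W := (Finset.sum_nonneg fun a _ => sq_nonneg (c a 0)).trans (hW 0)
    obtain ⟨M, hM⟩ : ∃ M : ℕ, M = 2 * ((j + 1) * N) := ⟨_, rfl⟩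
    have hMN : 2 * N ≤ M := by
      have h8 : N ≤ (j + 1) * N := Nat.le_mul_of_pos_left N (Nat.succ_pos j)
      omega
    have hMr : (M : ℝ) = 2 * (((j : ℝ) + 1) * N) := by rw [hM]; push_cast; ring
    have hMK : (M : ℝ) ≤ K * x := by
      rw [hMr, hK]
      have : ((j : ℝ) + 1) * N ≤ ((j : ℝ) + 1) * (4 * x) := mul_le_mul_of_nonneg_left hN2 (by linarith)
      linarith
    have hMN' : (N : ℝ) ≤ M := by
      have : N ≤ M := by omega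
      exact_mod_cast this
    have hxM : x ≤ M := hN1.trans hMN'
    have hM0 : (0 : ℝ) < M := by linarith
    have hM1 : (1 : ℝ) ≤ M := by linarith
    have hlogM : Real.log x ≤ Real.log M := Real.log_le_log hxp hxM
    have hmain := hdia M (Pool.Agent.Lib.TN.RN δ (ε / 2) N) E ⌊x ^ ((1 : ℝ) / 2 + δ)⌋₊ lam c A W (by omega) hR1 p1
      ((Qin_kpow hK1 hxp hM0.le hMK (by positivity) (by linarith)).trans p2)
      (p4.trans (Real.rpow_le_rpow hxp.le hxM (by norm_num))) hlam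
      (by
        refine hD.trans ?_
        have h5 : x ^ ((1 : ℝ) / 2 + δ) ≤ (M : ℝ) ^ ((3 : ℝ) / 4) :=
          (Real.rpow_le_rpow_of_exponent_le hx1 (by linarith)).trans
            (Real.rpow_le_rpow hxp.le hxM (by norm_num))
        have h6 : 0 ≤ (M : ℝ) ^ ((3 : ℝ) / 4) := by positivity
        linarith)
      (fun a d hd => Qin_rgh p5 (hcc a d hd).2.1) hW
      (fun a ha => (habs a (hA a ha)).trans (by omega))
    have hcmp : ∑ a ∈ A, ∑ n ∈ rn N j, Pool.Agent.Lib.TN.wt N j n * nu lam E n *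
          GF (Pool.Agent.Lib.TN.RN δ (ε / 2) N) ⌊x ^ ((1 : ℝ) / 2 + δ)⌋₊ (c a) (n - a) ^ 2 ≤
        2 * ∑ a ∈ A, ∑ n ∈ Icc (-(M : ℤ)) M, tri M n * nu lam E n *
          GF (Pool.Agent.Lib.TN.RN δ (ε / 2) N) ⌊x ^ ((1 : ℝ) / 2 + δ)⌋₊ (c a) (n - a) ^ 2 := by
      rw [Finset.mul_sum]
      apply Finset.sum_le_sum
      intro a _
      rw [Finset.mul_sum]
      have hnn : ∀ n : ℤ, 0 ≤ nu lam E n := fun n => sq_nonneg _
      have htri : ∀ n : ℤ, 0 ≤ tri M n := fun n => le_max_left _ _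
      refine (Finset.sum_le_sum (f := fun n : ℤ => Pool.Agent.Lib.TN.wt N j n * nu lam E n *
          GF (Pool.Agent.Lib.TN.RN δ (ε / 2) N) ⌊x ^ ((1 : ℝ) / 2 + δ)⌋₊ (c a) (n - a) ^ 2)
        (g := fun n : ℤ => 2 * (tri M n * nu lam E n *
          GF (Pool.Agent.Lib.TN.RN δ (ε / 2) N) ⌊x ^ ((1 : ℝ) / 2 + δ)⌋₊ (c a) (n - a) ^ 2)) ?_).trans
        (Finset.sum_le_sum_of_subset_of_nonneg ?_ ?_)
      · intro n hn
        rw [Finset.mem_Icc] at hn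
        have h5 : Pool.Agent.Lib.TN.wt N j n ≤ 2 * tri M n := by
          refine (w1 N j n (by omega)).2.trans ?_
          have h6 : 2 * |n| ≤ (M : ℤ) := by
            have h7 : |n| ≤ (((j + 1) * N : ℕ) : ℤ) := abs_le.2 hn
            omega
          have h8 : 2 * |(n : ℝ)| ≤ M := by
            have h9 : (((2 * |n| : ℤ)) : ℝ) ≤ ((M : ℤ) : ℝ) := by exact_mod_cast h6
            push_cast at h9
            exact h9
          have h9 : |(n : ℝ)| / M ≤ 1 / 2 := by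
            rw [div_le_div_iff₀ hM0 (by norm_num)]
            linarith
          have h10 : (1 : ℝ) - |(n : ℝ)| / M ≤ tri M n := le_max_right _ _
          linarith
        have h6 : 0 ≤ nu lam E n * GF (Pool.Agent.Lib.TN.RN δ (ε / 2) N) ⌊x ^ ((1 : ℝ) / 2 + δ)⌋₊ (c a)
            (n - a) ^ 2 := mul_nonneg (hnn n) (sq_nonneg _)
        have h7 := mul_le_mul_of_nonneg_right h5 h6
        linarith
      · intro n hn
        rw [Finset.mem_Icc] at hn ⊢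
        omega
      · intro n _ _
        have := mul_nonneg (mul_nonneg (htri n) (hnn n)) (sq_nonneg
          (GF (Pool.Agent.Lib.TN.RN δ (ε / 2) N) ⌊x ^ ((1 : ℝ) / 2 + δ)⌋₊ (c a) (n - a)))
        linarith
    refine hcmp.trans ?_
    calc 2 * ∑ a ∈ A, ∑ n ∈ Icc (-(M : ℤ)) M, tri M n * nu lam E n *
          GF (Pool.Agent.Lib.TN.RN δ (ε / 2) N) ⌊x ^ ((1 : ℝ) / 2 + δ)⌋₊ (c a) (n - a) ^ 2
        ≤ 2 * (C2 * W * (M : ℝ) / Real.log M) := mul_le_mul_of_nonneg_left hmain (by norm_num)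
      _ ≤ 2 * (|C2| * W * (K * x) / Real.log M) := by
          apply mul_le_mul_of_nonneg_left _ (by norm_num)
          apply div_le_div_of_nonneg_right _ (by linarith)
          apply mul_le_mul _ hMK hM0.le (by positivity)
          exact mul_le_mul_of_nonneg_right (le_abs_self _) hW0
      _ ≤ 2 * (|C2| * W * (K * x) / Real.log x) := by
          apply mul_le_mul_of_nonneg_left _ (by norm_num)
          apply div_le_div_of_nonneg_left (by positivity) hlogx hlogM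
      _ = 2 * K * |C2| * (x / Real.log x) * W := by ring

end Pool.Agent.Lib.TP
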