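import Pool.Agent.Lib.TP.SpecQ

/-!
MP_00e23e_nt, directory Lib/TP, module Qlo: removing the lower bound for the moduli.
-/

namespace Pool.Agent.Lib.TP

open Finset Pool.Agent.Lib.EH3 Pool.Agent.Lib.TB Pool.Agent.Results.MP_00e23e_nt

private lemma Qlo_sum (F F1 F2 : Finset ℕ) (f : ℕ → ℝ) (hf : ∀ d, 0 ≤ f d)
    (h : ∀ d ∈ F, d ∈ F1 ∨ d ∈ F2) : ∑ d ∈ F, f d ≤ ∑ d ∈ F1, f d + ∑ d ∈ F2, f d := by
  have h1 : F ⊆ F1 ∪ F2 := fun d hd => Finset.mem_union.2 (h d hd)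
  have h2 := Finset.sum_union_inter (s₁ := F1) (s₂ := F2) (f := f)
  have h3 : 0 ≤ ∑ d ∈ F1 ∩ F2, f d := Finset.sum_nonneg fun d _ => hf d
  have h4 : ∑ d ∈ F, f d ≤ ∑ d ∈ F1 ∪ F2, f d :=
    Finset.sum_le_sum_of_subset_of_nonneg h1 fun d _ _ => hf d
  linarith

/-- the sum over the small moduli -/
private noncomputable def Qlo_Z (κ x : ℝ) (y : ℕ → ℝ) (s : ℕ → ℤ) : ℝ :=
  ∑ d ∈ (Icc 1 ⌊x ^ ((1 : ℝ) / 2 - κ)⌋₊).filter (fun d : ℕ => Int.gcd (s d) d = 1), |resErr (y d) d (s d)|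

private lemma Qlo_Z_nonneg (κ x : ℝ) (y : ℕ → ℝ) (s : ℕ → ℤ) : 0 ≤ Qlo_Z κ x y s := by
  unfold Qlo_Z
  exact Finset.sum_nonneg fun d _ => abs_nonneg _

private lemma Qlo_rs (θ κ : ℝ) (Cls : ℝ → ℕ → Prop) (x : ℝ) (y : ℕ → ℝ) (s : ℕ → ℤ) :
    RS θ Cls x y s ≤ RS θ (Clow κ Cls) x y s + Qlo_Z κ x y s := by
  classical
  unfold RS Qlo_Z
  apply Qlo_sum
  · intro d
    exact abs_nonneg _
  · intro d hd
    have hd1 := Finset.mem_filter.1 hd
    have hd2 := Finset.mem_Icc.1 hd1.1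
    rcases lt_or_ge (x ^ ((1 : ℝ) / 2 - κ)) (d : ℝ) with h1 | h1
    · left
      exact Finset.mem_filter.2 ⟨hd1.1, hd1.2.1, h1, hd1.2.2⟩
    · right
      exact Finset.mem_filter.2 ⟨Finset.mem_Icc.2 ⟨hd2.1, Nat.le_floor h1⟩, hd1.2.1⟩

private lemma Qlo_nonneg (θ : ℝ) (Cls : ℝ → ℕ → Prop) (x : ℝ) (y : ℕ → ℝ) (s : ℕ → ℤ) :
    0 ≤ RS θ Cls x y s := by
  unfold RS
  exact Finset.sum_nonneg fun d _ => abs_nonneg _

private lemma Qlo_two (x : ℝ) (hx : 0 < x) (hL : 0 < Real.log x) : 2 ≤ x / Real.log x := by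
  rw [le_div_iff₀ hL]
  have hs : 0 < Real.sqrt x := Real.sqrt_pos.2 hx
  have h1 : Real.log x = 2 * Real.log (Real.sqrt x) := by
    rw [Real.log_sqrt hx.le]
    ring
  have h2 := Real.log_le_sub_one_of_pos hs
  have h3 : Real.sqrt x * Real.sqrt x = x := Real.mul_self_sqrt hx.le
  nlinarith [sq_nonneg (Real.sqrt x - 2)]

/-- **Module Qlo.** Removing the lower bound for the moduli. -/
theorem tQlo (h : QsmStmt) : QloStmt := by
  intro θ κ Cls hκ
  constructor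
  · rintro ⟨C, η, hC, hη, hb⟩
    refine ⟨2 * C + 2, η, by positivity, hη, ?_⟩
    intro B
    obtain ⟨x1, hx1⟩ := hb B
    obtain ⟨C1, x2, hC1, hZ⟩ := h κ (|B| + 2) hκ (by positivity)
    refine ⟨max (max x1 x2) (Real.exp (C1 + 1)), ?_⟩
    intro x y hx hy1 hy2 J s hF hJ
    have hxa : x1 ≤ x := (le_max_left _ _).trans ((le_max_left _ _).trans hx)
    have hxb : x2 ≤ x := (le_max_right _ _).trans ((le_max_left _ _).trans hx)
    have hxc : Real.exp (C1 + 1) ≤ x := (le_max_right _ _).trans hx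
    have hx0 : 0 < x := lt_of_lt_of_le (Real.exp_pos _) hxc
    have hL : C1 + 1 ≤ Real.log x := by
      rw [Real.le_log_iff_exp_le hx0]
      exact hxc
    have hL1 : 1 ≤ Real.log x := by linarith
    have hL0 : 0 < Real.log x := by linarith
    have e1 := hx1 x y hxa hy1 hy2 J s hF hJ
    have hyd : ∀ d : ℕ, 2 ≤ (fun _ : ℕ => y) d ∧ (fun _ : ℕ => y) d ≤ x := by
      intro _
      exact ⟨(Qlo_two x hx0 hL0).trans hy1, hy2⟩
    obtain ⟨L, hLe⟩ : ∃ L, Real.log x = L := ⟨_, rfl⟩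
    obtain ⟨P, hP⟩ : ∃ P, L ^ |B| = P := ⟨_, rfl⟩
    have e2 : ∀ i, Qlo_Z κ x (fun _ => y) (s i) ≤ C1 * (x / (P * L ^ 2)) := by
      intro i
      have f1 := hZ x hxb (fun _ => y) (s i) hyd
      have f2 : Real.log x ^ (|B| + 2) = P * L ^ 2 := by
        rw [Real.rpow_add hL0, hLe, hP, Real.rpow_two]
      rw [f2] at f1
      exact f1
    rw [hLe] at hL hL1 hL0 hJ e1 ⊢
    have hP1 : 1 ≤ P := by
      rw [← hP]
      exact Real.one_le_rpow hL1 (abs_nonneg B)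
    have hJP : (J.card : ℝ) ≤ P := by
      refine hJ.trans ?_
      rw [← hP]
      exact Real.rpow_le_rpow_of_exponent_le hL1 (le_abs_self B)
    have e3 : ∑ i ∈ J, RS θ Cls x (fun _ => y) (s i) ^ 2 ≤
        ∑ i ∈ J, (2 * RS θ (Clow κ Cls) x (fun _ => y) (s i) ^ 2 + 2 * (C1 * (x / (P * L ^ 2))) ^ 2) := by
      apply Finset.sum_le_sum
      intro i _
      have f1 := Qlo_rs θ κ Cls x (fun _ => y) (s i)
      have f2 := Qlo_nonneg θ Cls x (fun _ => y) (s i)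
      have f3 := e2 i
      have f4 : RS θ Cls x (fun _ => y) (s i) ^ 2 ≤
          (RS θ (Clow κ Cls) x (fun _ => y) (s i) + C1 * (x / (P * L ^ 2))) ^ 2 :=
        pow_le_pow_left₀ f2 (by linarith) 2
      nlinarith [sq_nonneg (RS θ (Clow κ Cls) x (fun _ => y) (s i) - C1 * (x / (P * L ^ 2)))]
    rw [Finset.sum_add_distrib, ← Finset.mul_sum, Finset.sum_const, nsmul_eq_mul] at e3
    have e4 : (J.card : ℝ) * (2 * (C1 * (x / (P * L ^ 2))) ^ 2) ≤ 2 * (x / L) ^ 2 := by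
      have g1 : (J.card : ℝ) * (2 * (C1 * (x / (P * L ^ 2))) ^ 2) ≤
          P * (2 * (C1 * (x / (P * L ^ 2))) ^ 2) := mul_le_mul_of_nonneg_right hJP (by positivity)
      have g2 : P * (2 * (C1 * (x / (P * L ^ 2))) ^ 2) = 2 * (x / L) ^ 2 * (C1 ^ 2 / (P * L ^ 2)) := by
        field_simp
      have g3 : C1 ^ 2 / (P * L ^ 2) ≤ 1 := by
        rw [div_le_one (by positivity)]
        have g4 : C1 ^ 2 ≤ L ^ 2 := pow_le_pow_left₀ hC1 (by linarith) 2
        nlinarith [sq_nonneg L]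
      have g5 : 2 * (x / L) ^ 2 * (C1 ^ 2 / (P * L ^ 2)) ≤ 2 * (x / L) ^ 2 * 1 :=
        mul_le_mul_of_nonneg_left g3 (by positivity)
      linarith
    nlinarith
  · rintro ⟨C, η, hC, hη, hb⟩
    refine ⟨32 * C, η, by positivity, hη, ?_⟩
    intro ε hε hε1
    obtain ⟨x1, hx1⟩ := hb (ε / 2) (by positivity) (by linarith)
    obtain ⟨C1, x2, hC1, hZ⟩ := h κ 2 hκ (by norm_num)
    refine ⟨max (max x1 x2) (Real.exp (2 * C1 / ε + 1)), ?_⟩
    intro x hx J s hF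
    have hxa : x1 ≤ x := (le_max_left _ _).trans ((le_max_left _ _).trans hx)
    have hxb : x2 ≤ x := (le_max_right _ _).trans ((le_max_left _ _).trans hx)
    have hxc : Real.exp (2 * C1 / ε + 1) ≤ x := (le_max_right _ _).trans hx
    have hx0 : 0 < x := lt_of_lt_of_le (Real.exp_pos _) hxc
    have hL : 2 * C1 / ε + 1 ≤ Real.log x := by
      rw [Real.le_log_iff_exp_le hx0]
      exact hxc
    have hq : 0 ≤ 2 * C1 / ε := by positivity
    have hL0 : 0 < Real.log x := by linarith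
    obtain ⟨S, hS, hc, hm⟩ := hx1 x hxa J s hF
    refine ⟨S, hS, ?_, ?_⟩
    · have h2 : C / (ε / 2) ^ 5 = 32 * C / ε ^ 5 := by
        field_simp
        norm_num
      linarith
    · intro i hi hiS y hy
      have f1 := Qlo_rs θ κ Cls x y (s i)
      have f2 := hm i hi hiS y hy
      have f3 := hZ x hxb y (s i) hy
      rw [Real.rpow_two] at f3
      have f4 : C1 * (x / Real.log x ^ 2) ≤ ε / 2 * (x / Real.log x) := by
        have g1 : C1 * (x / Real.log x ^ 2) = (C1 / Real.log x) * (x / Real.log x) := by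
          field_simp
        rw [g1]
        apply mul_le_mul_of_nonneg_right _ (by positivity)
        rw [div_le_iff₀ hL0]
        have g2 : 2 * C1 / ε ≤ Real.log x := by linarith
        rw [div_le_iff₀ hε] at g2
        linarith
      have f5 : Qlo_Z κ x y (s i) ≤ C1 * (x / Real.log x ^ 2) := f3
      linarith

end Pool.Agent.Lib.TP
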