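import Pool.Agent.Lib.TP.SpecQ

/-!
MP_00e23e_nt, directory Lib/TP, module Qnu: expansion of the sieve weight.
-/

namespace Pool.Agent.Lib.TP

open Finset Pool.Agent.Lib.EH3 Pool.Agent.Lib.TB Pool.Agent.Results.MP_00e23e_nt

/-- the weight as a double sum -/
private theorem Qnu_nu (lam : ℕ → ℝ) (E : ℕ) (n : ℤ) :
    nu lam E n = ∑ e ∈ Icc 1 E, ∑ e' ∈ Icc 1 E,
      lam e * lam e' * (if ((Nat.lcm e e' : ℕ) : ℤ) ∣ n then 1 else 0) := by
  unfold nu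
  rw [sq, Finset.sum_mul_sum]
  refine Finset.sum_congr rfl fun e _ => Finset.sum_congr rfl fun e' _ => ?_
  have h : ((Nat.lcm e e' : ℕ) : ℤ) ∣ n ↔ (e : ℤ) ∣ n ∧ (e' : ℤ) ∣ n := by
    rw [Int.natCast_dvd, Int.natCast_dvd, Int.natCast_dvd]
    exact Nat.lcm_dvd_iff
  by_cases h1 : (e : ℤ) ∣ n
  · by_cases h2 : (e' : ℤ) ∣ n
    · rw [if_pos h1, if_pos h2, if_pos (h.2 ⟨h1, h2⟩), mul_one]
    · rw [if_neg h2, if_neg (fun h3 => h2 (h.1 h3).2), mul_zero, mul_zero]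
  · rw [if_neg h1, if_neg (fun h3 => h1 (h.1 h3).1), zero_mul, mul_zero]

theorem tQnu : QnuStmt := by
  intro I w G lam E T hlam hT
  have e1 : ∑ n ∈ I, w n * nu lam E n * G n =
      ∑ e ∈ Icc 1 E, ∑ e' ∈ Icc 1 E, lam e * lam e' *
        ∑ n ∈ I, w n * (if ((Nat.lcm e e' : ℕ) : ℤ) ∣ n then 1 else 0) * G n := by
    have k1 : ∑ n ∈ I, w n * nu lam E n * G n =
        ∑ n ∈ I, ∑ e ∈ Icc 1 E, ∑ e' ∈ Icc 1 E, lam e * lam e' *
          (w n * (if ((Nat.lcm e e' : ℕ) : ℤ) ∣ n then 1 else 0) * G n) := by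
      refine Finset.sum_congr rfl fun n _ => ?_
      rw [Qnu_nu, Finset.mul_sum, Finset.sum_mul]
      refine Finset.sum_congr rfl fun e _ => ?_
      rw [Finset.mul_sum, Finset.sum_mul]
      refine Finset.sum_congr rfl fun e' _ => ?_
      ring
    rw [k1, Finset.sum_comm]
    refine Finset.sum_congr rfl fun e _ => ?_
    rw [Finset.sum_comm]
    refine Finset.sum_congr rfl fun e' _ => ?_
    rw [Finset.mul_sum]
  rw [e1]
  have e2 : ∀ e ∈ Icc 1 E, ∀ e' ∈ Icc 1 E, |lam e * lam e' *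
      ∑ n ∈ I, w n * (if ((Nat.lcm e e' : ℕ) : ℤ) ∣ n then 1 else 0) * G n| ≤ T := by
    intro e he e' he'
    rw [mem_Icc] at he he'
    have hf1 : 1 ≤ Nat.lcm e e' := Nat.lcm_pos (by omega) (by omega)
    have hfE : Nat.lcm e e' ≤ E ^ 2 := by
      rw [sq]
      exact (Nat.le_of_dvd (Nat.mul_pos (by omega) (by omega))
        (Nat.lcm_dvd (Dvd.intro _ rfl) (Dvd.intro_left _ rfl))).trans
        (Nat.mul_le_mul he.2 he'.2)
    have hp : ∀ p : ℕ, p.Prime → p ∣ Nat.lcm e e' → p ≤ E := by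
      intro p hp hd
      have h1 : p ∣ e * e' := hd.trans (Nat.lcm_dvd (Dvd.intro _ rfl) (Dvd.intro_left _ rfl))
      rcases (Nat.Prime.dvd_mul hp).1 h1 with h2 | h2
      · exact (Nat.le_of_dvd (by omega) h2).trans he.2
      · exact (Nat.le_of_dvd (by omega) h2).trans he'.2
    have g3 := hT (Nat.lcm e e') hf1 hfE hp
    have g5 : |lam e| * |lam e'| ≤ 1 := mul_le_one₀ (hlam e) (abs_nonneg _) (hlam e')
    rw [abs_mul, abs_mul]
    exact ((mul_le_mul_of_nonneg_right g5 (abs_nonneg _)).trans_eq (one_mul _)).trans g3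
  have e3 : |∑ e ∈ Icc 1 E, ∑ e' ∈ Icc 1 E, lam e * lam e' *
      ∑ n ∈ I, w n * (if ((Nat.lcm e e' : ℕ) : ℤ) ∣ n then 1 else 0) * G n| ≤
      ∑ _e ∈ Icc 1 E, ∑ _e' ∈ Icc 1 E, T := by
    refine (Finset.abs_sum_le_sum_abs _ _).trans (Finset.sum_le_sum fun e he => ?_)
    exact (Finset.abs_sum_le_sum_abs _ _).trans (Finset.sum_le_sum fun e' he' => e2 e he e' he')
  refine e3.trans (le_of_eq ?_)
  rw [Finset.sum_const, Finset.sum_const, Nat.card_Icc, nsmul_eq_mul, nsmul_eq_mul,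
    Nat.add_sub_cancel]
  ring

end Pool.Agent.Lib.TP
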