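import Pool.Agent.Lib.TP.SpecQ
import Pool.Agent.Lib.KF.Rse

/-!
MP_00e23e_nt, directory Lib/TP, module Qsm: the small moduli.
-/

namespace Pool.Agent.Lib.TP

open Finset Pool.Agent.Lib.EH3 Pool.Agent.Lib.TB Pool.Agent.Results.MP_00e23e_nt

private lemma Qsm_log (A k x : ℝ) (hA : 0 < A) (hk : 0 < k) (hx : 16 ≤ x) :
    x ^ (1 - k) * (Real.log x) ^ (2 : ℝ) ≤
      (1 / (k / (A + 2)) ^ (A + 2)) * (x / (Real.log x) ^ A) := by
  have hx0 : 0 < x := by linarith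
  have hL1 : 1 ≤ Real.log x := by
    rw [Real.le_log_iff_exp_le hx0]
    have := Real.exp_one_lt_d9
    linarith
  have hL0 : 0 < Real.log x := by linarith
  set e : ℝ := k / (A + 2) with he
  have he0 : 0 < e := by positivity
  have h1 : Real.log x ≤ x ^ e / e := Real.log_le_rpow_div hx0.le he0
  have h2 : (Real.log x) ^ (A + 2) ≤ (x ^ e / e) ^ (A + 2) :=
    Real.rpow_le_rpow hL0.le h1 (by linarith)
  have h3 : (x ^ e / e) ^ (A + 2) = x ^ k / e ^ (A + 2) := by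
    rw [Real.div_rpow (by positivity) he0.le, ← Real.rpow_mul hx0.le]
    congr 2
    rw [he]
    field_simp
  rw [h3, Real.rpow_add hL0] at h2
  have hLA : 0 < (Real.log x) ^ A := Real.rpow_pos_of_pos hL0 A
  rw [← mul_div_assoc, le_div_iff₀ hLA]
  have h4 : x = x ^ (1 - k) * x ^ k := by
    rw [← Real.rpow_add hx0]
    norm_num
  have h5 : 0 ≤ x ^ (1 - k) := by positivity
  calc x ^ (1 - k) * (Real.log x) ^ (2 : ℝ) * (Real.log x) ^ A
      = x ^ (1 - k) * ((Real.log x) ^ A * (Real.log x) ^ (2 : ℝ)) := by ring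
    _ ≤ x ^ (1 - k) * (x ^ k / e ^ (A + 2)) :=
        mul_le_mul_of_nonneg_left h2 h5
    _ = 1 / e ^ (A + 2) * (x ^ (1 - k) * x ^ k) := by ring
    _ = 1 / e ^ (A + 2) * x := by rw [← h4]

private lemma Qsm_kf (x : ℝ) (D : ℕ) (hx : 16 ≤ x) (hD : 1 ≤ D) :
    0 ≤ Real.log (Pool.Agent.Lib.BV.Kf x D) * Real.log (Real.log (Pool.Agent.Lib.BV.Kf x D)) ∧
    Real.log (Pool.Agent.Lib.BV.Kf x D) * Real.log (Real.log (Pool.Agent.Lib.BV.Kf x D)) ≤
      4 * (Real.log x) ^ (2 : ℝ) := by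
  have hx0 : 0 < x := by linarith
  have hL1 : 1 ≤ Real.log x := by
    rw [Real.le_log_iff_exp_le hx0]
    have := Real.exp_one_lt_d9
    linarith
  have hD1' : (1 : ℝ) ≤ D := by exact_mod_cast hD
  have hs0 : 0 ≤ Real.sqrt x := Real.sqrt_nonneg x
  have hsx : Real.sqrt x ≤ x := by
    rw [Real.sqrt_le_left hx0.le]
    nlinarith
  have hK1 : 16 ≤ Pool.Agent.Lib.BV.Kf x D := by
    unfold Pool.Agent.Lib.BV.Kf
    have : 0 ≤ Real.sqrt x / ((D : ℝ) * Real.log x) := by positivity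
    linarith
  have hK2 : Pool.Agent.Lib.BV.Kf x D ≤ x ^ 2 := by
    unfold Pool.Agent.Lib.BV.Kf
    have h3 : Real.sqrt x / ((D : ℝ) * Real.log x) ≤ Real.sqrt x := by
      apply div_le_self hs0
      nlinarith
    nlinarith
  have hlK1 : 1 ≤ Real.log (Pool.Agent.Lib.BV.Kf x D) := by
    rw [Real.le_log_iff_exp_le (by linarith)]
    have := Real.exp_one_lt_d9
    linarith
  have hlK2 : Real.log (Pool.Agent.Lib.BV.Kf x D) ≤ 2 * Real.log x := by
    have h3 := Real.log_le_log (by linarith) hK2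
    rw [Real.log_pow] at h3
    exact_mod_cast h3
  have hll1 : 0 ≤ Real.log (Real.log (Pool.Agent.Lib.BV.Kf x D)) := Real.log_nonneg hlK1
  have hll2 : Real.log (Real.log (Pool.Agent.Lib.BV.Kf x D)) ≤ 2 * Real.log x := by
    have h3 := Real.log_le_sub_one_of_pos (show 0 < Real.log (Pool.Agent.Lib.BV.Kf x D) by linarith)
    linarith
  refine ⟨mul_nonneg (by linarith) hll1, ?_⟩
  rw [Real.rpow_two]
  calc Real.log (Pool.Agent.Lib.BV.Kf x D) * Real.log (Real.log (Pool.Agent.Lib.BV.Kf x D)) ≤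
        (2 * Real.log x) * (2 * Real.log x) :=
        mul_le_mul hlK2 hll2 hll1 (by linarith)
    _ = 4 * (Real.log x) ^ 2 := by ring

private lemma Qsm_main (h : Pool.Agent.Lib.BV.ExtStmt) (k A : ℝ) (hk : 0 < k) (hk2 : k ≤ 1 / 2) (hA : 0 < A) :
    ∃ C : ℝ, 0 ≤ C ∧ ∀ x : ℝ, 16 ≤ x → ∀ (y : ℕ → ℝ), (∀ d, 2 ≤ y d ∧ y d ≤ x) →
      ∑ d ∈ Icc 1 ⌊x ^ ((1 : ℝ) / 2 - k)⌋₊, maxErr (y d) d ≤ C * (x / (Real.log x) ^ A) := by
  obtain ⟨C0, hC0⟩ := h A hA
  set E : ℝ := 1 / (k / (A + 2)) ^ (A + 2) with hE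
  have hE0 : 0 ≤ E := by positivity
  refine ⟨|C0| * (1 + 4 * E), by positivity, ?_⟩
  intro x hx y hy
  have hx0 : 0 < x := by linarith
  have hL1 : 1 ≤ Real.log x := by
    rw [Real.le_log_iff_exp_le hx0]
    have := Real.exp_one_lt_d9
    linarith
  have hL0 : 0 < Real.log x := by linarith
  have hq : 0 ≤ x / (Real.log x) ^ A := by positivity
  set D : ℕ := ⌊x ^ ((1 : ℝ) / 2 - k)⌋₊ with hD
  have hD1 : 1 ≤ D := by
    rw [hD, Nat.one_le_floor_iff]
    exact Real.one_le_rpow (by linarith) (by linarith)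
  have hDx : (D : ℝ) ≤ x ^ ((1 : ℝ) / 2 - k) := Nat.floor_le (by positivity)
  have h2 := hC0 x D y hx hD1 hy
  have hs0 : 0 ≤ Real.sqrt x := Real.sqrt_nonneg x
  obtain ⟨h3, h4⟩ := Qsm_kf x D hx hD1
  have h5 : Real.sqrt x * D ≤ x ^ (1 - k) := by
    calc Real.sqrt x * D ≤ x ^ ((1 : ℝ) / 2) * x ^ ((1 : ℝ) / 2 - k) := by
          rw [← Real.sqrt_eq_rpow]
          exact mul_le_mul_of_nonneg_left hDx hs0
      _ = x ^ (1 - k) := by
          rw [← Real.rpow_add hx0]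
          congr 1
          ring
  have h6 : Real.sqrt x * D * (Real.log (Pool.Agent.Lib.BV.Kf x D) *
      Real.log (Real.log (Pool.Agent.Lib.BV.Kf x D))) ≤ 4 * E * (x / (Real.log x) ^ A) := by
    calc Real.sqrt x * D * (Real.log (Pool.Agent.Lib.BV.Kf x D) *
        Real.log (Real.log (Pool.Agent.Lib.BV.Kf x D))) ≤
          x ^ (1 - k) * (4 * (Real.log x) ^ (2 : ℝ)) :=
          mul_le_mul h5 h4 h3 (by positivity)
      _ = 4 * (x ^ (1 - k) * (Real.log x) ^ (2 : ℝ)) := by ring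
      _ ≤ 4 * (E * (x / (Real.log x) ^ A)) :=
          mul_le_mul_of_nonneg_left (Qsm_log A k x hA hk hx) (by norm_num)
      _ = 4 * E * (x / (Real.log x) ^ A) := by ring
  have h7 : 0 ≤ Real.sqrt x * D * (Real.log (Pool.Agent.Lib.BV.Kf x D) *
      Real.log (Real.log (Pool.Agent.Lib.BV.Kf x D))) := by positivity
  calc ∑ d ∈ Icc 1 D, maxErr (y d) d ≤
      C0 * (x / (Real.log x) ^ A + Real.sqrt x * D * (Real.log (Pool.Agent.Lib.BV.Kf x D) *
        Real.log (Real.log (Pool.Agent.Lib.BV.Kf x D)))) := h2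
    _ ≤ |C0| * (x / (Real.log x) ^ A + Real.sqrt x * D * (Real.log (Pool.Agent.Lib.BV.Kf x D) *
        Real.log (Real.log (Pool.Agent.Lib.BV.Kf x D)))) :=
        mul_le_mul_of_nonneg_right (le_abs_self C0) (by linarith)
    _ ≤ |C0| * (x / (Real.log x) ^ A + 4 * E * (x / (Real.log x) ^ A)) :=
        mul_le_mul_of_nonneg_left (by linarith) (abs_nonneg C0)
    _ = |C0| * (1 + 4 * E) * (x / (Real.log x) ^ A) := by ring

/-- **Module Qsm.** The small moduli. -/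
theorem tQsm (h : Pool.Agent.Lib.BV.ExtStmt) : QsmStmt := by
  intro κ A hκ hA
  obtain ⟨C, hC, hmain⟩ := Qsm_main h (min κ (1 / 2)) A (by positivity) (min_le_right _ _) hA
  refine ⟨C, 16, hC, ?_⟩
  intro x hx y s hy
  have hx0 : 0 < x := by linarith
  have h1 : Icc 1 ⌊x ^ ((1 : ℝ) / 2 - κ)⌋₊ ⊆ Icc 1 ⌊x ^ ((1 : ℝ) / 2 - min κ (1 / 2))⌋₊ := by
    apply Finset.Icc_subset_Icc_right
    apply Nat.floor_le_floor
    apply Real.rpow_le_rpow_of_exponent_le (by linarith)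
    have := min_le_left κ (1 / 2 : ℝ)
    linarith
  calc ∑ d ∈ (Icc 1 ⌊x ^ ((1 : ℝ) / 2 - κ)⌋₊).filter (fun d : ℕ => Int.gcd (s d) d = 1),
        |resErr (y d) d (s d)| ≤
      ∑ d ∈ (Icc 1 ⌊x ^ ((1 : ℝ) / 2 - κ)⌋₊).filter (fun d : ℕ => Int.gcd (s d) d = 1),
        maxErr (y d) d := by
        apply Finset.sum_le_sum
        intro d hd
        rw [Finset.mem_filter, Finset.mem_Icc] at hd
        exact Pool.Agent.Lib.KF.tRse (y d) d (s d) hd.1.1 hd.2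
    _ ≤ ∑ d ∈ Icc 1 ⌊x ^ ((1 : ℝ) / 2 - min κ (1 / 2))⌋₊, maxErr (y d) d := by
        apply Finset.sum_le_sum_of_subset_of_nonneg ((Finset.filter_subset _ _).trans h1)
        intro d _ _
        exact Pool.Agent.Lib.EH.maxErr_nonneg _ _
    _ ≤ C * (x / (Real.log x) ^ A) := hmain x hx y hy

end Pool.Agent.Lib.TP
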