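import Pool.Agent.Lib.TP.AllP
import Pool.Agent.Lib.TP.Qbl
import Pool.Agent.Lib.TP.Qfi
import Pool.Agent.Lib.TP.Qin
import Pool.Agent.Lib.TP.Qlo
import Pool.Agent.Lib.TP.Qnu
import Pool.Agent.Lib.TP.Qof
import Pool.Agent.Lib.TP.Qsm
import Pool.Agent.Lib.TP.Qun
import Pool.Agent.Lib.TN.AllW
import Pool.Agent.Lib.TN.AllGf
import Pool.Agent.Lib.TN.Mof2

/-!
MP_00e23e_nt, directory Lib/TP: theorem P at the levels below 5/9 without hypotheses.
-/

namespace Pool.Agent.Lib.TP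

open Pool.Agent.Lib.TB

/-- the off-diagonal estimate for convenient moduli with a congruence condition -/
theorem aOffG : Pool.Agent.Lib.TN.OffGStmt :=
  Pool.Agent.Lib.TN.tOffG Pool.Agent.Lib.TN.tWb
    (Pool.Agent.Lib.TN.tWx (Pool.Agent.Lib.TN.tWf Pool.Agent.Lib.TN.tWb))
    (Pool.Agent.Lib.TN.tEEG_of (Pool.Agent.Lib.TN.tPgl_of Pool.Agent.Lib.TN.tWeil) Pool.Agent.Lib.TN.tSsclG
      Pool.Agent.Lib.TN.tSszeG)

/-- properties of the weight -/
theorem aWq : WqStmt :=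
  ⟨fun N j n hN => ⟨(Pool.Agent.Lib.TN.tWb N j hN).1 n, (Pool.Agent.Lib.TN.tWb N j hN).2.1 n⟩,
    fun N j n hN hn => (Pool.Agent.Lib.TN.tWb N j hN).2.2.2 n hn⟩

/-- the input for the levels below 5/9 -/
theorem aQin : QinStmt := tQin (tQof aOffG tQnu tQbl) aDiaV aSel aWq

/-- **THEOREM P** at the levels below 5/9 -/
theorem aQfi : QStmt :=
  tQfi aQin aPby tPex aPgr (tQlo (tQsm Pool.Agent.Lib.BV.aExt)) tQun aPfi

end Pool.Agent.Lib.TP
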