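import Pool.Agent.Lib.TP.SpecK

/-!
MP_00e23e_nt, directory Lib/TP, module Kth: from the Bessel inequality to the K-th largest value.
-/

namespace Pool.Agent.Lib.TP

open Finset Pool.Agent.Lib.EH3 Pool.Agent.Lib.TB Pool.Agent.Results.MP_00e23e_nt

private lemma Kth_enum (T : Finset ℤ) (K : ℕ) (hT : T.card = K) (hK : 1 ≤ K) : ∃ e : ℕ → ℤ, (∀ i, e i ∈ T) ∧
    ∀ i ∈ range K, ∀ j ∈ range K, i ≠ j → e i ≠ e j := by
  have hne : T.Nonempty := Finset.card_pos.1 (by omega)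
  obtain ⟨t, ht⟩ := hne
  refine ⟨fun i => if h : i < K then T.orderEmbOfFin hT ⟨i, h⟩ else t, fun i => ?_, fun i hi j hj hij => ?_⟩
  · by_cases h : i < K
    · simp only [h, dite_true]
      exact Finset.orderEmbOfFin_mem T hT _
    · simp only [h, dite_false]
      exact ht
  · rw [mem_range] at hi hj
    simp only [hi, hj, dite_true]
    intro h
    have h1 := (T.orderEmbOfFin hT).injective h
    rw [Fin.mk.injEq] at h1
    exact hij h1

private lemma Kth_sqrt {r C m2 L m : ℝ} (hC : 0 ≤ C) (hm : 0 ≤ m) (hL : 0 ≤ L) (hm2 : m ^ 2 = m2)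
    (h : r ^ 2 ≤ C * m2 * L ^ 2) : r ≤ Real.sqrt C * m * L := by
  have h1 : (Real.sqrt C * m * L) ^ 2 = C * m2 * L ^ 2 := by
    rw [mul_pow, mul_pow, Real.sq_sqrt hC, hm2]
  have h2 : 0 ≤ Real.sqrt C * m * L := by positivity
  rw [← h1] at h
  exact abs_le_of_sq_le_sq' h h2 |>.2

theorem tKth (h1 : KtopStmt) : KthGry := by
  intro θ Cls hG
  obtain ⟨C0, η, hC0, hη, hG⟩ := hG
  refine ⟨Real.sqrt C0, η, Real.sqrt_pos.2 hC0, hη, fun B => ?_⟩
  obtain ⟨x1, hG⟩ := hG B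
  refine ⟨max x1 3, fun x hx A Y K hAx hAη hY hK1 hKB => ?_⟩
  have hx1 : x1 ≤ x := (le_max_left _ _).trans hx
  have hx3 : (3 : ℝ) ≤ x := (le_max_right _ _).trans hx
  by_cases hAK : A.card < K
  · exact ⟨fun _ => A, fun _ => hAK, fun a y h => absurd (h 0).1 (h 0).2.1⟩
  rw [not_lt] at hAK
  by_cases hY0 : Y = ∅
  · refine ⟨fun _ => ∅, fun _ => by rw [Finset.card_empty]; omega, fun a y h => ?_⟩
    have := (h 0).2.2
    rw [hY0] at this
    exact absurd this (Finset.notMem_empty _)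
  have hYne : Y.Nonempty := Finset.nonempty_iff_ne_empty.2 hY0
  have hz : ∀ (d : ℕ) (a : ℤ), ∃ z ∈ Y, ∀ z' ∈ Y, |resErr z' d a| ≤ |resErr z d a| := fun d a =>
    Finset.exists_max_image Y (fun z => |resErr z d a|) hYne
  choose z hzY hzmax using hz
  obtain ⟨v, hv⟩ : ∃ v : ℕ → ℤ → ℝ, ∀ d a, v d a = if Int.gcd a d = 1 then |resErr (z d a) d a| else 0 :=
    ⟨_, fun _ _ => rfl⟩
  have hT : ∀ d : ℕ, ∃ T ⊆ A, T.card = K ∧ ∀ t ∈ T, ∀ a ∈ A, a ∉ T → v d a ≤ v d t := fun d => h1 A K (v d) hAK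
  choose T hTA hTK hTtop using hT
  have hTne : ∀ d, (T d).Nonempty := fun d => Finset.card_pos.1 (by rw [hTK]; omega)
  have ht0 : ∀ d, ∃ t ∈ T d, ∀ t' ∈ T d, v d t ≤ v d t' := fun d => Finset.exists_min_image (T d) (v d) (hTne d)
  choose t0 ht0T ht0min using ht0
  have he : ∀ d, ∃ e : ℕ → ℤ, (∀ i, e i ∈ T d) ∧ ∀ i ∈ range K, ∀ j ∈ range K, i ≠ j → e i ≠ e j := fun d =>
    Kth_enum (T d) K (hTK d) hK1
  choose e heT heinj using he
  refine ⟨fun d => (T d).erase (t0 d), fun d => ?_, fun a y hay => ?_⟩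
  · rw [Finset.card_erase_of_mem (ht0T d), hTK]
    omega
  -- the family
  have hF : Fam θ η x (range K) (fun i d => e d i) := by
    refine ⟨fun i _ d _ => hAx _ (hTA d (heT d i)), fun i _ => ?_, fun i hi j hj hij d _ => heinj d i hi j hj hij⟩
    refine le_trans ?_ hAη
    have : ((Icc 1 ⌊x ^ θ⌋₊).image (fun d => e d i)) ⊆ A := by
      intro w hw
      obtain ⟨d, _, rfl⟩ := Finset.mem_image.1 hw
      exact hTA d (heT d i)
    exact_mod_cast Finset.card_le_card this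
  have hB := hG x hx1 (range K) (fun i d => e d i) Y (fun i d => z d (e d i)) hF
    (by rw [Finset.card_range]; exact hKB) hY (fun i d => hzY d _)
  -- comparison
  have hcmp : ∀ i ∈ range K, RS θ Cls x y a ≤ RS θ Cls x (fun d => z d (e d i)) (fun d => e d i) := by
    intro i _
    unfold RS
    rw [Finset.sum_filter, Finset.sum_filter]
    refine Finset.sum_le_sum fun d _ => ?_
    obtain ⟨haA, haB, hyY⟩ := hay d
    have k1 : v d (a d) ≤ v d (t0 d) := by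
      by_cases haT : a d ∈ T d
      · have : a d = t0 d := by
          by_contra hne
          exact haB (Finset.mem_erase.2 ⟨hne, haT⟩)
        rw [this]
      · exact hTtop d (t0 d) (ht0T d) (a d) haA haT
    have k2 : v d (a d) ≤ v d (e d i) := k1.trans (ht0min d _ (heT d i))
    rw [hv, hv] at k2
    by_cases hC : Cls x d
    · simp only [hC, and_true]
      refine le_trans ?_ k2
      by_cases hg : Int.gcd (a d) d = 1
      · rw [if_pos hg, if_pos hg]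
        exact hzmax d (a d) (y d) hyY
      · rw [if_neg hg, if_neg hg]
    · simp only [hC, and_false, if_false]
      exact le_refl _
  have hRS0 : 0 ≤ RS θ Cls x y a := Finset.sum_nonneg fun _ _ => abs_nonneg _
  have hsum : (K : ℝ) * RS θ Cls x y a ^ 2 ≤
      C0 * min (Y.card : ℝ) ((K : ℝ) ^ ((1 : ℝ) / 3)) * (x / Real.log x) ^ 2 := by
    rw [Finset.card_range] at hB
    refine le_trans ?_ hB
    have : (K : ℝ) * RS θ Cls x y a ^ 2 = ∑ i ∈ range K, RS θ Cls x y a ^ 2 := by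
      rw [Finset.sum_const, Finset.card_range, nsmul_eq_mul]
    rw [this]
    exact Finset.sum_le_sum fun i hi => pow_le_pow_left₀ hRS0 (hcmp i hi) 2
  have hK0 : (0 : ℝ) < K := by exact_mod_cast hK1
  have hlog : 0 < Real.log x := Real.log_pos (by linarith)
  have hL : 0 ≤ x / Real.log x := by positivity
  obtain ⟨L, hLd⟩ : ∃ L : ℝ, L = x / Real.log x := ⟨_, rfl⟩
  obtain ⟨r, hr⟩ : ∃ r : ℝ, r = RS θ Cls x y a := ⟨_, rfl⟩
  rw [← hLd] at hL
  rw [← hLd, ← hr] at hsum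
  rw [← hLd, ← hr]
  rcases min_choice (Real.sqrt ((Y.card : ℝ) / K)) ((K : ℝ) ^ (-(1 : ℝ) / 3)) with hm | hm
  · rw [hm]
    refine Kth_sqrt (m2 := (Y.card : ℝ) / K) hC0.le (Real.sqrt_nonneg _) hL (Real.sq_sqrt (by positivity)) ?_
    have g1 : C0 * min (Y.card : ℝ) ((K : ℝ) ^ ((1 : ℝ) / 3)) * L ^ 2 ≤ C0 * (Y.card : ℝ) * L ^ 2 :=
      mul_le_mul_of_nonneg_right (mul_le_mul_of_nonneg_left (min_le_left _ _) hC0.le) (by positivity)
    have g2 : r ^ 2 ≤ (C0 * (Y.card : ℝ) * L ^ 2) / K := by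
      rw [le_div_iff₀ hK0]
      linarith
    refine g2.trans (le_of_eq ?_)
    ring
  · rw [hm]
    refine Kth_sqrt (m2 := (K : ℝ) ^ ((1 : ℝ) / 3) / K) hC0.le (by positivity) hL ?_ ?_
    · rw [← Real.rpow_natCast, ← Real.rpow_mul hK0.le]
      rw [show (K : ℝ) ^ ((1 : ℝ) / 3) / K = (K : ℝ) ^ ((1 : ℝ) / 3 - 1) by rw [Real.rpow_sub hK0, Real.rpow_one]]
      norm_num
    · have g1 : C0 * min (Y.card : ℝ) ((K : ℝ) ^ ((1 : ℝ) / 3)) * L ^ 2 ≤ C0 * (K : ℝ) ^ ((1 : ℝ) / 3) * L ^ 2 :=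
        mul_le_mul_of_nonneg_right (mul_le_mul_of_nonneg_left (min_le_right _ _) hC0.le) (by positivity)
      have g2 : r ^ 2 ≤ (C0 * (K : ℝ) ^ ((1 : ℝ) / 3) * L ^ 2) / K := by
        rw [le_div_iff₀ hK0]
        linarith
      refine g2.trans (le_of_eq ?_)
      ring

end Pool.Agent.Lib.TP
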