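import Pool.Agent.Lib.TP.SpecK

/-!
MP_00e23e_nt, directory Lib/TP, module Ktop: the K largest values.
-/

namespace Pool.Agent.Lib.TP

open Finset Pool.Agent.Lib.EH3 Pool.Agent.Lib.TB Pool.Agent.Results.MP_00e23e_nt

theorem tKtop : KtopStmt := by
  intro A K v hK
  have hne : (A.powersetCard K).Nonempty := Finset.powersetCard_nonempty.2 hK
  obtain ⟨T, hT, hmax⟩ := Finset.exists_max_image (A.powersetCard K) (fun T => ∑ t ∈ T, v t) hne
  rw [Finset.mem_powersetCard] at hT
  refine ⟨T, hT.1, hT.2, fun t ht a ha haT => ?_⟩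
  by_contra hlt
  rw [not_le] at hlt
  have hat : a ∉ T.erase t := fun h => haT (Finset.mem_of_mem_erase h)
  have h1 : insert a (T.erase t) ∈ A.powersetCard K := by
    rw [Finset.mem_powersetCard]
    constructor
    · intro w hw
      rcases Finset.mem_insert.1 hw with rfl | hw
      · exact ha
      · exact hT.1 (Finset.mem_of_mem_erase hw)
    · rw [Finset.card_insert_of_notMem hat, Finset.card_erase_of_mem ht, hT.2]
      have : 0 < T.card := Finset.card_pos.2 ⟨t, ht⟩
      omega
  have h2 := hmax _ h1
  rw [Finset.sum_insert hat] at h2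
  have h3 := Finset.add_sum_erase T v ht
  linarith

end Pool.Agent.Lib.TP
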