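import Pool.Agent.Lib.TP.SpecR
import Pool.Agent.Lib.TB.Asy
import Pool.Agent.Lib.BV.Btt

/-!
# TP, module Rby: the Bessel inequality for points with few values
-/

namespace Pool.Agent.Lib.TP

open Finset Pool.Agent.Lib.EH3 Pool.Agent.Lib.TB Pool.Agent.Results.MP_00e23e_nt

/-- The terms of the Bombieri-Vinogradov bound. -/
private theorem Rby_bv {x R r : ℝ} (hx : 16 ≤ x) (hlog : 1 ≤ Real.log x) (hR1 : 1 ≤ R)
    (hR : R ≤ x ^ ((1 : ℝ) / 2 - r)) :
    Real.sqrt x * R * (Real.log (16 + Real.sqrt x / (R * Real.log x)) *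
      Real.log (Real.log (16 + Real.sqrt x / (R * Real.log x)))) ≤
      4 * x ^ (1 - r) * (Real.log x) ^ 2 := by
  have hx0 : 0 < x := by linarith
  have hs : Real.sqrt x ≤ x := by
    rw [Real.sqrt_le_left hx0.le]
    nlinarith
  have hs0 : 0 ≤ Real.sqrt x := Real.sqrt_nonneg x
  have hRL : 1 ≤ R * Real.log x := by nlinarith
  have h1 : Real.sqrt x / (R * Real.log x) ≤ x := (div_le_self hs0 hRL).trans hs
  have h1' : 0 ≤ Real.sqrt x / (R * Real.log x) := by positivity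
  obtain ⟨K, hK⟩ : ∃ K, K = 16 + Real.sqrt x / (R * Real.log x) := ⟨_, rfl⟩
  rw [← hK]
  have hK16 : 16 ≤ K := by rw [hK]; linarith
  have hK2 : K ≤ x ^ 2 := by rw [hK]; nlinarith
  have h2 : Real.log K ≤ 2 * Real.log x := by
    calc Real.log K ≤ Real.log (x ^ 2) := Real.log_le_log (by linarith) hK2
      _ = 2 * Real.log x := by rw [Real.log_pow]; push_cast; ring
  have h3 : 1 ≤ Real.log K := by
    rw [Real.le_log_iff_exp_le (by linarith)]
    have := Real.exp_one_lt_d9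
    linarith
  have h4 : Real.log (Real.log K) ≤ 2 * Real.log x := by
    have := Real.log_le_sub_one_of_pos (show 0 < Real.log K by linarith)
    linarith
  have h5 : 0 ≤ Real.log (Real.log K) := Real.log_nonneg h3
  have h6 : Real.log K * Real.log (Real.log K) ≤ 4 * (Real.log x) ^ 2 := by
    calc Real.log K * Real.log (Real.log K) ≤ (2 * Real.log x) * (2 * Real.log x) :=
          mul_le_mul h2 h4 h5 (by linarith)
      _ = 4 * (Real.log x) ^ 2 := by ring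
  have h7 : Real.sqrt x * R ≤ x ^ (1 - r) := by
    calc Real.sqrt x * R ≤ Real.sqrt x * x ^ ((1 : ℝ) / 2 - r) :=
          mul_le_mul_of_nonneg_left hR hs0
      _ = x ^ ((1 : ℝ) / 2) * x ^ ((1 : ℝ) / 2 - r) := by
          rw [Real.sqrt_eq_rpow]
      _ = x ^ (1 - r) := by
          rw [← Real.rpow_add hx0]
          congr 1
          ring
  calc Real.sqrt x * R * (Real.log K * Real.log (Real.log K)) ≤
      x ^ (1 - r) * (4 * (Real.log x) ^ 2) := by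
        apply mul_le_mul h7 h6 (mul_nonneg (by linarith) h5) (by positivity)
    _ = 4 * x ^ (1 - r) * (Real.log x) ^ 2 := by ring

/-- The low frequencies, with the Bombieri-Vinogradov theorem. -/
private theorem Rby_lp {C₃ C₄ U x y S r : ℝ} {R : ℕ} (hC₃ : 0 ≤ C₃) (hC₄ : 0 ≤ C₄)
    (hx : 16 ≤ x) (hlog : 1 ≤ Real.log x) (hy0 : 0 ≤ y) (hyx : y ≤ x) (hR1 : 1 ≤ R)
    (hR : (R : ℝ) ≤ x ^ ((1 : ℝ) / 2 - r)) (hR2 : x ^ r ≤ (R : ℝ))
    (hLp : S ≤ C₃ * (Real.log x) ^ 3 * (∑ e ∈ Icc 1 R, maxErr y e + y / R))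
    (hBV : ∑ e ∈ Icc 1 R, maxErr y e ≤ C₄ * (x / (Real.log x) ^ (U + 3) + Real.sqrt x * R *
      (Real.log (16 + Real.sqrt x / (R * Real.log x)) *
        Real.log (Real.log (16 + Real.sqrt x / (R * Real.log x))))))
    (h1 : 4 * (C₃ * C₄) * x ^ (1 - r) * (Real.log x) ^ (5 : ℝ) ≤ x / (Real.log x) ^ U)
    (h2 : C₃ * x ^ (1 - r) * (Real.log x) ^ (3 : ℝ) ≤ x / (Real.log x) ^ U) :
    S ≤ (C₃ * C₄ + 2) * (x / (Real.log x) ^ U) := by
  have hx0 : 0 < x := by linarith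
  have hR1' : (1 : ℝ) ≤ R := by exact_mod_cast hR1
  have hR0 : (0 : ℝ) < R := by linarith
  obtain ⟨L, hL⟩ : ∃ L, Real.log x = L := ⟨_, rfl⟩
  have hbv := Rby_bv hx hlog hR1' hR
  rw [hL] at hlog hBV h1 h2 hbv hLp ⊢
  have hL0 : 0 < L := by linarith
  have h4 : y / R ≤ x ^ (1 - r) := by
    rw [div_le_iff₀ hR0]
    have e1 : x = x ^ (1 - r) * x ^ r := by
      rw [← Real.rpow_add hx0, sub_add_cancel, Real.rpow_one]
    calc y ≤ x ^ (1 - r) * x ^ r := by rw [← e1]; exact hyx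
      _ ≤ x ^ (1 - r) * (R : ℝ) := mul_le_mul_of_nonneg_left hR2 (Real.rpow_nonneg hx0.le _)
  have h5 : 0 ≤ y / R := by positivity
  have h6 : ∑ e ∈ Icc 1 R, maxErr y e + y / R ≤
      C₄ * (x / L ^ (U + 3) + 4 * x ^ (1 - r) * L ^ 2) + x ^ (1 - r) := by
    refine add_le_add (hBV.trans ?_) h4
    apply mul_le_mul_of_nonneg_left _ hC₄
    exact add_le_add_right hbv _
  have h8 : L ^ 3 * (x / L ^ (U + 3)) = x / L ^ U := by
    rw [Real.rpow_add hL0]
    norm_cast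
    have := (Real.rpow_pos_of_pos hL0 U).ne'
    field_simp
  have h9 : L ^ (5 : ℝ) = L ^ 3 * L ^ 2 := by norm_cast; ring
  have h10 : L ^ (3 : ℝ) = L ^ 3 := by norm_cast
  rw [h9] at h1
  rw [h10] at h2
  calc _ ≤ C₃ * L ^ 3 * (∑ e ∈ Icc 1 R, maxErr y e + y / R) := hLp
    _ ≤ C₃ * L ^ 3 * (C₄ * (x / L ^ (U + 3) + 4 * x ^ (1 - r) * L ^ 2) + x ^ (1 - r)) := by
        apply mul_le_mul_of_nonneg_left h6
        positivity
    _ = C₃ * C₄ * (L ^ 3 * (x / L ^ (U + 3))) +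
          4 * (C₃ * C₄) * x ^ (1 - r) * (L ^ 3 * L ^ 2) + C₃ * x ^ (1 - r) * L ^ 3 := by ring
    _ ≤ C₃ * C₄ * (x / L ^ U) + x / L ^ U + x / L ^ U := by
        rw [h8]
        linarith
    _ = _ := by ring

/-- The small primes. -/
private theorem Rby_small {x E M lD lR : ℝ} (hx : 16 ≤ x) (hlog : 1 ≤ Real.log x)
    (hE0 : 0 ≤ E) (hE : E ≤ x ^ ((1 : ℝ) / 10)) (hM0 : 0 ≤ M) (hM : M ≤ x ^ ((1 : ℝ) / 10))
    (hD0 : 0 ≤ lD) (hD : lD ≤ Real.log x) (hR0 : 0 ≤ lR) (hR : lR ≤ Real.log x) :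
    4 * E * M * Real.sqrt x * (1 + (1 + lD) * (1 + lR)) ≤
      20 * x ^ ((7 : ℝ) / 10) * (Real.log x) ^ (2 : ℝ) := by
  have hx0 : 0 < x := by linarith
  have h10 : (Real.log x) ^ (2 : ℝ) = (Real.log x) ^ 2 := by norm_cast
  rw [h10]
  obtain ⟨L, hL⟩ : ∃ L, Real.log x = L := ⟨_, rfl⟩
  rw [hL] at hlog hD hR ⊢
  have h1 : 1 + (1 + lD) * (1 + lR) ≤ 5 * L ^ 2 := by
    have h2 : (1 + lD) * (1 + lR) ≤ (1 + L) * (1 + L) :=
      mul_le_mul (by linarith) (by linarith) (by linarith) (by linarith)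
    nlinarith
  have h2 : E * M ≤ x ^ ((1 : ℝ) / 10) * x ^ ((1 : ℝ) / 10) :=
    mul_le_mul hE hM hM0 (Real.rpow_nonneg hx0.le _)
  have h3 : x ^ ((7 : ℝ) / 10) = x ^ ((1 : ℝ) / 10) * x ^ ((1 : ℝ) / 10) * x ^ ((1 : ℝ) / 2) := by
    rw [← Real.rpow_add hx0, ← Real.rpow_add hx0]
    norm_num
  have h4 : E * M * Real.sqrt x ≤ x ^ ((7 : ℝ) / 10) := by
    rw [h3, ← Real.sqrt_eq_rpow]
    exact mul_le_mul_of_nonneg_right h2 (Real.sqrt_nonneg x)
  have h5 : 0 ≤ E * M * Real.sqrt x := by positivity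
  calc 4 * E * M * Real.sqrt x * (1 + (1 + lD) * (1 + lR)) =
        4 * ((E * M * Real.sqrt x) * (1 + (1 + lD) * (1 + lR))) := by ring
    _ ≤ 4 * (x ^ ((7 : ℝ) / 10) * (5 * L ^ 2)) := by
        apply mul_le_mul_of_nonneg_left _ (by norm_num)
        exact mul_le_mul h4 h1 (by positivity) (Real.rpow_nonneg hx0.le _)
    _ = _ := by ring

/-- The number of primes. -/
private theorem Rby_pi (hB : Pool.Agent.Lib.BV.BttStmt) : ∃ C x0 : ℝ, 0 < C ∧ ∀ x : ℝ, x0 ≤ x →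
    (((Icc 1 ⌊x⌋₊).filter Nat.Prime).card : ℝ) ≤ C * (x / Real.log x) := by
  obtain ⟨C, x0, hC, hx0, h⟩ := hB
  refine ⟨C + 8, x0, by linarith, fun x hx => ?_⟩
  have hx16 : 16 ≤ x := hx0.trans hx
  have h1 := h x x 1 1 hx (by linarith) le_rfl le_rfl (by
    rw [Nat.cast_one]
    exact Real.one_le_sqrt.2 (by linarith)) (Nat.coprime_one_left 1)
  have h2 := Pool.Agent.Lib.BV.Btt_li x x hx16 (by linarith) le_rfl
  have h3 : primeCount x 1 1 = ((Icc 1 ⌊x⌋₊).filter Nat.Prime).card := by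
    unfold primeCount
    congr 1
    apply Finset.filter_congr
    intro p _
    exact ⟨fun h => h.1, fun h => ⟨h, Nat.modEq_one⟩⟩
  unfold err at h1
  rw [h3, Nat.totient_one, Nat.cast_one, div_one, one_mul] at h1
  have h4 := (abs_le.1 h1).2
  linarith

/-- The sieve weight at a prime. -/
private theorem Rby_nu {lam : ℕ → ℝ} {E p : ℕ} (h1 : lam 1 = 1) (hE : 1 ≤ E) (hp : p.Prime) (hEp : E < p) :
    nu lam E (p : ℤ) = 1 := by
  unfold nu
  have h2 : ∑ e ∈ Icc 1 E, (if (e : ℤ) ∣ (p : ℤ) then lam e else 0) = 1 := by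
    rw [Finset.sum_eq_single 1]
    · rw [if_pos (by simp), h1]
    · intro e he hne
      rw [Finset.mem_Icc] at he
      rw [if_neg]
      intro hd
      rw [Int.natCast_dvd_natCast] at hd
      rcases (Nat.dvd_prime hp).1 hd with h | h
      · exact hne h
      · omega
    · intro h
      exact absurd (Finset.mem_Icc.2 ⟨le_rfl, hE⟩) h
  rw [h2, one_pow]

/-- The sums `|X| + Z`. -/
private theorem Rby_sum {J : Finset ℕ} {f X : ℕ → ℝ} {Z A B n : ℝ} (hf : ∀ i ∈ J, 0 ≤ f i)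
    (h : ∀ i ∈ J, f i ≤ |X i| + Z)
    (hX : ∑ i ∈ J, X i ^ 2 ≤ A) (hn : (J.card : ℝ) ≤ n) (hB : n * Z ^ 2 ≤ B) :
    ∑ i ∈ J, f i ^ 2 ≤ 2 * A + 2 * B := by
  have h1 : ∀ i ∈ J, f i ^ 2 ≤ 2 * X i ^ 2 + 2 * Z ^ 2 := by
    intro i hi
    have e1 : f i ^ 2 ≤ (|X i| + Z) ^ 2 := pow_le_pow_left₀ (hf i hi) (h i hi) 2
    have e2 : X i ^ 2 = |X i| ^ 2 := (sq_abs _).symm
    rw [e2]
    nlinarith [sq_nonneg (|X i| - Z)]
  have h2 : 0 ≤ Z ^ 2 := sq_nonneg Z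
  have h3 : (J.card : ℝ) * Z ^ 2 ≤ B := (mul_le_mul_of_nonneg_right hn h2).trans hB
  calc ∑ i ∈ J, f i ^ 2 ≤ ∑ i ∈ J, (2 * X i ^ 2 + 2 * Z ^ 2) := Finset.sum_le_sum h1
    _ = 2 * ∑ i ∈ J, X i ^ 2 + 2 * ((J.card : ℝ) * Z ^ 2) := by
        rw [Finset.sum_add_distrib, ← Finset.mul_sum, Finset.sum_const, nsmul_eq_mul]
        ring
    _ ≤ 2 * A + 2 * B := by linarith

/-- The cells `P z`, `z ∈ Y`, are disjoint sets of primes `≤ x`. -/
private theorem Rby_cells (E : ℕ) (x : ℝ) (Y : Finset ℝ) (hY : ∀ z ∈ Y, 2 ≤ z ∧ z ≤ x) :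
    (∑ z ∈ Y, (((Ioc E ⌊z⌋₊).filter (fun p : ℕ => p.Prime ∧ ∀ z' ∈ Y, z' < z → z' < (p : ℝ))).card : ℝ)) ≤
      (((Icc 1 ⌊x⌋₊).filter Nat.Prime).card : ℝ) := by
  have h1 : ∀ z ∈ Y, ∀ z' ∈ Y, z' < z →
      Disjoint ((Ioc E ⌊z⌋₊).filter (fun p : ℕ => p.Prime ∧ ∀ z' ∈ Y, z' < z → z' < (p : ℝ)))
        ((Ioc E ⌊z'⌋₊).filter (fun p : ℕ => p.Prime ∧ ∀ w ∈ Y, w < z' → w < (p : ℝ))) := by
    intro z _ z' hz' hlt
    rw [Finset.disjoint_left]
    intro p hp hp'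
    rw [Finset.mem_filter] at hp hp'
    have a1 := hp.2.2 z' hz' hlt
    have a2 := (Finset.mem_Ioc.1 hp'.1).2
    have a3 : (p : ℝ) ≤ (⌊z'⌋₊ : ℝ) := by exact_mod_cast a2
    have a4 := Nat.floor_le (show (0 : ℝ) ≤ z' by linarith [(hY z' hz').1])
    linarith
  have h2 : (∑ z ∈ Y, ((Ioc E ⌊z⌋₊).filter (fun p : ℕ => p.Prime ∧ ∀ z' ∈ Y, z' < z → z' < (p : ℝ))).card) ≤
      ((Icc 1 ⌊x⌋₊).filter Nat.Prime).card := by
    rw [← Finset.card_biUnion]
    · apply Finset.card_le_card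
      intro p hp
      rw [Finset.mem_biUnion] at hp
      obtain ⟨z, hz, hp⟩ := hp
      rw [Finset.mem_filter, Finset.mem_Ioc] at hp
      rw [Finset.mem_filter, Finset.mem_Icc]
      exact ⟨⟨hp.2.1.one_lt.le, hp.1.2.trans (Nat.floor_le_floor (hY z hz).2)⟩, hp.2.1⟩
    · intro z hz z' hz' hne
      rcases lt_or_gt_of_ne hne with h | h
      · exact (h1 z' hz' z hz h).symm
      · exact h1 z hz z' hz' h
  exact_mod_cast h2

theorem tRby (h1 : RcuStmt) (h2 : RspStmt) (h3 : RptStmt) (h4 : LpSStmt)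
    (h5 : Pool.Agent.Lib.BV.ExtStmt) (h6 : Pool.Agent.Lib.BV.BttStmt) : RbyStmt := by
  intro θ Cls hθ0 hθ hIn
  obtain ⟨C₀, η₀, w₀, r, x₁, hC₀, hη₀, hw₀, hr, hIn⟩ := hIn
  obtain ⟨C₁, x₂, hC₁, hπ⟩ := Rby_pi h6
  obtain ⟨C₃', hlp'⟩ := h4
  obtain ⟨C₃, hC₃⟩ : ∃ C₃, C₃ = max C₃' 0 := ⟨_, rfl⟩
  have hC₃0 : 0 ≤ C₃ := by rw [hC₃]; exact le_max_right _ _
  obtain ⟨η, hη⟩ : ∃ η, η = min η₀ (1 / 10) / 4 := ⟨_, rfl⟩
  have hη0 : 0 < η := by
    rw [hη]
    have := lt_min hη₀ (show (0 : ℝ) < 1 / 10 by norm_num)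
    linarith
  have hη1 : η ≤ 1 / 10 := by
    rw [hη]
    have := min_le_right η₀ (1 / 10 : ℝ)
    linarith
  have hη2 : 4 * η ≤ η₀ := by
    rw [hη]
    have := min_le_left η₀ (1 / 10 : ℝ)
    linarith
  refine ⟨2 * (C₁ * (C₀ + 1) / w₀) + 2, η, by positivity, hη0, ?_⟩
  intro B
  have hB0 : 0 ≤ |B| := abs_nonneg B
  obtain ⟨V, hV⟩ : ∃ V, V = |B| + 2 := ⟨_, rfl⟩
  obtain ⟨U, hU⟩ : ∃ U, U = V + |B| := ⟨_, rfl⟩
  have hU0 : 0 < U := by rw [hU, hV]; linarith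
  obtain ⟨C₄', hbv'⟩ := h5 (U + 3) (by linarith)
  obtain ⟨C₄, hC₄⟩ : ∃ C₄, C₄ = max C₄' 0 := ⟨_, rfl⟩
  have hC₄0 : 0 ≤ C₄ := by rw [hC₄]; exact le_max_right _ _
  obtain ⟨C₅, hC₅⟩ : ∃ C₅, C₅ = C₃ * C₄ + 4 := ⟨_, rfl⟩
  have hC₅0 : 0 ≤ C₅ := by rw [hC₅]; positivity
  have hev : ∀ᶠ x : ℝ in Filter.atTop,
      ∀ (J : Finset ℕ) (s : ℕ → ℕ → ℤ) (Y : Finset ℝ) (y : ℕ → ℕ → ℝ), Fam θ η x J s →
      (J.card : ℝ) ≤ (Real.log x) ^ B → (Y.card : ℝ) ≤ (Real.log x) ^ B →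
      (∀ z ∈ Y, 2 ≤ z ∧ z ≤ x) → (∀ i d, y i d ∈ Y) →
      ∑ i ∈ J, RS θ Cls x (y i) (s i) ^ 2 ≤
        (2 * (C₁ * (C₀ + 1) / w₀) + 2) * Y.card * (x / Real.log x) ^ 2 := by
    filter_upwards [Filter.eventually_ge_atTop (16 : ℝ), Filter.eventually_ge_atTop x₁,
      Filter.eventually_ge_atTop x₂,
      Real.tendsto_log_atTop.eventually_ge_atTop (C₅ ^ 2),
      Asy_div 1 (2 * |B|) 1 (1 - η₀ / 2) (by linarith),
      Asy_div 20 2 V (7 / 10) (by norm_num),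
      Asy_div 1 0 V (3 / 4) (by norm_num),
      Asy_div (4 * (C₃ * C₄)) 5 U (1 - r) (by linarith),
      Asy_div C₃ 3 U (1 - r) (by linarith)] with x hx hxx₁ hxx₂ e0 e2 e3 e4 e5 e6 J s Y y hFam hJ hYc hY hyY
    have hx0 : 0 < x := by linarith
    have hx1 : 1 ≤ x := by linarith
    have hlog : 1 ≤ Real.log x := by
      rw [Real.le_log_iff_exp_le hx0]
      have := Real.exp_one_lt_d9
      linarith
    have hL0 : 0 < Real.log x := by linarith
    rw [Real.rpow_one, one_mul] at e2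
    rw [Real.rpow_zero, mul_one, one_mul] at e4
    have hY1 : 1 ≤ Y.card := Finset.card_pos.2 ⟨y 0 0, hyY 0 0⟩
    have hY1' : (1 : ℝ) ≤ Y.card := by exact_mod_cast hY1
    obtain ⟨R, E, I, w, lam, hR1, hRr, hR2, hE1, hE2, hlam, hw, hI, hOff, hDia⟩ := hIn x hxx₁
    obtain ⟨hF1, hF2, hF3⟩ := hFam
    obtain ⟨D, hD⟩ : ∃ D, D = ⌊x ^ θ⌋₊ := ⟨_, rfl⟩
    have hxθ : 1 ≤ x ^ θ := Real.one_le_rpow hx1 hθ0.le
    have hD1 : 1 ≤ D := by
      rw [hD]
      exact Nat.le_floor (by exact_mod_cast hxθ)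
    have hDx : (D : ℝ) ≤ x ^ ((3 : ℝ) / 4) := by
      rw [hD]
      exact (Nat.floor_le (by linarith)).trans (Real.rpow_le_rpow_of_exponent_le hx1 hθ)
    have hpow : ∀ t : ℝ, t ≤ 1 → x ^ t ≤ x := by
      intro t ht
      calc x ^ t ≤ x ^ (1 : ℝ) := Real.rpow_le_rpow_of_exponent_le hx1 ht
        _ = x := Real.rpow_one x
    have hDxx : (D : ℝ) ≤ x := hDx.trans (hpow _ (by norm_num))
    have hRx : (R : ℝ) ≤ x := hR2.trans (hpow _ (by linarith))
    have hEx : (E : ℝ) ≤ x := hE2.trans (hpow _ (by norm_num))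
    have hR1' : (1 : ℝ) ≤ R := by exact_mod_cast hR1
    have hD1' : (1 : ℝ) ≤ D := by exact_mod_cast hD1
    choose σ hσ1 hσ2 hσ3 using fun i => h3 θ x Cls R E (s i) Y (y i) (fun z hz => (hY z hz).1) (hyY i)
    rw [← hD] at hF1 hF2 hF3 hOff hDia hσ3
    have hPc := (Rby_cells E x Y hY).trans (hπ x hxx₂)
    have hT1 : 0 ≤ x ^ (1 - η₀) := Real.rpow_nonneg hx0.le _
    -- the main terms
    have hcu := h1 R D E I w lam (Cls x) x (x ^ (1 - η₀)) (C₀ * (x / Real.log x)) w₀ (x ^ η) Y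
      (fun z => (Ioc E ⌊z⌋₊).filter (fun p : ℕ => p.Prime ∧ ∀ z' ∈ Y, z' < z → z' < (p : ℝ))) J
      (fun z i d => if z ≤ y i d then σ i d else 0) s
      hw₀ hT1 hw (by
        intro z hz p hp
        rw [Finset.mem_filter, Finset.mem_Ioc] at hp
        have hpx : (((p : ℕ) : ℤ) : ℝ) ≤ x := by
          rw [Int.cast_natCast]
          have e7 : (p : ℝ) ≤ (⌊z⌋₊ : ℝ) := by exact_mod_cast hp.1.2
          exact (e7.trans (Nat.floor_le (by linarith [(hY z hz).1]))).trans (hY z hz).2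
        obtain ⟨a1, a2⟩ := hI (p : ℤ) (Int.natCast_nonneg p) hpx
        exact ⟨a1, a2, Rby_nu hlam hE1 hp.2.1 hp.1.1⟩) hOff hDia (by
        intro z i d
        split_ifs
        · exact hσ1 i d
        · rw [abs_zero]; exact zero_le_one) (by
        intro z i d h
        split_ifs at h
        · exact hσ2 i d h
        · exact absurd rfl h) hF1 hF2 hF3
    have hA : ∑ i ∈ J, (∑ z ∈ Y, ∑ d ∈ Ioc R D, (if z ≤ y i d then σ i d else 0) *
        gg R ((Ioc E ⌊z⌋₊).filter (fun p : ℕ => p.Prime ∧ ∀ z' ∈ Y, z' < z → z' < (p : ℝ))) (s i d) d) ^ 2 ≤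
        C₁ * (C₀ + 1) / w₀ * Y.card * (x / Real.log x) ^ 2 := by
      refine hcu.trans ?_
      obtain ⟨Pc, hPceq⟩ : ∃ Pc : ℝ, Pc = ∑ z ∈ Y, (((Ioc E ⌊z⌋₊).filter
        (fun p : ℕ => p.Prime ∧ ∀ z' ∈ Y, z' < z → z' < (p : ℝ))).card : ℝ) := ⟨_, rfl⟩
      rw [← hPceq] at hPc ⊢
      have hPc0 : 0 ≤ Pc := by rw [hPceq]; exact Finset.sum_nonneg fun _ _ => Nat.cast_nonneg _
      have b1 : (J.card : ℝ) ≤ (Real.log x) ^ |B| :=
        hJ.trans (Real.rpow_le_rpow_of_exponent_le hlog (le_abs_self B))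
      have b2 : (J.card : ℝ) ^ 2 ≤ (Real.log x) ^ (2 * |B|) := by
        have : (Real.log x) ^ (2 * |B|) = ((Real.log x) ^ |B|) ^ 2 := by
          rw [mul_comm, Real.rpow_mul hL0.le]
          norm_cast
        rw [this]
        exact pow_le_pow_left₀ (Nat.cast_nonneg _) b1 2
      have b3 : (x ^ η) ^ 2 * x ^ (1 - η₀) ≤ x ^ (1 - η₀ / 2) := by
        have : (x ^ η) ^ 2 = x ^ (2 * η) := by
          rw [mul_comm 2 η, Real.rpow_mul hx0.le]
          norm_cast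
        rw [this, ← Real.rpow_add hx0]
        exact Real.rpow_le_rpow_of_exponent_le hx1 (by linarith)
      have b4 : (J.card : ℝ) ^ 2 * (x ^ η) ^ 2 * x ^ (1 - η₀) ≤ x / Real.log x := by
        refine le_trans ?_ e2
        calc (J.card : ℝ) ^ 2 * (x ^ η) ^ 2 * x ^ (1 - η₀) =
              (J.card : ℝ) ^ 2 * ((x ^ η) ^ 2 * x ^ (1 - η₀)) := by ring
          _ ≤ (Real.log x) ^ (2 * |B|) * x ^ (1 - η₀ / 2) := by
              apply mul_le_mul b2 b3 (by positivity) (by positivity)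
          _ = _ := by ring
      have b5 : 0 ≤ x / Real.log x := by positivity
      have b6 : 0 ≤ (Y.card : ℝ) * Pc / w₀ := by positivity
      have b7 : (Y.card : ℝ) * Pc / w₀ ≤ (Y.card : ℝ) * (C₁ * (x / Real.log x)) / w₀ :=
        div_le_div_of_nonneg_right (mul_le_mul_of_nonneg_left hPc (Nat.cast_nonneg _)) hw₀.le
      calc (Y.card : ℝ) * Pc / w₀ * (C₀ * (x / Real.log x) +
            (J.card : ℝ) ^ 2 * (x ^ η) ^ 2 * x ^ (1 - η₀)) ≤
            (Y.card : ℝ) * Pc / w₀ * (C₀ * (x / Real.log x) + x / Real.log x) := by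
              apply mul_le_mul_of_nonneg_left _ b6
              linarith
        _ ≤ (Y.card : ℝ) * (C₁ * (x / Real.log x)) / w₀ * (C₀ * (x / Real.log x) + x / Real.log x) := by
              apply mul_le_mul_of_nonneg_right b7
              positivity
        _ = _ := by ring
    -- the remaining terms
    have hYU : (Y.card : ℝ) * ((C₃ * C₄ + 2) * (x / (Real.log x) ^ U)) ≤
        (C₃ * C₄ + 2) * (x / (Real.log x) ^ V) := by
      have b1 : (Y.card : ℝ) ≤ (Real.log x) ^ |B| :=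
        hYc.trans (Real.rpow_le_rpow_of_exponent_le hlog (le_abs_self B))
      have b2 : 0 ≤ (C₃ * C₄ + 2) * (x / (Real.log x) ^ U) := by positivity
      calc (Y.card : ℝ) * ((C₃ * C₄ + 2) * (x / (Real.log x) ^ U)) ≤
            (Real.log x) ^ |B| * ((C₃ * C₄ + 2) * (x / (Real.log x) ^ U)) :=
              mul_le_mul_of_nonneg_right b1 b2
        _ = (C₃ * C₄ + 2) * (x / (Real.log x) ^ V) := by
            have c1 : (Real.log x) ^ U = (Real.log x) ^ V * (Real.log x) ^ |B| := by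
              rw [hU, Real.rpow_add hL0]
            rw [c1]
            have c2 := (Real.rpow_pos_of_pos hL0 V).ne'
            have c3 := (Real.rpow_pos_of_pos hL0 |B|).ne'
            field_simp
    have hZ : ∀ i ∈ J, RS θ Cls x (y i) (s i) ≤
        |∑ z ∈ Y, ∑ d ∈ Ioc R D, (if z ≤ y i d then σ i d else 0) *
          gg R ((Ioc E ⌊z⌋₊).filter (fun p : ℕ => p.Prime ∧ ∀ z' ∈ Y, z' < z → z' < (p : ℝ))) (s i d) d| +
          C₅ * (x / (Real.log x) ^ V) := by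
      intro i hi
      have c1 := h2 R D E (fun d => (Icc 1 (min E ⌊y i d⌋₊)).filter Nat.Prime) (s i) x (x ^ η) hR1 hD1 hx1 hEx
        (by
          intro d p hp
          rw [Finset.mem_filter, Finset.mem_Icc] at hp
          rw [Finset.mem_Icc]
          exact ⟨hp.1.1, hp.1.2.trans (min_le_left _ _)⟩) (hF1 i hi) (hF2 i hi)
      have c2 := Rby_small (x := x) (E := E) (M := x ^ η) (lD := Real.log D) (lR := Real.log R) hx hlog
        (Nat.cast_nonneg _) hE2 (by positivity)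
        (Real.rpow_le_rpow_of_exponent_le hx1 hη1) (Real.log_nonneg hD1')
        (Real.log_le_log (by linarith) hDxx) (Real.log_nonneg hR1') (Real.log_le_log (by linarith) hRx)
      have c3 : ∀ z ∈ Y, ∑ d ∈ (Icc 1 D).filter (fun d : ℕ => IsCoprime (d : ℤ) (s i d)),
          |∑ p ∈ (Icc 1 ⌊z⌋₊).filter Nat.Prime, ld R d ((p : ℤ) - s i d) - li z / (d.totient : ℝ)| ≤
          (C₃ * C₄ + 2) * (x / (Real.log x) ^ U) := by
        intro z hz
        have hz2 : 2 ≤ z := (hY z hz).1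
        have hzx : z ≤ x := (hY z hz).2
        refine Rby_lp (U := U) (r := r) hC₃0 hC₄0 hx hlog (y := z) (by linarith) hzx hR1 hR2 hRr
          (S := ∑ d ∈ (Icc 1 D).filter (fun d : ℕ => IsCoprime (d : ℤ) (s i d)),
            |∑ p ∈ (Icc 1 ⌊z⌋₊).filter Nat.Prime, ld R d ((p : ℤ) - s i d) - li z / (d.totient : ℝ)|) ?_ ?_ e5 e6
        · refine (hlp' x z R D (s i) (by linarith) hz2 hR1 hRx hDxx).trans ?_
          have d1 : 0 ≤ (Real.log x) ^ 3 := pow_nonneg hL0.le 3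
          have d2 : 0 ≤ ∑ e ∈ Icc 1 R, maxErr z e + z / (R : ℝ) := by
            have : 0 ≤ ∑ e ∈ Icc 1 R, maxErr z e :=
              Finset.sum_nonneg fun e _ => Real.sSup_nonneg (by
                rintro z ⟨l, -, -, -, rfl⟩
                exact abs_nonneg _)
            have d3 : 0 ≤ z / (R : ℝ) := div_nonneg (by linarith) (Nat.cast_nonneg _)
            linarith
          apply mul_le_mul_of_nonneg_right _ d2
          exact mul_le_mul_of_nonneg_right (by rw [hC₃]; exact le_max_left _ _) d1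
        · refine (hbv' x R (fun _ => z) hx hR1 (fun _ => ⟨hz2, hzx⟩)).trans ?_
          unfold Pool.Agent.Lib.BV.Kf
          have d0 := Asp_nonneg hx hlog hR1'
          have d1 : 0 ≤ x / (Real.log x) ^ (U + 3) := by
            have := Real.rpow_pos_of_pos hL0 (U + 3)
            positivity
          exact mul_le_mul_of_nonneg_right (by rw [hC₄]; exact le_max_left _ _) (by linarith)
      have c3' : ∑ z ∈ Y, ∑ d ∈ (Icc 1 D).filter (fun d : ℕ => IsCoprime (d : ℤ) (s i d)),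
          |∑ p ∈ (Icc 1 ⌊z⌋₊).filter Nat.Prime, ld R d ((p : ℤ) - s i d) - li z / (d.totient : ℝ)| ≤
          (C₃ * C₄ + 2) * (x / (Real.log x) ^ V) := by
        refine le_trans (Finset.sum_le_sum c3) ?_
        rw [Finset.sum_const, nsmul_eq_mul]
        exact hYU
      refine (hσ3 i).trans ?_
      have c4 := c1.trans (c2.trans e3)
      have c5 : (D : ℝ) ≤ x / (Real.log x) ^ V := hDx.trans e4
      rw [hC₅]
      have c6 : (C₃ * C₄ + 4) * (x / (Real.log x) ^ V) = (C₃ * C₄ + 2) * (x / (Real.log x) ^ V) +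
        x / (Real.log x) ^ V + x / (Real.log x) ^ V := by ring
      rw [c6]
      linarith only [c4, c5, c3']
    have hB' : (Real.log x) ^ B * (C₅ * (x / (Real.log x) ^ V)) ^ 2 ≤ (x / Real.log x) ^ 2 := by
      have b1 : (Real.log x) ^ B ≤ (Real.log x) ^ |B| :=
        Real.rpow_le_rpow_of_exponent_le hlog (le_abs_self B)
      have b2 : ((Real.log x) ^ V) ^ 2 = (Real.log x) ^ (2 * |B| + 4) := by
        rw [← Real.rpow_natCast, ← Real.rpow_mul hL0.le, hV]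
        congr 1
        push_cast
        ring
      have b3 : (Real.log x) ^ |B| * Real.log x * (Real.log x) ^ 2 ≤ (Real.log x) ^ (2 * |B| + 4) := by
        have : (Real.log x) ^ |B| * Real.log x * (Real.log x) ^ 2 = (Real.log x) ^ (|B| + 3) := by
          rw [Real.rpow_add hL0]
          norm_cast
          ring
        rw [this]
        exact Real.rpow_le_rpow_of_exponent_le hlog (by linarith)
      have b4 : 0 < (Real.log x) ^ (2 * |B| + 4) := Real.rpow_pos_of_pos hL0 _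
      have b5 : 0 ≤ (Real.log x) ^ B := Real.rpow_nonneg hL0.le _
      have b6 : (Real.log x) ^ B * C₅ ^ 2 ≤ (Real.log x) ^ |B| * Real.log x :=
        mul_le_mul b1 e0 (sq_nonneg _) (Real.rpow_nonneg hL0.le _)
      have b7 : (Real.log x) ^ B * (C₅ * (x / (Real.log x) ^ V)) ^ 2 =
          (Real.log x) ^ B * C₅ ^ 2 * x ^ 2 / (Real.log x) ^ (2 * |B| + 4) := by
        rw [← b2]
        have := (Real.rpow_pos_of_pos hL0 V).ne'
        field_simp
      rw [b7, div_pow, div_le_div_iff₀ b4 (by positivity)]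
      have b8 : (Real.log x) ^ B * C₅ ^ 2 * (Real.log x) ^ 2 ≤ (Real.log x) ^ (2 * |B| + 4) :=
        (mul_le_mul_of_nonneg_right b6 (by positivity)).trans b3
      nlinarith [mul_le_mul_of_nonneg_left b8 (sq_nonneg x)]
    have hfin := Rby_sum (J := J) (f := fun i => RS θ Cls x (y i) (s i))
      (X := fun i => ∑ z ∈ Y, ∑ d ∈ Ioc R D, (if z ≤ y i d then σ i d else 0) *
          gg R ((Ioc E ⌊z⌋₊).filter (fun p : ℕ => p.Prime ∧ ∀ z' ∈ Y, z' < z → z' < (p : ℝ))) (s i d) d)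
      (fun i _ => by
        unfold RS
        exact Finset.sum_nonneg fun _ _ => abs_nonneg _) hZ hA hJ hB'
    refine hfin.trans ?_
    have g1 : (x / Real.log x) ^ 2 ≤ (Y.card : ℝ) * (x / Real.log x) ^ 2 :=
      le_mul_of_one_le_left (sq_nonneg _) hY1'
    calc 2 * (C₁ * (C₀ + 1) / w₀ * Y.card * (x / Real.log x) ^ 2) + 2 * (x / Real.log x) ^ 2 ≤
        2 * (C₁ * (C₀ + 1) / w₀ * Y.card * (x / Real.log x) ^ 2) + 2 * ((Y.card : ℝ) * (x / Real.log x) ^ 2) := by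
          linarith only [g1]
      _ = _ := by ring
  obtain ⟨x₀, hx₀⟩ := Filter.eventually_atTop.1 hev
  exact ⟨x₀, fun x hx => hx₀ x hx⟩

end Pool.Agent.Lib.TP
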