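import Pool.Agent.Lib.TP.SpecR

/-!
MP_00e23e_nt, directory Lib/TP, module Rcu: the Bessel inequality for several sets of primes.
-/

namespace Pool.Agent.Lib.TP

open Finset Pool.Agent.Lib.EH3 Pool.Agent.Lib.TB Pool.Agent.Results.MP_00e23e_nt

/-- Cauchy-Schwarz with the weights `√n_z`. -/
private lemma Rcu_cs (Y : Finset ℝ) (n a : ℝ → ℝ) (hn : ∀ z ∈ Y, 0 ≤ n z) (h0 : ∀ z ∈ Y, n z = 0 → a z = 0) :
    (∑ z ∈ Y, a z) ^ 2 ≤ (∑ z ∈ Y, Real.sqrt (n z)) *
      ∑ z ∈ Y, (if n z = 0 then 0 else a z ^ 2 / Real.sqrt (n z)) := by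
  apply Finset.sum_sq_le_sum_mul_sum_of_sq_eq_mul
  · intro z _
    exact Real.sqrt_nonneg _
  · intro z _
    split_ifs
    · exact le_refl _
    · positivity
  · intro z hz
    by_cases h : n z = 0
    · rw [if_pos h, h0 z hz h]
      simp
    · rw [if_neg h]
      have h1 : 0 < n z := lt_of_le_of_ne (hn z hz) (Ne.symm h)
      have h2 : Real.sqrt (n z) ≠ 0 := (Real.sqrt_pos.2 h1).ne'
      field_simp

/-- **Module Rcu.** -/
theorem tRcu (h : PcuStmt) : RcuStmt := by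
  intro R D E I w lam Cl X T1 T2 w0 M Y P J σ s hw0 hT1 hw hP hoff hdia hσ1 hσC hsX hsM hne
  classical
  have hT2 : 0 ≤ T2 := by
    have h1 := hdia (fun _ _ => 0) ∅ 1 (fun _ _ h => absurd rfl h) (by intro d; simp) (by simp)
    simpa using h1
  obtain ⟨T, hT⟩ : ∃ T, T = T2 + (J.card : ℝ) ^ 2 * M ^ 2 * T1 := ⟨_, rfl⟩
  rw [← hT]
  have hT0 : 0 ≤ T := by rw [hT]; positivity
  obtain ⟨x, hx⟩ : ∃ x : ℝ → ℕ → ℝ, x = fun z i => ∑ d ∈ Ioc R D, σ z i d * gg R (P z) (s i d) d := ⟨_, rfl⟩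
  obtain ⟨n, hn⟩ : ∃ n : ℝ → ℝ, n = fun z => ((P z).card : ℝ) := ⟨_, rfl⟩
  have hn0 : ∀ z ∈ Y, 0 ≤ n z := by
    intro z _
    rw [hn]
    exact Nat.cast_nonneg _
  have hb : ∀ z ∈ Y, ∑ i ∈ J, x z i ^ 2 ≤ n z / w0 * T := by
    intro z hz
    rw [hx, hn, hT]
    exact h R D E I w lam Cl X T1 T2 w0 M (P z) J (σ z) s hw0 hT1 hw (hP z hz) hoff hdia (hσ1 z) (hσC z)
      hsX hsM hne
  have hz0 : ∀ z ∈ Y, ∀ i, n z = 0 → x z i = 0 := by
    intro z _ i h0
    rw [hn] at h0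
    have h1 : P z = ∅ := by
      have h0' : ((P z).card : ℝ) = 0 := h0
      have h2 : (P z).card = 0 := by exact_mod_cast h0'
      exact Finset.card_eq_zero.1 h2
    rw [hx]
    simp only [h1]
    apply Finset.sum_eq_zero
    intro d _
    unfold gg
    simp
  have e1 : ∑ i ∈ J, (∑ z ∈ Y, x z i) ^ 2 ≤
      (∑ z ∈ Y, Real.sqrt (n z)) * ((∑ z ∈ Y, Real.sqrt (n z)) * (T / w0)) := by
    calc ∑ i ∈ J, (∑ z ∈ Y, x z i) ^ 2
        ≤ ∑ i ∈ J, (∑ z ∈ Y, Real.sqrt (n z)) *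
            ∑ z ∈ Y, (if n z = 0 then 0 else x z i ^ 2 / Real.sqrt (n z)) := by
          apply Finset.sum_le_sum
          intro i _
          exact Rcu_cs Y n (fun z => x z i) hn0 (fun z hz h0 => hz0 z hz i h0)
      _ = (∑ z ∈ Y, Real.sqrt (n z)) *
            ∑ z ∈ Y, ∑ i ∈ J, (if n z = 0 then 0 else x z i ^ 2 / Real.sqrt (n z)) := by
          rw [← Finset.mul_sum, Finset.sum_comm]
      _ ≤ (∑ z ∈ Y, Real.sqrt (n z)) * ∑ z ∈ Y, Real.sqrt (n z) * (T / w0) := by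
          apply mul_le_mul_of_nonneg_left
          · apply Finset.sum_le_sum
            intro z hz
            by_cases h0 : n z = 0
            · simp only [if_pos h0, Finset.sum_const_zero]
              have : 0 ≤ T / w0 := div_nonneg hT0 hw0.le
              positivity
            · simp only [if_neg h0]
              rw [← Finset.sum_div]
              have h1 : 0 < n z := lt_of_le_of_ne (hn0 z hz) (Ne.symm h0)
              have h2 : 0 < Real.sqrt (n z) := Real.sqrt_pos.2 h1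
              rw [div_le_iff₀ h2]
              have h3 : Real.sqrt (n z) * (T / w0) * Real.sqrt (n z) = n z / w0 * T := by
                have h4 := Real.mul_self_sqrt (hn0 z hz)
                calc Real.sqrt (n z) * (T / w0) * Real.sqrt (n z)
                    = (Real.sqrt (n z) * Real.sqrt (n z)) * (T / w0) := by ring
                  _ = n z * (T / w0) := by rw [h4]
                  _ = n z / w0 * T := by ring
              rw [h3]
              exact hb z hz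
          · exact Finset.sum_nonneg fun z _ => Real.sqrt_nonneg _
      _ = _ := by rw [← Finset.sum_mul]
  have e2 : (∑ z ∈ Y, Real.sqrt (n z)) * (∑ z ∈ Y, Real.sqrt (n z)) ≤ (Y.card : ℝ) * ∑ z ∈ Y, n z := by
    have h1 := Finset.sum_mul_sq_le_sq_mul_sq Y (fun _ => (1 : ℝ)) (fun z => Real.sqrt (n z))
    simp only [one_mul, one_pow, Finset.sum_const, nsmul_eq_mul, mul_one] at h1
    have h2 : ∑ z ∈ Y, Real.sqrt (n z) ^ 2 = ∑ z ∈ Y, n z :=
      Finset.sum_congr rfl fun z hz => Real.sq_sqrt (hn0 z hz)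
    rw [h2] at h1
    nlinarith
  have e3 : (∑ z ∈ Y, Real.sqrt (n z)) * ((∑ z ∈ Y, Real.sqrt (n z)) * (T / w0)) ≤
      (Y.card : ℝ) * (∑ z ∈ Y, n z) / w0 * T := by
    have h1 : 0 ≤ T / w0 := div_nonneg hT0 hw0.le
    have h2 := mul_le_mul_of_nonneg_right e2 h1
    calc (∑ z ∈ Y, Real.sqrt (n z)) * ((∑ z ∈ Y, Real.sqrt (n z)) * (T / w0))
        = (∑ z ∈ Y, Real.sqrt (n z)) * (∑ z ∈ Y, Real.sqrt (n z)) * (T / w0) := by ring
      _ ≤ (Y.card : ℝ) * (∑ z ∈ Y, n z) * (T / w0) := h2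
      _ = _ := by ring
  have e4 := e1.trans e3
  rw [hx, hn] at e4
  exact e4

end Pool.Agent.Lib.TP
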