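import Pool.Agent.Lib.TP.SpecR

/-!
MP_00e23e_nt, directory Lib/TP, module Rfi: theorem R.
-/

namespace Pool.Agent.Lib.TP

open Finset Pool.Agent.Lib.EH3 Pool.Agent.Lib.TB Pool.Agent.Results.MP_00e23e_nt

private theorem Rfi_rgh (ρ x : ℝ) (d : ℕ) (h : Rx ρ x d) : Rgh ⌊x ^ ρ⌋₊ d := by
  intro p hp hd
  exact (Nat.floor_lt' hp.ne_zero).2 (h p hp hd)

/-- the class is empty if the interval of the convenient divisors is empty -/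
private theorem Rfi_empty (δ ε ρ x : ℝ) (d : ℕ) (hx : 1 < x)
    (hlt : 1 / 2 - 7 * δ - ε < 2 * δ + ε) : ¬ Cq δ ε ρ x d := by
  rintro ⟨_, _, s, _, h1, h2⟩
  have h3 : x ^ ((1 : ℝ) / 2 - 7 * δ - ε) < x ^ (2 * δ + ε) := Real.rpow_lt_rpow_of_exponent_lt hx hlt
  linarith

open Classical in
private theorem Rfi_RS (θ : ℝ) (Cls : ℝ → ℕ → Prop) (x : ℝ) (y : ℕ → ℝ) (s : ℕ → ℤ)
    (h : ∀ d, ¬ Cls x d) : RS θ Cls x y s = 0 := by
  unfold RS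
  refine Finset.sum_eq_zero fun d hd => ?_
  exact absurd (Finset.mem_filter.1 hd).2.2 (h d)

private theorem Rfi_gry (θ : ℝ) (Cls : ℝ → ℕ → Prop) (h : ∀ x : ℝ, 1 < x → ∀ d, ¬ Cls x d) :
    GryStmt θ Cls := by
  refine ⟨1, 1, one_pos, one_pos, fun B => ⟨2, fun x hx J s Y y _ _ _ _ => ?_⟩⟩
  have h1 : ∑ i ∈ J, RS θ Cls x (y i) (s i) ^ 2 = 0 := by
    refine Finset.sum_eq_zero fun i _ => ?_
    rw [Rfi_RS θ Cls x _ (s i) (h x (by linarith))]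
    norm_num
  rw [h1]
  have h2 : 0 ≤ min (Y.card : ℝ) ((J.card : ℝ) ^ ((1 : ℝ) / 3)) :=
    le_min (Nat.cast_nonneg _) (Real.rpow_nonneg (Nat.cast_nonneg _) _)
  positivity

theorem tRfi (h1 : PinStmt) (h2 : QinStmt) (h3 : RbyStmt) (h4 : RgrStmt) (h5 : RloStmt)
    (h6 : RunStmt) : RStmt := by
  intro δ ε ρ hδ1 hδ2 hε hρ
  have ha : GryStmt (501 / 1000) (Rx ρ) :=
    h4 (501 / 1000) ρ 0 (Rx ρ) (by norm_num) (by norm_num) hρ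
      (fun x _ d hd => Rfi_rgh ρ x d hd)
      (h3 (501 / 1000) (Rx ρ) (by norm_num) (by norm_num) (h1 ρ hρ))
  have hb : GryStmt (1 / 2 + δ) (Cq δ ε ρ) := by
    by_cases hle : 2 * δ + ε ≤ 1 / 2 - 7 * δ - ε
    · obtain ⟨κ, hκ, hin⟩ := h2 δ ε ρ (by linarith) hε hle hρ
      have b : BykStmt (1 / 2 + δ) (Clow κ (Cq δ ε ρ)) :=
        h3 (1 / 2 + δ) _ (by linarith) (by linarith) hin
      exact h5 (1 / 2 + δ) κ (Cq δ ε ρ) hκ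
        (h4 (1 / 2 + δ) ρ 0 _ (by linarith) (by linarith) hρ
          (fun x _ d hd => Rfi_rgh ρ x d hd.2.1) b)
    · push Not at hle
      exact Rfi_gry _ _ fun x hx d => Rfi_empty δ ε ρ x d hx hle
  exact h6 (501 / 1000) (1 / 2 + δ) (Rx ρ) (Cq δ ε ρ) (Cu δ ε ρ) (by norm_num) (by linarith) (by
    rintro x _ d ⟨h8, h9⟩
    rcases h9 with h9 | h9
    · exact Or.inl ⟨h8, h9⟩
    · exact Or.inr ⟨h8, h9⟩) ha hb

end Pool.Agent.Lib.TP
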