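import Pool.Agent.Lib.TP.SpecR
import Pool.Agent.Lib.TB.FinK

/-!
TP module Rpt: one family member, points in a finite set.
-/

namespace Pool.Agent.Lib.TP

open Finset Pool.Agent.Lib.EH3 Pool.Agent.Lib.TB Pool.Agent.Results.MP_00e23e_nt

/-- The pointwise bound of the error. -/
private theorem Rpt_one (R E d : ℕ) (hd : 0 < d) (y : ℝ) (a : ℤ) :
    |resErr y d a| ≤ |gg R ((Ioc E ⌊y⌋₊).filter Nat.Prime) a d| +
      |gg R ((Icc 1 (min E ⌊y⌋₊)).filter Nat.Prime) a d| + 1 +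
      |∑ p ∈ (Icc 1 ⌊y⌋₊).filter Nat.Prime, ld R d ((p : ℤ) - a) - li y / (d.totient : ℝ)| := by
  have h1 := Asm_one R d hd y a
  have h2 : resErr y d a = (pcz y d a : ℝ) - li y / (d.totient : ℝ) := by
    rw [FinK_pcz]
    rfl
  have h3 : gg R ((Icc 1 ⌊y⌋₊).filter Nat.Prime) a d = gg R ((Ioc E ⌊y⌋₊).filter Nat.Prime) a d +
      gg R ((Icc 1 (min E ⌊y⌋₊)).filter Nat.Prime) a d := by
    unfold gg
    rw [← Finset.sum_union]
    · rw [← Finset.filter_union]
      congr 2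
      ext p
      simp only [Finset.mem_union, Finset.mem_Icc, Finset.mem_Ioc, le_min_iff]
      omega
    · apply Finset.disjoint_filter_filter
      rw [Finset.disjoint_left]
      intro p hp hq
      simp only [Finset.mem_Icc, Finset.mem_Ioc, le_min_iff] at hp hq
      omega
  rw [h2]
  refine h1.trans ?_
  have h4 := abs_add_le (gg R ((Ioc E ⌊y⌋₊).filter Nat.Prime) a d)
    (gg R ((Icc 1 (min E ⌊y⌋₊)).filter Nat.Prime) a d)
  rw [← h3] at h4
  linarith

/-- gg vanishes for moduli at most R. -/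
private theorem Rpt_zero (R d : ℕ) (hd : 0 < d) (hR : d ≤ R) (P : Finset ℕ) (a : ℤ) : gg R P a d = 0 := by
  unfold gg
  apply Finset.sum_eq_zero
  intro p _
  rw [Hf_dd_zero hd hR]
  split_ifs <;> rfl

/-- the primes in (E, y] are the disjoint union of the cells -/
private theorem Rpt_cells (R E : ℕ) (Y : Finset ℝ) (hY : ∀ z ∈ Y, 2 ≤ z) (y : ℝ) (hy : y ∈ Y) (a : ℤ) (d : ℕ) :
    gg R ((Ioc E ⌊y⌋₊).filter Nat.Prime) a d = ∑ z ∈ Y, if z ≤ y then
      gg R ((Ioc E ⌊z⌋₊).filter (fun p : ℕ => p.Prime ∧ ∀ z' ∈ Y, z' < z → z' < (p : ℝ))) a d else 0 := by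
  classical
  have hU : (Ioc E ⌊y⌋₊).filter Nat.Prime = (Y.filter (fun z => z ≤ y)).biUnion
      (fun z => (Ioc E ⌊z⌋₊).filter (fun p : ℕ => p.Prime ∧ ∀ z' ∈ Y, z' < z → z' < (p : ℝ))) := by
    ext p
    rw [Finset.mem_biUnion, Finset.mem_filter, Finset.mem_Ioc]
    constructor
    · rintro ⟨⟨h1, h2⟩, h3⟩
      have h4 : (p : ℝ) ≤ y := (Nat.le_floor_iff (by linarith [hY y hy])).1 h2
      obtain ⟨z, hz, hmin⟩ := Finset.exists_min_image (Y.filter (fun z => (p : ℝ) ≤ z)) id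
        ⟨y, Finset.mem_filter.2 ⟨hy, h4⟩⟩
      rw [Finset.mem_filter] at hz
      refine ⟨z, Finset.mem_filter.2 ⟨hz.1, hmin y (Finset.mem_filter.2 ⟨hy, h4⟩)⟩, ?_⟩
      rw [Finset.mem_filter, Finset.mem_Ioc]
      refine ⟨⟨h1, Nat.le_floor hz.2⟩, h3, ?_⟩
      intro z' hz' hlt
      by_contra hc
      push Not at hc
      have := hmin z' (Finset.mem_filter.2 ⟨hz', hc⟩)
      simp only [id] at this
      linarith
    · rintro ⟨z, hz, hp⟩
      rw [Finset.mem_filter] at hz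
      rw [Finset.mem_filter, Finset.mem_Ioc] at hp
      exact ⟨⟨hp.1.1, hp.1.2.trans (Nat.floor_le_floor hz.2)⟩, hp.2.1⟩
  rw [← Finset.sum_filter, hU]
  unfold gg
  rw [Finset.sum_biUnion]
  intro z hz z' hz' hne
  rw [Finset.mem_coe, Finset.mem_filter] at hz hz'
  have key : ∀ u ∈ Y, ∀ v ∈ Y, u < v → Disjoint
      ((Ioc E ⌊u⌋₊).filter (fun p : ℕ => p.Prime ∧ ∀ z' ∈ Y, z' < u → z' < (p : ℝ)))
      ((Ioc E ⌊v⌋₊).filter (fun p : ℕ => p.Prime ∧ ∀ z' ∈ Y, z' < v → z' < (p : ℝ))) := by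
    intro u hu v hv huv
    rw [Finset.disjoint_left]
    intro p hp hq
    rw [Finset.mem_filter, Finset.mem_Ioc] at hp hq
    have h1 : (p : ℝ) ≤ u := (Nat.le_floor_iff (by linarith [hY u hu])).1 hp.1.2
    have h2 := hq.2.2 u hu huv
    linarith
  rcases lt_or_gt_of_ne hne with h | h
  · exact key z hz.1 z' hz'.1 h
  · exact (key z' hz'.1 z hz.1 h).symm

theorem tRpt : RptStmt := by
  classical
  intro θ x Cls R E s Y y hY hyY
  obtain ⟨D, hD⟩ : ∃ D, ⌊x ^ θ⌋₊ = D := ⟨_, rfl⟩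
  obtain ⟨P1, hP1⟩ : ∃ P1 : ℕ → Finset ℕ, P1 = fun d => (Ioc E ⌊y d⌋₊).filter Nat.Prime := ⟨_, rfl⟩
  obtain ⟨P0, hP0⟩ : ∃ P0 : ℕ → Finset ℕ, P0 = fun d => (Icc 1 (min E ⌊y d⌋₊)).filter Nat.Prime := ⟨_, rfl⟩
  have hP1d : ∀ d, (Ioc E ⌊y d⌋₊).filter Nat.Prime = P1 d := fun d => by rw [hP1]
  have hP0d : ∀ d, (Icc 1 (min E ⌊y d⌋₊)).filter Nat.Prime = P0 d := fun d => by rw [hP0]
  refine ⟨fun d => if Int.gcd (s d) d = 1 ∧ Cls x d then (SignType.sign (gg R (P1 d) (s d) d) : ℝ) else 0,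
    ?_, ?_, ?_⟩
  · intro d
    dsimp only
    split_ifs
    · rcases lt_trichotomy (gg R (P1 d) (s d) d) 0 with h | h | h
      · rw [sign_neg h]; norm_num
      · rw [h, sign_zero]; norm_num
      · rw [sign_pos h]; norm_num
    · norm_num
  · intro d hd
    dsimp only at hd
    split_ifs at hd with h
    · exact h.2
    · exact absurd rfl hd
  · unfold RS
    rw [hD]
    obtain ⟨F, hF⟩ : ∃ F, (Icc 1 D).filter (fun d : ℕ => Int.gcd (s d) d = 1 ∧ Cls x d) = F := ⟨_, rfl⟩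
    have hFi : F = (Icc 1 D).filter (fun d : ℕ => Int.gcd (s d) d = 1 ∧ Cls x d) := hF.symm
    have hmem : ∀ d, d ∈ F ↔ (1 ≤ d ∧ d ≤ D) ∧ (Int.gcd (s d) d = 1 ∧ Cls x d) := by
      intro d
      rw [hFi, Finset.mem_filter, Finset.mem_Icc]
    have hsum : ∑ d ∈ F, |resErr (y d) d (s d)| ≤ ∑ d ∈ F, (|gg R (P1 d) (s d) d| + |gg R (P0 d) (s d) d| + 1 +
        |∑ p ∈ (Icc 1 ⌊y d⌋₊).filter Nat.Prime, ld R d ((p : ℤ) - s d) - li (y d) / (d.totient : ℝ)|) := by
      apply Finset.sum_le_sum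
      intro d hd
      have h := Rpt_one R E d ((hmem d).1 hd).1.1 (y d) (s d)
      rw [hP1d, hP0d] at h
      exact h
    rw [Finset.sum_add_distrib, Finset.sum_add_distrib, Finset.sum_add_distrib] at hsum
    -- the main part
    have hA : ∑ d ∈ F, |gg R (P1 d) (s d) d| ≤ |∑ z ∈ Y, ∑ d ∈ Ioc R D, (if z ≤ y d then
        (if Int.gcd (s d) d = 1 ∧ Cls x d then (SignType.sign (gg R (P1 d) (s d) d) : ℝ) else 0) else 0) *
          gg R ((Ioc E ⌊z⌋₊).filter (fun p : ℕ => p.Prime ∧ ∀ z' ∈ Y, z' < z → z' < (p : ℝ))) (s d) d| := by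
      have e0 : ∑ z ∈ Y, ∑ d ∈ Ioc R D, (if z ≤ y d then
        (if Int.gcd (s d) d = 1 ∧ Cls x d then (SignType.sign (gg R (P1 d) (s d) d) : ℝ) else 0) else 0) *
          gg R ((Ioc E ⌊z⌋₊).filter (fun p : ℕ => p.Prime ∧ ∀ z' ∈ Y, z' < z → z' < (p : ℝ))) (s d) d =
          ∑ d ∈ Ioc R D,
        (if Int.gcd (s d) d = 1 ∧ Cls x d then (SignType.sign (gg R (P1 d) (s d) d) : ℝ) else 0) *
          gg R (P1 d) (s d) d := by
        rw [Finset.sum_comm]
        refine Finset.sum_congr rfl fun d _ => ?_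
        have hcell := Rpt_cells R E Y hY (y d) (hyY d) (s d) d
        rw [hP1d d] at hcell
        generalize (if Int.gcd (s d) d = 1 ∧ Cls x d then
          (SignType.sign (gg R (P1 d) (s d) d) : ℝ) else 0) = t
        rw [hcell, Finset.mul_sum]
        refine Finset.sum_congr rfl fun z _ => ?_
        by_cases hz : z ≤ y d
        · rw [if_pos hz, if_pos hz]
        · rw [if_neg hz, if_neg hz]
          ring
      have e1 : ∑ d ∈ Ioc R D,
        (if Int.gcd (s d) d = 1 ∧ Cls x d then (SignType.sign (gg R (P1 d) (s d) d) : ℝ) else 0) *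
          gg R (P1 d) (s d) d = ∑ d ∈ F, |gg R (P1 d) (s d) d| := by
        have e2 : ∀ d, (if Int.gcd (s d) d = 1 ∧ Cls x d then (SignType.sign (gg R (P1 d) (s d) d) : ℝ) else 0) *
          gg R (P1 d) (s d) d = if Int.gcd (s d) d = 1 ∧ Cls x d then |gg R (P1 d) (s d) d| else 0 := by
          intro d
          split_ifs
          · exact sign_mul_self _
          · ring
        rw [Finset.sum_congr rfl (fun d _ => e2 d), ← Finset.sum_filter]
        apply Finset.sum_subset_zero_on_sdiff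
        · intro d hd
          rw [Finset.mem_filter, Finset.mem_Ioc] at hd
          exact (hmem d).2 ⟨⟨by omega, hd.1.2⟩, hd.2⟩
        · intro d hd
          rw [Finset.mem_sdiff, hmem d, Finset.mem_filter, Finset.mem_Ioc] at hd
          have h3 : d ≤ R := by
            by_contra hc
            exact hd.2 ⟨⟨by omega, hd.1.1.2⟩, hd.1.2⟩
          rw [Rpt_zero R d hd.1.1.1 h3, abs_zero]
        · intro d _
          rfl
      rw [e0, e1]
      exact le_abs_self _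
    have hB : ∑ d ∈ F, |gg R (P0 d) (s d) d| ≤ ∑ d ∈ Ioc R D, |gg R (P0 d) (s d) d| := by
      have e1 : ∑ d ∈ F, |gg R (P0 d) (s d) d| = ∑ d ∈ F.filter (fun d => R < d), |gg R (P0 d) (s d) d| := by
        symm
        apply Finset.sum_subset (Finset.filter_subset _ _)
        intro d hd hn
        have h3 : d ≤ R := by
          by_contra hc
          exact hn (Finset.mem_filter.2 ⟨hd, by omega⟩)
        rw [Rpt_zero R d ((hmem d).1 hd).1.1 h3, abs_zero]
      rw [e1]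
      apply Finset.sum_le_sum_of_subset_of_nonneg
      · intro d hd
        rw [Finset.mem_filter, hmem] at hd
        rw [Finset.mem_Ioc]
        exact ⟨hd.2, hd.1.1.2⟩
      · intro d _ _
        exact abs_nonneg _
    have hC : ∑ d ∈ F, (1 : ℝ) ≤ (D : ℝ) := by
      rw [Finset.sum_const, nsmul_eq_mul, mul_one]
      have h2 : F.card ≤ D := by
        rw [hFi]
        refine (Finset.card_filter_le _ _).trans ?_
        rw [Nat.card_Icc]
        omega
      exact_mod_cast h2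
    have hDD : ∑ d ∈ F,
        |∑ p ∈ (Icc 1 ⌊y d⌋₊).filter Nat.Prime, ld R d ((p : ℤ) - s d) - li (y d) / (d.totient : ℝ)| ≤
        ∑ z ∈ Y, ∑ d ∈ (Icc 1 D).filter (fun d : ℕ => IsCoprime (d : ℤ) (s d)),
        |∑ p ∈ (Icc 1 ⌊z⌋₊).filter Nat.Prime, ld R d ((p : ℤ) - s d) - li z / (d.totient : ℝ)| := by
      rw [Finset.sum_comm]
      refine le_trans (Finset.sum_le_sum fun d _ => Finset.single_le_sum
        (f := fun z => |∑ p ∈ (Icc 1 ⌊z⌋₊).filter Nat.Prime, ld R d ((p : ℤ) - s d) - li z / (d.totient : ℝ)|)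
        (fun z _ => abs_nonneg _) (hyY d)) ?_
      apply Finset.sum_le_sum_of_subset_of_nonneg
      · intro d hd
        rw [hmem] at hd
        rw [Finset.mem_filter, Finset.mem_Icc]
        exact ⟨hd.1, (Int.isCoprime_iff_gcd_eq_one.2 hd.2.1).symm⟩
      · intro d _ _
        exact Finset.sum_nonneg fun z _ => abs_nonneg _
    dsimp only
    have hP0' : ∑ d ∈ Ioc R D, |gg R (P0 d) (s d) d| =
        ∑ d ∈ Ioc R D, |gg R ((Icc 1 (min E ⌊y d⌋₊)).filter Nat.Prime) (s d) d| :=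
      Finset.sum_congr rfl fun d _ => by rw [hP0d]
    rw [hP0'] at hB
    refine le_trans (le_of_eq ?_) (hsum.trans ?_)
    · apply Finset.sum_congr
      · ext d
        rw [hmem, Finset.mem_filter, Finset.mem_Icc]
      · intro d _
        rfl
    · linarith

end Pool.Agent.Lib.TP
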