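import Pool.Agent.Lib.TP.SpecR
import Pool.Agent.Lib.TB.GrdS

/-!
# TP, module Rro (helper40; after TP/Pgr.lean): rounding of the points
-/

namespace Pool.Agent.Lib.TP

open Finset Pool.Agent.Lib.EH3 Pool.Agent.Lib.TB Pool.Agent.Results.MP_00e23e_nt

private lemma Rro_li1 {u v z : ℝ} (hz : 2 ≤ z) (hzu : z ≤ u) (huv : u ≤ v) :
    li v - li u ≤ (v - u) / Real.log z := by
  have hu : 2 ≤ u := hz.trans hzu
  have hlz : 0 < Real.log z := Real.log_pos (by linarith)
  have hint : ∀ a b : ℝ, 2 ≤ a → 2 ≤ b →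
      IntervalIntegrable (fun t => (Real.log t)⁻¹) MeasureTheory.volume a b := by
    intro a b ha hb
    apply ContinuousOn.intervalIntegrable
    intro t ht
    have ht2 : 2 ≤ t := by
      rcases Set.mem_uIcc.1 ht with h | h
      · linarith [h.1]
      · linarith [h.1]
    apply ContinuousAt.continuousWithinAt
    apply ContinuousAt.inv₀
    · exact Real.continuousAt_log (by linarith)
    · exact (Real.log_pos (by linarith)).ne'
  have h1 : li v - li u = ∫ t in u..v, (Real.log t)⁻¹ := by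
    unfold li
    rw [sub_eq_iff_eq_add, add_comm]
    exact (intervalIntegral.integral_add_adjacent_intervals (hint 2 u le_rfl hu)
      (hint u v hu (hu.trans huv))).symm
  rw [h1]
  have h := intervalIntegral.norm_integral_le_of_norm_le_const (a := u) (b := v)
    (f := fun t => (Real.log t)⁻¹) (C := (Real.log z)⁻¹) (by
      intro t ht
      rw [Set.uIoc_of_le huv] at ht
      have h1 : Real.log z ≤ Real.log t := Real.log_le_log (by linarith) (by linarith [ht.1])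
      rw [Real.norm_eq_abs, abs_of_nonneg (inv_nonneg.mpr (by linarith))]
      exact inv_anti₀ hlz h1)
  rw [abs_of_nonneg (by linarith)] at h
  refine le_trans (le_abs_self _) (h.trans (le_of_eq ?_))
  rw [div_eq_mul_inv, mul_comm]

private lemma Rro_li {u v z : ℝ} (hu : 2 ≤ u) (huv : u ≤ v) (hz : 2 ≤ z) :
    li v - li u ≤ 2 * z + (v - u) / Real.log z := by
  have hlz : 0 < Real.log z := Real.log_pos (by linarith)
  have h0 : 0 ≤ (v - u) / Real.log z := div_nonneg (by linarith) hlz.le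
  rcases le_or_gt v z with h1 | h1
  · have := (GrdS_li hu huv).2
    linarith
  rcases le_or_gt z u with h2 | h2
  · have := Rro_li1 hz h2 huv
    linarith
  · have h3 := Rro_li1 hz le_rfl h1.le
    have h4 := (GrdS_li hu h2.le).2
    have h5 : (v - z) / Real.log z ≤ (v - u) / Real.log z :=
      div_le_div_of_nonneg_right (by linarith) hlz.le
    linarith

private lemma Rro_mono {u v : ℝ} (huv : u ≤ v) (d : ℕ) (a : ℤ) : resCount u d a ≤ resCount v d a := by
  unfold resCount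
  exact Finset.card_le_card (Finset.filter_subset_filter _
    (Finset.Icc_subset_Icc le_rfl (Nat.floor_le_floor huv)))

private lemma Rro_count {u v : ℝ} (Y d : ℕ) (a : ℤ) (hv : ⌊v⌋₊ ≤ ⌊u⌋₊ + Y) :
    (resCount v d a : ℝ) ≤ (resCount u d a : ℝ) +
      ((((Ioc ⌊u⌋₊ (⌊u⌋₊ + Y)).filter (fun p : ℕ => p.Prime ∧ (d : ℤ) ∣ (p : ℤ) - a)).card : ℕ) : ℝ) := by
  unfold resCount
  have h1 : (Icc 1 ⌊v⌋₊).filter (fun p : ℕ => p.Prime ∧ (d : ℤ) ∣ (p : ℤ) - a) ⊆
      (Icc 1 ⌊u⌋₊).filter (fun p : ℕ => p.Prime ∧ (d : ℤ) ∣ (p : ℤ) - a) ∪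
      (Ioc ⌊u⌋₊ (⌊u⌋₊ + Y)).filter (fun p : ℕ => p.Prime ∧ (d : ℤ) ∣ (p : ℤ) - a) := by
    intro p hp
    rw [Finset.mem_filter, Finset.mem_Icc] at hp
    rw [Finset.mem_union, Finset.mem_filter, Finset.mem_filter, Finset.mem_Icc, Finset.mem_Ioc]
    rcases le_or_gt p ⌊u⌋₊ with h | h
    · exact Or.inl ⟨⟨hp.1.1, h⟩, hp.2⟩
    · exact Or.inr ⟨⟨h, hp.1.2.trans hv⟩, hp.2⟩
  have h2 := (Finset.card_le_card h1).trans (Finset.card_union_le _ _)
  exact_mod_cast h2

/-- one modulus -/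
private lemma Rro_one (hB : PbtStmt) {x h y L κ : ℝ} {E d : ℕ} {a : ℤ} (hκ : 0 < κ) (hx : 16 ≤ x) (hL : L = Real.log x)
    (hL1 : 1 ≤ L) (hh : 2 ≤ h) (hy2 : 2 ≤ y) (hd : 1 ≤ d) (hE : 2 ≤ E)
    (hR : Rgh E d) (hEL : κ / 2 * L ≤ Real.log E)
    (c1 : (d : ℝ) ^ 2 * (E : ℝ) ^ 4 * L ≤ h ^ 2) (c2 : (E : ℝ) * (d * L) ≤ h)
    (c3 : Real.sqrt x * L ≤ h) :
    |resErr y d a| ≤ |resErr (h * (⌈y / h⌉₊ : ℝ)) d a| + (16 / κ + 8) * (h / L) * (1 / (d.totient : ℝ)) := by
  have hh0 : 0 < h := by linarith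
  have hL0 : 0 < L := by linarith
  have hd0 : (0 : ℝ) < d := by exact_mod_cast hd
  have hφ : (0 : ℝ) < (d.totient : ℝ) := by exact_mod_cast Nat.totient_pos.2 hd
  have hφd : (d.totient : ℝ) ≤ d := by exact_mod_cast Nat.totient_le d
  obtain ⟨m, hm⟩ : ∃ m, m = ⌈y / h⌉₊ := ⟨_, rfl⟩
  rw [← hm]
  have hm1 : y ≤ h * m := by
    have := Nat.le_ceil (y / h)
    rw [← hm, div_le_iff₀ hh0] at this
    linarith
  have hm2 : h * m < y + h := by
    have := Nat.ceil_lt_add_one (show 0 ≤ y / h by positivity)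
    rw [← hm] at this
    calc h * m < h * (y / h + 1) := mul_lt_mul_of_pos_left this hh0
      _ = y + h := by field_simp
  -- the primes in the interval
  obtain ⟨Y, hY⟩ : ∃ Y : ℕ, Y = ⌈h⌉₊ + 1 := ⟨_, rfl⟩
  have hY1 : 1 ≤ Y := by omega
  have hYh : h ≤ Y := by
    have := Nat.le_ceil h
    rw [hY]
    push_cast
    linarith
  have hY2 : (Y : ℝ) ≤ 2 * h := by
    have := (Nat.ceil_lt_add_one hh0.le).le
    rw [hY]
    push_cast
    linarith
  have hfl : ⌊h * m⌋₊ ≤ ⌊y⌋₊ + Y := by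
    have h1 : h * m < ((⌊y⌋₊ + Y + 1 : ℕ) : ℝ) := by
      have h2 := Nat.lt_floor_add_one y
      have h3 := Nat.le_ceil h
      rw [hY]
      push_cast
      linarith
    have h2 := (Nat.floor_lt (by positivity)).2 h1
    omega
  have hcnt := Rro_count (u := y) (v := h * m) Y d a hfl
  have hmono : (resCount y d a : ℝ) ≤ resCount (h * m) d a := by exact_mod_cast Rro_mono hm1 d a
  have hbt := hB E d ⌊y⌋₊ Y a hE hd hR hY1
  have hlogE : 0 < Real.log E := lt_of_lt_of_le (by positivity) hEL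
  have hY0 : (0 : ℝ) < Y := by linarith
  have b1 : 4 * (Y : ℝ) / (d * Real.log E) ≤ 16 / κ * (h / L) * (1 / (d.totient : ℝ)) := by
    calc 4 * (Y : ℝ) / (d * Real.log E) ≤ 8 * h / (d * (κ / 2 * L)) := by
          apply div_le_div₀ (by positivity) (by linarith) (by positivity)
          exact mul_le_mul_of_nonneg_left hEL hd0.le
      _ ≤ 8 * h / (d.totient * (κ / 2 * L)) := by
          apply div_le_div_of_nonneg_left (by positivity) (by positivity)
          exact mul_le_mul_of_nonneg_right hφd (by positivity)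
      _ = 16 / κ * (h / L) * (1 / (d.totient : ℝ)) := by field_simp; ring
  have b2 : (d : ℝ) * (E : ℝ) ^ 4 / Y ≤ h / L * (1 / (d.totient : ℝ)) := by
    calc (d : ℝ) * (E : ℝ) ^ 4 / Y ≤ (d : ℝ) * (E : ℝ) ^ 4 / h :=
          div_le_div_of_nonneg_left (by positivity) hh0 hYh
      _ ≤ h / L * (1 / (d : ℝ)) := by
          rw [div_mul_div_comm, mul_one, div_le_div_iff₀ hh0 (by positivity)]
          calc (d : ℝ) * (E : ℝ) ^ 4 * (L * d) = (d : ℝ) ^ 2 * (E : ℝ) ^ 4 * L := by ring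
            _ ≤ h ^ 2 := c1
            _ = h * h := by ring
      _ ≤ h / L * (1 / (d.totient : ℝ)) := by
          apply mul_le_mul_of_nonneg_left _ (by positivity)
          exact div_le_div_of_nonneg_left zero_le_one hφ hφd
  have b3 : (E : ℝ) ≤ h / L * (1 / (d.totient : ℝ)) := by
    calc (E : ℝ) ≤ h / L * (1 / (d : ℝ)) := by
          rw [div_mul_div_comm, mul_one, le_div_iff₀ (by positivity)]
          calc (E : ℝ) * (L * d) = (E : ℝ) * (d * L) := by ring
            _ ≤ h := c2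
      _ ≤ h / L * (1 / (d.totient : ℝ)) := by
          apply mul_le_mul_of_nonneg_left _ (by positivity)
          exact div_le_div_of_nonneg_left zero_le_one hφ hφd
  -- the logarithmic integral
  have hsq4 : 4 ≤ Real.sqrt x := by
    rw [show (4 : ℝ) = Real.sqrt 16 by
      rw [show (16 : ℝ) = 4 ^ 2 by norm_num, Real.sqrt_sq (by norm_num)]]
    exact Real.sqrt_le_sqrt hx
  have hlogsq : Real.log (Real.sqrt x) = L / 2 := by
    rw [Real.log_sqrt (by linarith), hL]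
  have hli0 := (GrdS_li hy2 hm1).1
  have hli := Rro_li hy2 hm1 (z := Real.sqrt x) (by linarith)
  rw [hlogsq] at hli
  have hli2 : li (h * m) - li y ≤ 4 * (h / L) := by
    have h1 : Real.sqrt x ≤ h / L := by
      rw [le_div_iff₀ hL0]
      exact c3
    have h2 : (h * m - y) / (L / 2) ≤ 2 * (h / L) := by
      rw [div_le_iff₀ (by positivity)]
      have : 2 * (h / L) * (L / 2) = h := by field_simp
      rw [this]
      linarith
    linarith
  have hli3 : (li (h * m) - li y) / (d.totient : ℝ) ≤ 4 * (h / L) * (1 / (d.totient : ℝ)) := by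
    rw [mul_one_div]
    exact div_le_div_of_nonneg_right hli2 hφ.le
  have hli4 : 0 ≤ (li (h * m) - li y) / (d.totient : ℝ) := div_nonneg hli0 hφ.le
  have hu0 : 0 ≤ h / L * (1 / (d.totient : ℝ)) := by positivity
  have hexp : (16 / κ + 8) * (h / L) * (1 / (d.totient : ℝ)) =
      16 / κ * (h / L) * (1 / (d.totient : ℝ)) + 8 * (h / L * (1 / (d.totient : ℝ))) := by ring
  have hli5 : 4 * (h / L) * (1 / (d.totient : ℝ)) = 4 * (h / L * (1 / (d.totient : ℝ))) := by ring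
  rw [hli5] at hli3
  rw [hexp]
  have hdiff : resErr y d a = resErr (h * m) d a - ((resCount (h * m) d a : ℝ) - resCount y d a) +
      (li (h * m) - li y) / (d.totient : ℝ) := by
    unfold resErr
    ring
  have habs : |resErr y d a| ≤ |resErr (h * m) d a| + ((resCount (h * m) d a : ℝ) - resCount y d a) +
      (li (h * m) - li y) / (d.totient : ℝ) := by
    rw [hdiff]
    have h1 := abs_nonneg (resErr (h * m) d a)
    have h2 := neg_abs_le (resErr (h * m) d a)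
    have h3 := le_abs_self (resErr (h * m) d a)
    rw [abs_le]
    constructor <;> linarith
  have h16 : 0 ≤ 16 / κ * (h / L) * (1 / (d.totient : ℝ)) := by positivity
  linarith

private lemma Rro_ev (c K : ℝ) (hc : 0 < c) : ∀ᶠ x : ℝ in Filter.atTop, K ≤ x ^ c :=
  (tendsto_rpow_atTop hc).eventually_ge_atTop K

private lemma Rro_evlog (a c : ℝ) (hc : 0 < c) : ∀ᶠ x : ℝ in Filter.atTop, (Real.log x) ^ a ≤ x ^ c := by
  have h := (isLittleO_log_rpow_rpow_atTop a hc).bound (show (0 : ℝ) < 1 by norm_num)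
  filter_upwards [h, Filter.eventually_gt_atTop 1] with x hx h0
  have hl : 0 ≤ Real.log x := Real.log_nonneg h0.le
  rw [Real.norm_of_nonneg (Real.rpow_nonneg hl _), one_mul,
    Real.norm_of_nonneg (Real.rpow_nonneg (by linarith) _)] at hx
  exact hx

theorem tRro (h1 : PbtStmt) (h2 : PfrStmt) : RroStmt := by
  intro θ κ x1 Cls hθ hθ1 hκ hCls
  classical
  obtain ⟨δ, hδ⟩ : ∃ δ : ℝ, δ = 1 - θ := ⟨_, rfl⟩
  have hδ0 : 0 < δ := by linarith
  obtain ⟨κ', hκ'⟩ : ∃ κ' : ℝ, κ' = min κ δ / 8 := ⟨_, rfl⟩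
  have hκ0 : 0 < κ' := by
    rw [hκ']
    have := lt_min hκ hδ0
    positivity
  have hκκ : κ' ≤ κ := by
    have := min_le_left κ δ
    rw [hκ']
    linarith
  have hκδ : 8 * κ' ≤ δ := by
    have := min_le_right κ δ
    rw [hκ']
    linarith
  obtain ⟨C', xF, hF⟩ := h2 κ' hκ0
  have hC' : 0 ≤ C' :=
    (Finset.sum_nonneg fun d _ => by positivity).trans (hF xF le_rfl).2
  refine ⟨(16 / κ' + 8) * C', by positivity, ?_⟩
  intro B
  have hev : ∀ᶠ x : ℝ in Filter.atTop, 16 ≤ x ∧ x1 ≤ x ∧ xF ≤ x ∧ 1 ≤ Real.log x ∧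
      (Real.log x) ^ (1 + 2 * |B|) ≤ x ^ (δ / 2) ∧ 2 ≤ x ^ (κ' / 2) ∧
      (Real.log x) ^ (1 + 2 * |B|) ≤ x ^ ((1 : ℝ) / 2) := by
    filter_upwards [Filter.eventually_ge_atTop (16 : ℝ), Filter.eventually_ge_atTop x1,
      Filter.eventually_ge_atTop xF,
      Real.tendsto_log_atTop.eventually_ge_atTop (1 : ℝ), Rro_evlog (1 + 2 * |B|) (δ / 2) (by positivity),
      Rro_ev (κ' / 2) 2 (by positivity), Rro_evlog (1 + 2 * |B|) (1 / 2) (by norm_num)] with
        x a1 a2 a3 a5 a6 a7 a8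
    exact ⟨a1, a2, a3, a5, a6, a7, a8⟩
  obtain ⟨x0, hx0⟩ := Filter.eventually_atTop.1 hev
  refine ⟨x0, ?_⟩
  intro x hxx k hk1 hkB y s hy
  obtain ⟨hx16, hxx1, hxxF, hL1', e1, e2, e3⟩ := hx0 x hxx
  have hxp : 0 < x := by linarith
  have hxone : 1 ≤ x := by linarith
  obtain ⟨L, hL⟩ : ∃ L : ℝ, L = Real.log x := ⟨_, rfl⟩
  rw [← hL] at hkB e1 e3 hL1'
  have hL1 : 1 ≤ L := hL1'
  have hL0 : 0 < L := by linarith
  have hkr : (1 : ℝ) ≤ k := by exact_mod_cast hk1
  have hk0 : (0 : ℝ) < k := by linarith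
  obtain ⟨W, hW⟩ : ∃ W : ℝ, W = L ^ |B| := ⟨_, rfl⟩
  have hW1 : 1 ≤ W := by
    rw [hW]
    exact Real.one_le_rpow hL1 (abs_nonneg B)
  have hW0 : 0 < W := by linarith
  have hkW : (k : ℝ) ≤ W := by
    rw [hW]
    exact hkB.trans (Real.rpow_le_rpow_of_exponent_le hL1 (le_abs_self B))
  have hLW : L * W ^ 2 = L ^ (1 + 2 * |B|) := by
    rw [hW, ← Real.rpow_natCast, ← Real.rpow_mul hL0.le, Real.rpow_add hL0, Real.rpow_one]
    congr 2
    push_cast
    ring
  rw [← hLW] at e1 e3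
  have hLW1 : L * W ≤ L * W ^ 2 := by
    apply mul_le_mul_of_nonneg_left _ hL0.le
    nlinarith
  obtain ⟨h, hh⟩ : ∃ h : ℝ, h = x / k := ⟨_, rfl⟩
  have hhL : x / W ≤ h := by
    rw [hh]
    exact div_le_div_of_nonneg_left hxp.le hk0 hkW
  have hxL0 : 0 < x / W := by positivity
  have hh0 : 0 < h := by linarith
  have hsq : x ^ ((1 : ℝ) / 2) = Real.sqrt x := (Real.sqrt_eq_rpow x).symm
  have hsqx : Real.sqrt x * Real.sqrt x = x := Real.mul_self_sqrt hxp.le
  rw [hsq] at e3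
  have hsq4 : 4 ≤ Real.sqrt x := by
    rw [show (4 : ℝ) = Real.sqrt 16 by
      rw [show (16 : ℝ) = 4 ^ 2 by norm_num, Real.sqrt_sq (by norm_num)]]
    exact Real.sqrt_le_sqrt hx16
  have c3 : Real.sqrt x * L ≤ h := by
    refine le_trans ?_ hhL
    rw [le_div_iff₀ hW0]
    calc Real.sqrt x * L * W = Real.sqrt x * (L * W) := by ring
      _ ≤ Real.sqrt x * Real.sqrt x := mul_le_mul_of_nonneg_left (by linarith) (by linarith)
      _ = x := hsqx
  have hh2 : 2 ≤ h := by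
    refine le_trans ?_ c3
    calc (2 : ℝ) ≤ Real.sqrt x * 1 := by linarith
      _ ≤ Real.sqrt x * L := mul_le_mul_of_nonneg_left hL1 (by linarith)
  obtain ⟨E, hE⟩ : ∃ E : ℕ, E = ⌊x ^ κ'⌋₊ := ⟨_, rfl⟩
  obtain ⟨hE2, hsumF⟩ := hF x hxxF
  rw [← hE] at hE2 hsumF
  have hEx : (E : ℝ) ≤ x ^ κ' := by rw [hE]; exact Nat.floor_le (by positivity)
  have hEL : κ' / 2 * L ≤ Real.log E := by
    have h3 : x ^ (κ' / 2) ≤ E := by
      have h4 : x ^ κ' < (E : ℝ) + 1 := by rw [hE]; exact Nat.lt_floor_add_one _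
      have h5 : x ^ κ' = x ^ (κ' / 2) * x ^ (κ' / 2) := by
        rw [← Real.rpow_add hxp]
        congr 1
        ring
      rw [h5] at h4
      have h6 : 2 * x ^ (κ' / 2) ≤ x ^ (κ' / 2) * x ^ (κ' / 2) :=
        mul_le_mul_of_nonneg_right e2 (by positivity)
      linarith
    rw [hL, ← Real.log_rpow hxp]
    exact Real.log_le_log (by positivity) h3
  have hEr : (0 : ℝ) ≤ E := Nat.cast_nonneg _
  have hE4 : (E : ℝ) ^ 4 ≤ x ^ (δ / 2) := by
    calc (E : ℝ) ^ 4 ≤ (x ^ κ') ^ 4 := pow_le_pow_left₀ hEr hEx 4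
      _ = x ^ (4 * κ') := by
          rw [← Real.rpow_natCast, ← Real.rpow_mul hxp.le]
          congr 1
          push_cast
          ring
      _ ≤ x ^ (δ / 2) := Real.rpow_le_rpow_of_exponent_le hxone (by linarith)
  have hE1 : (E : ℝ) ≤ x ^ (δ / 2) := hEx.trans (Real.rpow_le_rpow_of_exponent_le hxone (by linarith))
  unfold RS
  obtain ⟨Q, hQ⟩ : ∃ Q : Finset ℕ, Q = (Icc 1 ⌊x ^ θ⌋₊).filter
      (fun d : ℕ => Int.gcd (s d) d = 1 ∧ Cls x d) := ⟨_, rfl⟩
  rw [← hQ]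
  have hQd : ∀ d ∈ Q, 1 ≤ d ∧ (d : ℝ) ≤ x ^ θ ∧ Rgh E d := by
    intro d hd
    rw [hQ, Finset.mem_filter, Finset.mem_Icc] at hd
    refine ⟨hd.1.1, ?_, ?_⟩
    · exact (Nat.le_floor_iff (by positivity)).1 hd.1.2
    · intro p hp hpd
      have h3 := hCls x hxx1 d hd.2.2 p hp hpd
      refine lt_of_le_of_lt ?_ h3
      rw [hE]
      exact Nat.floor_le_floor (Real.rpow_le_rpow_of_exponent_le hxone hκκ)
  have hround : ∀ d, x / (k : ℝ) * (⌈(k : ℝ) * y d / x⌉₊ : ℝ) = h * (⌈y d / h⌉₊ : ℝ) := by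
    intro d
    have h3 : (k : ℝ) * y d / x = y d / h := by
      rw [hh]
      field_simp
    rw [h3, hh]
  have hone : ∀ d ∈ Q, |resErr (y d) d (s d)| ≤ |resErr (x / (k : ℝ) * (⌈(k : ℝ) * y d / x⌉₊ : ℝ)) d (s d)| +
      (16 / κ' + 8) * (h / L) * (1 / (d.totient : ℝ)) := by
    intro d hd
    obtain ⟨hd1, hd2, hd3⟩ := hQd d hd
    have hd0 : (0 : ℝ) ≤ d := Nat.cast_nonneg _
    rw [hround d]
    refine Rro_one h1 hκ0 hx16 hL hL1 hh2 (hy d).1 hd1 hE2 hd3 hEL ?_ ?_ c3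
    · calc (d : ℝ) ^ 2 * (E : ℝ) ^ 4 * L ≤ (x ^ θ) ^ 2 * x ^ (δ / 2) * L := by
            apply mul_le_mul_of_nonneg_right _ hL0.le
            exact mul_le_mul (pow_le_pow_left₀ hd0 hd2 2) hE4 (by positivity) (by positivity)
        _ = (x ^ θ) ^ 2 * x ^ (δ / 2) * (L * W ^ 2) / W ^ 2 := by field_simp
        _ ≤ (x ^ θ) ^ 2 * x ^ (δ / 2) * x ^ (δ / 2) / W ^ 2 := by
            apply div_le_div_of_nonneg_right _ (by positivity)
            exact mul_le_mul_of_nonneg_left e1 (by positivity)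
        _ = x ^ (1 + θ) / W ^ 2 := by
            congr 1
            rw [← Real.rpow_natCast, ← Real.rpow_mul hxp.le, ← Real.rpow_add hxp, ← Real.rpow_add hxp]
            congr 1
            rw [hδ]
            push_cast
            ring
        _ ≤ x ^ (2 : ℝ) / W ^ 2 := by
            apply div_le_div_of_nonneg_right _ (by positivity)
            exact Real.rpow_le_rpow_of_exponent_le hxone (by linarith)
        _ = (x / W) ^ 2 := by
            rw [show (2 : ℝ) = ((2 : ℕ) : ℝ) by norm_num, Real.rpow_natCast, div_pow]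
        _ ≤ h ^ 2 := pow_le_pow_left₀ hxL0.le hhL 2
    · calc (E : ℝ) * (d * L) ≤ x ^ (δ / 2) * (x ^ θ * L) := by
            apply mul_le_mul hE1 _ (by positivity) (by positivity)
            exact mul_le_mul_of_nonneg_right hd2 hL0.le
        _ = x ^ (δ / 2) * x ^ θ * (L * W) / W := by field_simp
        _ ≤ x ^ (δ / 2) * x ^ θ * x ^ (δ / 2) / W := by
            apply div_le_div_of_nonneg_right _ hW0.le
            exact mul_le_mul_of_nonneg_left (by linarith) (by positivity)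
        _ = x / W := by
            congr 1
            rw [← Real.rpow_add hxp, ← Real.rpow_add hxp]
            conv_rhs => rw [← Real.rpow_one x]
            congr 1
            rw [hδ]
            ring
        _ ≤ h := hhL
  have hphi : ∑ d ∈ Q, 1 / (d.totient : ℝ) ≤ C' := by
    refine le_trans ?_ hsumF
    apply Finset.sum_le_sum_of_subset_of_nonneg
    · intro d hd
      obtain ⟨hd1, hd2, hd3⟩ := hQd d hd
      rw [Finset.mem_filter, Finset.mem_Icc]
      refine ⟨⟨hd1, Nat.le_floor ?_⟩, hd3⟩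
      refine hd2.trans ?_
      conv_rhs => rw [← Real.rpow_one x]
      exact Real.rpow_le_rpow_of_exponent_le hxone hθ1.le
    · intro d _ _
      positivity
  calc ∑ d ∈ Q, |resErr (y d) d (s d)| ≤ ∑ d ∈ Q,
        (|resErr (x / (k : ℝ) * (⌈(k : ℝ) * y d / x⌉₊ : ℝ)) d (s d)| +
        (16 / κ' + 8) * (h / L) * (1 / (d.totient : ℝ))) := Finset.sum_le_sum hone
    _ = ∑ d ∈ Q, |resErr (x / (k : ℝ) * (⌈(k : ℝ) * y d / x⌉₊ : ℝ)) d (s d)| +
        (16 / κ' + 8) * (h / L) * ∑ d ∈ Q, 1 / (d.totient : ℝ) := by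
        rw [Finset.sum_add_distrib, Finset.mul_sum]
    _ ≤ ∑ d ∈ Q, |resErr (x / (k : ℝ) * (⌈(k : ℝ) * y d / x⌉₊ : ℝ)) d (s d)| +
        (16 / κ' + 8) * (h / L) * C' :=
        add_le_add le_rfl (mul_le_mul_of_nonneg_left hphi (by positivity))
    _ = ∑ d ∈ Q, |resErr (x / (k : ℝ) * (⌈(k : ℝ) * y d / x⌉₊ : ℝ)) d (s d)| +
        (16 / κ' + 8) * C' * (x / ((k : ℝ) * Real.log x)) := by
        rw [hh, hL]
        congr 1
        field_simp

end Pool.Agent.Lib.TP
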