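import Pool.Agent.Lib.TP.SpecR

/-!
MP_00e23e_nt, directory Lib/TP, module Run: the union of two classes (form with a finite set of points).
-/

namespace Pool.Agent.Lib.TP

open Finset Pool.Agent.Lib.EH3 Pool.Agent.Lib.TB Pool.Agent.Results.MP_00e23e_nt

private lemma Run_sum (F F1 F2 : Finset ℕ) (f : ℕ → ℝ) (hf : ∀ d, 0 ≤ f d)
    (h : ∀ d ∈ F, d ∈ F1 ∨ d ∈ F2) : ∑ d ∈ F, f d ≤ ∑ d ∈ F1, f d + ∑ d ∈ F2, f d := by
  have h1 : F ⊆ F1 ∪ F2 := fun d hd => Finset.mem_union.2 (h d hd)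
  have h2 := Finset.sum_union_inter (s₁ := F1) (s₂ := F2) (f := f)
  have h3 : 0 ≤ ∑ d ∈ F1 ∩ F2, f d := Finset.sum_nonneg fun d _ => hf d
  have h4 : ∑ d ∈ F, f d ≤ ∑ d ∈ F1 ∪ F2, f d :=
    Finset.sum_le_sum_of_subset_of_nonneg h1 fun d _ _ => hf d
  linarith

private lemma Run_rs (θ1 θ : ℝ) (Cls1 Cls2 Cls : ℝ → ℕ → Prop) (x : ℝ) (y : ℕ → ℝ) (s : ℕ → ℤ)
    (h : ∀ d : ℕ, Cls x d → (Cls1 x d ∧ (d : ℝ) ≤ x ^ θ1) ∨ Cls2 x d) :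
    RS θ Cls x y s ≤ RS θ1 Cls1 x y s + RS θ Cls2 x y s := by
  classical
  unfold RS
  apply Run_sum
  · intro d
    exact abs_nonneg _
  · intro d hd
    have hd1 := Finset.mem_filter.1 hd
    have hd2 := Finset.mem_Icc.1 hd1.1
    rcases h d hd1.2.2 with h1 | h1
    · left
      exact Finset.mem_filter.2 ⟨Finset.mem_Icc.2 ⟨hd2.1, Nat.le_floor h1.2⟩, hd1.2.1, h1.1⟩
    · right
      exact Finset.mem_filter.2 ⟨hd1.1, hd1.2.1, h1⟩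

private lemma Run_nonneg (θ : ℝ) (Cls : ℝ → ℕ → Prop) (x : ℝ) (y : ℕ → ℝ) (s : ℕ → ℤ) :
    0 ≤ RS θ Cls x y s := by
  classical
  unfold RS
  exact Finset.sum_nonneg fun d _ => abs_nonneg _

private lemma Run_fam (θ1 θ η η1 x : ℝ) (J : Finset ℕ) (s : ℕ → ℕ → ℤ) (hx : 1 ≤ x)
    (hθ : θ1 ≤ θ) (hη : η ≤ η1) (h : Fam θ η x J s) : Fam θ1 η1 x J s := by
  obtain ⟨h1, h2, h3⟩ := h
  have hsub : Icc 1 ⌊x ^ θ1⌋₊ ⊆ Icc 1 ⌊x ^ θ⌋₊ := by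
    apply Finset.Icc_subset_Icc_right
    exact Nat.floor_le_floor (Real.rpow_le_rpow_of_exponent_le hx hθ)
  refine ⟨fun i hi d hd => h1 i hi d (hsub hd), ?_, fun i hi j hj hij d hd => h3 i hi j hj hij d (hsub hd)⟩
  intro i hi
  have h4 : ((Icc 1 ⌊x ^ θ1⌋₊).image (s i)).card ≤ ((Icc 1 ⌊x ^ θ⌋₊).image (s i)).card :=
    Finset.card_le_card (Finset.image_subset_image hsub)
  calc (((Icc 1 ⌊x ^ θ1⌋₊).image (s i)).card : ℝ) ≤ (((Icc 1 ⌊x ^ θ⌋₊).image (s i)).card : ℝ) := by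
        exact_mod_cast h4
    _ ≤ x ^ η := h2 i hi
    _ ≤ x ^ η1 := Real.rpow_le_rpow_of_exponent_le hx hη

/-- **Module Run.** Two classes. -/
theorem tRun : RunStmt := by
  intro θ1 θ Cls1 Cls2 Cls hθ1 hθ hcl
  rintro ⟨C1, η1, hC1, hη1, hb1⟩ ⟨C2, η2, hC2, hη2, hb2⟩
  refine ⟨2 * (C1 + C2), min η1 η2, by positivity, lt_min hη1 hη2, ?_⟩
  intro B
  obtain ⟨x1, hx1⟩ := hb1 B
  obtain ⟨x2, hx2⟩ := hb2 B
  refine ⟨max (max x1 x2) 1, ?_⟩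
  intro x hx J s Y y hF hJ hY hy
  have hxa : x1 ≤ x := (le_max_left _ _).trans ((le_max_left _ _).trans hx)
  have hxb : x2 ≤ x := (le_max_right _ _).trans ((le_max_left _ _).trans hx)
  have hxc : 1 ≤ x := (le_max_right _ _).trans hx
  have e1 := hx1 x hxa J s Y y (Run_fam θ1 θ _ η1 x J s hxc hθ (min_le_left _ _) hF) hJ hY hy
  have e2 := hx2 x hxb J s Y y (Run_fam θ θ _ η2 x J s hxc le_rfl (min_le_right _ _) hF) hJ hY hy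
  have e3 : ∑ i ∈ J, RS θ Cls x (y i) (s i) ^ 2 ≤
      ∑ i ∈ J, (2 * RS θ1 Cls1 x (y i) (s i) ^ 2 + 2 * RS θ Cls2 x (y i) (s i) ^ 2) := by
    apply Finset.sum_le_sum
    intro i _
    have f1 := Run_rs θ1 θ Cls1 Cls2 Cls x (y i) (s i) (hcl x hxc)
    have f2 := Run_nonneg θ Cls x (y i) (s i)
    have f3 : RS θ Cls x (y i) (s i) ^ 2 ≤
        (RS θ1 Cls1 x (y i) (s i) + RS θ Cls2 x (y i) (s i)) ^ 2 :=
      pow_le_pow_left₀ f2 f1 2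
    nlinarith [sq_nonneg (RS θ1 Cls1 x (y i) (s i) - RS θ Cls2 x (y i) (s i))]
  rw [Finset.sum_add_distrib, ← Finset.mul_sum, ← Finset.mul_sum] at e3
  have e4 : 2 * (C1 + C2) * min (Y.card : ℝ) ((J.card : ℝ) ^ ((1 : ℝ) / 3)) * (x / Real.log x) ^ 2 =
      2 * (C1 * min (Y.card : ℝ) ((J.card : ℝ) ^ ((1 : ℝ) / 3)) * (x / Real.log x) ^ 2) +
      2 * (C2 * min (Y.card : ℝ) ((J.card : ℝ) ^ ((1 : ℝ) / 3)) * (x / Real.log x) ^ 2) := by ring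
  rw [e4]
  linarith

end Pool.Agent.Lib.TP
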