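import Pool.Agent.Lib.TP.AllQ
import Pool.Agent.Lib.TP.Rby
import Pool.Agent.Lib.TP.Rcu
import Pool.Agent.Lib.TP.Rfi
import Pool.Agent.Lib.TP.Rgr
import Pool.Agent.Lib.TP.Rlo
import Pool.Agent.Lib.TP.Rpt
import Pool.Agent.Lib.TP.Rro
import Pool.Agent.Lib.TP.Rsp
import Pool.Agent.Lib.TP.Run
import Pool.Agent.Lib.TP.Ktop
import Pool.Agent.Lib.TP.Kth

/-!
MP_00e23e_nt, directory Lib/TP: the Bessel inequality with arbitrary points and its final form, without hypotheses.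
-/

namespace Pool.Agent.Lib.TP

open Pool.Agent.Lib.TB

/-- the Bessel inequality for points with few values -/
theorem aRby : RbyStmt :=
  tRby (tRcu tPcu) (tRsp tOab) tRpt tLpS Pool.Agent.Lib.BV.aExt Pool.Agent.Lib.BV.aBtt

/-- arbitrary points -/
theorem aRgr : RgrStmt := tRgr (tRro (tPbt aSel (tSvt tSsbd)) (tPfr aRgs))

/-- **THEOREM R** -/
theorem aRfi : RStmt :=
  tRfi (tPin aOffV aDiaV aSel) aQin aRby aRgr (tRlo (tQsm Pool.Agent.Lib.BV.aExt)) tRun

/-- **THEOREM K**: all but K - 1 elements of A for every modulus -/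
theorem aKfi : KStmt' := fun δ ε ρ h1 h2 h3 h4 => tKth tKtop _ _ (aRfi δ ε ρ h1 h2 h3 h4)

end Pool.Agent.Lib.TP
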