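import Pool.Agent.Lib.TP.SpecW

/-!
MP_00e23e_nt, directory Lib/TP, module Wfi: theorem W.
-/

namespace Pool.Agent.Lib.TP

open Finset Pool.Agent.Lib.EH3 Pool.Agent.Lib.TB Pool.Agent.Results.MP_00e23e_nt

private theorem Wfi_rgh (ρ x : ℝ) (d : ℕ) (h : Rx ρ x d) : Rgh ⌊x ^ ρ⌋₊ d := by
  intro p hp hd
  exact (Nat.floor_lt' hp.ne_zero).2 (h p hp hd)

/-- the class is empty if the interval of the convenient divisors is empty -/
private theorem Wfi_empty (δ v ε ρ x : ℝ) (d : ℕ) (hx : 1 < x)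
    (hlt : 1 / 2 - 7 * δ - 2 * v - ε < 2 * δ + v + ε) : ¬ Cv δ v ε ρ x d := by
  rintro ⟨_, _, s, _, h1, h2⟩
  have h3 : x ^ ((1 : ℝ) / 2 - 7 * δ - 2 * v - ε) < x ^ (2 * δ + v + ε) :=
    Real.rpow_lt_rpow_of_exponent_lt hx hlt
  linarith

open Classical in
private theorem Wfi_RS (θ : ℝ) (Cls : ℝ → ℕ → Prop) (x : ℝ) (y : ℕ → ℝ) (s : ℕ → ℤ)
    (h : ∀ d, ¬ Cls x d) : RS θ Cls x y s = 0 := by
  unfold RS
  refine Finset.sum_eq_zero fun d hd => ?_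
  exact absurd (Finset.mem_filter.1 hd).2.2 (h d)

private theorem Wfi_kth (θ v : ℝ) (Cls : ℝ → ℕ → Prop) (h : ∀ x : ℝ, 1 < x → ∀ d, ¬ Cls x d) :
    KthV θ v Cls := by
  refine ⟨1, one_pos, fun B => ⟨2, fun x hx A Y K _ _ _ hK _ => ⟨fun _ => ∅, ?_, ?_⟩⟩⟩
  · intro d
    rw [Finset.card_empty]
    omega
  · intro a y _
    rw [Wfi_RS θ Cls x y a (h x (by linarith))]
    have h1 : 0 < Real.log x := Real.log_pos (by linarith)
    have h2 : (0 : ℝ) < x := by linarith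
    positivity

/-- **Module Wfi.** Theorem W. -/
theorem tWfi (h1 : OffGAll) (h2 : WofStmt) (h3 : WinStmt) (h4 : WbyStmt) (h5 : WgrStmt)
    (h6 : WloStmt) (h7 : WthStmt) : WStmt := by
  intro δ v ε ρ hδ hv hε hρ
  by_cases hle : 2 * δ + v + ε ≤ 1 / 2 - 7 * δ - 2 * v - ε
  · have g1 := h1 δ v (ε / 2) hδ hv (by linarith) (by linarith)
    have g2 := h2 δ v (ε / 2) _ _ hδ (by linarith) g1
    obtain ⟨κ, hκ, hin⟩ := h3 δ v ε ρ hδ hv hε hle hρ g2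
    have b : BykV (1 / 2 + δ) v (Clow κ (Cv δ v ε ρ)) :=
      h4 (1 / 2 + δ) v _ (by linarith) (by linarith) hv (by linarith) hin
    have g : GryV (1 / 2 + δ) v (Clow κ (Cv δ v ε ρ)) :=
      h5 (1 / 2 + δ) v ρ 0 _ (by linarith) (by linarith) hρ (fun x _ d hd => Wfi_rgh ρ x d hd.2.1) b
    exact h7 _ _ _ (h6 _ _ κ _ hκ g)
  · push Not at hle
    exact Wfi_kth _ _ _ fun x hx d => Wfi_empty δ v ε ρ x d hx hle

end Pool.Agent.Lib.TP
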