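import Pool.Agent.Lib.TP.SpecW

/-!
TP module Wgr: the Bessel inequality for arbitrary points, residues with x^v values.
-/

namespace Pool.Agent.Lib.TP

open Finset Pool.Agent.Lib.EH3 Pool.Agent.Lib.TB Pool.Agent.Results.MP_00e23e_nt

private theorem Wgr_RS_nonneg (θ : ℝ) (Cls : ℝ → ℕ → Prop) (x : ℝ) (y : ℕ → ℝ) (s : ℕ → ℤ) :
    0 ≤ RS θ Cls x y s := by
  unfold RS
  exact Finset.sum_nonneg fun d _ => abs_nonneg _

private theorem Wgr_sq (a b c : ℝ) (ha : 0 ≤ a) (h : a ≤ b + c) :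
    a ^ 2 ≤ 2 * b ^ 2 + 2 * c ^ 2 := by
  nlinarith [sq_nonneg (b - c), mul_self_le_mul_self ha h]

theorem tWgr (h1 : RroStmt) : WgrStmt := by
  classical
  intro θ v κ x1 Cls hθ hθ1 hκ hCls hByk
  obtain ⟨C, hC, hB⟩ := hByk
  obtain ⟨C1, hC1, hR⟩ := h1 θ κ x1 Cls hθ hθ1 hκ hCls
  refine ⟨4 * C + 2 * C1 ^ 2, by positivity, ?_⟩
  intro B
  obtain ⟨x2, hx2⟩ := hB (|B| + 2)
  obtain ⟨x3, hx3⟩ := hR (|B| + 2)
  -- the size conditions
  have hlog : ∀ᶠ x : ℝ in Filter.atTop, 2 ≤ Real.log x :=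
    Real.tendsto_log_atTop.eventually_ge_atTop 2
  have hdiv : ∀ᶠ x : ℝ in Filter.atTop, 2 * (Real.log x) ^ (|B| + 2) ≤ x := by
    have h2 := (isLittleO_log_rpow_rpow_atTop (s := 1) (|B| + 2) one_pos).bound
      (show (0 : ℝ) < 1 / 2 by norm_num)
    filter_upwards [h2, hlog, Filter.eventually_ge_atTop (1 : ℝ)] with x hx hl hx1
    rw [Real.norm_eq_abs, Real.norm_eq_abs, Real.rpow_one, abs_of_nonneg (by linarith : (0:ℝ) ≤ x),
      abs_of_nonneg (Real.rpow_nonneg (by linarith) _)] at hx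
    linarith
  obtain ⟨x4, hx4⟩ := Filter.eventually_atTop.1 (hlog.and hdiv)
  refine ⟨max (max x2 x3) (max x4 3), ?_⟩
  intro x hx J s Y y hFam hJ hY hy
  have hx2' : x2 ≤ x := le_trans (le_trans (le_max_left _ _) (le_max_left _ _)) hx
  have hx3' : x3 ≤ x := le_trans (le_trans (le_max_right _ _) (le_max_left _ _)) hx
  obtain ⟨hl, hd⟩ := hx4 x (le_trans (le_trans (le_max_left _ _) (le_max_right _ _)) hx)
  have hx0 : (3 : ℝ) ≤ x := le_trans (le_trans (le_max_right _ _) (le_max_right _ _)) hx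
  have hL : 0 < Real.log x := by linarith
  have hxL : 0 ≤ (x / Real.log x) ^ 2 := sq_nonneg _
  rcases J.eq_empty_or_nonempty with hJe | hJne
  · rw [hJe]
    simp only [Finset.sum_empty, Finset.card_empty, Nat.cast_zero]
    rw [Real.zero_rpow (by norm_num), min_eq_right (Nat.cast_nonneg _)]
    simp
  have hJ1 : (1 : ℝ) ≤ J.card := by
    exact_mod_cast hJne.card_pos
  have hlogB : (Real.log x) ^ B ≤ (Real.log x) ^ |B| :=
    Real.rpow_le_rpow_of_exponent_le (by linarith) (le_abs_self B)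
  have hJB : (J.card : ℝ) ≤ (Real.log x) ^ |B| := hJ.trans hlogB
  have hJB2 : (J.card : ℝ) ≤ (Real.log x) ^ (|B| + 2) :=
    hJB.trans (Real.rpow_le_rpow_of_exponent_le (by linarith) (by linarith))
  have hq1 : (1 : ℝ) ≤ (J.card : ℝ) ^ ((1 : ℝ) / 3) :=
    Real.one_le_rpow hJ1 (by norm_num)
  have hqJ : (J.card : ℝ) ^ ((1 : ℝ) / 3) ≤ J.card := by
    calc (J.card : ℝ) ^ ((1 : ℝ) / 3) ≤ (J.card : ℝ) ^ (1 : ℝ) :=
          Real.rpow_le_rpow_of_exponent_le hJ1 (by norm_num)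
      _ = J.card := Real.rpow_one _
  obtain ⟨q, hq⟩ : ∃ q : ℝ, q = (J.card : ℝ) ^ ((1 : ℝ) / 3) := ⟨_, rfl⟩
  have hq3 : q ^ 3 = J.card := by
    rw [hq, ← Real.rpow_natCast, ← Real.rpow_mul (by linarith)]
    norm_num
  rw [← hq] at hq1 hqJ ⊢
  rcases le_or_gt (Y.card : ℝ) q with hYq | hYq
  · -- few values
    rw [min_eq_left hYq]
    refine (hx2 x hx2' J s Y y hFam hJB2 (hYq.trans (hqJ.trans hJB2)) hY hy).trans ?_
    have h5 : 0 ≤ (Y.card : ℝ) * (x / Real.log x) ^ 2 := by positivity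
    nlinarith [sq_nonneg C1, mul_nonneg hC.le h5, mul_nonneg (sq_nonneg C1) h5]
  · -- rounding
    rw [min_eq_right hYq.le]
    obtain ⟨k, hk⟩ : ∃ k : ℕ, k = ⌈q⌉₊ := ⟨_, rfl⟩
    have hkq : q ≤ k := by
      rw [hk]
      exact Nat.le_ceil q
    have hk2 : (k : ℝ) ≤ 2 * q := by
      have := Nat.ceil_lt_add_one (show (0 : ℝ) ≤ q by linarith)
      rw [← hk] at this
      linarith
    have hk1 : 1 ≤ k := by
      have : (0 : ℝ) < k := by linarith
      exact_mod_cast this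
    have hk0 : (0 : ℝ) < k := by linarith
    have hkB : (k : ℝ) ≤ (Real.log x) ^ (|B| + 2) := by
      have h6 : (2 : ℝ) ≤ (Real.log x) ^ (2 : ℝ) := by
        calc (2 : ℝ) ≤ Real.log x := hl
          _ = (Real.log x) ^ (1 : ℝ) := (Real.rpow_one _).symm
          _ ≤ _ := Real.rpow_le_rpow_of_exponent_le (by linarith) (by norm_num)
      rw [Real.rpow_add hL]
      calc (k : ℝ) ≤ q * 2 := by linarith
        _ ≤ (Real.log x) ^ |B| * (Real.log x) ^ (2 : ℝ) :=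
          mul_le_mul (hqJ.trans hJB) h6 (by norm_num) (Real.rpow_nonneg hL.le _)
    obtain ⟨Y', hY'⟩ : ∃ Y' : Finset ℝ, Y' = (Icc 1 k).image (fun m : ℕ => x / k * (m : ℝ)) := ⟨_, rfl⟩
    have hY'c : (Y'.card : ℝ) ≤ k := by
      have : Y'.card ≤ k := by
        rw [hY']
        refine Finset.card_image_le.trans ?_
        rw [Nat.card_Icc]
        omega
      exact_mod_cast this
    have hh : 2 ≤ x / k := by
      rw [le_div_iff₀ hk0]
      calc 2 * (k : ℝ) ≤ 2 * (Real.log x) ^ (|B| + 2) := by linarith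
        _ ≤ x := hd
    have hY'2 : ∀ z ∈ Y', 2 ≤ z ∧ z ≤ x := by
      intro z hz
      rw [hY', Finset.mem_image] at hz
      obtain ⟨m, hm, rfl⟩ := hz
      rw [Finset.mem_Icc] at hm
      have hm1 : (1 : ℝ) ≤ m := by exact_mod_cast hm.1
      have hmk : (m : ℝ) ≤ k := by exact_mod_cast hm.2
      constructor
      · nlinarith
      · calc x / k * (m : ℝ) ≤ x / k * k := mul_le_mul_of_nonneg_left hmk (by linarith)
          _ = x := by field_simp
    obtain ⟨y', hy'⟩ : ∃ y' : ℕ → ℕ → ℝ,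
        y' = fun i d => x / k * (⌈(k : ℝ) * y i d / x⌉₊ : ℝ) := ⟨_, rfl⟩
    have hy'Y : ∀ i d, y' i d ∈ Y' := by
      intro i d
      obtain ⟨h7, h8⟩ := hY (y i d) (hy i d)
      rw [hY', hy', Finset.mem_image]
      refine ⟨⌈(k : ℝ) * y i d / x⌉₊, ?_, rfl⟩
      rw [Finset.mem_Icc]
      constructor
      · rw [Nat.one_le_ceil_iff]
        have : 0 < y i d := by linarith
        have hx' : 0 < x := by linarith
        positivity
      · rw [Nat.ceil_le, div_le_iff₀ (by linarith)]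
        exact mul_le_mul_of_nonneg_left h8 hk0.le
    have hmain := hx2 x hx2' J s Y' y' hFam hJB2 (hY'c.trans hkB) hY'2 hy'Y
    have hterm : ∀ i ∈ J, RS θ Cls x (y i) (s i) ^ 2 ≤
        2 * RS θ Cls x (y' i) (s i) ^ 2 + 2 * (C1 * (x / ((k : ℝ) * Real.log x))) ^ 2 := by
      intro i _
      have h9 := hx3 x hx3' k hk1 hkB (y i) (s i) (fun d => hY (y i d) (hy i d))
      refine Wgr_sq _ _ _ (Wgr_RS_nonneg _ _ _ _ _) ?_
      rw [hy']
      exact h9
    have hsum := Finset.sum_le_sum hterm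
    rw [Finset.sum_add_distrib, ← Finset.mul_sum, Finset.sum_const, nsmul_eq_mul] at hsum
    have hsq : (C1 * (x / ((k : ℝ) * Real.log x))) ^ 2 =
        C1 ^ 2 * (x / Real.log x) ^ 2 / (k : ℝ) ^ 2 := by
      field_simp
    have hJk : (J.card : ℝ) / (k : ℝ) ^ 2 ≤ q := by
      rw [div_le_iff₀ (by positivity), ← hq3]
      nlinarith [mul_self_le_mul_self (by linarith : (0:ℝ) ≤ q) hkq, hq1]
    have hA : 2 * ∑ i ∈ J, RS θ Cls x (y' i) (s i) ^ 2 ≤ 4 * C * q * (x / Real.log x) ^ 2 := by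
      have h10 : C * (Y'.card : ℝ) * (x / Real.log x) ^ 2 ≤ C * (2 * q) * (x / Real.log x) ^ 2 := by
        refine mul_le_mul_of_nonneg_right ?_ hxL
        exact mul_le_mul_of_nonneg_left (hY'c.trans hk2) hC.le
      linarith
    have hBB : (J.card : ℝ) * (2 * (C1 * (x / ((k : ℝ) * Real.log x))) ^ 2) ≤
        2 * C1 ^ 2 * q * (x / Real.log x) ^ 2 := by
      rw [hsq]
      calc (J.card : ℝ) * (2 * (C1 ^ 2 * (x / Real.log x) ^ 2 / (k : ℝ) ^ 2))
          = 2 * C1 ^ 2 * (x / Real.log x) ^ 2 * ((J.card : ℝ) / (k : ℝ) ^ 2) := by ring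
        _ ≤ 2 * C1 ^ 2 * (x / Real.log x) ^ 2 * q :=
          mul_le_mul_of_nonneg_left hJk (by positivity)
        _ = _ := by ring
    calc ∑ i ∈ J, RS θ Cls x (y i) (s i) ^ 2
        ≤ 4 * C * q * (x / Real.log x) ^ 2 + 2 * C1 ^ 2 * q * (x / Real.log x) ^ 2 := by
          linarith
      _ = (4 * C + 2 * C1 ^ 2) * q * (x / Real.log x) ^ 2 := by ring

end Pool.Agent.Lib.TP
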