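import Pool.Agent.Lib.TP.SpecW

/-!
MP_00e23e_nt, directory Lib/TP, module Wlo: removing the lower bound for the moduli, residues with x^v values.
-/

namespace Pool.Agent.Lib.TP

open Finset Pool.Agent.Lib.EH3 Pool.Agent.Lib.TB Pool.Agent.Results.MP_00e23e_nt

private lemma Wlo_sum (F F1 F2 : Finset ℕ) (f : ℕ → ℝ) (hf : ∀ d, 0 ≤ f d)
    (h : ∀ d ∈ F, d ∈ F1 ∨ d ∈ F2) : ∑ d ∈ F, f d ≤ ∑ d ∈ F1, f d + ∑ d ∈ F2, f d := by
  have h1 : F ⊆ F1 ∪ F2 := fun d hd => Finset.mem_union.2 (h d hd)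
  have h2 := Finset.sum_union_inter (s₁ := F1) (s₂ := F2) (f := f)
  have h3 : 0 ≤ ∑ d ∈ F1 ∩ F2, f d := Finset.sum_nonneg fun d _ => hf d
  have h4 : ∑ d ∈ F, f d ≤ ∑ d ∈ F1 ∪ F2, f d :=
    Finset.sum_le_sum_of_subset_of_nonneg h1 fun d _ _ => hf d
  linarith

/-- the sum over the small moduli -/
private noncomputable def Wlo_Z (κ x : ℝ) (y : ℕ → ℝ) (s : ℕ → ℤ) : ℝ :=
  ∑ d ∈ (Icc 1 ⌊x ^ ((1 : ℝ) / 2 - κ)⌋₊).filter (fun d : ℕ => Int.gcd (s d) d = 1), |resErr (y d) d (s d)|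

private lemma Wlo_rs (θ κ : ℝ) (Cls : ℝ → ℕ → Prop) (x : ℝ) (y : ℕ → ℝ) (s : ℕ → ℤ) :
    RS θ Cls x y s ≤ RS θ (Clow κ Cls) x y s + Wlo_Z κ x y s := by
  classical
  unfold RS Wlo_Z
  apply Wlo_sum
  · intro d
    exact abs_nonneg _
  · intro d hd
    have hd1 := Finset.mem_filter.1 hd
    have hd2 := Finset.mem_Icc.1 hd1.1
    rcases lt_or_ge (x ^ ((1 : ℝ) / 2 - κ)) (d : ℝ) with h1 | h1
    · left
      exact Finset.mem_filter.2 ⟨hd1.1, hd1.2.1, h1, hd1.2.2⟩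
    · right
      exact Finset.mem_filter.2 ⟨Finset.mem_Icc.2 ⟨hd2.1, Nat.le_floor h1⟩, hd1.2.1⟩

private lemma Wlo_nonneg (θ : ℝ) (Cls : ℝ → ℕ → Prop) (x : ℝ) (y : ℕ → ℝ) (s : ℕ → ℤ) :
    0 ≤ RS θ Cls x y s := by
  unfold RS
  exact Finset.sum_nonneg fun d _ => abs_nonneg _

/-- **Module Wlo.** Removing the lower bound for the moduli. -/
theorem tWlo (h : QsmStmt) : WloStmt := by
  intro θ v κ Cls hκ
  rintro ⟨C, hC, hb⟩
  refine ⟨2 * C + 2, by positivity, ?_⟩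
  intro B
  obtain ⟨x1, hx1⟩ := hb B
  obtain ⟨C1, x2, hC1, hZ⟩ := h κ (|B| + 2) hκ (by positivity)
  refine ⟨max (max x1 x2) (Real.exp (C1 + 1)), ?_⟩
  intro x hx J s Y y hF hJ hY hy
  have hxa : x1 ≤ x := (le_max_left _ _).trans ((le_max_left _ _).trans hx)
  have hxb : x2 ≤ x := (le_max_right _ _).trans ((le_max_left _ _).trans hx)
  have hxc : Real.exp (C1 + 1) ≤ x := (le_max_right _ _).trans hx
  have hx0 : 0 < x := lt_of_lt_of_le (Real.exp_pos _) hxc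
  have hL : C1 + 1 ≤ Real.log x := by
    rw [Real.le_log_iff_exp_le hx0]
    exact hxc
  have hL1 : 1 ≤ Real.log x := by linarith
  have hL0 : 0 < Real.log x := by linarith
  have e1 := hx1 x hxa J s Y y hF hJ hY hy
  rcases J.eq_empty_or_nonempty with hJe | hJn
  · rw [hJe, Finset.sum_empty]
    have f1 : 0 ≤ min (Y.card : ℝ) (((∅ : Finset ℕ).card : ℝ) ^ ((1 : ℝ) / 3)) :=
      le_min (Nat.cast_nonneg _) (Real.rpow_nonneg (Nat.cast_nonneg _) _)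
    positivity
  have hJ1 : (1 : ℝ) ≤ (J.card : ℝ) := by
    exact_mod_cast Finset.card_pos.2 hJn
  have hY1 : (1 : ℝ) ≤ (Y.card : ℝ) := by
    exact_mod_cast Finset.card_pos.2 ⟨y 0 0, hy 0 0⟩
  have hm : 1 ≤ min (Y.card : ℝ) ((J.card : ℝ) ^ ((1 : ℝ) / 3)) :=
    le_min hY1 (Real.one_le_rpow hJ1 (by norm_num))
  obtain ⟨m, hme⟩ : ∃ m, min (Y.card : ℝ) ((J.card : ℝ) ^ ((1 : ℝ) / 3)) = m := ⟨_, rfl⟩
  obtain ⟨L, hLe⟩ : ∃ L, Real.log x = L := ⟨_, rfl⟩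
  obtain ⟨P, hP⟩ : ∃ P, L ^ |B| = P := ⟨_, rfl⟩
  have e2 : ∀ i, Wlo_Z κ x (y i) (s i) ≤ C1 * (x / (P * L ^ 2)) := by
    intro i
    have f1 := hZ x hxb (y i) (s i) (fun d => hY _ (hy i d))
    have f2 : Real.log x ^ (|B| + 2) = P * L ^ 2 := by
      rw [Real.rpow_add hL0, hLe, hP, Real.rpow_two]
    rw [f2] at f1
    exact f1
  rw [hme] at hm e1 ⊢
  rw [hLe] at hL hL1 hL0 hJ e1 ⊢
  have hP1 : 1 ≤ P := by
    rw [← hP]
    exact Real.one_le_rpow hL1 (abs_nonneg B)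
  have hJP : (J.card : ℝ) ≤ P := by
    refine hJ.trans ?_
    rw [← hP]
    exact Real.rpow_le_rpow_of_exponent_le hL1 (le_abs_self B)
  have e3 : ∑ i ∈ J, RS θ Cls x (y i) (s i) ^ 2 ≤
      ∑ i ∈ J, (2 * RS θ (Clow κ Cls) x (y i) (s i) ^ 2 + 2 * (C1 * (x / (P * L ^ 2))) ^ 2) := by
    apply Finset.sum_le_sum
    intro i _
    have f1 := Wlo_rs θ κ Cls x (y i) (s i)
    have f2 := Wlo_nonneg θ Cls x (y i) (s i)
    have f3 := e2 i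
    have f4 : RS θ Cls x (y i) (s i) ^ 2 ≤
        (RS θ (Clow κ Cls) x (y i) (s i) + C1 * (x / (P * L ^ 2))) ^ 2 :=
      pow_le_pow_left₀ f2 (by linarith) 2
    nlinarith [sq_nonneg (RS θ (Clow κ Cls) x (y i) (s i) - C1 * (x / (P * L ^ 2)))]
  rw [Finset.sum_add_distrib, ← Finset.mul_sum, Finset.sum_const, nsmul_eq_mul] at e3
  have e4 : (J.card : ℝ) * (2 * (C1 * (x / (P * L ^ 2))) ^ 2) ≤ 2 * (x / L) ^ 2 := by
    have g1 : (J.card : ℝ) * (2 * (C1 * (x / (P * L ^ 2))) ^ 2) ≤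
        P * (2 * (C1 * (x / (P * L ^ 2))) ^ 2) := mul_le_mul_of_nonneg_right hJP (by positivity)
    have g2 : P * (2 * (C1 * (x / (P * L ^ 2))) ^ 2) = 2 * (x / L) ^ 2 * (C1 ^ 2 / (P * L ^ 2)) := by
      field_simp
    have g3 : C1 ^ 2 / (P * L ^ 2) ≤ 1 := by
      rw [div_le_one (by positivity)]
      have g4 : C1 ^ 2 ≤ L ^ 2 := pow_le_pow_left₀ hC1 (by linarith) 2
      nlinarith [sq_nonneg L]
    have g5 : 2 * (x / L) ^ 2 * (C1 ^ 2 / (P * L ^ 2)) ≤ 2 * (x / L) ^ 2 * 1 :=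
      mul_le_mul_of_nonneg_left g3 (by positivity)
    linarith
  have e5 : 2 * (x / L) ^ 2 ≤ 2 * m * (x / L) ^ 2 := by
    nlinarith [sq_nonneg (x / L)]
  have e6 : (2 * C + 2) * m * (x / L) ^ 2 = 2 * (C * m * (x / L) ^ 2) + 2 * m * (x / L) ^ 2 := by
    ring
  rw [e6]
  linarith

end Pool.Agent.Lib.TP
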