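import Pool.Agent.Lib.TP.SpecW

/-!
MP_00e23e_nt, directory Lib/TP, module Wof: the off-diagonal estimate with the sieve weight for a family.
-/

namespace Pool.Agent.Lib.TP

open Finset Pool.Agent.Lib.EH3 Pool.Agent.Lib.TB Pool.Agent.Results.MP_00e23e_nt

/-- the number of dyadic blocks -/
private theorem Wof_clog (D : ℕ) (N s : ℝ) (hs : 0 < s) (hN : 1 ≤ N) (hD : (D : ℝ) ≤ N) :
    (Nat.clog 2 D : ℝ) ≤ (2 ^ s / (s * Real.log 2)) * N ^ s := by
  have hlog2 : 0 < Real.log 2 := Real.log_pos (by norm_num)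
  have h1 : ((2 ^ Nat.clog 2 D : ℕ) : ℝ) ≤ 2 * N := by
    by_cases hD2 : 1 < D
    · have h2 := Nat.pow_pred_clog_lt_self (b := 2) (by norm_num) hD2
      have h3 : 0 < Nat.clog 2 D := Nat.clog_pos (by norm_num) (by omega)
      have h4 : 2 ^ Nat.clog 2 D = 2 * 2 ^ (Nat.clog 2 D).pred := by
        rw [← pow_succ']
        congr 1
        exact (Nat.succ_pred_eq_of_pos h3).symm
      rw [h4]
      push_cast
      have h5 : ((2 ^ (Nat.clog 2 D).pred : ℕ) : ℝ) ≤ D := by exact_mod_cast h2.le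
      push_cast at h5
      linarith
    · have h2 : Nat.clog 2 D = 0 := Nat.clog_of_right_le_one (by omega) 2
      rw [h2]
      push_cast
      linarith
  have h2 : Real.log ((2 ^ Nat.clog 2 D : ℕ) : ℝ) = (Nat.clog 2 D : ℝ) * Real.log 2 := by
    push_cast
    rw [Real.log_pow]
  have h3 := Real.log_le_rpow_div (x := ((2 ^ Nat.clog 2 D : ℕ) : ℝ)) (by positivity) hs
  rw [h2] at h3
  have h4 : ((2 ^ Nat.clog 2 D : ℕ) : ℝ) ^ s ≤ 2 ^ s * N ^ s := by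
    rw [← Real.mul_rpow (by norm_num) (by linarith)]
    exact Real.rpow_le_rpow (by positivity) h1 hs.le
  have h5 : (Nat.clog 2 D : ℝ) * Real.log 2 ≤ 2 ^ s * N ^ s / s :=
    h3.trans (div_le_div_of_nonneg_right h4 hs.le)
  have h6 : (Nat.clog 2 D : ℝ) ≤ 2 ^ s * N ^ s / s / Real.log 2 := by
    rw [le_div_iff₀ hlog2]
    exact h5
  refine h6.trans (le_of_eq ?_)
  field_simp

/-- a block above D is empty -/
private theorem Wof_zero (R Q D : ℕ) (c : ℕ → ℝ) (m : ℤ) (h : D < Q) :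
    FF R Q (fun d => if R < d ∧ d ≤ D then c d else 0) m = 0 := by
  unfold FF
  split_ifs with hm
  · rfl
  · refine Finset.sum_eq_zero fun d hd => ?_
    rw [Finset.mem_Ioc] at hd
    have h1 : ¬ (R < d ∧ d ≤ D) := fun h2 => by omega
    simp only [if_neg h1, zero_mul]

theorem tWof (hQnu : QnuStmt) (hQbl : QblStmt) : WofStmt := by
  intro δ v ε e1 e2 hδ hδ4 hOff
  obtain ⟨j, C0, η0, κ0, hη0, hκ0, hO⟩ := hOff
  obtain ⟨s, hs⟩ : ∃ s : ℝ, s = η0 / 16 := ⟨_, rfl⟩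
  obtain ⟨κ, hκ⟩ : ∃ κ : ℝ, κ = min (κ0 / 2) (min (η0 / 16) (1 / 4)) := ⟨_, rfl⟩
  have hs0 : 0 < s := by rw [hs]; linarith
  have hκpos : 0 < κ := by
    rw [hκ]
    exact lt_min (by linarith) (lt_min (by linarith) (by norm_num))
  have hκ1 : κ ≤ κ0 / 2 := by rw [hκ]; exact min_le_left _ _
  have hκ2 : κ ≤ η0 / 16 := by
    rw [hκ]; exact (min_le_right _ _).trans (min_le_left _ _)
  have hκ3 : κ ≤ 1 / 4 := by
    rw [hκ]; exact (min_le_right _ _).trans (min_le_right _ _)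
  obtain ⟨C2, hC2⟩ : ∃ C2 : ℝ, C2 = 2 ^ s / (s * Real.log 2) := ⟨_, rfl⟩
  have hlog2 : 0 < Real.log 2 := Real.log_pos (by norm_num)
  have hC2pos : 0 < C2 := by rw [hC2]; positivity
  refine ⟨j, C2 ^ 2 * |C0|, η0 / 2, κ, ⌈(2 : ℝ) ^ (2 / κ0)⌉₊, by linarith, hκpos, ?_⟩
  intro N E D L1 L2 K lam A c hN0 hN hE hEN hDN hL1 hL2 hlam hcf hK1 hcs hAc hA
  have hNr : (1 : ℝ) ≤ N := by exact_mod_cast hN
  have hNpos : (0 : ℝ) < N := by linarith
  have hδ1 : (1 : ℝ) / 2 + δ ≤ 1 := by linarith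
  -- Q0
  obtain ⟨Q0, hQ0⟩ : ∃ Q0 : ℕ, Q0 = ⌊(N : ℝ) ^ ((1 : ℝ) / 2 - κ)⌋₊ := ⟨_, rfl⟩
  have hT1 : 1 ≤ (N : ℝ) ^ ((1 : ℝ) / 2 - κ) := Real.one_le_rpow hNr (by linarith)
  have hQ01 : 1 ≤ Q0 := by
    rw [hQ0]
    exact (Nat.one_le_floor_iff _).2 hT1
  have hQ0le : (Q0 : ℝ) ≤ (N : ℝ) ^ ((1 : ℝ) / 2 - κ) := by
    rw [hQ0]
    exact Nat.floor_le (by positivity)
  have hN2 : 2 ≤ (N : ℝ) ^ (κ0 / 2) := by
    have h1 : (2 : ℝ) ^ (2 / κ0) ≤ N := (Nat.le_ceil _).trans (by exact_mod_cast hN0)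
    have h2 : ((2 : ℝ) ^ (2 / κ0)) ^ (κ0 / 2) ≤ (N : ℝ) ^ (κ0 / 2) :=
      Real.rpow_le_rpow (by positivity) h1 (by linarith)
    rw [← Real.rpow_mul (by norm_num)] at h2
    have h3 : 2 / κ0 * (κ0 / 2) = 1 := by field_simp
    rwa [h3, Real.rpow_one] at h2
  have hQ0ge : (N : ℝ) ^ ((1 : ℝ) / 2 - κ0) ≤ Q0 := by
    have h1 : (N : ℝ) ^ ((1 : ℝ) / 2 - κ) < Q0 + 1 := by
      rw [hQ0]
      exact Nat.lt_floor_add_one _
    have h2 : (1 : ℝ) ≤ Q0 := by exact_mod_cast hQ01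
    have h3 : (N : ℝ) ^ ((1 : ℝ) / 2 - κ0) * 2 ≤ (N : ℝ) ^ ((1 : ℝ) / 2 - κ) := by
      calc (N : ℝ) ^ ((1 : ℝ) / 2 - κ0) * 2 ≤ (N : ℝ) ^ ((1 : ℝ) / 2 - κ0) * (N : ℝ) ^ (κ0 / 2) :=
            mul_le_mul_of_nonneg_left hN2 (by positivity)
        _ = (N : ℝ) ^ ((1 : ℝ) / 2 - κ0 + κ0 / 2) := by rw [Real.rpow_add hNpos]
        _ ≤ (N : ℝ) ^ ((1 : ℝ) / 2 - κ) := Real.rpow_le_rpow_of_exponent_le hNr (by linarith)
    linarith
  have hcQ : ∀ a d, c a d ≠ 0 → Q0 < d := by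
    intro a d hd
    have h1 := hQ0le.trans_lt (hcs a d hd).2.2
    exact_mod_cast h1
  obtain ⟨k, hk⟩ : ∃ k : ℕ, k = Nat.clog 2 D := ⟨_, rfl⟩
  have hDk : D ≤ 2 ^ k * Q0 := by
    rw [hk]
    exact (Nat.le_pow_clog (by norm_num) D).trans (Nat.le_mul_of_pos_right _ (by omega))
  have hDN1 : (D : ℝ) ≤ N := by
    refine hDN.trans ?_
    calc (N : ℝ) ^ ((1 : ℝ) / 2 + δ) ≤ (N : ℝ) ^ (1 : ℝ) :=
          Real.rpow_le_rpow_of_exponent_le hNr hδ1
      _ = N := Real.rpow_one _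
  have hkN : (k : ℝ) ≤ C2 * (N : ℝ) ^ s := by
    rw [hk, hC2]
    exact Wof_clog D N s hs0 hNr hDN1
  obtain ⟨R, hR⟩ : ∃ R : ℕ, R = Pool.Agent.Lib.TN.RN δ ε N := ⟨_, rfl⟩
  obtain ⟨B, hB⟩ : ∃ B : ℝ, B = |C0| * K ^ 2 * (N : ℝ) ^ (1 - η0) := ⟨_, rfl⟩
  have hB0 : 0 ≤ B := by rw [hB]; positivity
  -- one f
  have hone : ∀ f : ℕ, 1 ≤ f → f ≤ E ^ 2 → (∀ p : ℕ, p.Prime → p ∣ f → p ≤ E) →
      |∑ n ∈ rn N j, Pool.Agent.Lib.TN.wt N j n *
        (if (f : ℤ) ∣ n then 1 else 0) *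
          (∑ a ∈ A, ∑ b ∈ A.erase a, GF R D (c a) (n - a) * GF R D (c b) (n - b))| ≤
      (k : ℝ) ^ 2 * B := by
    intro f hf1 hfE hfp
    have hfN : (f : ℝ) ≤ (N : ℝ) ^ κ0 := by
      have h1 : (f : ℝ) ≤ (E : ℝ) ^ 2 := by exact_mod_cast hfE
      have h2 : (E : ℝ) ^ 2 ≤ ((N : ℝ) ^ κ) ^ 2 := by
        have : (0 : ℝ) ≤ E := by positivity
        exact pow_le_pow_left₀ this hEN 2
      have h3 : ((N : ℝ) ^ κ) ^ 2 = (N : ℝ) ^ (κ * 2) := by
        rw [Real.rpow_mul hNpos.le]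
        norm_cast
      rw [h3] at h2
      exact (h1.trans h2).trans (Real.rpow_le_rpow_of_exponent_le hNr (by linarith))
    have hcop : ∀ d : ℕ, Rgh E d → f.Coprime d := by
      intro d hd
      refine Nat.Coprime.symm (Nat.coprime_of_dvd fun p hp h1 h2 => ?_)
      have h3 := hd p hp h1
      have h4 := hfp p hp h2
      omega
    obtain ⟨cr, hcr⟩ : ∃ cr : ℤ → ℕ → ℝ, cr = fun a d => if R < d ∧ d ≤ D then c a d else 0 := ⟨_, rfl⟩
    have hbe : ∀ a d, |cr a d| ≤ |c a d| := by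
      intro a d
      rw [hcr]
      dsimp only
      split_ifs
      · exact le_refl _
      · rw [abs_zero]
        exact abs_nonneg _
    have hb1 : Pool.Agent.Lib.TM.IsCf A K cr :=
      ⟨fun a d => (hbe a d).trans (hcf.1 a d),
        fun d => (Finset.sum_le_sum fun a _ => hbe a d).trans (hcf.2 d)⟩
    have hb2 : ∀ a d, cr a d ≠ 0 → Pool.Agent.Lib.TN.Conv L1 L2 d ∧ f.Coprime d := by
      intro a d hd
      rw [hcr] at hd
      dsimp only at hd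
      split_ifs at hd
      · exact ⟨(hcs a d hd).1, hcop d (hcs a d hd).2.1⟩
      · exact absurd rfl hd
    have hexp : ∑ n ∈ rn N j, Pool.Agent.Lib.TN.wt N j n *
        (if (f : ℤ) ∣ n then 1 else 0) *
          (∑ a ∈ A, ∑ b ∈ A.erase a, GF R D (c a) (n - a) * GF R D (c b) (n - b)) =
        ∑ i ∈ range k, ∑ i' ∈ range k, ∑ a ∈ A, ∑ b ∈ A.erase a, ∑ n ∈ rn N j,
          Pool.Agent.Lib.TN.wt N j n * (if (f : ℤ) ∣ n then 1 else 0) *
            (FF R (2 ^ i * Q0) (cr a) (n - a) * FF R (2 ^ i' * Q0) (cr b) (n - b)) := by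
      have k0 : ∀ n : ℤ, ∀ a b : ℤ, GF R D (c a) (n - a) * GF R D (c b) (n - b) =
          ∑ i ∈ range k, ∑ i' ∈ range k,
            FF R (2 ^ i * Q0) (cr a) (n - a) * FF R (2 ^ i' * Q0) (cr b) (n - b) := by
        intro n a b
        rw [hQbl R Q0 D k (c a) (n - a) hQ01 hDk (hcQ a), hQbl R Q0 D k (c b) (n - b) hQ01 hDk (hcQ b),
          Finset.sum_mul_sum, hcr]
      have k1 : ∀ n ∈ rn N j, Pool.Agent.Lib.TN.wt N j n *
          (if (f : ℤ) ∣ n then 1 else 0) *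
            (∑ a ∈ A, ∑ b ∈ A.erase a, GF R D (c a) (n - a) * GF R D (c b) (n - b)) =
          ∑ i ∈ range k, ∑ i' ∈ range k, ∑ a ∈ A, ∑ b ∈ A.erase a,
            Pool.Agent.Lib.TN.wt N j n * (if (f : ℤ) ∣ n then 1 else 0) *
              (FF R (2 ^ i * Q0) (cr a) (n - a) * FF R (2 ^ i' * Q0) (cr b) (n - b)) := by
        intro n _
        have k2 : ∑ a ∈ A, ∑ b ∈ A.erase a, GF R D (c a) (n - a) * GF R D (c b) (n - b) =
            ∑ i ∈ range k, ∑ i' ∈ range k, ∑ a ∈ A, ∑ b ∈ A.erase a,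
              FF R (2 ^ i * Q0) (cr a) (n - a) * FF R (2 ^ i' * Q0) (cr b) (n - b) := by
          have k3 : ∀ a ∈ A, ∑ b ∈ A.erase a, GF R D (c a) (n - a) * GF R D (c b) (n - b) =
              ∑ i ∈ range k, ∑ i' ∈ range k, ∑ b ∈ A.erase a,
                FF R (2 ^ i * Q0) (cr a) (n - a) * FF R (2 ^ i' * Q0) (cr b) (n - b) := by
            intro a _
            rw [Finset.sum_congr rfl fun b _ => k0 n a b, Finset.sum_comm]
            refine Finset.sum_congr rfl fun i _ => ?_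
            rw [Finset.sum_comm]
          rw [Finset.sum_congr rfl k3, Finset.sum_comm]
          refine Finset.sum_congr rfl fun i _ => ?_
          rw [Finset.sum_comm]
        rw [k2]
        simp only [Finset.mul_sum]
      rw [Finset.sum_congr rfl k1, Finset.sum_comm]
      refine Finset.sum_congr rfl fun i _ => ?_
      rw [Finset.sum_comm]
      refine Finset.sum_congr rfl fun i' _ => ?_
      rw [Finset.sum_comm]
      refine Finset.sum_congr rfl fun a _ => ?_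
      rw [Finset.sum_comm]
    rw [hexp]
    have hblk : ∀ i ∈ range k, ∀ i' ∈ range k, |∑ a ∈ A, ∑ b ∈ A.erase a, ∑ n ∈ rn N j,
          Pool.Agent.Lib.TN.wt N j n * (if (f : ℤ) ∣ n then 1 else 0) *
            (FF R (2 ^ i * Q0) (cr a) (n - a) * FF R (2 ^ i' * Q0) (cr b) (n - b))| ≤ B := by
      intro i _ i' _
      by_cases h1 : D < 2 ^ i * Q0
      · have hz : ∑ a ∈ A, ∑ b ∈ A.erase a, ∑ n ∈ rn N j,
            Pool.Agent.Lib.TN.wt N j n * (if (f : ℤ) ∣ n then 1 else 0) *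
              (FF R (2 ^ i * Q0) (cr a) (n - a) * FF R (2 ^ i' * Q0) (cr b) (n - b)) = 0 := by
          refine Finset.sum_eq_zero fun a _ => Finset.sum_eq_zero fun b _ =>
            Finset.sum_eq_zero fun n _ => ?_
          have h5 := Wof_zero R (2 ^ i * Q0) D (c a) (n - a) h1
          have h6 : cr a = fun d => if R < d ∧ d ≤ D then c a d else 0 := by rw [hcr]
          rw [h6, h5, zero_mul, mul_zero]
        rw [hz, abs_zero]
        exact hB0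
      by_cases h2 : D < 2 ^ i' * Q0
      · have hz : ∑ a ∈ A, ∑ b ∈ A.erase a, ∑ n ∈ rn N j,
            Pool.Agent.Lib.TN.wt N j n * (if (f : ℤ) ∣ n then 1 else 0) *
              (FF R (2 ^ i * Q0) (cr a) (n - a) * FF R (2 ^ i' * Q0) (cr b) (n - b)) = 0 := by
          refine Finset.sum_eq_zero fun a _ => Finset.sum_eq_zero fun b _ =>
            Finset.sum_eq_zero fun n _ => ?_
          have h5 := Wof_zero R (2 ^ i' * Q0) D (c b) (n - b) h2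
          have h6 : cr b = fun d => if R < d ∧ d ≤ D then c b d else 0 := by rw [hcr]
          rw [h6, h5, mul_zero, mul_zero]
        rw [hz, abs_zero]
        exact hB0
      push Not at h1 h2
      have g1 : ∀ i : ℕ, (N : ℝ) ^ ((1 : ℝ) / 2 - κ0) ≤ ((2 ^ i * Q0 : ℕ) : ℝ) := by
        intro i
        refine hQ0ge.trans ?_
        exact_mod_cast Nat.le_mul_of_pos_left Q0 (by positivity)
      have g2 : ∀ i : ℕ, 2 ^ i * Q0 ≤ D → ((2 ^ i * Q0 : ℕ) : ℝ) ≤ 2 * (N : ℝ) ^ ((1 : ℝ) / 2 + δ) := by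
        intro i hi
        have h3 : ((2 ^ i * Q0 : ℕ) : ℝ) ≤ D := by exact_mod_cast hi
        have h4 : 0 ≤ (N : ℝ) ^ ((1 : ℝ) / 2 + δ) := by positivity
        linarith
      have hK0 : (N : ℝ) ^ (0 : ℝ) ≤ K := by
        rw [Real.rpow_zero]
        exact hK1
      have h3 := hO N (2 ^ i * Q0) (2 ^ i' * Q0) f L1 L2 K A cr cr hN (g1 i) (g2 i h1) (g1 i')
        (g2 i' h2) hf1 hfN hL1 hL2 hb1 hb1 hb2 hb2 hAc hK0 hA
      rw [← hR] at h3
      have h4 : C0 * K ^ 2 * (N : ℝ) ^ (1 - η0) ≤ B := by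
        rw [hB]
        refine mul_le_mul_of_nonneg_right ?_ (by positivity)
        exact mul_le_mul_of_nonneg_right (le_abs_self C0) (by positivity)
      exact h3.trans h4
    refine (Finset.abs_sum_le_sum_abs _ _).trans ?_
    have hsum : ∑ i ∈ range k, |∑ i' ∈ range k, ∑ a ∈ A, ∑ b ∈ A.erase a, ∑ n ∈ rn N j,
          Pool.Agent.Lib.TN.wt N j n * (if (f : ℤ) ∣ n then 1 else 0) *
            (FF R (2 ^ i * Q0) (cr a) (n - a) * FF R (2 ^ i' * Q0) (cr b) (n - b))| ≤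
        ∑ _i ∈ range k, ∑ _i' ∈ range k, B := by
      refine Finset.sum_le_sum fun i hi => ?_
      exact (Finset.abs_sum_le_sum_abs _ _).trans (Finset.sum_le_sum fun i' hi' => hblk i hi i' hi')
    refine hsum.trans (le_of_eq ?_)
    rw [Finset.sum_const, Finset.sum_const, Finset.card_range, nsmul_eq_mul, nsmul_eq_mul]
    ring
  have hmain := hQnu (rn N j) (Pool.Agent.Lib.TN.wt N j)
    (fun n => ∑ a ∈ A, ∑ b ∈ A.erase a, GF R D (c a) (n - a) * GF R D (c b) (n - b)) lam E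
    ((k : ℝ) ^ 2 * B) hlam hone
  rw [← hR]
  have hex : ∑ a ∈ A, ∑ b ∈ A.erase a, ∑ n ∈ rn N j, Pool.Agent.Lib.TN.wt N j n * nu lam E n *
        (GF R D (c a) (n - a) * GF R D (c b) (n - b)) =
      ∑ n ∈ rn N j, Pool.Agent.Lib.TN.wt N j n * nu lam E n *
        (∑ a ∈ A, ∑ b ∈ A.erase a, GF R D (c a) (n - a) * GF R D (c b) (n - b)) := by
    simp only [Finset.mul_sum]
    rw [Finset.sum_comm (s := rn N j) (t := A)]
    refine Finset.sum_congr rfl fun a _ => ?_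
    rw [Finset.sum_comm]
  rw [hex]
  refine hmain.trans ?_
  have hE2 : (E : ℝ) ^ 2 ≤ (N : ℝ) ^ (2 * κ) := by
    have h2 : (E : ℝ) ^ 2 ≤ ((N : ℝ) ^ κ) ^ 2 := by
      have : (0 : ℝ) ≤ E := by positivity
      exact pow_le_pow_left₀ this hEN 2
    refine h2.trans (le_of_eq ?_)
    rw [mul_comm 2 κ, Real.rpow_mul hNpos.le]
    norm_cast
  have hk2 : (k : ℝ) ^ 2 ≤ C2 ^ 2 * (N : ℝ) ^ (2 * s) := by
    have h2 : (k : ℝ) ^ 2 ≤ (C2 * (N : ℝ) ^ s) ^ 2 := pow_le_pow_left₀ (by positivity) hkN 2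
    refine h2.trans (le_of_eq ?_)
    rw [mul_pow, mul_comm 2 s, Real.rpow_mul hNpos.le]
    norm_cast
  rw [hB]
  calc (E : ℝ) ^ 2 * ((k : ℝ) ^ 2 * (|C0| * K ^ 2 * (N : ℝ) ^ (1 - η0))) ≤
      (N : ℝ) ^ (2 * κ) * ((C2 ^ 2 * (N : ℝ) ^ (2 * s)) * (|C0| * K ^ 2 * (N : ℝ) ^ (1 - η0))) := by
        apply mul_le_mul hE2 _ (by positivity) (by positivity)
        exact mul_le_mul_of_nonneg_right hk2 (by positivity)
    _ = C2 ^ 2 * |C0| * K ^ 2 * ((N : ℝ) ^ (2 * κ) * (N : ℝ) ^ (2 * s) * (N : ℝ) ^ (1 - η0)) := by ring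
    _ = C2 ^ 2 * |C0| * K ^ 2 * (N : ℝ) ^ (2 * κ + 2 * s + (1 - η0)) := by
        rw [← Real.rpow_add hNpos, ← Real.rpow_add hNpos]
    _ ≤ C2 ^ 2 * |C0| * K ^ 2 * (N : ℝ) ^ (1 - η0 / 2) := by
        apply mul_le_mul_of_nonneg_left _ (by positivity)
        exact Real.rpow_le_rpow_of_exponent_le hNr (by rw [hs]; linarith)

end Pool.Agent.Lib.TP
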