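import Pool.Agent.Lib.TP.SpecW

/-!
# TP, module Wpu: the local Bessel inequality for a family
-/

namespace Pool.Agent.Lib.TP

open Finset Pool.Agent.Lib.EH3 Pool.Agent.Lib.TB Pool.Agent.Results.MP_00e23e_nt

/-- the coefficients of the dual sum -/
private noncomputable def Wpu_c (R D : ℕ) (J : Finset ℕ) (σ : ℕ → ℕ → ℝ) (s : ℕ → ℕ → ℤ) (Y : ℕ → ℝ) (a : ℤ) (d : ℕ) : ℝ :=
  ∑ i ∈ J, if s i d = a ∧ d ∈ Ioc R D then Y i * σ i d else 0

private lemma Wpu_sq {J : Finset ℕ} (f : ℕ → ℝ) (h : ∀ i ∈ J, ∀ j ∈ J, i ≠ j → f i * f j = 0) :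
    (∑ i ∈ J, f i) ^ 2 = ∑ i ∈ J, f i ^ 2 := by
  rw [sq, Finset.sum_mul_sum]
  apply Finset.sum_congr rfl
  intro i hi
  rw [Finset.sum_eq_single i]
  · ring
  · intro j hj hji
    exact h i hi j hj (Ne.symm hji)
  · intro h1
    exact absurd hi h1

private lemma Wpu_csq {R D : ℕ} {J : Finset ℕ} {σ : ℕ → ℕ → ℝ} {s : ℕ → ℕ → ℤ} {Y : ℕ → ℝ}
    (hσ : ∀ i d, |σ i d| ≤ 1)
    (hne : ∀ i ∈ J, ∀ j ∈ J, i ≠ j → ∀ d ∈ Icc 1 D, s i d ≠ s j d) (A : Finset ℤ) (d : ℕ) :
    ∑ a ∈ A, Wpu_c R D J σ s Y a d ^ 2 ≤ ∑ i ∈ J, Y i ^ 2 := by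
  have h1 : ∀ a ∈ A, Wpu_c R D J σ s Y a d ^ 2 =
      ∑ i ∈ J, (if s i d = a ∧ d ∈ Ioc R D then Y i * σ i d else 0) ^ 2 := by
    intro a _
    unfold Wpu_c
    apply Wpu_sq
    intro i hi j hj hij
    by_cases h2 : s i d = a ∧ d ∈ Ioc R D
    · by_cases h3 : s j d = a ∧ d ∈ Ioc R D
      · exfalso
        have h4 := Finset.mem_Ioc.1 h2.2
        exact hne i hi j hj hij d (Finset.mem_Icc.2 ⟨by omega, h4.2⟩) (h2.1.trans h3.1.symm)
      · rw [if_neg h3, mul_zero]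
    · rw [if_neg h2, zero_mul]
  rw [Finset.sum_congr rfl h1, Finset.sum_comm]
  apply Finset.sum_le_sum
  intro i _
  have hb : (Y i * σ i d) ^ 2 ≤ Y i ^ 2 := by
    have h2 : σ i d ^ 2 ≤ 1 := by
      rw [← sq_abs]
      exact pow_le_one₀ (abs_nonneg _) (hσ i d)
    rw [mul_pow]
    exact mul_le_of_le_one_right (sq_nonneg _) h2
  calc ∑ a ∈ A, (if s i d = a ∧ d ∈ Ioc R D then Y i * σ i d else 0) ^ 2
      ≤ ∑ a ∈ A, (if s i d = a then Y i ^ 2 else 0) := by
        apply Finset.sum_le_sum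
        intro a _
        by_cases h2 : s i d = a
        · by_cases h3 : d ∈ Ioc R D
          · rw [if_pos ⟨h2, h3⟩, if_pos h2]
            exact hb
          · rw [if_neg (fun h => h3 h.2), if_pos h2, zero_pow two_ne_zero]
            exact sq_nonneg _
        · rw [if_neg (fun h => h2 h.1), if_neg h2, zero_pow two_ne_zero]
    _ ≤ Y i ^ 2 := by
        rw [Finset.sum_ite_eq]
        split_ifs
        · exact le_refl _
        · exact sq_nonneg _

private lemma Wpu_cl {R D : ℕ} {J : Finset ℕ} {σ : ℕ → ℕ → ℝ} {s : ℕ → ℕ → ℤ} {Y : ℕ → ℝ} {Cl : ℕ → Prop}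
    (hσ : ∀ i d, σ i d ≠ 0 → Cl d) (a : ℤ) (d : ℕ) (h : Wpu_c R D J σ s Y a d ≠ 0) : Cl d := by
  unfold Wpu_c at h
  obtain ⟨i, _, hi⟩ := Finset.exists_ne_zero_of_sum_ne_zero h
  by_cases h2 : s i d = a ∧ d ∈ Ioc R D
  · rw [if_pos h2] at hi
    exact hσ i d (right_ne_zero_of_mul hi)
  · rw [if_neg h2] at hi
    exact absurd rfl hi

private lemma Wpu_GF_mul (R D : ℕ) (c : ℕ → ℝ) (k : ℝ) (m : ℤ) :
    GF R D (fun d => k * c d) m = k * GF R D c m := by
  unfold GF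
  split_ifs
  · rw [mul_zero]
  · rw [Finset.mul_sum]
    apply Finset.sum_congr rfl
    intro d _
    ring

private lemma Wpu_H (R D : ℕ) (P J : Finset ℕ) (σ : ℕ → ℕ → ℝ) (s : ℕ → ℕ → ℤ) (Y : ℕ → ℝ) (A : Finset ℤ)
    (hA : ∀ i ∈ J, ∀ d ∈ Ioc R D, s i d ∈ A) :
    ∑ p ∈ P, ∑ a ∈ A, GF R D (Wpu_c R D J σ s Y a) ((p : ℤ) - a) =
      ∑ i ∈ J, Y i * ∑ d ∈ Ioc R D, σ i d * gg R P (s i d) d := by
  have h1 : ∀ p ∈ P, ∑ a ∈ A, GF R D (Wpu_c R D J σ s Y a) ((p : ℤ) - a) =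
      ∑ i ∈ J, ∑ d ∈ Ioc R D, Y i * σ i d * (if (p : ℤ) - s i d = 0 then 0 else dd R d ((p : ℤ) - s i d)) := by
    intro p _
    have h2 : ∀ a ∈ A, GF R D (Wpu_c R D J σ s Y a) ((p : ℤ) - a) = ∑ i ∈ J, ∑ d ∈ Ioc R D,
        (if s i d = a then Y i * σ i d * (if (p : ℤ) - s i d = 0 then 0 else dd R d ((p : ℤ) - s i d)) else 0) := by
      intro a _
      unfold GF
      split_ifs with h3
      · symm
        apply Finset.sum_eq_zero
        intro i _
        apply Finset.sum_eq_zero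
        intro d _
        by_cases h4 : s i d = a
        · rw [if_pos h4, h4, if_pos h3, mul_zero]
        · rw [if_neg h4]
      · rw [Finset.sum_comm]
        apply Finset.sum_congr rfl
        intro d hd
        unfold Wpu_c
        rw [Finset.sum_mul]
        apply Finset.sum_congr rfl
        intro i _
        by_cases h4 : s i d = a
        · rw [if_pos ⟨h4, hd⟩, if_pos h4, h4, if_neg h3]
        · rw [if_neg (fun h => h4 h.1), if_neg h4, zero_mul]
    rw [Finset.sum_congr rfl h2, Finset.sum_comm]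
    apply Finset.sum_congr rfl
    intro i hi
    rw [Finset.sum_comm]
    apply Finset.sum_congr rfl
    intro d hd
    rw [Finset.sum_ite_eq A (s i d), if_pos (hA i hi d hd)]
  rw [Finset.sum_congr rfl h1, Finset.sum_comm]
  apply Finset.sum_congr rfl
  intro i _
  rw [Finset.sum_comm, Finset.mul_sum]
  apply Finset.sum_congr rfl
  intro d _
  unfold gg
  rw [← Finset.mul_sum]
  ring

/-- the sum of the absolute values of the coefficients -/
private lemma Wpu_abs {R D : ℕ} {J : Finset ℕ} {σ : ℕ → ℕ → ℝ} {s : ℕ → ℕ → ℤ} {Y : ℕ → ℝ} {q : ℝ}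
    (hσ : ∀ i d, |σ i d| ≤ 1) (hY : ∀ i ∈ J, |Y i| ≤ q) (A : Finset ℤ) (d : ℕ) :
    ∑ a ∈ A, |Wpu_c R D J σ s Y a d| ≤ J.card * q := by
  calc ∑ a ∈ A, |Wpu_c R D J σ s Y a d|
      ≤ ∑ a ∈ A, ∑ i ∈ J, (if s i d = a then |Y i| else 0) := by
        apply Finset.sum_le_sum
        intro a _
        unfold Wpu_c
        refine (Finset.abs_sum_le_sum_abs _ _).trans ?_
        apply Finset.sum_le_sum
        intro i _
        by_cases h2 : s i d = a
        · rw [if_pos h2]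
          split_ifs
          · rw [abs_mul]
            exact mul_le_of_le_one_right (abs_nonneg _) (hσ i d)
          · rw [abs_zero]
            exact abs_nonneg _
        · rw [if_neg h2, if_neg (fun h => h2 h.1), abs_zero]
    _ = ∑ i ∈ J, ∑ a ∈ A, (if s i d = a then |Y i| else 0) := Finset.sum_comm
    _ ≤ ∑ i ∈ J, q := by
        apply Finset.sum_le_sum
        intro i hi
        rw [Finset.sum_ite_eq]
        split_ifs
        · exact hY i hi
        · exact (abs_nonneg _).trans (hY i hi)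
    _ = J.card * q := by rw [Finset.sum_const, nsmul_eq_mul]

/-- the square of a sum -/
private lemma Wpu_sum (I : Finset ℤ) (w : ℤ → ℝ) (A : Finset ℤ) (F : ℤ → ℤ → ℝ) :
    ∑ n ∈ I, w n * (∑ a ∈ A, F a n) ^ 2 =
      ∑ a ∈ A, ∑ n ∈ I, w n * (F a n) ^ 2 + ∑ a ∈ A, ∑ b ∈ A.erase a, ∑ n ∈ I, w n * (F a n * F b n) := by
  have h2 : ∀ n ∈ I, w n * (∑ a ∈ A, F a n) ^ 2 =
      ∑ a ∈ A, (w n * (F a n) ^ 2 + ∑ b ∈ A.erase a, w n * (F a n * F b n)) := by
    intro n _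
    rw [sq, Finset.sum_mul_sum, Finset.mul_sum]
    apply Finset.sum_congr rfl
    intro a ha
    rw [← Finset.add_sum_erase A _ ha, mul_add, Finset.mul_sum]
    ring
  rw [Finset.sum_congr rfl h2, Finset.sum_comm, ← Finset.sum_add_distrib]
  apply Finset.sum_congr rfl
  intro a _
  rw [Finset.sum_add_distrib]
  congr 1
  exact Finset.sum_comm

theorem tWpu : WpuStmt := by
  intro R D E I w lam Cl X M T1 T2 w0 P J σ s hw0 hT1 hM0 hw hP hoff hdia hσ1 hσC hsX hsM hne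
  classical
  have hT2 : 0 ≤ T2 := by
    have h1 := hdia (fun _ _ => 0) ∅ 1 (fun _ _ h => absurd rfl h) (by intro d; simp) (by simp)
    simpa using h1
  have hPc : (0 : ℝ) ≤ P.card := Nat.cast_nonneg _
  obtain ⟨Y, hY⟩ : ∃ Y : ℕ → ℝ, Y = fun i => ∑ d ∈ Ioc R D, σ i d * gg R P (s i d) d := ⟨_, rfl⟩
  obtain ⟨S, hS⟩ : ∃ S : ℝ, S = ∑ i ∈ J, Y i ^ 2 := ⟨_, rfl⟩
  have hgoal : ∑ i ∈ J, (∑ d ∈ Ioc R D, σ i d * gg R P (s i d) d) ^ 2 = S := by
    rw [hS, hY]
  rw [hgoal]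
  have hS0 : 0 ≤ S := by
    rw [hS]
    exact Finset.sum_nonneg fun i _ => sq_nonneg _
  rcases hS0.eq_or_lt with hS1 | hS1
  · rw [← hS1]
    positivity
  have hJ : J.Nonempty := by
    rw [Finset.nonempty_iff_ne_empty]
    intro h
    rw [hS, h, Finset.sum_empty] at hS1
    exact lt_irrefl _ hS1
  have hJ1 : (1 : ℝ) ≤ J.card := by
    have := Finset.card_pos.2 hJ
    exact_mod_cast this
  obtain ⟨A, hA⟩ : ∃ A : Finset ℤ, A = J.biUnion fun i => (Ioc R D).image (s i) := ⟨_, rfl⟩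
  have hIcc : ∀ d ∈ Ioc R D, d ∈ Icc 1 D := by
    intro d hd
    have := Finset.mem_Ioc.1 hd
    exact Finset.mem_Icc.2 ⟨by omega, this.2⟩
  have hsA : ∀ i ∈ J, ∀ d ∈ Ioc R D, s i d ∈ A := by
    intro i hi d hd
    rw [hA]
    exact Finset.mem_biUnion.2 ⟨i, hi, Finset.mem_image_of_mem _ hd⟩
  have hAX : ∀ a ∈ A, |(a : ℝ)| ≤ X := by
    intro a ha
    rw [hA] at ha
    obtain ⟨i, hi, ha'⟩ := Finset.mem_biUnion.1 ha
    obtain ⟨d, hd, rfl⟩ := Finset.mem_image.1 ha'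
    exact hsX i hi d (hIcc d hd)
  have hAc : (A.card : ℝ) ≤ J.card * M := by
    rw [hA]
    calc ((J.biUnion fun i => (Ioc R D).image (s i)).card : ℝ) ≤
          ((∑ i ∈ J, ((Ioc R D).image (s i)).card : ℕ) : ℝ) := by
          exact_mod_cast Finset.card_biUnion_le
      _ = ∑ i ∈ J, (((Ioc R D).image (s i)).card : ℝ) := by push_cast; rfl
      _ ≤ ∑ i ∈ J, M := by
          apply Finset.sum_le_sum
          intro i hi
          refine le_trans ?_ (hsM i hi)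
          exact_mod_cast Finset.card_le_card (Finset.image_subset_image hIcc)
      _ = _ := by rw [Finset.sum_const, nsmul_eq_mul]
  obtain ⟨c, hc⟩ : ∃ c : ℤ → ℕ → ℝ, c = Wpu_c R D J σ s Y := ⟨_, rfl⟩
  have hcsq : ∀ (B : Finset ℤ) (d : ℕ), ∑ a ∈ B, c a d ^ 2 ≤ S := by
    intro B d
    rw [hc, hS]
    exact Wpu_csq hσ1 hne B d
  have hcC : ∀ a d, c a d ≠ 0 → Cl d := by
    intro a d h
    rw [hc] at h
    exact Wpu_cl hσC a d h
  have hq : 0 < Real.sqrt S := Real.sqrt_pos.2 hS1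
  have hqq : Real.sqrt S * Real.sqrt S = S := Real.mul_self_sqrt hS0
  have hc1 : ∀ a d, |(Real.sqrt S)⁻¹ * c a d| ≤ 1 := by
    intro a d
    have h1 : c a d ^ 2 ≤ S := by
      have := hcsq {a} d
      rwa [Finset.sum_singleton] at this
    have h2 : |c a d| ≤ Real.sqrt S := Real.abs_le_sqrt h1
    rw [abs_mul, abs_of_pos (inv_pos.2 hq), inv_mul_le_iff₀ hq, mul_one]
    exact h2
  have hcc : ∀ a, c a = fun d => Real.sqrt S * ((Real.sqrt S)⁻¹ * c a d) := by
    intro a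
    funext d
    rw [← mul_assoc, mul_inv_cancel₀ hq.ne', one_mul]
  obtain ⟨G, hG⟩ : ∃ G : ℤ → ℝ, G = fun n => ∑ a ∈ A, GF R D (c a) (n - a) := ⟨_, rfl⟩
  have hsum : S = ∑ p ∈ P, G p := by
    rw [hG, hc, Wpu_H R D P J σ s Y A hsA, hS]
    apply Finset.sum_congr rfl
    intro i _
    rw [sq, hY]
  have hCS : (∑ p ∈ P, G p) ^ 2 ≤ P.card * ∑ p ∈ P, (G p) ^ 2 := sq_sum_le_card_mul_sum_sq
  have hnu : ∀ n : ℤ, 0 ≤ nu lam E n := fun n => sq_nonneg _
  have hmaj : ∑ p ∈ P, (G p) ^ 2 ≤ w0⁻¹ * ∑ n ∈ I, w n * nu lam E n * (G n) ^ 2 := by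
    rw [Finset.mul_sum]
    calc ∑ p ∈ P, (G p) ^ 2 = ∑ n ∈ P.map Nat.castEmbedding, (G n) ^ 2 := by
          rw [Finset.sum_map]
          rfl
      _ ≤ ∑ n ∈ P.map Nat.castEmbedding, w0⁻¹ * (w n * nu lam E n * (G n) ^ 2) := by
          apply Finset.sum_le_sum
          intro n hn
          obtain ⟨p, hp, rfl⟩ := Finset.mem_map.1 hn
          obtain ⟨-, h2, h3⟩ := hP p hp
          simp only [Nat.castEmbedding_apply]
          rw [h3, mul_one, ← div_eq_inv_mul, le_div_iff₀ hw0, mul_comm]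
          exact mul_le_mul_of_nonneg_right h2 (sq_nonneg _)
      _ ≤ ∑ n ∈ I, w0⁻¹ * (w n * nu lam E n * (G n) ^ 2) := by
          apply Finset.sum_le_sum_of_subset_of_nonneg
          · intro n hn
            obtain ⟨p, hp, rfl⟩ := Finset.mem_map.1 hn
            exact (hP p hp).1
          · intro n hn _
            have h1 := hw n hn
            have h2 := hnu n
            positivity
  have hYq : ∀ i ∈ J, |Y i| ≤ Real.sqrt S := by
    intro i hi
    apply Real.abs_le_sqrt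
    rw [hS]
    exact Finset.single_le_sum (f := fun i => Y i ^ 2) (fun i _ => sq_nonneg _) hi
  have hcK : ∀ d, ∑ a ∈ A, |(Real.sqrt S)⁻¹ * c a d| ≤ J.card := by
    intro d
    have h1 : ∑ a ∈ A, |c a d| ≤ J.card * Real.sqrt S := by
      rw [hc]
      exact Wpu_abs hσ1 hYq A d
    have h2 : ∑ a ∈ A, |(Real.sqrt S)⁻¹ * c a d| = (Real.sqrt S)⁻¹ * ∑ a ∈ A, |c a d| := by
      rw [Finset.mul_sum]
      apply Finset.sum_congr rfl
      intro a _
      rw [abs_mul, abs_of_pos (inv_pos.2 hq)]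
    rw [h2, inv_mul_le_iff₀ hq]
    linarith
  have hdiag : ∑ n ∈ I, w n * nu lam E n * (G n) ^ 2 ≤ T2 * S + S * ((J.card : ℝ) ^ 2 * T1) := by
    rw [hG]
    rw [Wpu_sum I (fun n => w n * nu lam E n) A (fun a n => GF R D (c a) (n - a))]
    apply add_le_add
    · exact hdia c A S hcC (hcsq A) hAX
    · have h1 := hoff (fun a d => (Real.sqrt S)⁻¹ * c a d) A J.card hJ1 hc1 hcK
        (fun a d h => hcC a d (right_ne_zero_of_mul h)) hAc hAX
      have h2 : ∑ a ∈ A, ∑ b ∈ A.erase a, ∑ n ∈ I, w n * nu lam E n *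
          (GF R D (c a) (n - a) * GF R D (c b) (n - b)) =
          S * ∑ a ∈ A, ∑ b ∈ A.erase a, ∑ n ∈ I, w n * nu lam E n *
            (GF R D (fun d => (Real.sqrt S)⁻¹ * c a d) (n - a) *
              GF R D (fun d => (Real.sqrt S)⁻¹ * c b d) (n - b)) := by
        rw [Finset.mul_sum]
        apply Finset.sum_congr rfl
        intro a _
        rw [Finset.mul_sum]
        apply Finset.sum_congr rfl
        intro b _
        rw [Finset.mul_sum]
        apply Finset.sum_congr rfl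
        intro n _
        have e1 : GF R D (c a) (n - a) = Real.sqrt S * GF R D (fun d => (Real.sqrt S)⁻¹ * c a d) (n - a) := by
          conv_lhs => rw [hcc a]
          exact Wpu_GF_mul R D _ _ _
        have e2 : GF R D (c b) (n - b) = Real.sqrt S * GF R D (fun d => (Real.sqrt S)⁻¹ * c b d) (n - b) := by
          conv_lhs => rw [hcc b]
          exact Wpu_GF_mul R D _ _ _
        rw [e1, e2]
        generalize GF R D (fun d => (Real.sqrt S)⁻¹ * c a d) (n - a) = u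
        generalize GF R D (fun d => (Real.sqrt S)⁻¹ * c b d) (n - b) = v
        calc w n * nu lam E n * (Real.sqrt S * u * (Real.sqrt S * v)) =
              (Real.sqrt S * Real.sqrt S) * (w n * nu lam E n * (u * v)) := by ring
          _ = _ := by rw [hqq]
      rw [h2]
      exact mul_le_mul_of_nonneg_left ((le_abs_self _).trans h1) hS0
  have hfin : S * S ≤ S * ((P.card : ℝ) / w0 * (T2 + (J.card : ℝ) ^ 2 * T1)) := by
    calc S * S = (∑ p ∈ P, G p) ^ 2 := by rw [← hsum]; ring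
      _ ≤ P.card * ∑ p ∈ P, (G p) ^ 2 := hCS
      _ ≤ P.card * (w0⁻¹ * (T2 * S + S * ((J.card : ℝ) ^ 2 * T1))) := by
          apply mul_le_mul_of_nonneg_left _ hPc
          refine hmaj.trans (mul_le_mul_of_nonneg_left ?_ (inv_pos.2 hw0).le)
          linarith
      _ = _ := by
          rw [div_eq_mul_inv]
          ring
  exact le_of_mul_le_mul_left hfin hS1

end Pool.Agent.Lib.TP
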