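import Pool.Agent.Lib.TP.AllR
import Pool.Agent.Lib.TV.AllGf
import Pool.Agent.Lib.TV.Vpn
import Pool.Agent.Lib.TVf.AllVf
import Pool.Agent.Lib.TP.Wfi
import Pool.Agent.Lib.TP.Wof
import Pool.Agent.Lib.TP.Win
import Pool.Agent.Lib.TP.Wcu
import Pool.Agent.Lib.TP.Wpu
import Pool.Agent.Lib.TP.Wby
import Pool.Agent.Lib.TP.Wgr
import Pool.Agent.Lib.TP.Wlo
import Pool.Agent.Lib.TP.Wth

/-!
MP_00e23e_nt, directory Lib/TP, part W: the final form for x^v residues, from the trilinear form UpfStmt of TV.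
-/

namespace Pool.Agent.Lib.TP

open Pool.Agent.Lib.TB

/-- the off-diagonal estimate for the family, congruence and two blocks, from the trilinear form -/
theorem tOffGAll (h : Pool.Agent.Lib.TV.UpfStmt) : OffGAll := by
  intro δ v ε hδ hv hε hle
  have hE := Pool.Agent.Lib.TV.tEEG_of h δ v 0 ε hδ hv le_rfl (by linarith) hε (by linarith)
  rw [sub_zero] at hE
  exact Pool.Agent.Lib.TV.tOffGAt Pool.Agent.Lib.TN.tWb
    (Pool.Agent.Lib.TN.tWx (Pool.Agent.Lib.TN.tWf Pool.Agent.Lib.TN.tWb)) hδ hv le_rfl hε (by linarith) hE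

/-- **THEOREM W** from the trilinear form -/
theorem tW_of (h : Pool.Agent.Lib.TV.UpfStmt) : WStmt :=
  tWfi (tOffGAll h) (tWof tQnu tQbl) (tWin aDiaV aSel aWq)
    (tWby (tWcu tWpu) (tRsp tOab) tRpt tLpS Pool.Agent.Lib.BV.aExt Pool.Agent.Lib.BV.aBtt)
    (tWgr (tRro (tPbt aSel (tSvt tSsbd)) (tPfr aRgs))) (tWlo (tQsm Pool.Agent.Lib.BV.aExt)) (tWth tKtop)

/-- **THEOREM W** -/
theorem aWfi : WStmt := tW_of Pool.Agent.Lib.TVf.tUpf

/-- theorem K at the level 501/1000: all moduli without prime factors ≤ x^ρ -/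
theorem aKp (ρ : ℝ) (hρ : 0 < ρ) : KthStmt (501 / 1000) (Rx ρ) :=
  tKth tKtop _ _ (aRgr (501 / 1000) ρ 0 (Rx ρ) (by norm_num) (by norm_num) hρ
    (fun _ _ _ hd p hp hpd => (Nat.floor_lt' hp.ne_zero).2 (hd p hp hpd))
    (aRby (501 / 1000) (Rx ρ) (by norm_num) (by norm_num) (tPin aOffV aDiaV aSel ρ hρ)))

end Pool.Agent.Lib.TP
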