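import Pool.Agent.Lib.TP.SpecO
import Pool.Agent.Lib.TB.Basic

/-!
MP_00e23e_nt, directory Lib/TP, module Og5: the bilinear form with weights 1/(m n) and classes modulo f.
-/

namespace Pool.Agent.Lib.TP

open Finset Pool.Agent.Lib.EH3 Pool.Agent.Lib.TB

/-- the coefficient c(g m) P / m for m > P in one class modulo f -/
private noncomputable def Og5_co (P g f r : ℕ) (c : ℕ → ℝ) (m : ℕ) : ℂ :=
  if P < m ∧ m % f = r then ((c (g * m) * ((P : ℝ) / m) : ℝ) : ℂ) else 0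

private theorem Og5_co_le (P g f r : ℕ) (c : ℕ → ℝ) (hc : Cof f c) (m : ℕ) : ‖Og5_co P g f r c m‖ ≤ 1 := by
  unfold Og5_co
  split_ifs with h
  · rw [Complex.norm_real, Real.norm_eq_abs, abs_mul]
    have h1 : |(P : ℝ) / m| ≤ 1 := by
      have hm : (0 : ℝ) < m := by exact_mod_cast (by omega : 0 < m)
      rw [abs_of_nonneg (by positivity), div_le_one hm]
      exact_mod_cast h.1.le
    calc |c (g * m)| * |(P : ℝ) / m| ≤ 1 * 1 := mul_le_mul (hc.1 _) h1 (abs_nonneg _) zero_le_one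
      _ = 1 := by norm_num
  · simp

private theorem Og5_co_rgh (P g f r : ℕ) (c : ℕ → ℝ) (hc : Cof f c) (m : ℕ) (h : Og5_co P g f r c m ≠ 0) :
    Rgh (4 * f) m := by
  have h1 : c (g * m) ≠ 0 := by
    intro h0
    apply h
    unfold Og5_co
    rw [h0, zero_mul]
    simp
  intro p hp hpm
  exact hc.2 _ h1 p hp (hpm.mul_left g)

private theorem Og5_chf (f g : ℕ) (k : ℤ) (m n : ℕ) : chf f g k m n = chf f g k (m % f) (n % f) := by
  unfold chf
  have h1 : g * m * n ≡ g * (m % f) * (n % f) [MOD f] :=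
    ((Nat.ModEq.refl g).mul (Nat.mod_modEq m f).symm).mul (Nat.mod_modEq n f).symm
  rw [iv_congr h1]

/-- splitting into classes modulo f -/
private theorem Og5_split (A B : Finset ℕ) (f : ℕ) (hf : 1 ≤ f) (F : ℕ → ℕ → ℂ) :
    ∑ m ∈ A, ∑ n ∈ B, F m n = ∑ r ∈ range f, ∑ s ∈ range f, ∑ m ∈ A, ∑ n ∈ B,
      (if m % f = r then (if n % f = s then F m n else 0) else 0) := by
  have h1 : ∀ m n, F m n = ∑ r ∈ range f, ∑ s ∈ range f, (if m % f = r then (if n % f = s then F m n else 0) else 0) := by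
    intro m n
    have hm : m % f ∈ range f := mem_range.2 (Nat.mod_lt _ hf)
    have hn : n % f ∈ range f := mem_range.2 (Nat.mod_lt _ hf)
    rw [Finset.sum_eq_single_of_mem (m % f) hm, Finset.sum_eq_single_of_mem (n % f) hn]
    · rw [if_pos rfl, if_pos rfl]
    · intro s _ hs
      rw [if_pos rfl, if_neg (Ne.symm hs)]
    · intro r _ hr
      refine Finset.sum_eq_zero fun s _ => ?_
      rw [if_neg (Ne.symm hr)]
  calc ∑ m ∈ A, ∑ n ∈ B, F m n = ∑ m ∈ A, ∑ n ∈ B, ∑ r ∈ range f, ∑ s ∈ range f,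
        (if m % f = r then (if n % f = s then F m n else 0) else 0) :=
        Finset.sum_congr rfl fun m _ => Finset.sum_congr rfl fun n _ => h1 m n
    _ = ∑ m ∈ A, ∑ r ∈ range f, ∑ n ∈ B, ∑ s ∈ range f,
        (if m % f = r then (if n % f = s then F m n else 0) else 0) :=
        Finset.sum_congr rfl fun m _ => Finset.sum_comm
    _ = ∑ r ∈ range f, ∑ m ∈ A, ∑ n ∈ B, ∑ s ∈ range f,
        (if m % f = r then (if n % f = s then F m n else 0) else 0) := Finset.sum_comm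
    _ = ∑ r ∈ range f, ∑ m ∈ A, ∑ s ∈ range f, ∑ n ∈ B,
        (if m % f = r then (if n % f = s then F m n else 0) else 0) :=
        Finset.sum_congr rfl fun r _ => Finset.sum_congr rfl fun m _ => Finset.sum_comm
    _ = _ := Finset.sum_congr rfl fun r _ => Finset.sum_comm

/-- a sum over a block with possibly one more element -/
private theorem Og5_blk {P M : ℕ} (hM : M = 2 * P ∨ M = 2 * P + 1) (G : ℕ → ℂ) :
    ∑ m ∈ Ioc P M, G m = ∑ m ∈ Ioc P (2 * P), G m + (if M = 2 * P then 0 else G M) := by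
  rcases hM with h | h
  · rw [if_pos h, add_zero, h]
  · rw [if_neg (by omega), h, Finset.sum_Ioc_succ_top (by omega)]

private theorem Og5_M {Q g : ℕ} (hg : 1 ≤ g) : 2 * Q / g = 2 * (Q / g) ∨ 2 * Q / g = 2 * (Q / g) + 1 := by
  have h1 : Q = g * (Q / g) + Q % g := (Nat.div_add_mod Q g).symm
  have h2 : Q % g < g := Nat.mod_lt _ (by omega)
  have h3 : 2 * (Q / g) ≤ 2 * Q / g := by
    rw [Nat.le_div_iff_mul_le (by omega)]
    have h5 : 2 * (Q / g) * g = 2 * (g * (Q / g)) := by ring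
    rw [h5]
    omega
  have h4 : 2 * Q / g < 2 * (Q / g) + 2 := by
    rw [Nat.div_lt_iff_lt_mul (by omega)]
    have h5 : (2 * (Q / g) + 2) * g = 2 * (g * (Q / g)) + 2 * g := by ring
    rw [h5]
    omega
  omega

/-- the extra terms -/
private theorem Og5_ext {P1 P2 M1 M2 : ℕ} (hP1 : 1 ≤ P1) (hP2 : 1 ≤ P2) (hM1 : M1 = 2 * P1 ∨ M1 = 2 * P1 + 1)
    (hM2 : M2 = 2 * P2 ∨ M2 = 2 * P2 + 1) (F : ℕ → ℕ → ℂ)
    (hF : ∀ m n : ℕ, 1 ≤ m → 1 ≤ n → ‖F m n‖ ≤ 1 / ((m : ℝ) * n)) :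
    ‖∑ m ∈ Ioc P1 M1, ∑ n ∈ Ioc P2 M2, F m n‖ ≤
      ‖∑ m ∈ Ioc P1 (2 * P1), ∑ n ∈ Ioc P2 (2 * P2), F m n‖ + 1 / P1 + 1 / P2 := by
  have hP10 : (0 : ℝ) < P1 := by exact_mod_cast hP1
  have hP20 : (0 : ℝ) < P2 := by exact_mod_cast hP2
  rw [Og5_blk hM1]
  have h1 : ∑ m ∈ Ioc P1 (2 * P1), ∑ n ∈ Ioc P2 M2, F m n =
      ∑ m ∈ Ioc P1 (2 * P1), ∑ n ∈ Ioc P2 (2 * P2), F m n +
        ∑ m ∈ Ioc P1 (2 * P1), (if M2 = 2 * P2 then 0 else F m M2) := by
    rw [← Finset.sum_add_distrib]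
    exact Finset.sum_congr rfl fun m _ => Og5_blk hM2 _
  rw [h1]
  have h2 : ‖∑ m ∈ Ioc P1 (2 * P1), (if M2 = 2 * P2 then 0 else F m M2)‖ ≤ 1 / P2 := by
    refine (norm_sum_le _ _).trans ?_
    have h3 : ∀ m ∈ Ioc P1 (2 * P1), ‖(if M2 = 2 * P2 then (0 : ℂ) else F m M2)‖ ≤ 1 / ((P1 : ℝ) * P2) := by
      intro m hm
      rw [mem_Ioc] at hm
      split_ifs with h
      · rw [norm_zero]
        positivity
      · refine (hF m M2 (by omega) (by omega)).trans ?_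
        have h4 : (P1 : ℝ) ≤ m := by exact_mod_cast hm.1.le
        have h5 : (P2 : ℝ) ≤ M2 := by exact_mod_cast (by omega : P2 ≤ M2)
        exact one_div_le_one_div_of_le (by positivity) (mul_le_mul h4 h5 hP20.le (by positivity))
    refine (Finset.sum_le_card_nsmul _ _ _ h3).trans ?_
    rw [nsmul_eq_mul, Nat.card_Ioc, show 2 * P1 - P1 = P1 by omega]
    apply le_of_eq
    field_simp
  have h3 : ‖(if M1 = 2 * P1 then (0 : ℂ) else ∑ n ∈ Ioc P2 M2, F M1 n)‖ ≤ 1 / P1 := by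
    split_ifs with h
    · rw [norm_zero]
      positivity
    · refine (norm_sum_le _ _).trans ?_
      have h4 : ∀ n ∈ Ioc P2 M2, ‖F M1 n‖ ≤ 1 / (2 * (P1 : ℝ) * P2) := by
        intro n hn
        rw [mem_Ioc] at hn
        refine (hF M1 n (by omega) (by omega)).trans ?_
        have h4 : 2 * (P1 : ℝ) ≤ M1 := by exact_mod_cast (by omega : 2 * P1 ≤ M1)
        have h5 : (P2 : ℝ) ≤ n := by exact_mod_cast hn.1.le
        exact one_div_le_one_div_of_le (by positivity) (mul_le_mul h4 h5 hP20.le (by positivity))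
      refine (Finset.sum_le_card_nsmul _ _ _ h4).trans ?_
      rw [nsmul_eq_mul, Nat.card_Ioc]
      have h5 : ((M2 - P2 : ℕ) : ℝ) ≤ 2 * P2 := by exact_mod_cast (by omega : M2 - P2 ≤ 2 * P2)
      calc ((M2 - P2 : ℕ) : ℝ) * (1 / (2 * (P1 : ℝ) * P2)) ≤ (2 * P2) * (1 / (2 * (P1 : ℝ) * P2)) :=
            mul_le_mul_of_nonneg_right h5 (by positivity)
        _ = 1 / P1 := by field_simp
  calc ‖∑ m ∈ Ioc P1 (2 * P1), ∑ n ∈ Ioc P2 (2 * P2), F m n +
        ∑ m ∈ Ioc P1 (2 * P1), (if M2 = 2 * P2 then 0 else F m M2) +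
          (if M1 = 2 * P1 then (0 : ℂ) else ∑ n ∈ Ioc P2 M2, F M1 n)‖
      ≤ ‖∑ m ∈ Ioc P1 (2 * P1), ∑ n ∈ Ioc P2 (2 * P2), F m n‖ +
        ‖∑ m ∈ Ioc P1 (2 * P1), (if M2 = 2 * P2 then 0 else F m M2)‖ +
          ‖(if M1 = 2 * P1 then (0 : ℂ) else ∑ n ∈ Ioc P2 M2, F M1 n)‖ :=
        (norm_add_le _ _).trans (add_le_add (norm_add_le _ _) le_rfl)
    _ ≤ _ := by linarith

theorem tOg5 (h : OblStmt) : Og5Stmt := by
  intro ε hε
  obtain ⟨C, hC0, hC⟩ := h ε hε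
  refine ⟨C, hC0, ?_⟩
  intro Q Q' f g c c' k th vt Th hf hg hgQ hgQ' hc hc' hth hTh
  set P1 : ℕ := Q / g with hP1
  set P2 : ℕ := Q' / g with hP2
  have hP11 : 1 ≤ P1 := by
    rw [hP1]
    exact (Nat.one_le_div_iff (by omega)).2 hgQ
  have hP21 : 1 ≤ P2 := by
    rw [hP2]
    exact (Nat.one_le_div_iff (by omega)).2 hgQ'
  have hP10 : (0 : ℝ) < P1 := by exact_mod_cast hP11
  have hP20 : (0 : ℝ) < P2 := by exact_mod_cast hP21
  have hf0 : (0 : ℝ) < f := by exact_mod_cast hf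
  set S : ℕ → ℕ → ℂ := fun m n => ((c (g * m) * c' (g * n) : ℝ) : ℂ) * (1 / ((m : ℂ) * n)) *
    (chf f g k m n * eBf f th vt m n) with hS
  set F : ℕ → ℕ → ℂ := fun m n => if m.Coprime n then S m n else 0 with hF
  have hpg : pg2 Q Q' g S = ∑ m ∈ Ioc P1 (2 * Q / g), ∑ n ∈ Ioc P2 (2 * Q' / g), F m n := by
    unfold pg2
    refine Finset.sum_congr rfl fun m _ => ?_
    rw [Finset.sum_filter]
  have hchf : ∀ m n, ‖chf f g k m n‖ = 1 := fun m n => norm_ee _
  have heB : ∀ m n, ‖eBf f th vt m n‖ = 1 := fun m n => norm_ee _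
  have hfle : ∀ m n : ℕ, 1 ≤ m → 1 ≤ n → ‖F m n‖ ≤ 1 / ((m : ℝ) * n) := by
    intro m n hm hn
    have hm0 : (0 : ℝ) < m := by exact_mod_cast hm
    have hn0 : (0 : ℝ) < n := by exact_mod_cast hn
    rw [hF]
    dsimp only
    split_ifs
    · rw [hS]
      dsimp only
      rw [norm_mul, norm_mul, norm_mul, hchf, heB, mul_one, mul_one, Complex.norm_real, Real.norm_eq_abs, abs_mul]
      have h1 : ‖(1 : ℂ) / ((m : ℂ) * n)‖ = 1 / ((m : ℝ) * n) := by
        rw [norm_div, norm_mul, norm_one, Complex.norm_natCast, Complex.norm_natCast]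
      rw [h1]
      have h2 : |c (g * m)| * |c' (g * n)| ≤ 1 := by
        calc |c (g * m)| * |c' (g * n)| ≤ 1 * 1 := mul_le_mul (hc.1 _) (hc'.1 _) (abs_nonneg _) zero_le_one
          _ = 1 := by norm_num
      calc |c (g * m)| * |c' (g * n)| * (1 / ((m : ℝ) * n)) ≤ 1 * (1 / ((m : ℝ) * n)) :=
            mul_le_mul_of_nonneg_right h2 (by positivity)
        _ = 1 / ((m : ℝ) * n) := one_mul _
    · rw [norm_zero]; positivity
  -- the bound of one class
  set B0 : ℝ := C * Th ^ ε * ((f : ℝ) * (P1 + P2)) ^ ε * (f : ℝ) ^ 4 * ((P1 : ℝ) + P2) ^ ((2 : ℝ) - 1 / 65) *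
      (1 + Th / ((P1 : ℝ) * P2)) ^ ((1 : ℝ) / 4) with hB0
  have hcls : ∀ r ∈ range f, ∀ s ∈ range f, ‖∑ m ∈ Ioc P1 (2 * P1), ∑ n ∈ Ioc P2 (2 * P2),
      (if m % f = r then (if n % f = s then F m n else 0) else 0)‖ ≤ (1 / ((P1 : ℝ) * P2)) * B0 := by
    intro r _ s _
    have h1 := hC P1 P2 f (Og5_co P1 g f r c) (Og5_co P2 g f s c') th vt hP11 hP21 hf
      (Og5_co_le P1 g f r c hc) (Og5_co_le P2 g f s c' hc') (Og5_co_rgh P1 g f r c hc) (Og5_co_rgh P2 g f s c' hc') hth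
    have h2 : ∑ m ∈ Ioc P1 (2 * P1), ∑ n ∈ Ioc P2 (2 * P2),
        (if m % f = r then (if n % f = s then F m n else 0) else 0) =
        (1 / ((P1 : ℂ) * P2)) * chf f g k r s *
          ∑ m ∈ Ioc P1 (2 * P1), ∑ n ∈ (Ioc P2 (2 * P2)).filter (fun n => m.Coprime n),
            Og5_co P1 g f r c m * Og5_co P2 g f s c' n *
              ee ((th : ℝ) * (iv (f * m) n : ℝ) / (n : ℝ) + vt / ((m : ℝ) * n)) := by
      rw [Finset.mul_sum]
      refine Finset.sum_congr rfl fun m hm => ?_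
      rw [Finset.sum_filter, Finset.mul_sum]
      refine Finset.sum_congr rfl fun n hn => ?_
      rw [mem_Ioc] at hm hn
      by_cases h3 : m % f = r
      · by_cases h4 : n % f = s
        · rw [if_pos h3, if_pos h4, hF]
          dsimp only
          by_cases h5 : m.Coprime n
          · rw [if_pos h5, if_pos h5, hS]
            dsimp only
            unfold Og5_co
            rw [if_pos ⟨hm.1, h3⟩, if_pos ⟨hn.1, h4⟩, Og5_chf f g k m n, h3, h4]
            unfold eBf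
            have hm0 : (m : ℂ) ≠ 0 := by
              have : (0 : ℕ) < m := by omega
              exact_mod_cast this.ne'
            have hn0 : (n : ℂ) ≠ 0 := by
              have : (0 : ℕ) < n := by omega
              exact_mod_cast this.ne'
            have hp1 : (P1 : ℂ) ≠ 0 := by exact_mod_cast (by omega : P1 ≠ 0)
            have hp2 : (P2 : ℂ) ≠ 0 := by exact_mod_cast (by omega : P2 ≠ 0)
            push_cast
            field_simp
          · rw [if_neg h5, if_neg h5, mul_zero]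
        · rw [if_pos h3, if_neg h4]
          unfold Og5_co
          rw [if_neg (c := P2 < n ∧ n % f = s) (fun h6 => h4 h6.2)]
          simp
      · rw [if_neg h3]
        unfold Og5_co
        rw [if_neg (c := P1 < m ∧ m % f = r) (fun h6 => h3 h6.2)]
        simp
    rw [h2, norm_mul, norm_mul, hchf, mul_one]
    have h3 : ‖(1 : ℂ) / ((P1 : ℂ) * P2)‖ = 1 / ((P1 : ℝ) * P2) := by
      rw [norm_div, norm_mul, norm_one, Complex.norm_natCast, Complex.norm_natCast]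
    rw [h3]
    refine mul_le_mul_of_nonneg_left (h1.trans ?_) (by positivity)
    have hth1 : |(th : ℝ)| ≤ Th := by linarith [abs_nonneg vt]
    have hTh0 : 0 ≤ Th := (abs_nonneg _).trans hth1
    have h4 : |(th : ℝ)| ^ ε ≤ Th ^ ε := Real.rpow_le_rpow (abs_nonneg _) hth1 hε.le
    have h5 : (1 + (|(th : ℝ)| + |vt|) / ((P1 : ℝ) * P2)) ^ ((1 : ℝ) / 4) ≤
        (1 + Th / ((P1 : ℝ) * P2)) ^ ((1 : ℝ) / 4) := by
      apply Real.rpow_le_rpow (by positivity) _ (by norm_num)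
      have := div_le_div_of_nonneg_right hTh (by positivity : (0 : ℝ) ≤ (P1 : ℝ) * P2)
      linarith
    rw [hB0]
    refine mul_le_mul ?_ h5 (by positivity) (by positivity)
    refine mul_le_mul_of_nonneg_right ?_ (by positivity)
    refine mul_le_mul_of_nonneg_right ?_ (by positivity)
    refine mul_le_mul_of_nonneg_right ?_ (by positivity)
    exact mul_le_mul_of_nonneg_left h4 hC0
  have hmain : ‖∑ m ∈ Ioc P1 (2 * P1), ∑ n ∈ Ioc P2 (2 * P2), F m n‖ ≤
      (f : ℝ) ^ 2 * ((1 / ((P1 : ℝ) * P2)) * B0) := by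
    rw [Og5_split _ _ f hf]
    refine (norm_sum_le _ _).trans ?_
    have h1 : ∀ r ∈ range f, ‖∑ s ∈ range f, ∑ m ∈ Ioc P1 (2 * P1), ∑ n ∈ Ioc P2 (2 * P2),
        (if m % f = r then (if n % f = s then F m n else 0) else 0)‖ ≤ (f : ℝ) * ((1 / ((P1 : ℝ) * P2)) * B0) := by
      intro r hr
      refine (norm_sum_le _ _).trans ?_
      have h2 := Finset.sum_le_card_nsmul (range f) _ _ (hcls r hr)
      rwa [nsmul_eq_mul, card_range] at h2
    have h2 := Finset.sum_le_card_nsmul (range f) _ _ h1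
    rw [nsmul_eq_mul, card_range] at h2
    refine h2.trans (le_of_eq ?_)
    ring
  rw [hpg]
  refine (Og5_ext hP11 hP21 (Og5_M hg) (Og5_M hg) F hfle).trans ?_
  unfold Bd
  have h1 : (f : ℝ) ^ 2 * ((1 / ((P1 : ℝ) * P2)) * B0) =
      C * Th ^ ε * ((f : ℝ) * (P1 + P2)) ^ ε * (f : ℝ) ^ 6 * (((P1 : ℝ) + P2) ^ ((2 : ℝ) - 1 / 65) / ((P1 : ℝ) * P2)) *
        (1 + Th / ((P1 : ℝ) * P2)) ^ ((1 : ℝ) / 4) := by
    rw [hB0]
    ring
  rw [h1] at hmain
  linarith

end Pool.Agent.Lib.TP
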