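import Pool.Agent.Lib.TP.SpecP
import Pool.Agent.Lib.TB.FinK

/-!
TP module Ppt: one family member.
-/

namespace Pool.Agent.Lib.TP

open Finset Pool.Agent.Lib.EH3 Pool.Agent.Lib.TB Pool.Agent.Results.MP_00e23e_nt

/-- The pointwise bound of the error. -/
private theorem Ppt_one (R E d : ℕ) (hd : 0 < d) (y : ℝ) (a : ℤ) :
    |resErr y d a| ≤ |gg R ((Ioc E ⌊y⌋₊).filter Nat.Prime) a d| +
      |gg R ((Icc 1 (min E ⌊y⌋₊)).filter Nat.Prime) a d| + 1 +
      |∑ p ∈ (Icc 1 ⌊y⌋₊).filter Nat.Prime, ld R d ((p : ℤ) - a) - li y / (d.totient : ℝ)| := by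
  have h1 := Asm_one R d hd y a
  have h2 : resErr y d a = (pcz y d a : ℝ) - li y / (d.totient : ℝ) := by
    rw [FinK_pcz]
    rfl
  have h3 : gg R ((Icc 1 ⌊y⌋₊).filter Nat.Prime) a d = gg R ((Ioc E ⌊y⌋₊).filter Nat.Prime) a d +
      gg R ((Icc 1 (min E ⌊y⌋₊)).filter Nat.Prime) a d := by
    unfold gg
    rw [← Finset.sum_union]
    · rw [← Finset.filter_union]
      congr 2
      ext p
      simp only [Finset.mem_union, Finset.mem_Icc, Finset.mem_Ioc, le_min_iff]
      omega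
    · apply Finset.disjoint_filter_filter
      rw [Finset.disjoint_left]
      intro p hp hq
      simp only [Finset.mem_Icc, Finset.mem_Ioc, le_min_iff] at hp hq
      omega
  rw [h2]
  refine h1.trans ?_
  have h4 := abs_add_le (gg R ((Ioc E ⌊y⌋₊).filter Nat.Prime) a d)
    (gg R ((Icc 1 (min E ⌊y⌋₊)).filter Nat.Prime) a d)
  rw [← h3] at h4
  linarith

/-- gg vanishes for moduli at most R. -/
private theorem Ppt_zero (R d : ℕ) (hd : 0 < d) (hR : d ≤ R) (P : Finset ℕ) (a : ℤ) : gg R P a d = 0 := by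
  unfold gg
  apply Finset.sum_eq_zero
  intro p _
  rw [Hf_dd_zero hd hR]
  split_ifs <;> rfl

theorem tPpt : PptStmt := by
  classical
  intro θ x y Cls R E s _
  obtain ⟨D, hD⟩ : ∃ D, ⌊x ^ θ⌋₊ = D := ⟨_, rfl⟩
  obtain ⟨P1, hP1⟩ : ∃ P1, (Ioc E ⌊y⌋₊).filter Nat.Prime = P1 := ⟨_, rfl⟩
  obtain ⟨P0, hP0⟩ : ∃ P0, (Icc 1 (min E ⌊y⌋₊)).filter Nat.Prime = P0 := ⟨_, rfl⟩
  refine ⟨fun d => if Int.gcd (s d) d = 1 ∧ Cls x d then (SignType.sign (gg R P1 (s d) d) : ℝ) else 0,
    ?_, ?_, ?_⟩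
  · intro d
    dsimp only
    split_ifs
    · rcases lt_trichotomy (gg R P1 (s d) d) 0 with h | h | h
      · rw [sign_neg h]; norm_num
      · rw [h, sign_zero]; norm_num
      · rw [sign_pos h]; norm_num
    · norm_num
  · intro d hd
    dsimp only at hd
    split_ifs at hd with h
    · exact h.2
    · exact absurd rfl hd
  · unfold RS
    rw [hD, hP1, hP0]
    obtain ⟨F, hF⟩ : ∃ F, (Icc 1 D).filter (fun d : ℕ => Int.gcd (s d) d = 1 ∧ Cls x d) = F := ⟨_, rfl⟩
    have hFi : F = (Icc 1 D).filter (fun d : ℕ => Int.gcd (s d) d = 1 ∧ Cls x d) := hF.symm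
    have hmem : ∀ d, d ∈ F ↔ (1 ≤ d ∧ d ≤ D) ∧ (Int.gcd (s d) d = 1 ∧ Cls x d) := by
      intro d
      rw [hFi, Finset.mem_filter, Finset.mem_Icc]
    have hsum : ∑ d ∈ F, |resErr y d (s d)| ≤ ∑ d ∈ F, (|gg R P1 (s d) d| + |gg R P0 (s d) d| + 1 +
        |∑ p ∈ (Icc 1 ⌊y⌋₊).filter Nat.Prime, ld R d ((p : ℤ) - s d) - li y / (d.totient : ℝ)|) := by
      apply Finset.sum_le_sum
      intro d hd
      have h := Ppt_one R E d ((hmem d).1 hd).1.1 y (s d)
      rw [hP1, hP0] at h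
      exact h
    rw [Finset.sum_add_distrib, Finset.sum_add_distrib, Finset.sum_add_distrib] at hsum
    -- the main part
    have hA : ∑ d ∈ F, |gg R P1 (s d) d| ≤ |∑ d ∈ Ioc R D,
        (if Int.gcd (s d) d = 1 ∧ Cls x d then (SignType.sign (gg R P1 (s d) d) : ℝ) else 0) *
          gg R P1 (s d) d| := by
      have e1 : ∑ d ∈ Ioc R D,
        (if Int.gcd (s d) d = 1 ∧ Cls x d then (SignType.sign (gg R P1 (s d) d) : ℝ) else 0) *
          gg R P1 (s d) d = ∑ d ∈ F, |gg R P1 (s d) d| := by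
        have e2 : ∀ d, (if Int.gcd (s d) d = 1 ∧ Cls x d then (SignType.sign (gg R P1 (s d) d) : ℝ) else 0) *
          gg R P1 (s d) d = if Int.gcd (s d) d = 1 ∧ Cls x d then |gg R P1 (s d) d| else 0 := by
          intro d
          split_ifs
          · exact sign_mul_self _
          · ring
        rw [Finset.sum_congr rfl (fun d _ => e2 d), ← Finset.sum_filter]
        apply Finset.sum_subset_zero_on_sdiff
        · intro d hd
          rw [Finset.mem_filter, Finset.mem_Ioc] at hd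
          exact (hmem d).2 ⟨⟨by omega, hd.1.2⟩, hd.2⟩
        · intro d hd
          rw [Finset.mem_sdiff, hmem d, Finset.mem_filter, Finset.mem_Ioc] at hd
          have h3 : d ≤ R := by
            by_contra hc
            exact hd.2 ⟨⟨by omega, hd.1.1.2⟩, hd.1.2⟩
          rw [Ppt_zero R d hd.1.1.1 h3, abs_zero]
        · intro d _
          rfl
      rw [e1]
      exact le_abs_self _
    have hB : ∑ d ∈ F, |gg R P0 (s d) d| ≤ ∑ d ∈ Ioc R D, |gg R P0 (s d) d| := by
      have e1 : ∑ d ∈ F, |gg R P0 (s d) d| = ∑ d ∈ F.filter (fun d => R < d), |gg R P0 (s d) d| := by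
        symm
        apply Finset.sum_subset (Finset.filter_subset _ _)
        intro d hd hn
        have h3 : d ≤ R := by
          by_contra hc
          exact hn (Finset.mem_filter.2 ⟨hd, by omega⟩)
        rw [Ppt_zero R d ((hmem d).1 hd).1.1 h3, abs_zero]
      rw [e1]
      apply Finset.sum_le_sum_of_subset_of_nonneg
      · intro d hd
        rw [Finset.mem_filter, hmem] at hd
        rw [Finset.mem_Ioc]
        exact ⟨hd.2, hd.1.1.2⟩
      · intro d _ _
        exact abs_nonneg _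
    have hC : ∑ d ∈ F, (1 : ℝ) ≤ (D : ℝ) := by
      rw [Finset.sum_const, nsmul_eq_mul, mul_one]
      have h2 : F.card ≤ D := by
        rw [hFi]
        refine (Finset.card_filter_le _ _).trans ?_
        rw [Nat.card_Icc]
        omega
      exact_mod_cast h2
    have hDD : ∑ d ∈ F,
        |∑ p ∈ (Icc 1 ⌊y⌋₊).filter Nat.Prime, ld R d ((p : ℤ) - s d) - li y / (d.totient : ℝ)| ≤
        ∑ d ∈ (Icc 1 D).filter (fun d : ℕ => IsCoprime (d : ℤ) (s d)),
        |∑ p ∈ (Icc 1 ⌊y⌋₊).filter Nat.Prime, ld R d ((p : ℤ) - s d) - li y / (d.totient : ℝ)| := by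
      apply Finset.sum_le_sum_of_subset_of_nonneg
      · intro d hd
        rw [hmem] at hd
        rw [Finset.mem_filter, Finset.mem_Icc]
        exact ⟨hd.1, (Int.isCoprime_iff_gcd_eq_one.2 hd.2.1).symm⟩
      · intro d _ _
        exact abs_nonneg _
    dsimp only
    refine le_trans (le_of_eq ?_) (hsum.trans ?_)
    · apply Finset.sum_congr
      · ext d
        rw [hmem, Finset.mem_filter, Finset.mem_Icc]
      · intro d _
        rfl
    · linarith

end Pool.Agent.Lib.TP
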