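import Pool.Agent.Lib.TP.SpecR

/-!
MP_00e23e_nt, directory Lib/TP (helper81): the final form with the maximum inside the sum. For every set A of at most x^η integers
and every K, the sum over the moduli of the maximum over all a ∈ A except K - 1 of them (depending on the modulus).
Rules as in TP/SpecR.
-/

namespace Pool.Agent.Lib.TP

open Finset Pool.Agent.Lib.EH3 Pool.Agent.Lib.TB Pool.Agent.Results.MP_00e23e_nt

/-- (KTH) all but K - 1 elements of A for every modulus -/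
def KthStmt (θ : ℝ) (Cls : ℝ → ℕ → Prop) : Prop := ∃ C η : ℝ, 0 < C ∧ 0 < η ∧ ∀ B : ℝ, ∃ x0 : ℝ, ∀ x : ℝ, x0 ≤ x →
  ∀ (A : Finset ℤ) (Y : Finset ℝ) (K : ℕ), (∀ a ∈ A, |(a : ℝ)| ≤ x) → (A.card : ℝ) ≤ x ^ η →
  (∀ z ∈ Y, 2 ≤ z ∧ z ≤ x) → 1 ≤ K → (K : ℝ) ≤ (Real.log x) ^ B →
  ∃ Bad : ℕ → Finset ℤ, (∀ d, (Bad d).card < K) ∧ ∀ (a : ℕ → ℤ) (y : ℕ → ℝ), (∀ d, a d ∈ A ∧ a d ∉ Bad d ∧ y d ∈ Y) →
    RS θ Cls x y a ≤ C * min (Real.sqrt ((Y.card : ℝ) / K)) ((K : ℝ) ^ (-(1 : ℝ) / 3)) * (x / Real.log x)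

/-- Module Ktop (60 lines). The K largest values. Uses: nothing.
Proof. Among the subsets T ⊆ A with K elements (A.powersetCard K, nonempty) choose one which maximizes ∑_{t ∈ T} v t (Finset.exists_max_image). If a ∈ A, a ∉ T, t ∈ T and v a > v t, then T' = insert a (T.erase t) has a larger sum: contradiction. -/
def KtopStmt : Prop := ∀ (A : Finset ℤ) (K : ℕ) (v : ℤ → ℝ), K ≤ A.card → ∃ T ⊆ A, T.card = K ∧
  ∀ t ∈ T, ∀ a ∈ A, a ∉ T → v a ≤ v t

/-- Module Kth (150 lines). Uses: KtopStmt.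
Proof. C0, η from Gry, C = √C0. x0 ≥ 3. If |A| < K: Bad d = A (no a d exists). If Y = ∅: Bad d = ∅ (no y). Otherwise for every d and a choose z(d, a) ∈ Y which maximizes |resErr z d a| (exists_max_image) and v d a = if Int.gcd a d = 1 then |resErr (z(d,a)) d a| else 0 (≥ 0). T d from Ktop, t0 d ∈ T d a minimizer
of v d (K ≥ 1), Bad d = (T d).erase (t0 d), K - 1 elements. J = range K, s i d = the i-th element of T d ((T d).orderEmbOfFin, or an equivalence Fin K ≃ T d; for i ≥ K any element of T d), y i d = z(d, s i d) ∈ Y. Fam θ η x J s: values in A, different for i ≠ j. Gry: ∑_{i < K} RS(y_i; s_i)^2 ≤ C0 min(|Y|, K^(1/3)) (x/log x)^2.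
For a, y as in the claim and every i < K: RS(y; a) ≤ RS(y_i; s_i), term by term: if Int.gcd (a d) d = 1 then |resErr (y d) d (a d)| ≤ v d (a d) ≤ v d (t0 d) ≤ v d (s i d) (a d ∉ T d, or a d = t0 d), and v d (s i d) is the term of RS(y_i; s_i) (0 if the gcd is not 1). So K RS(y; a)^2 ≤ C0 min(..) (x/log x)^2;
take square roots: √(K^(1/3)/K) = K^(-1/3). -/
def KthGry : Prop := ∀ (θ : ℝ) (Cls : ℝ → ℕ → Prop), GryStmt θ Cls → KthStmt θ Cls -- theorem tKth (h1 : KtopStmt) : KthGry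

/-- **THEOREM K**: the final statement. -/
def KStmt' : Prop := ∀ δ ε ρ : ℝ, 1 / 1000 ≤ δ → δ < 1 / 18 → 0 < ε → 0 < ρ → KthStmt (1 / 2 + δ) (Cu δ ε ρ)

end Pool.Agent.Lib.TP
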