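import Pool.Agent.Lib.TP.Stm
import Pool.Agent.Lib.TB.SpecM

/-!
MP_00e23e_nt, directory Lib/TP, part O (helper81): the off-diagonal estimate `OffVStmt` with the sieve weight, from the bilinear
form `BilStmt` of TB (theorem tBil there, here a hypothesis).

RULES. Module Xyz: file Pool/Agent/Lib/TP/Xyz.lean, first line `import Pool.Agent.Lib.TP.SpecO` (and further modules of Lib/TB if you
need their lemmas), then `namespace Pool.Agent.Lib.TP`, `open Finset Pool.Agent.Lib.EH3 Pool.Agent.Lib.TB`, private lemmas starting with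
Xyz_, final theorem `theorem tXyz (h1 : AStmt) ... : XyzStmt`; the statements under Uses are hypotheses, in this order. Most modules
are adaptations of a module of Lib/TB (named in the docstring): copy and change. Never use congr!. Every module below 60 s.

Notation: a condition `f ∣ n` is added to the congruences `d ∣ n - a`, `d' ∣ n - b`; all prime factors of d, d' are > 4 f, so f is prime
to d d'. `Ef` is the error term. Two different dyadic blocks (Q, 2Q] and (Q', 2Q'] are allowed.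
-/

namespace Pool.Agent.Lib.TP

open Finset Pool.Agent.Lib.EH3 Pool.Agent.Lib.TB

/-- the weighted number of n with f | n, u | n - a, w | n - b -/
noncomputable def SSf (N f u w : ℕ) (a b : ℤ) : ℝ :=
  ∑ n ∈ Icc (-(N : ℤ)) N, tri N n * (if (f : ℤ) ∣ n ∧ (u : ℤ) ∣ n - a ∧ (w : ℤ) ∣ n - b then 1 else 0)

/-- the error term -/
noncomputable def Ef (N f u w : ℕ) (a b : ℤ) : ℝ := SSf N f u w a b - MM N u w a b / f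

/-- the sum over the pairs d = g m, d' = g n with (m, n) = 1, Q < d ≤ 2Q, Q' < d' ≤ 2Q' -/
noncomputable def pg2 (Q Q' g : ℕ) (F : ℕ → ℕ → ℂ) : ℂ :=
  ∑ m ∈ Ioc (Q / g) (2 * Q / g), ∑ n ∈ (Ioc (Q' / g) (2 * Q' / g)).filter (fun n => m.Coprime n), F m n

/-- the error term of the pair (g m, g n) with its coefficients -/
noncomputable def fEf (N f g : ℕ) (c c' : ℕ → ℝ) (a b : ℤ) (m n : ℕ) : ℂ :=
  ((c (g * m) * c' (g * n) * Ef N f (g * m) (g * n) a b : ℝ) : ℂ)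

/-- the phase with the inverse of f m modulo n -/
noncomputable def eBf (f : ℕ) (th : ℤ) (vt : ℝ) (m n : ℕ) : ℂ :=
  ee ((th : ℝ) * (iv (f * m) n : ℝ) / (n : ℝ) + vt / ((m : ℝ) * n))

/-- the phase modulo f, it depends only on m, n modulo f -/
noncomputable def chf (f g : ℕ) (k : ℤ) (m n : ℕ) : ℂ := ee ((k : ℝ) * (iv (g * m * n) f : ℝ) / (f : ℝ))

/-- coefficients bounded by 1, all prime factors of the support > 4 f -/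
def Cof (f : ℕ) (c : ℕ → ℝ) : Prop := (∀ d, |c d| ≤ 1) ∧ ∀ d, c d ≠ 0 → Rgh (4 * f) d

/-- the bound for the bilinear form divided by P1 P2 -/
noncomputable def Bd (C ε : ℝ) (P1 P2 f : ℕ) (Th : ℝ) : ℝ :=
  C * Th ^ ε * ((f : ℝ) * (P1 + P2)) ^ ε * (f : ℝ) ^ 6 * (((P1 : ℝ) + P2) ^ ((2 : ℝ) - 1 / 65) / ((P1 : ℝ) * P2)) *
    (1 + Th / ((P1 : ℝ) * P2)) ^ ((1 : ℝ) / 4) + 1 / P1 + 1 / P2

/-- Module Obl (150 lines). Bilinear form with the inverse of f m and with two different blocks. Uses: BilStmt (of TB/Stmts).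
Proof. Reduction to BilStmt by dilation. Let j be the least integer ≥ 0 with (2f+1)^j P2 > f P1, B = (2f+1)^j, X = B P2. If j = 0 then
X = P2, otherwise (2f+1)^(j-1) P2 ≤ f P1 and X ≤ (2f+1) f P1; so f P1 < X ≤ 3 f^2 (P1 + P2). Let k be the least integer ≥ 0 with 2^k f P1 ≥ X;
k ≥ 1. A1 = 2^k f, A2 = 2^(k-1) f, A2 P1 < X ≤ A1 P1 < 2X. For m in (P1, 2P1]: if A1 m ≤ 2X then A1 m is in (X, 2X]; if A1 m > 2X then A2 m is in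
(X, 2X] (A2 m = A1 m/2 > X, A2 m ≤ 2 A2 P1 < 2X). For n in (P2, 2P2]: B n is in (X, 2X], and these are all multiples of B there. Split the sum over m in
these two parts, A = A1 or A2 = 2^i f. m, n in the supports have only prime factors > 4f, A, B only prime factors ≤ 4f, (A, B) = 1; so (A m, B n) = 1 iff
(m, n) = 1, and modulo n: iv (f m) n ≡ 2^i iv (A m) n ≡ 2^i iv (A m) (B n) (iv_unique, iv_congr, ... of TB/Basic: A m iv(A m, B n) ≡ 1 mod B n, so mod n). So the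
phase is ee(θ' iv (A m) (B n)/(B n) + ϑ'/((A m)(B n))), θ' = θ 2^i B ≠ 0, ϑ' = ϑ A B (ee_congr). BilStmt with Q := X, α' m' = α (m'/A) if A | m', P1 < m'/A ≤ 2P1 (and m'/A in
the part), else 0; β' n' = β (n'/B) if B | n', else 0; exponent ε/4. 2^i ≤ A ≤ 2X/P1, B = X/P2: |θ'| ≤ 2 |θ| X^2/(P1 P2), |ϑ'| ≤ 2 |ϑ| X^2/(P1 P2), so the last
factor is ≤ (1 + 2(|θ|+|ϑ|)/(P1 P2))^(1/4) ≤ 2 (1 + (|θ|+|ϑ|)/(P1 P2))^(1/4); |θ'|^(ε/4) ≤ |θ|^(ε/4) (2X^2)^(ε/4), 2X^2 ≤ 18 f^4 (P1+P2)^2;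
X^(2-1/65) ≤ (3f^2)^2 (P1+P2)^(2-1/65) (3f^2 ≥ 1). -/
def OblStmt : Prop := ∀ ε : ℝ, 0 < ε → ∃ C : ℝ, 0 ≤ C ∧ ∀ (P1 P2 f : ℕ) (α β : ℕ → ℂ) (θ : ℤ) (ϑ : ℝ),
  1 ≤ P1 → 1 ≤ P2 → 1 ≤ f → (∀ m, ‖α m‖ ≤ 1) → (∀ n, ‖β n‖ ≤ 1) → (∀ m, α m ≠ 0 → Rgh (4 * f) m) →
  (∀ n, β n ≠ 0 → Rgh (4 * f) n) → θ ≠ 0 →
  ‖∑ m ∈ Ioc P1 (2 * P1), ∑ n ∈ (Ioc P2 (2 * P2)).filter (fun n => m.Coprime n),
      α m * β n * ee ((θ : ℝ) * (iv (f * m) n : ℝ) / (n : ℝ) + ϑ / ((m : ℝ) * n))‖ ≤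
    C * |(θ : ℝ)| ^ ε * ((f : ℝ) * (P1 + P2)) ^ ε * (f : ℝ) ^ 4 * ((P1 : ℝ) + P2) ^ ((2 : ℝ) - 1 / 65) *
      (1 + (|(θ : ℝ)| + |ϑ|) / ((P1 : ℝ) * P2)) ^ ((1 : ℝ) / 4)

/-- Module Osc (60 lines; adapt TB/Msc.lean). Uses: nothing.
Proof. (1) f | n, u | n - a, w | n - b iff f lcm(u,w) | n - ν (f prime to lcm(u,w), which divides u w). gcd(u,w) | (ν - b) - (ν - a) = a - b, so MM = N gcd/(u w) = N/lcm.
(2) no n satisfies u | n - a, w | n - b, and MM = 0. -/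
def OscStmt : Prop :=
  (∀ (N f u w : ℕ) (a b ν : ℤ), 1 ≤ f → 1 ≤ u → 1 ≤ w → f.Coprime (u * w) → (f : ℤ) ∣ ν → (u : ℤ) ∣ ν - a →
    (w : ℤ) ∣ ν - b →
    SSf N f u w a b = cl N (f * Nat.lcm u w) ν ∧ MM N u w a b / f = (N : ℝ) / ((f * Nat.lcm u w : ℕ) : ℝ)) ∧
  (∀ (N f u w : ℕ) (a b : ℤ), ¬ (((Nat.gcd u w : ℕ) : ℤ) ∣ a - b) → Ef N f u w a b = 0)

/-- Module Osb (80 lines; adapt TB/Msb.lean). Uses: OscStmt, McbStmt (of TB/SpecM).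
Proof. If gcd(u,w) does not divide a - b: 0. Otherwise there is ν with f | ν, u | ν - a, w | ν - b (first mod lcm(u,w), then with f, coprime moduli), q = f lcm(u,w):
Ef = cl N q ν - N/q. First bound: McbStmt. Second: 0 ≤ tri ≤ 1, at most 2N/q + 1 integers of [-N, N] in the class, N/q ≤ N/lcm. -/
def OsbStmt : Prop := ∀ (N f u w : ℕ) (a b : ℤ), 1 ≤ N → 1 ≤ f → 1 ≤ u → 1 ≤ w → f.Coprime (u * w) →
  |Ef N f u w a b| ≤ (f : ℝ) * (Nat.lcm u w : ℝ) / N ∧ |Ef N f u w a b| ≤ 4 * (N : ℝ) / (Nat.lcm u w : ℝ) + 1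

/-- Module Og1 (60 lines; adapt TB/G1.lean). Uses: nothing. -/
def Og1Stmt : Prop := ∀ (Q Q' : ℕ) (F : ℕ → ℕ → ℂ),
  ∑ d ∈ Ioc Q (2 * Q), ∑ d' ∈ Ioc Q' (2 * Q'), F d d' =
    ∑ g ∈ Icc 1 (2 * Q), pg2 Q Q' g (fun m n => F (g * m) (g * n))

/-- Module Og2 (80 lines; adapt TB/G2.lean). Trivial bound for one g. Uses: OsbStmt.
Proof. At most (2Q/g)(2Q'/g) pairs; if c(g m) c'(g n) ≠ 0 then f is prime to g m g n (all prime factors > 4f) and lcm(g m, g n) = g m n = (g m)(g n)/g ≥ Q Q'/g, so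
|Ef| ≤ 4N g/(Q Q') + 1. -/
def Og2Stmt : Prop := ∀ (N Q Q' f g : ℕ) (c c' : ℕ → ℝ) (a b : ℤ), 1 ≤ N → 1 ≤ Q → 1 ≤ Q' → 1 ≤ f → 1 ≤ g →
  Cof f c → Cof f c' →
  ‖pg2 Q Q' g (fEf N f g c c' a b)‖ ≤ 16 * (N : ℝ) / g + 4 * (Q : ℝ) * Q' / (g : ℝ) ^ 2

/-- Module Og3 (30 lines; adapt TB/G3.lean). Uses: OscStmt. -/
def Og3Stmt : Prop := ∀ (N Q Q' f g : ℕ) (c c' : ℕ → ℝ) (a b : ℤ), ¬ ((g : ℤ) ∣ b - a) →
  pg2 Q Q' g (fEf N f g c c' a b) = 0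

/-- Module Og4 (150 lines; adapt TB/G4.lean). The error term of one pair. Uses: TruncStmt (of TB/Stm2), OscStmt.
Proof. K1 = (b - a)/g, ν0 = a + g m K1 iv(m, n): g m | ν0 - a, g n | ν0 - b (see TB/G4). I = iv(f, gmn), f I ≡ 1 mod gmn. ν = f I ν0: f | ν, ν ≡ ν0 mod gmn. q = f g m n =
f lcm(g m, g n). Osc: Ef = cl N q ν - N/q. TruncStmt with b := ν. The phase: h (t - ν)/q = h t/q - h I ν0/(gmn). (i) reciprocity: with J = iv(gmn, f), f I + gmn J ≡ 1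
mod f gmn (mod f and mod gmn), so I/(gmn) + J/f ≡ 1/(f gmn) mod 1. (ii) I ν0/(gmn) = I a/(gmn) + K1 I iv(m,n)/n, and I iv(m,n) ≡ iv(f m, n) mod n (f m I iv(m,n) ≡ 1). So
h (t - ν)/q ≡ h (t - a)/(f gmn) + h a J/f - h K1 iv(f m, n)/n mod 1, which is the sum of the arguments of chf f g (h a) and of eBf with th = -(h K1), vt = h (t - a)/(f g).
The other exponential is the one for -h. -/
def Og4Stmt : Prop := ∀ (N H f g m n : ℕ) (a b : ℤ), 1 ≤ N → 1 ≤ H → 1 ≤ f → 1 ≤ g → 1 ≤ m → 1 ≤ n →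
  m.Coprime n → f.Coprime (g * m * n) → (g : ℤ) ∣ b - a → 2 * H < f * (g * m * n) →
  ‖((Ef N f (g * m) (g * n) a b : ℝ) : ℂ) - (1 / ((f : ℂ) * g * m * n)) * ∑ h ∈ Icc 1 H, ∑ t ∈ Icc (-(N : ℤ)) N,
      ((tri N t : ℝ) : ℂ) *
        (chf f g ((h : ℤ) * a) m n * eBf f (-((h : ℤ) * ((b - a) / g))) ((h : ℝ) * ((t : ℝ) - a) / ((f : ℝ) * g)) m n +
          chf f g (-((h : ℤ) * a)) m n * eBf f ((h : ℤ) * ((b - a) / g)) (-((h : ℝ) * ((t : ℝ) - a) / ((f : ℝ) * g))) m n)‖ ≤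
    (f : ℝ) * (g * m * n) / ((N : ℝ) * H)

/-- Module Og5 (150 lines; adapt TB/G5.lean). The bilinear form with weights 1/(m n). Uses: OblStmt.
Proof. P1 = Q/g, P2 = Q'/g (≥ 1), 2Q/g is 2P1 or 2P1 + 1. The terms with m = 2P1 + 1: at most P2 + 1 of them, each ≤ 1/((2P1+1)(P2+1)), sum ≤ 1/P1; those with n = 2P2 + 1: ≤ 1/P2.
The terms with m ≤ 2P1, n ≤ 2P2: split m, n into the f^2 pairs of classes modulo f (chf is constant there, norm 1: iv depends only on the class, iv_congr or ZMod casts), for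
each α m = c(g m) P1/m, β n = c'(g n) P2/n (on the class, zero elsewhere; at most 1, support: all prime factors > 4f as m | g m), so OblStmt gives the total bound
f^2 (1/(P1 P2)) C |th|^ε (..)^ε f^4 (P1+P2)^(2-1/65) (1 + (|th|+|vt|)/(P1 P2))^(1/4); |th| ≤ Th, |th| + |vt| ≤ Th. -/
def Og5Stmt : Prop := ∀ ε : ℝ, 0 < ε → ∃ C : ℝ, 0 ≤ C ∧ ∀ (Q Q' f g : ℕ) (c c' : ℕ → ℝ) (k th : ℤ) (vt Th : ℝ),
  1 ≤ f → 1 ≤ g → g ≤ Q → g ≤ Q' → Cof f c → Cof f c' → th ≠ 0 → |(th : ℝ)| + |vt| ≤ Th →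
  ‖pg2 Q Q' g (fun m n => ((c (g * m) * c' (g * n) : ℝ) : ℂ) * (1 / ((m : ℂ) * n)) *
      (chf f g k m n * eBf f th vt m n))‖ ≤ Bd C ε (Q / g) (Q' / g) f Th

/-- Module Og6 (150 lines; adapt TB/G6.lean). One g dividing b - a. Uses: Og4Stmt, Og5Stmt.
Proof. For every pair with c(g m) c'(g n) ≠ 0: f is prime to g m n, g m n = (g m)(g n)/g > Q Q'/g ≥ 2H, so Og4 applies (f ≥ 1); f g m n ≤ 4 f Q Q' (g m ≤ 2Q, n ≤ 2Q'). Error: at most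
(2Q)(2Q') pairs, each ≤ 4 f Q Q'/(N H): 16 f (Q Q')^2/(N H). Main part: exchange the sums; for every h, t and sign (1/(f g)) pg2 (c c'/(m n) chf eBf), th = ∓ h K1 ≠ 0, |th| ≤ 2 H N,
|vt| ≤ H (|t| + |a|) ≤ 2 H N: Og5 with Th = 4 H N; 0 ≤ tri ≤ 1, at most 3N values of t, two signs, H values of h. -/
def Og6Stmt : Prop := ∀ ε : ℝ, 0 < ε → ∃ C : ℝ, 0 ≤ C ∧ ∀ (N Q Q' H f g : ℕ) (c c' : ℕ → ℝ) (a b : ℤ),
  1 ≤ N → 1 ≤ H → 1 ≤ f → 1 ≤ g → g ≤ Q → g ≤ Q' → 2 * H * g ≤ Q * Q' → Cof f c → Cof f c' → a ≠ b →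
  |a| ≤ (N : ℤ) → |b| ≤ (N : ℤ) → (g : ℤ) ∣ b - a →
  ‖pg2 Q Q' g (fEf N f g c c' a b)‖ ≤ 16 * (f : ℝ) * ((Q : ℝ) * Q') ^ 2 / ((N : ℝ) * H) +
    6 * (H : ℝ) * N * Bd C ε (Q / g) (Q' / g) f (4 * (H : ℝ) * N)

/-- Module Og7 (200 lines; compare TB/G7.lean). The exponents. Uses: nothing.
Proof. T = Q Q'/N, H = floor(N^(1/4000) (1 + T^2)) + 1. RR N = floor(N^(1/2-1/500)). For large N every constant is at most N^(1/100000) =: N^κ. So Q, Q' ≤ N^(501/1000 + κ), Q, Q' ≥ N^(498/1000 - κ),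
N^(1/4000) T^2 ≤ H ≤ N^(1/4000 + κ) max(1, T^2), T ≤ N^(2/1000 + 2κ), T ≥ N^(-4/1000 - 2κ). (1) g ≤ N^(1/800) ≤ Q, Q'; 2 H g ≤ N^(..small) ≤ Q Q'. (2) 16 f (Q Q')^2/(N H) = 16 f N T^2/H ≤ 16 N^(1 + κ - 1/4000).
(3) P1 ≥ Q/(2g), P2 ≥ Q'/(2g), P1 + P2 ≤ 2 M/g, M = max(Q, Q'), mn = min(Q, Q'); (P1+P2)^2/(P1 P2) ≤ 16 M/mn; P1 + P2 ≥ M/(2g) ≥ N^(498/1000 - 1/800 - 2κ), so (P1+P2)^(-1/65) ≤ N^(-1987/260000 + κ);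
Th/(P1 P2) = 4 H N/(P1 P2) ≤ 16 H g^2/T. So 6 H N Bd ≤ N^(1 + c κ) H (M/mn) (1 + H g^2/T)^(1/4) N^(-1987/260000) + 6 H N (4 g/Q + 4 g/Q'), c κ = 20/100000 covers all constants, Th^ε, (f (P1+P2))^ε (ε = κ) and f^6.
If T ≤ 1: H ≤ N^(1/4000 + κ), M/mn ≤ N^(3/1000 + 2κ), H g^2/T ≤ N^(1/4000 + 2/800 + 4/1000 + 3κ): exponent 1/4000 + 3/1000 + 27/16000 - 1987/260000 < -27/10000. If T > 1: H ≤ N^(1/4000+κ) T^2, (H g^2/T)^(1/4) ≤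
N^((1/4000 + 2/800 + κ)/4) T^(1/4), and T^(9/4) M/mn = M^(13/4) mn^(5/4)/N^(9/4) ≤ M^(9/2)/N^(9/4) ≤ N^(45/10000 + 5κ): exponent 1/4000 + 11/16000 + 45/10000 - 1987/260000 < -21/10000. With 30 κ = 3/10000 to spare everything
is ≤ N^(1 - 1/5000). Last terms: H N g/Q ≤ N^(1 + 5/1000 + 1/800 - 498/1000 + ..). (It is convenient to write Q = N^x, Q' = N^y, H = N^h, g = N^γ with real exponents, x = log Q/log N, and to finish with linarith.) -/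
def Og7Stmt : Prop := ∀ C : ℝ, 0 ≤ C → ∃ C1 : ℝ, ∃ N0 : ℕ, 0 ≤ C1 ∧ ∀ N Q Q' f : ℕ, N0 ≤ N → 1 ≤ N → 1 ≤ f →
  (f : ℝ) ≤ (N : ℝ) ^ ((1 : ℝ) / 100000) → RR N ≤ Q → RR N ≤ Q' →
  (Q : ℝ) ≤ 2 * (N : ℝ) ^ ((1 : ℝ) / 2 + 1 / 1000) → (Q' : ℝ) ≤ 2 * (N : ℝ) ^ ((1 : ℝ) / 2 + 1 / 1000) →
  1 ≤ Q ∧ 1 ≤ Q' ∧ ∃ H : ℕ, 1 ≤ H ∧ ∀ g : ℕ, 1 ≤ g → (g : ℝ) ≤ (N : ℝ) ^ ((1 : ℝ) / 800) →
    g ≤ Q ∧ g ≤ Q' ∧ 2 * H * g ≤ Q * Q' ∧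
    16 * (f : ℝ) * ((Q : ℝ) * Q') ^ 2 / ((N : ℝ) * H) +
      6 * (H : ℝ) * N * Bd C (1 / 100000) (Q / g) (Q' / g) f (4 * (H : ℝ) * N) ≤ C1 * (N : ℝ) ^ ((1 : ℝ) - 1 / 5000)

/-- Module Og8 (100 lines; adapt TB/G8.lean). Two blocks. Uses: Og1Stmt, Og2Stmt, Og3Stmt, Og6Stmt, Og7Stmt, TauMStmt (of TB/Stm2).
Proof. As TB/G8 with ε = 1/100000 in Og6, C1, N0 from Og7, Ct from TauMStmt with 1/100000: at most 2 Ct N^(1/100000) divisors g of b - a; g ≤ N^(1/800): ≤ C1 N^(1-1/5000); larger g: Og2: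
16 N^(1 - 1/800) + 16 N^(1 + 2/1000 - 2/800) ≤ 32 N^(1 - 1/5000). -/
def Og8Stmt : Prop := ∃ C : ℝ, ∃ N0 : ℕ, 0 ≤ C ∧ ∀ (N Q Q' f : ℕ) (c c' : ℕ → ℝ) (a b : ℤ), N0 ≤ N → 1 ≤ N → 1 ≤ f →
  (f : ℝ) ≤ (N : ℝ) ^ ((1 : ℝ) / 100000) → RR N ≤ Q → RR N ≤ Q' →
  (Q : ℝ) ≤ 2 * (N : ℝ) ^ ((1 : ℝ) / 2 + 1 / 1000) → (Q' : ℝ) ≤ 2 * (N : ℝ) ^ ((1 : ℝ) / 2 + 1 / 1000) →
  Cof f c → Cof f c' → a ≠ b → |a| ≤ (N : ℤ) → |b| ≤ (N : ℤ) →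
  |∑ d ∈ Ioc Q (2 * Q), ∑ d' ∈ Ioc Q' (2 * Q'), c d * c' d' * Ef N f d d' a b| ≤ C * (N : ℝ) ^ ((1 : ℝ) - 1 / 6000)

/-- Module Ody (80 lines). From the blocks to the whole range. Uses: Og8Stmt.
Proof. R = RR N ≥ 1. Replace c, c' by 0 outside (R, D] (still Cof). (R, D] is covered by the blocks (2^i R, 2^(i+1) R], i < J, J = Nat.clog 2 D or so, J ≤ 2 log N + 3 (D ≤ 2 N^(0.501) ≤ 2N); the sum over (R, D]^2 is the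
sum over the J^2 pairs of blocks (Ioc R (2^J R) is the disjoint union; the extra terms vanish). A block with 2^i R > D contributes 0, otherwise 2^i R ≤ D ≤ 2 N^(1/2+1/1000) and Og8 applies. J^2 N^(1-1/6000) ≤ C N^(1-1/7000). -/
def OdyStmt : Prop := ∃ C : ℝ, ∃ N0 : ℕ, 0 ≤ C ∧ ∀ (N D f : ℕ) (c c' : ℕ → ℝ) (a b : ℤ), N0 ≤ N → 1 ≤ N → 1 ≤ f →
  (f : ℝ) ≤ (N : ℝ) ^ ((1 : ℝ) / 100000) → (D : ℝ) ≤ 2 * (N : ℝ) ^ ((1 : ℝ) / 2 + 1 / 1000) →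
  Cof f c → Cof f c' → a ≠ b → |a| ≤ (N : ℤ) → |b| ≤ (N : ℤ) →
  |∑ d ∈ Ioc (RR N) D, ∑ d' ∈ Ioc (RR N) D, c d * c' d' * Ef N f d d' a b| ≤ C * (N : ℝ) ^ ((1 : ℝ) - 1 / 7000)

/-- Module Ofu (60 lines; adapt TB/Mfu.lean). Expansion of the full sum. Uses: MkaStmt (of TB/SpecM). -/
def OfuStmt : Prop := ∀ (N R D f : ℕ) (c c' : ℕ → ℝ) (a b : ℤ),
  ∑ n ∈ Icc (-(N : ℤ)) N, tri N n * (if (f : ℤ) ∣ n then 1 else 0) *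
      ((∑ d ∈ Ioc R D, c d * dd R d (n - a)) * (∑ d' ∈ Ioc R D, c' d' * dd R d' (n - b))) =
    ∑ d ∈ Ioc R D, ∑ d' ∈ Ioc R D, c d * c' d' *
      ∑ u ∈ d.divisors, ∑ w ∈ d'.divisors, kap R d u * kap R d' w * SSf N f u w a b

/-- Module Omb (100 lines; adapt TB/Mmb.lean). Bound of the main terms for the whole range. Uses: nothing.
Proof. The left side is ≤ N ∑_{R < s ≤ D} |rs s m| (∑_{d ≤ D, s | d} 1/d)^2, ∑_{d ≤ D, s | d} 1/d ≤ (1 + log D)/s (d = s k), and ∑_{R < s} |rs s m|/s^2 ≤ ∑_{e | m} e ∑_{k > R/e} 1/(e k)^2 ≤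
∑_{e | m} (1/e)(2e/R) (|rs s m| ≤ ∑_{e | s, e | m} e, s = e k; ∑_{k > y} 1/k^2 ≤ 2/y); constant 20 to be safe. -/
def OmbStmt : Prop := ∀ (N R D : ℕ) (m : ℤ), 1 ≤ R → 1 ≤ D → m ≠ 0 →
  ∑ d ∈ Ioc R D, ∑ d' ∈ Ioc R D, |((N : ℝ) / ((d : ℝ) * d')) *
      ∑ s ∈ (Nat.gcd d d').divisors.filter (fun s => R < s), rs s m| ≤
    20 * (N : ℝ) * (1 + Real.log D) ^ 2 * (m.natAbs.divisors.card : ℝ) / R

/-- Module Ocr (120 lines; adapt TB/Mcr.lean). The cross terms. Uses: MkaStmt (of TB/SpecM), OsbStmt.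
Proof. u | d, w | d' are prime to f (all prime factors of d, d' are > 4f). kap R d d = 1, kap R d u = 0 for R < u < d, |kap R d u| ≤ (u/d) τ(d), |Ef| ≤ f lcm(u,w)/N ≤ f u w/N. Pairs (d, w), w ≠ d', w ≤ R: each ≤
(w/d') τ(d') f d w/N ≤ f R^2 τ(d') d/(d' N), at most τ(d') of them; pairs (u, d'): f R^2 τ(d)^2 d'/(d N); pairs u, w ≤ R: ≤ τ(d) τ(d') f u^2 w^2/(d d' N) ≤ f R^2 τ τ'/N (R^2 ≤ d d'), at most τ(d) τ(d') of them. -/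
def OcrStmt : Prop := ∀ (N R f d d' : ℕ) (a b : ℤ), 1 ≤ N → 1 ≤ R → 1 ≤ f → R < d → R < d' → Rgh (4 * f) d →
  Rgh (4 * f) d' →
  |∑ u ∈ d.divisors, ∑ w ∈ d'.divisors, kap R d u * kap R d' w * Ef N f u w a b - Ef N f d d' a b| ≤
    (f : ℝ) * (R : ℝ) ^ 2 / N * (1 + (d : ℝ) / d' + (d' : ℝ) / d) *
      ((d.divisors.card : ℝ) ^ 2 * (d'.divisors.card : ℝ) ^ 2)

/-- Module Oab (80 lines; adapt TB/Mab.lean, first part). Uses: nothing.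
Proof. ∑_d [d | m] ≤ τ(|m|); ∑_{d ≤ D} |ld R d m| ≤ ∑_{r ≤ R} |rs r m| ∑_{d ≤ D, r | d} 1/d ≤ (1 + log D) ∑_{r ≤ R} |rs r m|/r ≤ (1 + log D) ∑_{e | m} ∑_{k ≤ R/e} 1/k. -/
def OabStmt : Prop := ∀ (R D : ℕ) (m : ℤ), 1 ≤ R → 1 ≤ D → m ≠ 0 →
  ∑ d ∈ Ioc R D, |dd R d m| ≤ (m.natAbs.divisors.card : ℝ) * (1 + (1 + Real.log D) * (1 + Real.log R))

/-- Module Oxc (80 lines; adapt TB/Mxc.lean). The points n = a and n = b. Uses: OabStmt, MabStmt (of TB/SpecM, only |dd R d 0| ≤ 1). -/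
def OxcStmt : Prop := ∀ (N R D f : ℕ) (c c' : ℕ → ℝ) (a b : ℤ), 1 ≤ R → 1 ≤ D → (∀ d, |c d| ≤ 1) →
  (∀ d, |c' d| ≤ 1) → a ≠ b →
  |∑ n ∈ Icc (-(N : ℤ)) N, tri N n * (if (f : ℤ) ∣ n then 1 else 0) * (GF R D c (n - a) * GF R D c' (n - b)) -
    ∑ n ∈ Icc (-(N : ℤ)) N, tri N n * (if (f : ℤ) ∣ n then 1 else 0) *
      ((∑ d ∈ Ioc R D, c d * dd R d (n - a)) * (∑ d' ∈ Ioc R D, c' d' * dd R d' (n - b)))| ≤
    2 * (D : ℝ) * (((a - b).natAbs.divisors.card : ℝ) * (1 + (1 + Real.log D) * (1 + Real.log R)))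

/-- Module Obg (150 lines; adapt TB/Mbg.lean). One f, large N. Uses: OdyStmt, TauMStmt (of TB/Stm2), MmiStmt (of TB/SpecM), OmbStmt, OcrStmt, OfuStmt, OxcStmt.
Proof. D = 0: both GF vanish. R = RR N, N^(498/1000)/2 ≤ R ≤ N^(498/1000), 0 < |a - b| ≤ 2N. By Oxc and Ofu the sum is, up to 2D τ(|a-b|)(..), ∑_{d,d'} c c' ∑_{u,w} kap kap' SSf, SSf = MM/f + Ef (definition of Ef). (i) MM/f: Mmi, Omb: ≤ 20 N (1 + log D)^2 τ(|a-b|)/R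
(1/f ≤ 1). (ii) Ef of (d, d'): Ody. (iii) the rest: Ocr for the pairs with c c' ≠ 0: f (R^2/N) C N^(4ε) ∑_{d,d' ≤ D} (1 + d/d' + d'/d) ≤ f (R^2/N) C N^(4ε) (D^2 + 2 D^2 (1 + log D)) ≤ C N^(1/100000 + 996/1000 - 1 + 1002/1000 + small) (TauM with a
small ε, ∑ 1/d ≤ 1 + log D). -/
def ObgStmt : Prop := ∃ C : ℝ, ∃ N0 : ℕ, 0 ≤ C ∧ ∀ (N D f : ℕ) (c c' : ℕ → ℝ) (a b : ℤ), N0 ≤ N → 1 ≤ N → 1 ≤ f →
  (f : ℝ) ≤ (N : ℝ) ^ ((1 : ℝ) / 100000) → (D : ℝ) ≤ 2 * (N : ℝ) ^ ((1 : ℝ) / 2 + 1 / 1000) →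
  Cof f c → Cof f c' → a ≠ b → |a| ≤ (N : ℤ) → |b| ≤ (N : ℤ) →
  |∑ n ∈ Icc (-(N : ℤ)) N, tri N n * (if (f : ℤ) ∣ n then 1 else 0) *
      (GF (RR N) D c (n - a) * GF (RR N) D c' (n - b))| ≤ C * (N : ℝ) ^ ((1 : ℝ) - 1 / 8000)

/-- Module Ocd (50 lines). Trivial bound. Uses: nothing.
Proof. |rs r m| ≤ ∑_{e | r} e ≤ r^2, |ld R d m| ≤ (1/d) ∑_{r | d} r^2 ≤ (1/d) d d^2 = d^2, |dd R d m| ≤ 1 + d^2 ≤ 1 + D^2, at most D terms. -/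
def OcdStmt : Prop := ∀ (R D : ℕ) (c : ℕ → ℝ) (m : ℤ), (∀ d, |c d| ≤ 1) →
  |GF R D c m| ≤ (D : ℝ) * (1 + (D : ℝ) ^ 2)

/-- Module Ofn (120 lines). THE RESULT: OffVStmt with κ = 1/200000, η = 1/9000. Uses: ObgStmt, OcdStmt.
Proof. nu lam E n = ∑_{e,e' ≤ E} lam e lam e' [e | n][e' | n] = ∑ lam e lam e' [lcm(e,e') | n], f = lcm(e,e') satisfies 1 ≤ f ≤ E^2 ≤ N^(1/100000), and Rgh (4 E^2) d implies Rgh (4 f) d. For N ≥ N0: at most E^2 ≤ N^(1/100000) pairs, each ≤ C N^(1-1/8000) (Obg):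
≤ C N^(1-1/9000) (1/8000 - 1/100000 > 1/9000). For N < N0: E ≤ N^κ ≤ N0, D ≤ 2 N0, nu ≤ E^2·E^2.. ≤ N0^2 (|∑_{e ≤ E} ..| ≤ E), tri ≤ 1, Ocd: the sum is ≤ (2 N0 + 1) N0^2 (2 N0 (1 + 4 N0^2))^2, and N^(1-η) ≥ 1. -/
def OfnStmt : Prop := OffVStmt

end Pool.Agent.Lib.TP
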