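import Pool.Agent.Lib.TP.Stm
import Pool.Agent.Lib.TP.SpecO
import Pool.Agent.Lib.TB.AspS
import Pool.Agent.Lib.BV.SpecE

/-!
MP_00e23e_nt, directory Lib/TP, part A (helper81): the assembly of theorem P, generic in the level θ and the class of moduli.

RULES. Module Xyz: file Pool/Agent/Lib/TP/Xyz.lean, first line `import Pool.Agent.Lib.TP.SpecP` (and modules of Lib/TB, Lib/BV whose
lemmas you need), then `namespace Pool.Agent.Lib.TP`,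
`open Finset Pool.Agent.Lib.EH3 Pool.Agent.Lib.TB Pool.Agent.Results.MP_00e23e_nt`, private lemmas starting with Xyz_, final theorem
`theorem tXyz (h1 : AStmt) ... : XyzStmt`; the statements under Uses are hypotheses, in this order. Never use congr!. Below 60 s.
`gg R P a d = ∑_{p ∈ P, p ≠ a} dd R d (p - a)` is defined in TB/Cnt.lean.
-/

namespace Pool.Agent.Lib.TP

open Finset Pool.Agent.Lib.EH3 Pool.Agent.Lib.TB Pool.Agent.Results.MP_00e23e_nt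

open Classical in
/-- the sum of |E(y(d); d, s(d))| over the moduli d ≤ x^θ in the class Cls, prime to s(d) -/
noncomputable def RS (θ : ℝ) (Cls : ℝ → ℕ → Prop) (x : ℝ) (y : ℕ → ℝ) (s : ℕ → ℤ) : ℝ :=
  ∑ d ∈ (Icc 1 ⌊x ^ θ⌋₊).filter (fun d : ℕ => Int.gcd (s d) d = 1 ∧ Cls x d), |resErr (y d) d (s d)|

/-- a family of selectors for the moduli d ≤ x^θ -/
def Fam (θ η x : ℝ) (J : Finset ℕ) (s : ℕ → ℕ → ℤ) : Prop :=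
  (∀ i ∈ J, ∀ d ∈ Icc 1 ⌊x ^ θ⌋₊, |(s i d : ℝ)| ≤ x) ∧
  (∀ i ∈ J, (((Icc 1 ⌊x ^ θ⌋₊).image (s i)).card : ℝ) ≤ x ^ η) ∧
  (∀ i ∈ J, ∀ j ∈ J, i ≠ j → ∀ d ∈ Icc 1 ⌊x ^ θ⌋₊, s i d ≠ s j d)

/-- the off-diagonal estimate at one N -/
def OffAt (R D E : ℕ) (I : Finset ℤ) (w : ℤ → ℝ) (lam : ℕ → ℝ) (Cl : ℕ → Prop) (X T : ℝ) : Prop :=
  ∀ (c c' : ℕ → ℝ) (a b : ℤ), (∀ d, |c d| ≤ 1) → (∀ d, |c' d| ≤ 1) → (∀ d, c d ≠ 0 → Cl d) →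
    (∀ d, c' d ≠ 0 → Cl d) → a ≠ b → |(a : ℝ)| ≤ X → |(b : ℝ)| ≤ X →
    |∑ n ∈ I, w n * nu lam E n * (GF R D c (n - a) * GF R D c' (n - b))| ≤ T

/-- the diagonal estimate at one N -/
def DiaAt (R D E : ℕ) (I : Finset ℤ) (w : ℤ → ℝ) (lam : ℕ → ℝ) (Cl : ℕ → Prop) (X T : ℝ) : Prop :=
  ∀ (c : ℤ → ℕ → ℝ) (A : Finset ℤ) (W : ℝ), (∀ a d, c a d ≠ 0 → Cl d) → (∀ d, ∑ a ∈ A, c a d ^ 2 ≤ W) →
    (∀ a ∈ A, |(a : ℝ)| ≤ X) →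
    ∑ a ∈ A, ∑ n ∈ I, w n * nu lam E n * GF R D (c a) (n - a) ^ 2 ≤ T * W

/-- the input of the assembly: cut R, sieve weight lam of level E, weight w on I for all large x -/
def InStmt (θ : ℝ) (Cls : ℝ → ℕ → Prop) : Prop := ∃ C η w0 r x0 : ℝ, 0 ≤ C ∧ 0 < η ∧ 0 < w0 ∧ 0 < r ∧
  ∀ x : ℝ, x0 ≤ x → ∃ (R E : ℕ) (I : Finset ℤ) (w : ℤ → ℝ) (lam : ℕ → ℝ), 1 ≤ R ∧ x ^ r ≤ R ∧
    (R : ℝ) ≤ x ^ ((1 : ℝ) / 2 - r) ∧ 1 ≤ E ∧ (E : ℝ) ≤ x ^ ((1 : ℝ) / 10) ∧ lam 1 = 1 ∧ (∀ n ∈ I, 0 ≤ w n) ∧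
    (∀ n : ℤ, 0 ≤ n → (n : ℝ) ≤ x → n ∈ I ∧ w0 ≤ w n) ∧
    OffAt R ⌊x ^ θ⌋₊ E I w lam (Cls x) x (x ^ (1 - η)) ∧ DiaAt R ⌊x ^ θ⌋₊ E I w lam (Cls x) x (C * (x / Real.log x))

/-- (BES) the Bessel inequality at the point y -/
def BesStmt (θ : ℝ) (Cls : ℝ → ℕ → Prop) : Prop := ∃ C η : ℝ, 0 < C ∧ 0 < η ∧ ∀ B : ℝ, ∃ x0 : ℝ, ∀ x y : ℝ, x0 ≤ x →
  x / Real.log x ≤ y → y ≤ x → ∀ (J : Finset ℕ) (s : ℕ → ℕ → ℤ), Fam θ η x J s → (J.card : ℝ) ≤ (Real.log x) ^ B →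
    ∑ i ∈ J, RS θ Cls x (fun _ => y) (s i) ^ 2 ≤ C * (x / Real.log x) ^ 2

/-- (EXC) the bounded exceptional set at the point y -/
def ExcStmt (θ : ℝ) (Cls : ℝ → ℕ → Prop) : Prop := ∃ C η : ℝ, 0 < C ∧ 0 < η ∧ ∀ ε : ℝ, 0 < ε → ∃ x0 : ℝ, ∀ x y : ℝ,
  x0 ≤ x → x / Real.log x ≤ y → y ≤ x → ∀ (J : Finset ℕ) (s : ℕ → ℕ → ℤ), Fam θ η x J s →
    ∃ S ⊆ J, (S.card : ℝ) ≤ C / ε ^ 2 ∧ ∀ i ∈ J, i ∉ S → RS θ Cls x (fun _ => y) (s i) ≤ ε * (x / Real.log x)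

/-- (GRD) the bounded exceptional set with arbitrary points y(d) -/
def GrdStmt (θ : ℝ) (Cls : ℝ → ℕ → Prop) : Prop := ∃ C η : ℝ, 0 < C ∧ 0 < η ∧ ∀ ε : ℝ, 0 < ε → ε ≤ 1 → ∃ x0 : ℝ, ∀ x : ℝ,
  x0 ≤ x → ∀ (J : Finset ℕ) (s : ℕ → ℕ → ℤ), Fam θ η x J s →
    ∃ S ⊆ J, (S.card : ℝ) ≤ C / ε ^ 5 ∧ ∀ i ∈ J, i ∉ S → ∀ y : ℕ → ℝ, (∀ d, 2 ≤ y d ∧ y d ≤ x) →
      RS θ Cls x y (s i) ≤ ε * (x / Real.log x)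

/-- the class of the moduli without prime factors ≤ x^ρ -/
def Rx (ρ : ℝ) (x : ℝ) (d : ℕ) : Prop := ∀ p : ℕ, p.Prime → p ∣ d → x ^ ρ < (p : ℝ)

/-- Module Pcu (150 lines; compare TB/CntK.lean). The local Bessel inequality. Uses: nothing.
Proof. X_i = ∑_{d ∈ (R,D]} σ i d gg R P (s i d) d, S = ∑_{i ∈ J} X_i^2. If S = 0 the claim is clear (T2 ≥ 0: DiaAt with A = ∅, W = 1). A = union of the images of s i on Ioc R D, i ∈ J, |A| ≤ |J| M. c_a(d) = ∑_{i ∈ J} X_i σ i d [s i d = a] for d ∈ Ioc R D, 0 otherwise: for (a, d)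
at most one i contributes (s i d are pairwise different), so |c_a(d)| ≤ max |X_i| ≤ √S and ∑_{a ∈ A} c_a(d)^2 ≤ ∑_i X_i^2 (σ i d)^2 ≤ S. For p ∈ P: ∑_{a ∈ A} GF R D c_a (p - a) = ∑_i X_i ∑_d σ i d [p ≠ s i d] dd R d (p - s i d), so S = ∑_i X_i X_i = ∑_{p ∈ P} H(p), H(n) = ∑_{a ∈ A} GF R D c_a (n - a).
Cauchy: S^2 ≤ |P| ∑_{p ∈ P} H(p)^2 ≤ (|P|/w0) ∑_{n ∈ I} w n nu lam E n H(n)^2 (p ↦ (p : ℤ) is injective, all terms ≥ 0, w p nu ≥ w0 on P). Expand H^2: the terms a = b give ≤ T2 S (DiaAt, W = S); the terms a ≠ b: c_a = √S c~_a with |c~_a| ≤ 1, each ≤ S T1, at most |A|^2 ≤ |J|^2 M^2 of them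
(T1 ≥ 0). So S^2 ≤ (|P|/w0) S (T2 + |J|^2 M^2 T1). -/
def PcuStmt : Prop := ∀ (R D E : ℕ) (I : Finset ℤ) (w : ℤ → ℝ) (lam : ℕ → ℝ) (Cl : ℕ → Prop) (X T1 T2 w0 M : ℝ)
  (P J : Finset ℕ) (σ : ℕ → ℕ → ℝ) (s : ℕ → ℕ → ℤ), 0 < w0 → 0 ≤ T1 → (∀ n ∈ I, 0 ≤ w n) →
  (∀ p ∈ P, (p : ℤ) ∈ I ∧ w0 ≤ w p ∧ nu lam E p = 1) → OffAt R D E I w lam Cl X T1 → DiaAt R D E I w lam Cl X T2 →
  (∀ i d, |σ i d| ≤ 1) → (∀ i d, σ i d ≠ 0 → Cl d) → (∀ i ∈ J, ∀ d ∈ Icc 1 D, |(s i d : ℝ)| ≤ X) →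
  (∀ i ∈ J, (((Icc 1 D).image (s i)).card : ℝ) ≤ M) →
  (∀ i ∈ J, ∀ j ∈ J, i ≠ j → ∀ d ∈ Icc 1 D, s i d ≠ s j d) →
  ∑ i ∈ J, (∑ d ∈ Ioc R D, σ i d * gg R P (s i d) d) ^ 2 ≤
    (P.card : ℝ) / w0 * (T2 + (J.card : ℝ) ^ 2 * M ^ 2 * T1)

/-- Module Psp (80 lines). The small primes. Uses: OabStmt (of TP/SpecO).
Proof. ∑_d |gg R P0 (s d) d| ≤ ∑_{p ∈ P0} ∑_{a ∈ image, a ≠ p} ∑_{d ∈ (R,D]} |dd R d (p - a)| ≤ E M τ(|p - a|) (..) (Oab), and τ(m) ≤ 2 √m ≤ 4 √X for 1 ≤ m ≤ 2X (elementary: divisors ≤ √m and their complements; Nat.divisors bounds), p ≤ E ≤ X. -/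
def PspStmt : Prop := ∀ (R D E : ℕ) (P0 : Finset ℕ) (s : ℕ → ℤ) (X M : ℝ), 1 ≤ R → 1 ≤ D → 1 ≤ X → (E : ℝ) ≤ X →
  P0 ⊆ Icc 1 E → (∀ d ∈ Icc 1 D, |(s d : ℝ)| ≤ X) → (((Icc 1 D).image s).card : ℝ) ≤ M →
  ∑ d ∈ Ioc R D, |gg R P0 (s d) d| ≤ 4 * E * M * Real.sqrt X * (1 + (1 + Real.log D) * (1 + Real.log R))

/-- Module Ppt (100 lines; compare AspS_all and Asm_one in Lib/TB). One family member. Uses: nothing.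
Proof. P = primes ≤ y = P0 ∪ P1 (p ≤ E, p > E). AspS_all/Asm_one: |E(y;d,a)| ≤ |gg R P a d| + 1 + |∑_p ld R d (p - a) - li y/φ(d)| (resErr = pcz - li/φ, see FinK_pcz; IsCoprime and Int.gcd = 1 are equivalent). dd R d = 0 for d ≤ R (Hf_dd_zero), so gg R P a d = 0 there.
σ d = sign (gg R P (s d) d) if Int.gcd (s d) d = 1 and Cls x d, else 0; gg R P = gg R P0 + gg R P1. -/
def PptStmt : Prop := ∀ (θ x y : ℝ) (Cls : ℝ → ℕ → Prop) (R E : ℕ) (s : ℕ → ℤ), 2 ≤ y → ∃ σ : ℕ → ℝ,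
  (∀ d, |σ d| ≤ 1) ∧ (∀ d, σ d ≠ 0 → Cls x d) ∧
  RS θ Cls x (fun _ => y) s ≤
    |∑ d ∈ Ioc R ⌊x ^ θ⌋₊, σ d * gg R ((Ioc E ⌊y⌋₊).filter Nat.Prime) (s d) d| +
    ∑ d ∈ Ioc R ⌊x ^ θ⌋₊, |gg R ((Icc 1 (min E ⌊y⌋₊)).filter Nat.Prime) (s d) d| + (⌊x ^ θ⌋₊ : ℝ) +
    ∑ d ∈ (Icc 1 ⌊x ^ θ⌋₊).filter (fun d : ℕ => IsCoprime (d : ℤ) (s d)),
      |∑ p ∈ (Icc 1 ⌊y⌋₊).filter Nat.Prime, ld R d ((p : ℤ) - s d) - li y / (d.totient : ℝ)|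

/-- Module Pby (200 lines; compare TB/AsqK.lean). The Bessel inequality. Uses: PcuStmt, PspStmt, PptStmt, LpSStmt (of TB/StmS), BV.ExtStmt, BV.BttStmt.
Proof. C, η, w0, r from InStmt, η' = min(η, r, 1/100)/8 for Fam; D = floor(x^θ), M = x^η', R, E, I, w, lam from InStmt at x. For p in (E, y]: nu lam E p = (lam 1)^2 = 1 (the only divisor ≤ E of the prime p > E is 1). Ppt for every i (σ_i): RS_i ≤ |X_i| + Z_i.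
Z_i: Psp (X = x): ≤ 4 x^(1/10) x^η' x^(1/2) (3 log x)^2 ≤ x^(7/10); D ≤ x^θ ≤ x^(3/4); LpS with BV (see AspS_lp, Asp_bv: the same estimates with x^(1/2-r) in place of 4 x^(498/1000); y/R ≤ x^(1-r)): ≤ C x/(log x)^(U) with U = |B| + 4. So Z_i ≤ 2 C x/(log x)^U for large x,
and 2 |J| Z_i^2 ≤ 8 C^2 (log x)^B x^2/(log x)^(2U) ≤ (x/log x)^2 for x ≥ x0(B). ∑ X_i^2 ≤ (|P|/w0)(C x/log x + (log x)^(2B) x^(2η') x^(1-η)) by Pcu, the second term is ≤ x/log x for x ≥ x0(B). |P| ≤ π(x) ≤ C1 x/log x (Btt with d = 1 and Btt_li of BV/Btt.lean, or any Chebyshev bound).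
∑ RS_i^2 ≤ 2 ∑ X_i^2 + 2 |J| max Z^2. -/
def PbyStmt : Prop := ∀ (θ : ℝ) (Cls : ℝ → ℕ → Prop), 0 < θ → θ ≤ 3 / 4 → InStmt θ Cls → BesStmt θ Cls

/-- Module Pex (60 lines). Uses: nothing.
Proof. B = 1. Bad = the i ∈ J with RS_i > ε x/log x. If |Bad| > C/ε^2, choose J' ⊆ Bad with |J'| = floor(C/ε^2) + 1 ≤ log x (x ≥ x0(ε)); BES for J': |J'| ε^2 (x/log x)^2 < C (x/log x)^2, contradiction. -/
def PexStmt : Prop := ∀ (θ : ℝ) (Cls : ℝ → ℕ → Prop), BesStmt θ Cls → ExcStmt θ Cls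

/-- Module Svt (100 lines; as Svp in TP/SpecS, shifted). Uses: SsbdStmt (of TB/Stm2).
Proof. nu lam E (n + v) = ∑_{e,e' ≤ E} lam e lam e' [lcm(e,e') | n + v], so the left side is ∑ lam e lam e' SS N q l a (-v), l = lcm(e,e'), q prime to l, MM N q l a (-v) = N/(q l), |SS - MM| ≤ q l/N ≤ q E^2/N. -/
def SvtStmt : Prop := ∀ (N E q : ℕ) (lam : ℕ → ℝ) (a v : ℤ), 1 ≤ N → 2 ≤ E → 1 ≤ q → IsSel lam E → Rgh E q →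
  ∑ n ∈ Icc (-(N : ℤ)) N, tri N n * nu lam E (n + v) * (if (q : ℤ) ∣ n - a then 1 else 0) ≤
    (N : ℝ) / (q * Real.log E) + q * (E : ℝ) ^ 4 / N

/-- Module Pbt (80 lines). Brun-Titchmarsh for rough moduli in short intervals. Uses: SelStmt, SvtStmt.
Proof. At most E primes p ≤ E. For p > E in (u, u + Y]: n = p - u ∈ [1, Y], tri (2Y) n ≥ 1/2, nu lam E (n + u) = 1, so the number is ≤ 2 ∑_n tri (2Y) n nu (n + u) [q | n - (a - u)] ≤ 2 (2Y/(q log E) + q E^4/(2Y)). -/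
def PbtStmt : Prop := ∀ (E q u Y : ℕ) (a : ℤ), 2 ≤ E → 1 ≤ q → Rgh E q → 1 ≤ Y →
  ((((Ioc u (u + Y)).filter (fun p : ℕ => p.Prime ∧ (q : ℤ) ∣ (p : ℤ) - a)).card : ℕ) : ℝ) ≤
    4 * (Y : ℝ) / (q * Real.log E) + q * (E : ℝ) ^ 4 / Y + E

/-- Module Pfr (80 lines). Uses: RgsStmt.
Proof. A rough d ≤ x has at most log x/log z different prime factors (each > z), z = floor(x^κ), so 1/φ(d) = (1/d) ∏ p/(p-1) ≤ 2^(number of primes)/d; log x/log z ≤ 2/κ for x ≥ x0(κ) with z ≥ 2. RgsStmt. -/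
def PfrStmt : Prop := ∀ κ : ℝ, 0 < κ → ∃ C x0 : ℝ, ∀ x : ℝ, x0 ≤ x → 2 ≤ ⌊x ^ κ⌋₊ ∧
  ∑ d ∈ (Icc 1 ⌊x⌋₊).filter (Rgh ⌊x ^ κ⌋₊), 1 / (d.totient : ℝ) ≤ C

/-- Module Pgr (200 lines). Arbitrary points y(d). Uses: PbtStmt, PfrStmt.
Proof. C, η from ExcStmt, C' from Pfr (κ' = min(κ, 1 - θ)/8, rough for x^κ implies rough for x^κ'), E = floor(x^κ'). Let ε' = ε/C3 (C3 ≥ 1 a large constant), k = ⌈1/ε'⌉₊ ≤ 2/ε', y_j = j x/k, j = 1, .., k, y_j ≥ x/k ≥ x/log x for large x. EXC at every y_j with ε'^2: exceptional sets S_j, S = union: |S| ≤ k C/ε'^4 ≤ 2 C/ε'^5.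
Let i be outside S and y(d) given, j = j(d) with y_(j-1) < y(d) ≤ y_j (y_0 = 0). |E(y(d);d,a)| ≤ |E(y_j;d,a)| + #{primes in (y(d), y_j], = a mod d} + (li y_j - li y(d))/φ(d). The interval has length ≤ x/k: Pbt with u = ⌊y(d)⌋, Y = ⌈x/k⌉ + 1: the number is ≤ C'' (x/k)/(d κ' log x) (the terms q E^4/Y and E are smaller
for large x because q ≤ x^θ and κ' ≤ (1-θ)/8: q E^4/Y ≤ x^(θ + 4κ' - 1) k 2 and E ≤ x^κ', while (x/k)/(q log x) ≥ x^(1-θ)/(k log x)). li y_j - li y(d) ≤ 2 √x + 4 (x/k)/log x. Sum over the d of the class (Pfr; 1/d ≤ 1/φ(d)): ≤ C4 ε' x/log x. And ∑_d |E(y_(j(d));..)| ≤ ∑_j RS(y_j) ≤ k ε'^2 x/log x ≤ 2 ε' x/log x. Choose C3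
with (C4 + 2)/C3 ≤ 1. (resErr as a difference: resCount x d a is monotone in x.) -/
def PgrStmt : Prop := ∀ (θ κ x1 : ℝ) (Cls : ℝ → ℕ → Prop), 0 < θ → θ < 1 → 0 < κ →
  (∀ x, x1 ≤ x → ∀ d, Cls x d → Rgh ⌊x ^ κ⌋₊ d) → ExcStmt θ Cls → GrdStmt θ Cls

/-- Module Pin (150 lines). The input for the level 501/1000 and rough moduli. Uses: OffVStmt, DiaVStmt, SelStmt.
Proof. N = 2 ⌈x⌉₊ (Asn_N of TB/Asn: x ≤ N ≤ 4x, 2⌊x⌋ ≤ N), I = Icc (-N) N, w = tri N, w0 = 1/2 (|n| ≤ x gives n ≤ ⌊x⌋ ≤ N/2), R = RR N (Asn_RR: 1 ≤ R ≤ 4 x^(498/1000), x^(498/1000) ≤ 2R; r = 1/1000), D = floor(x^(501/1000)) ≤ 2 N^(501/1000). κ1 = min(κ, ρ/20, 1/20) with κ from OffV,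
E = floor(N^κ1) ≥ 2, N^(κ1/2) ≤ E for large x, E ≤ N^(1/10), 4 E^2 ≤ x^ρ (so Rx ρ x d implies Rgh (4 E^2) d and Rgh E d). lam from SelStmt. OffAt: OffV with η0: C N^(1-η0) ≤ x^(1-η0/2) for large x, η = η0/2. DiaAt: DiaV with κ1/2: C W N/log N ≤ 4 C W x/log x (W ≥ 0: a sum of squares is ≤ W). -/
def PinStmt : Prop := ∀ ρ : ℝ, 0 < ρ → InStmt (501 / 1000) (Rx ρ)

/-- Module Pfi (30 lines). THEOREM P at the level 501/1000. Uses: PinStmt, PbyStmt, PexStmt, PgrStmt.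
Proof. Rx ρ x d implies Rgh ⌊x^ρ⌋₊ d. -/
def PfiStmt : Prop := ∀ ρ : ℝ, 0 < ρ → BesStmt (501 / 1000) (Rx ρ) ∧ GrdStmt (501 / 1000) (Rx ρ)

end Pool.Agent.Lib.TP
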