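import Pool.Agent.Lib.TP.SpecP
import Pool.Agent.Lib.TN.StmF

/-!
MP_00e23e_nt, directory Lib/TP, part Q (helper81): theorem P at the levels 1/2 + δ < 5/9 for the convenient moduli without
small prime factors, from `OffGStmt` of TN/StmF, and the union with the level 501/1000.

RULES. Module Xyz: file Pool/Agent/Lib/TP/Xyz.lean, first line `import Pool.Agent.Lib.TP.SpecQ` (and modules of Lib/TB, Lib/TN, Lib/BV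
whose lemmas you need), then `namespace Pool.Agent.Lib.TP`,
`open Finset Pool.Agent.Lib.EH3 Pool.Agent.Lib.TB Pool.Agent.Results.MP_00e23e_nt`, private lemmas starting with Xyz_, final theorem
`theorem tXyz (h1 : AStmt) ... : XyzStmt`; the statements under Uses are hypotheses, in this order. Never use congr!. Below 60 s.
-/

namespace Pool.Agent.Lib.TP

open Finset Pool.Agent.Lib.EH3 Pool.Agent.Lib.TB Pool.Agent.Results.MP_00e23e_nt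

/-- the range of the weight wt N j -/
noncomputable abbrev rn (N j : ℕ) : Finset ℤ := Icc (-(((j + 1) * N : ℕ) : ℤ)) ((j + 1) * N : ℕ)

/-- two properties of the weight (from tWb of TN/Wb) -/
def WqStmt : Prop :=
  (∀ (N j : ℕ) (n : ℤ), 1 ≤ N → 0 ≤ Pool.Agent.Lib.TN.wt N j n ∧ Pool.Agent.Lib.TN.wt N j n ≤ 1) ∧
  (∀ (N j : ℕ) (n : ℤ), 1 ≤ N → 2 * |n| ≤ N → ((1 : ℝ) / 4) ^ (j + 1) ≤ Pool.Agent.Lib.TN.wt N j n)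

/-- the convenient moduli without prime factors ≤ x^ρ -/
def Cq (δ ε ρ : ℝ) (x : ℝ) (d : ℕ) : Prop :=
  Rx ρ x d ∧ Pool.Agent.Lib.TN.Conv (x ^ (2 * δ + ε)) (x ^ ((1 : ℝ) / 2 - 7 * δ - ε)) d

/-- the part of the class Cls above x^(1/2-κ) -/
def Clow (κ : ℝ) (Cls : ℝ → ℕ → Prop) (x : ℝ) (d : ℕ) : Prop := x ^ ((1 : ℝ) / 2 - κ) < (d : ℝ) ∧ Cls x d

/-- the moduli of the final statement: all prime factors > x^ρ, and d ≤ x^(501/1000) or d convenient -/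
def Cu (δ ε ρ : ℝ) (x : ℝ) (d : ℕ) : Prop :=
  Rx ρ x d ∧ ((d : ℝ) ≤ x ^ ((501 : ℝ) / 1000) ∨
    Pool.Agent.Lib.TN.Conv (x ^ (2 * δ + ε)) (x ^ ((1 : ℝ) / 2 - 7 * δ - ε)) d)

/-- Module Qnu (60 lines). Expansion of the sieve weight. Uses: nothing.
Proof. nu lam E n = ∑_{e, e' ≤ E} lam e lam e' [lcm(e,e') | n] (as in the proof of OfnStmt, see TP/Ofn), f = lcm(e,e') ≤ E^2 has only prime factors ≤ E, at most E^2 pairs, |lam e lam e'| ≤ 1. -/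
def QnuStmt : Prop := ∀ (I : Finset ℤ) (w G : ℤ → ℝ) (lam : ℕ → ℝ) (E : ℕ) (T : ℝ), (∀ e, |lam e| ≤ 1) →
  (∀ f : ℕ, 1 ≤ f → f ≤ E ^ 2 → (∀ p : ℕ, p.Prime → p ∣ f → p ≤ E) →
    |∑ n ∈ I, w n * (if (f : ℤ) ∣ n then 1 else 0) * G n| ≤ T) →
  |∑ n ∈ I, w n * nu lam E n * G n| ≤ (E : ℝ) ^ 2 * T

/-- Module Qbl (70 lines). Dyadic blocks. Uses: nothing.
Proof. Both sides are 0 for m = 0. The intervals Ioc (2^i Q0) (2^(i+1) Q0), i < k, are disjoint with union Ioc Q0 (2^k Q0) (induction on k: Ioc Q0 (2^(k+1) Q0) = Ioc Q0 (2^k Q0) ∪ Ioc (2^k Q0) (2^(k+1) Q0), Finset.sum_Ioc_consecutive). The d in (R, D] with c d ≠ 0 are in (Q0, 2^k Q0]. -/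
def QblStmt : Prop := ∀ (R Q0 D k : ℕ) (c : ℕ → ℝ) (m : ℤ), 1 ≤ Q0 → D ≤ 2 ^ k * Q0 → (∀ d, c d ≠ 0 → Q0 < d) →
  GF R D c m = ∑ i ∈ range k, FF R (2 ^ i * Q0) (fun d => if R < d ∧ d ≤ D then c d else 0) m

/-- Module Qof (200 lines). The off-diagonal estimate with the sieve weight. Uses: OffGStmt (of TN/StmF), QnuStmt, QblStmt.
Proof. j, C0, η0, κ0 from OffG, C1 = |C0|. κ = min (κ0/2, η0/16, 1/4), Q0 = ⌊N^(1/2-κ)⌋: for large N, Q0 ≥ N^(1/2-κ)/2 ≥ N^(1/2-κ0), 1 ≤ Q0; c d ≠ 0 gives d > Q0. k = Nat.clog 2 D (D ≤ 2^k), k ≤ 4 log N + 2 (D ≤ N for D ≥ 1; D = 0: k = 0). Qnu with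
G n = GF R D c (n - a) * GF R D c' (n - b), R = RN δ ε N; f has only prime factors ≤ E, c d ≠ 0 implies Rgh E d, so f and d are coprime; f ≤ E^2 ≤ N^(2κ) ≤ N^κ0. For one f: Qbl for both factors, the sum is the sum over i, i' < k of the sums of OffG with Q = 2^i Q0, Q2 = 2^i' Q0 and the restricted
coefficients; if 2^i Q0 > D the coefficients vanish on the block, FF = 0; otherwise Q ≤ D ≤ N^(1/2+δ). Total ≤ E^2 k^2 C1 N^(1-η0) ≤ N^(2κ) (4 log N + 2)^2 C1 N^(1-η0) ≤ C N^(1-η0/2), η = η0/2. -/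
def OffQStmt : Prop := ∀ δ ε : ℝ, 0 ≤ δ → 0 < ε → 2 * δ + ε ≤ 1 / 2 - 7 * δ - ε →
  ∃ (j : ℕ) (C η κ : ℝ) (N0 : ℕ), 0 < η ∧ 0 < κ ∧ ∀ (N E D : ℕ) (L1 L2 : ℝ) (lam c c' : ℕ → ℝ) (a b : ℤ), N0 ≤ N →
    1 ≤ N → 1 ≤ E → (E : ℝ) ≤ (N : ℝ) ^ κ → (D : ℝ) ≤ (N : ℝ) ^ ((1 : ℝ) / 2 + δ) →
    (N : ℝ) ^ (2 * δ + ε) ≤ L1 → L2 ≤ (N : ℝ) ^ ((1 : ℝ) / 2 - 7 * δ - ε) → (∀ e, |lam e| ≤ 1) →
    (∀ d, |c d| ≤ 1) → (∀ d, |c' d| ≤ 1) →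
    (∀ d, c d ≠ 0 → Pool.Agent.Lib.TN.Conv L1 L2 d ∧ Rgh E d ∧ (N : ℝ) ^ ((1 : ℝ) / 2 - κ) < d) →
    (∀ d, c' d ≠ 0 → Pool.Agent.Lib.TN.Conv L1 L2 d ∧ Rgh E d ∧ (N : ℝ) ^ ((1 : ℝ) / 2 - κ) < d) →
    a ≠ b → |a| ≤ (N : ℤ) → |b| ≤ (N : ℤ) →
    |∑ n ∈ rn N j, Pool.Agent.Lib.TN.wt N j n * nu lam E n *
        (GF (Pool.Agent.Lib.TN.RN δ ε N) D c (n - a) * GF (Pool.Agent.Lib.TN.RN δ ε N) D c' (n - b))| ≤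
      C * (N : ℝ) ^ (1 - η)

/-- Module Qin (200 lines; compare TP/Pin). The input for the level 1/2 + δ. Uses: OffQStmt, DiaVStmt, SelStmt, WqStmt.
Proof. ε1 = ε/2. OffQ with (δ, ε1): j, C1, η1, κ1, N0. κ = min(κ1, 1/4)/2. N = 2 ⌈x⌉₊ (x ≤ N ≤ 4x; 2|n| ≤ N if |n| ≤ x), I = rn N j, w = wt N j, w0 = (1/4)^(j+1), R = RN δ ε1 N: N^(1/2-δ-ε1)/2 ≤ R ≤ N^(1/2-δ-ε1), so with r = min (ε1/2) ((1/2-δ-ε1)/2) > 0: x^r ≤ R ≤ x^(1/2-r) for large x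
(1/2 - δ - ε1 > 0 because 9δ + 2ε ≤ 1/2). κ2 = min (κ1, ρ/2, 1/20)/2, E = ⌊N^κ2⌋₊ ≥ 2, N^(κ2/2) ≤ E (in fact (4(j+1)N)^(κ2/2) ≤ E) for large x, E ≤ x^(1/10), E ≤ x^ρ (so Rx ρ x d implies Rgh E d). lam from SelStmt.
OffAt: D = ⌊x^(1/2+δ)⌋ ≤ N^(1/2+δ); L1 = x^(2δ+ε) ≥ (4x)^(2δ+ε1) ≥ N^(2δ+ε1) for large x; L2 = x^(1/2-7δ-ε) ≤ x^(1/2-7δ-ε1) ≤ N^(1/2-7δ-ε1) (exponent ≥ 0); N^(1/2-κ1') ≤ (4x)^(1/2-κ1') ≤ 2 x^(1/2-κ1') ≤ x^(1/2-κ) < d for κ1' = min(κ1, 1/4) ≥ ..: if κ1 > 1/4 use N^(1/2-κ1) ≤ N^(1/4). |a| ≤ x gives |a| ≤ N.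
C1 N^(1-η1) ≤ x^(1-η1/2) (η = η1/2; |C1|). DiaAt: M = 2(j+1)N: wt ≤ 1 ≤ 2 tri M n for |n| ≤ (j+1)N, so ∑_{rn N j} wt nu GF^2 ≤ 2 ∑_{Icc (-M) M} tri M nu GF^2 and DiaV with N := M, κ := κ2/2: 2 C2 W M/log M ≤ 16 (j+1) |C2| W x/log x (W ≥ 0: a sum of squares is ≤ W). -/
def QinStmt : Prop := ∀ δ ε ρ : ℝ, 0 ≤ δ → 0 < ε → 2 * δ + ε ≤ 1 / 2 - 7 * δ - ε → 0 < ρ →
  ∃ κ : ℝ, 0 < κ ∧ InStmt (1 / 2 + δ) (Clow κ (Cq δ ε ρ))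

/-- Module Qsm (100 lines; compare Asp_bv and AspS_lp in Lib/TB). The small moduli. Uses: BV.ExtStmt.
Proof. ExtStmt with A and D = ⌊x^(1/2-κ)⌋₊ ≥ 1 (κ ≤ 1/2; for κ > 1/2 the sum is empty or D = 1: use κ' = min κ (1/2)): √x D (log K)(log log K) ≤ x^(1-κ') (log x)^2 ≤ x/(log x)^A for large x (K ≤ 16 + √x ≤ x). For gcd (s d, d) = 1: |resErr (y d) d (s d)| ≤ maxErr (y d) d
(FinK_pcz or the lemmas of TB/AspS: resErr y d a = pcz y d a - li y/φ(d); the class of a modulo d). -/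
def QsmStmt : Prop := ∀ κ A : ℝ, 0 < κ → 0 < A → ∃ C x0 : ℝ, 0 ≤ C ∧ ∀ x : ℝ, x0 ≤ x → ∀ (y : ℕ → ℝ) (s : ℕ → ℤ),
  (∀ d, 2 ≤ y d ∧ y d ≤ x) →
  ∑ d ∈ (Icc 1 ⌊x ^ ((1 : ℝ) / 2 - κ)⌋₊).filter (fun d : ℕ => Int.gcd (s d) d = 1), |resErr (y d) d (s d)| ≤
    C * (x / (Real.log x) ^ A)

/-- Module Qlo (120 lines). Removing the lower bound for the moduli. Uses: QsmStmt.
Proof. RS θ Cls x y s ≤ RS θ (Clow κ Cls) x y s + Z, Z the sum of Qsm. BES: η as before, C' = 2 C + 2: ∑ RS^2 ≤ 2 ∑ RS'^2 + 2 |J| Z^2 with Z ≤ C1 x/(log x)^A, A = |B| + 2: 2 (log x)^B C1^2 x^2/(log x)^(2A) ≤ (x/log x)^2 for x ≥ x0(B). GRD: use ε/2 and A = 2: Z ≤ (ε/2) x/log x for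
x ≥ x0(ε); C' = 32 C. -/
def QloStmt : Prop := ∀ (θ κ : ℝ) (Cls : ℝ → ℕ → Prop), 0 < κ →
  (BesStmt θ (Clow κ Cls) → BesStmt θ Cls) ∧ (GrdStmt θ (Clow κ Cls) → GrdStmt θ Cls)

/-- Module Qun (100 lines). Two classes. Uses: nothing.
Proof. RS θ Cls ≤ RS θ1 Cls1 + RS θ Cls2 (a modulus d ≤ x^θ of the class Cls is in Cls1 and ≤ x^θ1, or in Cls2), Fam θ η x J s implies Fam θ1 η x J s (θ1 ≤ θ, x ≥ 1) and Fam is monotone in η (x ≥ 1). BES: η = min, C = 2 (C1 + C2). GRD: ε/2 in both, union of the two exceptional sets, C = 32 (C1 + C2). -/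
def QunStmt : Prop := ∀ (θ1 θ : ℝ) (Cls1 Cls2 Cls : ℝ → ℕ → Prop), 0 < θ1 → θ1 ≤ θ →
  (∀ x : ℝ, 1 ≤ x → ∀ d : ℕ, Cls x d → (Cls1 x d ∧ (d : ℝ) ≤ x ^ θ1) ∨ Cls2 x d) →
  (BesStmt θ1 Cls1 → BesStmt θ Cls2 → BesStmt θ Cls) ∧ (GrdStmt θ1 Cls1 → GrdStmt θ Cls2 → GrdStmt θ Cls)

/-- Module Qfi (80 lines). THEOREM Q. Uses: QinStmt, PbyStmt, PexStmt, PgrStmt, QloStmt, QunStmt, PfiStmt.
Proof. If 2δ + ε > 1/2 - 7δ - ε then for x > 1 no d is in Cq (s ≥ x^(2δ+ε) > x^(1/2-7δ-ε) ≥ s), so BES and GRD for Cq hold trivially (RS = 0 for x ≥ 2, S = ∅). Otherwise Qin, Pby (θ = 1/2 + δ ≤ 3/4), Pex, Pgr (Clow κ (Cq ..) x d implies Rgh ⌊x^ρ⌋₊ d), Qlo. Then Qun with θ1 = 501/1000,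
Cls1 = Rx ρ (PfiStmt), Cls2 = Cq δ ε ρ. -/
def QStmt : Prop := ∀ δ ε ρ : ℝ, 1 / 1000 ≤ δ → δ < 1 / 18 → 0 < ε → 0 < ρ →
  BesStmt (1 / 2 + δ) (Cu δ ε ρ) ∧ GrdStmt (1 / 2 + δ) (Cu δ ε ρ)

end Pool.Agent.Lib.TP
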