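import Pool.Agent.Lib.TP.SpecQ

/-!
MP_00e23e_nt, directory Lib/TP, part R (helper81): one inequality which contains the Bessel inequality and the bounded exceptional
set: ∑_i RS(y_i; s_i)^2 ≤ C min(k, |J|^(1/3)) (x/log x)^2 if the points y_i(d) take at most k different values.

RULES. Module Xyz: file Pool/Agent/Lib/TP/Xyz.lean, first line `import Pool.Agent.Lib.TP.SpecR` (and modules of Lib/TB, Lib/TP, Lib/BV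
whose lemmas you need), then `namespace Pool.Agent.Lib.TP`,
`open Finset Pool.Agent.Lib.EH3 Pool.Agent.Lib.TB Pool.Agent.Results.MP_00e23e_nt`, private lemmas starting with Xyz_, final theorem
`theorem tXyz (h1 : AStmt) ... : XyzStmt`; the statements under Uses are hypotheses, in this order. Never use congr!. Below 60 s.
Most modules are adaptations of a module of Lib/TP (named in the docstring): copy and change.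
-/

namespace Pool.Agent.Lib.TP

open Finset Pool.Agent.Lib.EH3 Pool.Agent.Lib.TB Pool.Agent.Results.MP_00e23e_nt

/-- (BYK) the Bessel inequality for points with few values -/
def BykStmt (θ : ℝ) (Cls : ℝ → ℕ → Prop) : Prop := ∃ C η : ℝ, 0 < C ∧ 0 < η ∧ ∀ B : ℝ, ∃ x0 : ℝ, ∀ x : ℝ, x0 ≤ x →
  ∀ (J : Finset ℕ) (s : ℕ → ℕ → ℤ) (Y : Finset ℝ) (y : ℕ → ℕ → ℝ), Fam θ η x J s → (J.card : ℝ) ≤ (Real.log x) ^ B →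
    (Y.card : ℝ) ≤ (Real.log x) ^ B → (∀ z ∈ Y, 2 ≤ z ∧ z ≤ x) → (∀ i d, y i d ∈ Y) →
    ∑ i ∈ J, RS θ Cls x (y i) (s i) ^ 2 ≤ C * Y.card * (x / Real.log x) ^ 2

/-- (GRY) the Bessel inequality for arbitrary points -/
def GryStmt (θ : ℝ) (Cls : ℝ → ℕ → Prop) : Prop := ∃ C η : ℝ, 0 < C ∧ 0 < η ∧ ∀ B : ℝ, ∃ x0 : ℝ, ∀ x : ℝ, x0 ≤ x →
  ∀ (J : Finset ℕ) (s : ℕ → ℕ → ℤ) (Y : Finset ℝ) (y : ℕ → ℕ → ℝ), Fam θ η x J s → (J.card : ℝ) ≤ (Real.log x) ^ B →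
    (∀ z ∈ Y, 2 ≤ z ∧ z ≤ x) → (∀ i d, y i d ∈ Y) →
    ∑ i ∈ J, RS θ Cls x (y i) (s i) ^ 2 ≤ C * min (Y.card : ℝ) ((J.card : ℝ) ^ ((1 : ℝ) / 3)) * (x / Real.log x) ^ 2

/-- Module Rcu (80 lines). The Bessel inequality for several sets of primes. Uses: PcuStmt.
Proof. If Y = ∅ both sides are 0. Let X z i = ∑_{d ∈ (R,D]} σ z i d gg R (P z) (s i d) d, T = T2 + |J|^2 M^2 T1 (≥ 0: T2 ≥ 0 by DiaAt with A = ∅ and W = 1), n_z = |P z|. Pcu for every z ∈ Y: ∑_i X z i ^2 ≤ n_z T/w0; X z i = 0 if n_z = 0. Cauchy (Finset.inner_mul_le_norm_mul_norm or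
Finset.sum_sq_le_sum_mul_sum_of_sq_eq_mul / div_add_div_same, sum_div: Titu/Sedrakyan `Finset.sum_sq_le_sum_mul_sum_of_sq_eq_mul`): with Y' = {z ∈ Y : n_z > 0}: (∑_z X z i)^2 ≤ (∑_{z ∈ Y'} √n_z)(∑_{z ∈ Y'} X z i^2/√n_z), so ∑_i (..)^2 ≤ (∑ √n_z)(∑ √n_z) T/w0
and (∑_{z ∈ Y} √n_z)^2 ≤ |Y| ∑ n_z. (Simpler alternative with the same bound: weights.) -/
def RcuStmt : Prop := ∀ (R D E : ℕ) (I : Finset ℤ) (w : ℤ → ℝ) (lam : ℕ → ℝ) (Cl : ℕ → Prop) (X T1 T2 w0 M : ℝ)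
  (Y : Finset ℝ) (P : ℝ → Finset ℕ) (J : Finset ℕ) (σ : ℝ → ℕ → ℕ → ℝ) (s : ℕ → ℕ → ℤ), 0 < w0 → 0 ≤ T1 →
  (∀ n ∈ I, 0 ≤ w n) → (∀ z ∈ Y, ∀ p ∈ P z, (p : ℤ) ∈ I ∧ w0 ≤ w p ∧ nu lam E p = 1) →
  OffAt R D E I w lam Cl X T1 → DiaAt R D E I w lam Cl X T2 →
  (∀ z i d, |σ z i d| ≤ 1) → (∀ z i d, σ z i d ≠ 0 → Cl d) → (∀ i ∈ J, ∀ d ∈ Icc 1 D, |(s i d : ℝ)| ≤ X) →
  (∀ i ∈ J, (((Icc 1 D).image (s i)).card : ℝ) ≤ M) →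
  (∀ i ∈ J, ∀ j ∈ J, i ≠ j → ∀ d ∈ Icc 1 D, s i d ≠ s j d) →
  ∑ i ∈ J, (∑ z ∈ Y, ∑ d ∈ Ioc R D, σ z i d * gg R (P z) (s i d) d) ^ 2 ≤
    (Y.card : ℝ) * (∑ z ∈ Y, ((P z).card : ℝ)) / w0 * (T2 + (J.card : ℝ) ^ 2 * M ^ 2 * T1)

/-- Module Rsp (80 lines; copy TP/Psp, the same proof with P0 d in place of P0). The small primes. Uses: OabStmt (of TP/SpecO). -/
def RspStmt : Prop := ∀ (R D E : ℕ) (P0 : ℕ → Finset ℕ) (s : ℕ → ℤ) (X M : ℝ), 1 ≤ R → 1 ≤ D → 1 ≤ X → (E : ℝ) ≤ X →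
  (∀ d, P0 d ⊆ Icc 1 E) → (∀ d ∈ Icc 1 D, |(s d : ℝ)| ≤ X) → (((Icc 1 D).image s).card : ℝ) ≤ M →
  ∑ d ∈ Ioc R D, |gg R (P0 d) (s d) d| ≤ 4 * E * M * Real.sqrt X * (1 + (1 + Real.log D) * (1 + Real.log R))

/-- Module Rpt (120 lines; adapt TP/Ppt). One family member, points y d in a finite set Y. Uses: nothing.
Proof. As TP/Ppt (Ppt_one is pointwise in d) with y d in place of y. σ d = sign (gg R ((Ioc E ⌊y d⌋₊).filter Nat.Prime) (s d) d) if Int.gcd (s d) d = 1 and Cls x d, else 0. The primes p in (E, y d] are the disjoint union of the cells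
P z = {p ∈ (E, z] prime, p > z' for all z' ∈ Y with z' < z}, z ∈ Y, z ≤ y d (z is the smallest element of Y with p ≤ z; y d ∈ Y), so gg R (primes in (E, y d]) = ∑_{z ∈ Y, z ≤ y d} gg R (P z). Last sum: each term is at most the sum over z ∈ Y. -/
def RptStmt : Prop := ∀ (θ x : ℝ) (Cls : ℝ → ℕ → Prop) (R E : ℕ) (s : ℕ → ℤ) (Y : Finset ℝ) (y : ℕ → ℝ),
  (∀ z ∈ Y, 2 ≤ z) → (∀ d, y d ∈ Y) → ∃ σ : ℕ → ℝ, (∀ d, |σ d| ≤ 1) ∧ (∀ d, σ d ≠ 0 → Cls x d) ∧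
  RS θ Cls x y s ≤
    |∑ z ∈ Y, ∑ d ∈ Ioc R ⌊x ^ θ⌋₊, (if z ≤ y d then σ d else 0) *
      gg R ((Ioc E ⌊z⌋₊).filter (fun p : ℕ => p.Prime ∧ ∀ z' ∈ Y, z' < z → z' < (p : ℝ))) (s d) d| +
    ∑ d ∈ Ioc R ⌊x ^ θ⌋₊, |gg R ((Icc 1 (min E ⌊y d⌋₊)).filter Nat.Prime) (s d) d| + (⌊x ^ θ⌋₊ : ℝ) +
    ∑ z ∈ Y, ∑ d ∈ (Icc 1 ⌊x ^ θ⌋₊).filter (fun d : ℕ => IsCoprime (d : ℤ) (s d)),
      |∑ p ∈ (Icc 1 ⌊z⌋₊).filter Nat.Prime, ld R d ((p : ℤ) - s d) - li z / (d.totient : ℝ)|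

/-- Module Rby (250 lines; adapt TP/Pby). Uses: RcuStmt, RspStmt, RptStmt, LpSStmt (of TB/StmS), BV.ExtStmt, BV.BttStmt.
Proof. As TP/Pby with Rpt for every i ∈ J (P z = (Ioc E ⌊z⌋₊).filter (..) as in Rpt, σ z i d = if z ≤ y i d then σ i d else 0): the P z, z ∈ Y, are disjoint subsets of the primes ≤ x (for z' < z in Y the elements of P z' are ≤ z' and those of P z are > z'), so ∑_z |P z| ≤ π(x) ≤ C1 x/log x.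
Rcu: ∑ X_i^2 ≤ |Y| π(x)/w0 (C x/log x + (log x)^(2B) x^(2η') x^(1-η)). Z_i: as in Pby, but the last sum is over z ∈ Y: at most (log x)^B times the bound of Pby_lp (valid for every z ∈ [2, x], y ≥ x/log x is only used there for y ≥ 2), so use U = 2|B| + 2. If Y = ∅ there is no y (y 0 0 ∈ Y).
2 |J| Z^2 ≤ (x/log x)^2 ≤ |Y| (x/log x)^2. -/
def RbyStmt : Prop := ∀ (θ : ℝ) (Cls : ℝ → ℕ → Prop), 0 < θ → θ ≤ 3 / 4 → InStmt θ Cls → BykStmt θ Cls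

/-- Module Rro (180 lines; adapt TP/Pgr). Rounding of the points. Uses: PbtStmt, PfrStmt.
Proof. As TP/Pgr: h = x/k ≥ x/(log x)^|B|, for every d of the class m = ⌈k y(d)/x⌉₊ ∈ [1, k] satisfies h m - h < y(d) ≤ h m, and |resErr (y d) d a| ≤ |resErr (h m) d a| + (16/κ' + 8) (h/L) (1/φ(d)) as in Pgr_one (c1, c2, c3 hold for x ≥ x0(B): compare Pgr with (log x)^|B| in place of log x);
sum over d with PfrStmt. h/L = x/(k log x). -/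
def RroStmt : Prop := ∀ (θ κ x1 : ℝ) (Cls : ℝ → ℕ → Prop), 0 < θ → θ < 1 → 0 < κ →
  (∀ x, x1 ≤ x → ∀ d, Cls x d → Rgh ⌊x ^ κ⌋₊ d) → ∃ C : ℝ, 0 ≤ C ∧ ∀ B : ℝ, ∃ x0 : ℝ, ∀ x : ℝ, x0 ≤ x → ∀ k : ℕ,
  1 ≤ k → (k : ℝ) ≤ (Real.log x) ^ B → ∀ (y : ℕ → ℝ) (s : ℕ → ℤ), (∀ d, 2 ≤ y d ∧ y d ≤ x) →
  RS θ Cls x y s ≤ RS θ Cls x (fun d => x / k * (⌈(k : ℝ) * y d / x⌉₊ : ℝ)) s + C * (x / ((k : ℝ) * Real.log x))

/-- Module Rgr (120 lines). Arbitrary points. Uses: RroStmt.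
Proof. C, η from BykStmt, C1 from Rro. J = ∅: both sides are 0 (0^(1/3) = 0, min ≥ 0). Otherwise |J| ≥ 1. B' = |B| + 2, x0 such that both statements hold with B' and log x ≥ 2, x/(log x)^B' ≥ 2. If |Y| ≤ |J|^(1/3) then |Y| ≤ (log x)^B' and Byk gives it. Otherwise k = ⌈|J|^(1/3)⌉₊, |J|^(1/3) ≤ k ≤ 2 |J|^(1/3)
≤ (log x)^B', Y' = image of m ↦ x/k m on Icc 1 k (elements in [2, x]), |Y'| ≤ k, y' i d = x/k ⌈k y i d/x⌉₊ ∈ Y'. Rro for every i: RS^2 ≤ 2 RS'^2 + 2 C1^2 (x/(k log x))^2; sum: ≤ 2 C k (x/log x)^2 + 2 C1^2 |J|/k^2 (x/log x)^2 and |J|/k^2 ≤ |J|^(1/3). So the constant 4 C + 2 C1^2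
works. -/
def RgrStmt : Prop := ∀ (θ κ x1 : ℝ) (Cls : ℝ → ℕ → Prop), 0 < θ → θ < 1 → 0 < κ →
  (∀ x, x1 ≤ x → ∀ d, Cls x d → Rgh ⌊x ^ κ⌋₊ d) → BykStmt θ Cls → GryStmt θ Cls

/-- Module Rlo (100 lines). Removing the lower bound for the moduli. Uses: QsmStmt (of TP/SpecQ).
Proof. J = ∅: both sides are 0. RS θ Cls x y s ≤ RS θ (Clow κ Cls) x y s + Z, Z the sum of Qsm with A = |B| + 2: ∑ RS^2 ≤ 2 ∑ RS'^2 + 2 |J| Z^2, Z ≤ C1 x/(log x)^A, and 2 (log x)^|B| C1^2 x^2/(log x)^(2A) ≤ (x/log x)^2 for x ≥ x0(B); (x/log x)^2 ≤ min(|Y|, |J|^(1/3)) (x/log x)^2 since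
|J| ≥ 1 and |Y| ≥ 1 (y 0 0 ∈ Y). Constant 2 C + 2. -/
def RloStmt : Prop := ∀ (θ κ : ℝ) (Cls : ℝ → ℕ → Prop), 0 < κ → GryStmt θ (Clow κ Cls) → GryStmt θ Cls

/-- Module Run (80 lines). Two classes. Uses: nothing.
Proof. RS θ Cls ≤ RS θ1 Cls1 + RS θ Cls2 (a modulus d ≤ x^θ of the class Cls is in Cls1 and ≤ x^θ1, or in Cls2), Fam θ η x J s implies Fam θ1 η1 x J s (θ1 ≤ θ, η ≤ η1, x ≥ 1). η = min, C = 2 (C1 + C2). -/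
def RunStmt : Prop := ∀ (θ1 θ : ℝ) (Cls1 Cls2 Cls : ℝ → ℕ → Prop), 0 < θ1 → θ1 ≤ θ →
  (∀ x : ℝ, 1 ≤ x → ∀ d : ℕ, Cls x d → (Cls1 x d ∧ (d : ℝ) ≤ x ^ θ1) ∨ Cls2 x d) →
  GryStmt θ1 Cls1 → GryStmt θ Cls2 → GryStmt θ Cls

/-- Module Rfi (80 lines; compare QStmt). THEOREM R. Uses: PinStmt, QinStmt, RbyStmt, RgrStmt, RloStmt, RunStmt.
Proof. (a) GryStmt (501/1000) (Rx ρ): PinStmt, Rby, Rgr (κ = ρ: Rx ρ x d implies Rgh ⌊x^ρ⌋₊ d). (b) GryStmt (1/2 + δ) (Cq δ ε ρ): if 2δ + ε > 1/2 - 7δ - ε then for x ≥ 2 no d is in Cq (x^(1/2-7δ-ε) < x^(2δ+ε)), RS = 0, any C = η = 1. Otherwise Qin, Rby (θ = 1/2 + δ ≤ 3/4), Rgr, Rlo.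
(c) Run with θ1 = 501/1000, Cls1 = Rx ρ, Cls2 = Cq δ ε ρ. -/
def RStmt : Prop := ∀ δ ε ρ : ℝ, 1 / 1000 ≤ δ → δ < 1 / 18 → 0 < ε → 0 < ρ → GryStmt (1 / 2 + δ) (Cu δ ε ρ)

end Pool.Agent.Lib.TP
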