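import Pool.Agent.Lib.TP.SpecK
import Pool.Agent.Lib.TV.StmVf

/-!
MP_00e23e_nt, directory Lib/TP, part W (helper81): theorem K for sets A of x^v integers (9 δ + 3 v < 1/2), from `OffGAt` of TV/StmVf.
Everything is an adaptation of the modules of parts P, Q, R, K: the off-diagonal terms are bounded for the whole family at once.

RULES. Module Xyz: file Pool/Agent/Lib/TP/Xyz.lean, first line `import Pool.Agent.Lib.TP.SpecW` (and modules of Lib/TB, Lib/TP, Lib/BV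
whose lemmas you need), then `namespace Pool.Agent.Lib.TP`,
`open Finset Pool.Agent.Lib.EH3 Pool.Agent.Lib.TB Pool.Agent.Results.MP_00e23e_nt`, private lemmas starting with Xyz_, final theorem
`theorem tXyz (h1 : AStmt) ... : XyzStmt`; the statements under Uses are hypotheses, in this order. Never use congr!. Below 60 s.
-/

namespace Pool.Agent.Lib.TP

open Finset Pool.Agent.Lib.EH3 Pool.Agent.Lib.TB Pool.Agent.Results.MP_00e23e_nt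

/-- the off-diagonal estimate at one N for a whole family -/
def OffFam (R D E : ℕ) (I : Finset ℤ) (w : ℤ → ℝ) (lam : ℕ → ℝ) (Cl : ℕ → Prop) (X V T : ℝ) : Prop :=
  ∀ (c : ℤ → ℕ → ℝ) (A : Finset ℤ) (K : ℝ), 1 ≤ K → (∀ a d, |c a d| ≤ 1) → (∀ d, ∑ a ∈ A, |c a d| ≤ K) →
    (∀ a d, c a d ≠ 0 → Cl d) → (A.card : ℝ) ≤ K * V → (∀ a ∈ A, |(a : ℝ)| ≤ X) →
    |∑ a ∈ A, ∑ b ∈ A.erase a, ∑ n ∈ I, w n * nu lam E n * (GF R D (c a) (n - a) * GF R D (c b) (n - b))| ≤ K ^ 2 * T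

/-- the input of the assembly for x^v values -/
def InVStmt (θ v : ℝ) (Cls : ℝ → ℕ → Prop) : Prop := ∃ C η w0 r x0 : ℝ, 0 ≤ C ∧ 0 < η ∧ 0 < w0 ∧ 0 < r ∧
  ∀ x : ℝ, x0 ≤ x → ∃ (R E : ℕ) (I : Finset ℤ) (w : ℤ → ℝ) (lam : ℕ → ℝ), 1 ≤ R ∧ x ^ r ≤ R ∧
    (R : ℝ) ≤ x ^ ((1 : ℝ) / 2 - r) ∧ 1 ≤ E ∧ (E : ℝ) ≤ x ^ ((1 : ℝ) / 10) ∧ lam 1 = 1 ∧ (∀ n ∈ I, 0 ≤ w n) ∧
    (∀ n : ℤ, 0 ≤ n → (n : ℝ) ≤ x → n ∈ I ∧ w0 ≤ w n) ∧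
    OffFam R ⌊x ^ θ⌋₊ E I w lam (Cls x) x (x ^ v) (x ^ (1 - η)) ∧
    DiaAt R ⌊x ^ θ⌋₊ E I w lam (Cls x) x (C * (x / Real.log x))

/-- the Bessel inequality for points with few values, x^v residues -/
def BykV (θ v : ℝ) (Cls : ℝ → ℕ → Prop) : Prop := ∃ C : ℝ, 0 < C ∧ ∀ B : ℝ, ∃ x0 : ℝ, ∀ x : ℝ, x0 ≤ x →
  ∀ (J : Finset ℕ) (s : ℕ → ℕ → ℤ) (Y : Finset ℝ) (y : ℕ → ℕ → ℝ), Fam θ v x J s → (J.card : ℝ) ≤ (Real.log x) ^ B →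
    (Y.card : ℝ) ≤ (Real.log x) ^ B → (∀ z ∈ Y, 2 ≤ z ∧ z ≤ x) → (∀ i d, y i d ∈ Y) →
    ∑ i ∈ J, RS θ Cls x (y i) (s i) ^ 2 ≤ C * Y.card * (x / Real.log x) ^ 2

/-- the Bessel inequality for arbitrary points, x^v residues -/
def GryV (θ v : ℝ) (Cls : ℝ → ℕ → Prop) : Prop := ∃ C : ℝ, 0 < C ∧ ∀ B : ℝ, ∃ x0 : ℝ, ∀ x : ℝ, x0 ≤ x →
  ∀ (J : Finset ℕ) (s : ℕ → ℕ → ℤ) (Y : Finset ℝ) (y : ℕ → ℕ → ℝ), Fam θ v x J s → (J.card : ℝ) ≤ (Real.log x) ^ B →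
    (∀ z ∈ Y, 2 ≤ z ∧ z ≤ x) → (∀ i d, y i d ∈ Y) →
    ∑ i ∈ J, RS θ Cls x (y i) (s i) ^ 2 ≤ C * min (Y.card : ℝ) ((J.card : ℝ) ^ ((1 : ℝ) / 3)) * (x / Real.log x) ^ 2

/-- the maximum over all but K - 1 elements of A, |A| ≤ x^v -/
def KthV (θ v : ℝ) (Cls : ℝ → ℕ → Prop) : Prop := ∃ C : ℝ, 0 < C ∧ ∀ B : ℝ, ∃ x0 : ℝ, ∀ x : ℝ, x0 ≤ x →
  ∀ (A : Finset ℤ) (Y : Finset ℝ) (K : ℕ), (∀ a ∈ A, |(a : ℝ)| ≤ x) → (A.card : ℝ) ≤ x ^ v →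
  (∀ z ∈ Y, 2 ≤ z ∧ z ≤ x) → 1 ≤ K → (K : ℝ) ≤ (Real.log x) ^ B →
  ∃ Bad : ℕ → Finset ℤ, (∀ d, (Bad d).card < K) ∧ ∀ (a : ℕ → ℤ) (y : ℕ → ℝ), (∀ d, a d ∈ A ∧ a d ∉ Bad d ∧ y d ∈ Y) →
    RS θ Cls x y a ≤ C * min (Real.sqrt ((Y.card : ℝ) / K)) ((K : ℝ) ^ (-(1 : ℝ) / 3)) * (x / Real.log x)

/-- the convenient moduli without prime factors ≤ x^ρ, exponents for x^v residues -/
def Cv (δ v ε ρ : ℝ) (x : ℝ) (d : ℕ) : Prop :=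
  Rx ρ x d ∧ Pool.Agent.Lib.TN.Conv (x ^ (2 * δ + v + ε)) (x ^ ((1 : ℝ) / 2 - 7 * δ - 2 * v - ε)) d

/-- (OFFW) the off-diagonal estimate with the sieve weight for a family -/
def OffWAt (δ v ε e1 e2 : ℝ) : Prop :=
  ∃ (j : ℕ) (C η κ : ℝ) (N0 : ℕ), 0 < η ∧ 0 < κ ∧ ∀ (N E D : ℕ) (L1 L2 K : ℝ) (lam : ℕ → ℝ) (A : Finset ℤ)
    (c : ℤ → ℕ → ℝ), N0 ≤ N → 1 ≤ N → 1 ≤ E → (E : ℝ) ≤ (N : ℝ) ^ κ → (D : ℝ) ≤ (N : ℝ) ^ ((1 : ℝ) / 2 + δ) →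
    (N : ℝ) ^ e1 ≤ L1 → L2 ≤ (N : ℝ) ^ e2 → (∀ e, |lam e| ≤ 1) → Pool.Agent.Lib.TM.IsCf A K c → 1 ≤ K →
    (∀ a d, c a d ≠ 0 → Pool.Agent.Lib.TN.Conv L1 L2 d ∧ Rgh E d ∧ (N : ℝ) ^ ((1 : ℝ) / 2 - κ) < d) →
    (A.card : ℝ) ≤ K * (N : ℝ) ^ v → (∀ a ∈ A, |a| ≤ (N : ℤ)) →
    |∑ a ∈ A, ∑ b ∈ A.erase a, ∑ n ∈ rn N j, Pool.Agent.Lib.TN.wt N j n * nu lam E n *
        (GF (Pool.Agent.Lib.TN.RN δ ε N) D (c a) (n - a) * GF (Pool.Agent.Lib.TN.RN δ ε N) D (c b) (n - b))| ≤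
      C * K ^ 2 * (N : ℝ) ^ (1 - η)

/-- Module Wof (200 lines; adapt TP/Qof). Uses: QnuStmt, QblStmt.
Proof. As TP/Qof with G n = ∑_{a ∈ A} ∑_{b ∈ A.erase a} GF (c a) (n - a) * GF (c b) (n - b) in Qnu; for one f: Qbl for all factors, the sum is the sum over i, i' < k of the sums of OffGAt (g = 0) with Q = 2^i Q0, Q2 = 2^i' Q0 and the restricted coefficients (if R < d ∧ d ≤ D then c a d else 0: still IsCf A K);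
blocks with 2^i Q0 > D vanish. Iw N j (TN/Stm2) is the same set as rn N j (unfold). N^0 ≤ K. -/
def WofStmt : Prop := ∀ δ v ε e1 e2 : ℝ, 0 ≤ δ → δ ≤ 1 / 4 → Pool.Agent.Lib.TV.OffGAt δ v 0 ε e1 e2 → OffWAt δ v ε e1 e2

/-- Module Win (200 lines; adapt TP/Qin). Uses: DiaVStmt, SelStmt, WqStmt.
Proof. As TP/Qin: e1' = 2δ + v + ε/2 and e2' = 1/2 - 7δ - 2v - ε/2 are the exponents of the hypothesis, ε/2 in place of ε in the cut RN. OffFam: |A| ≤ K x^v ≤ K N^v, IsCf A K c from the two bounds, |a| ≤ x gives |a| ≤ N; C1 N^(1-η1) ≤ x^(1-η1/2). DiaAt exactly as in Qin. -/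
def WinStmt : Prop := ∀ δ v ε ρ : ℝ, 0 ≤ δ → 0 ≤ v → 0 < ε → 2 * δ + v + ε ≤ 1 / 2 - 7 * δ - 2 * v - ε → 0 < ρ →
  OffWAt δ v (ε / 2) (2 * δ + v + ε / 2) (1 / 2 - 7 * δ - 2 * v - ε / 2) →
  ∃ κ : ℝ, 0 < κ ∧ InVStmt (1 / 2 + δ) v (Clow κ (Cv δ v ε ρ))

/-- Module Wpu (150 lines; adapt TP/Pcu). The local Bessel inequality. Uses: nothing.
Proof. As TP/Pcu (copy all of it). The only change is the off-diagonal part: c~ = c/√S satisfies |c~ a d| ≤ 1 and ∑_{a ∈ A} |c~ a d| ≤ (∑_{i ∈ J} |Y i|)/√S ≤ √|J| ≤ |J| (Cauchy; for (a, d) at most one i contributes), |A| ≤ |J| V, so OffFam with K = |J| ≥ 1 (J is nonempty if S > 0) bounds the sum over a and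
b ∈ A.erase a for c~ by |J|^2 T1, hence for c by S |J|^2 T1. (∑_a G_a)^2 = ∑_a G_a^2 + ∑_a ∑_{b ∈ A.erase a} G_a G_b.) -/
def WpuStmt : Prop := ∀ (R D E : ℕ) (I : Finset ℤ) (w : ℤ → ℝ) (lam : ℕ → ℝ) (Cl : ℕ → Prop) (X V T1 T2 w0 : ℝ)
  (P J : Finset ℕ) (σ : ℕ → ℕ → ℝ) (s : ℕ → ℕ → ℤ), 0 < w0 → 0 ≤ T1 → 0 ≤ V → (∀ n ∈ I, 0 ≤ w n) →
  (∀ p ∈ P, (p : ℤ) ∈ I ∧ w0 ≤ w p ∧ nu lam E p = 1) → OffFam R D E I w lam Cl X V T1 → DiaAt R D E I w lam Cl X T2 →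
  (∀ i d, |σ i d| ≤ 1) → (∀ i d, σ i d ≠ 0 → Cl d) → (∀ i ∈ J, ∀ d ∈ Icc 1 D, |(s i d : ℝ)| ≤ X) →
  (∀ i ∈ J, (((Icc 1 D).image (s i)).card : ℝ) ≤ V) →
  (∀ i ∈ J, ∀ j ∈ J, i ≠ j → ∀ d ∈ Icc 1 D, s i d ≠ s j d) →
  ∑ i ∈ J, (∑ d ∈ Ioc R D, σ i d * gg R P (s i d) d) ^ 2 ≤ (P.card : ℝ) / w0 * (T2 + (J.card : ℝ) ^ 2 * T1)

/-- Module Wcu (80 lines; adapt TP/Rcu). Several sets of primes. Uses: WpuStmt. -/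
def WcuStmt : Prop := ∀ (R D E : ℕ) (I : Finset ℤ) (w : ℤ → ℝ) (lam : ℕ → ℝ) (Cl : ℕ → Prop) (X V T1 T2 w0 : ℝ)
  (Y : Finset ℝ) (P : ℝ → Finset ℕ) (J : Finset ℕ) (σ : ℝ → ℕ → ℕ → ℝ) (s : ℕ → ℕ → ℤ), 0 < w0 → 0 ≤ T1 → 0 ≤ V →
  (∀ n ∈ I, 0 ≤ w n) → (∀ z ∈ Y, ∀ p ∈ P z, (p : ℤ) ∈ I ∧ w0 ≤ w p ∧ nu lam E p = 1) →
  OffFam R D E I w lam Cl X V T1 → DiaAt R D E I w lam Cl X T2 →
  (∀ z i d, |σ z i d| ≤ 1) → (∀ z i d, σ z i d ≠ 0 → Cl d) → (∀ i ∈ J, ∀ d ∈ Icc 1 D, |(s i d : ℝ)| ≤ X) →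
  (∀ i ∈ J, (((Icc 1 D).image (s i)).card : ℝ) ≤ V) →
  (∀ i ∈ J, ∀ j ∈ J, i ≠ j → ∀ d ∈ Icc 1 D, s i d ≠ s j d) →
  ∑ i ∈ J, (∑ z ∈ Y, ∑ d ∈ Ioc R D, σ z i d * gg R (P z) (s i d) d) ^ 2 ≤
    (Y.card : ℝ) * (∑ z ∈ Y, ((P z).card : ℝ)) / w0 * (T2 + (J.card : ℝ) ^ 2 * T1)

/-- Module Wby (250 lines; adapt TP/Rby). Uses: WcuStmt, RspStmt, RptStmt, LpSStmt (of TB/StmS), BV.ExtStmt, BV.BttStmt.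
Proof. As TP/Rby with V = x^v (no η to choose): (log x)^(2B) x^(1-η) ≤ x/log x; small primes: 4 E x^v √x (..) ≤ x^(1/10 + 1/6 + 1/2 + small). -/
def WbyStmt : Prop := ∀ (θ v : ℝ) (Cls : ℝ → ℕ → Prop), 0 < θ → θ ≤ 3 / 4 → 0 ≤ v → v ≤ 1 / 6 → InVStmt θ v Cls →
  BykV θ v Cls

/-- Module Wgr (120 lines; adapt TP/Rgr). Uses: RroStmt. -/
def WgrStmt : Prop := ∀ (θ v κ x1 : ℝ) (Cls : ℝ → ℕ → Prop), 0 < θ → θ < 1 → 0 < κ →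
  (∀ x, x1 ≤ x → ∀ d, Cls x d → Rgh ⌊x ^ κ⌋₊ d) → BykV θ v Cls → GryV θ v Cls

/-- Module Wlo (100 lines; adapt TP/Rlo). Uses: QsmStmt. -/
def WloStmt : Prop := ∀ (θ v κ : ℝ) (Cls : ℝ → ℕ → Prop), 0 < κ → GryV θ v (Clow κ Cls) → GryV θ v Cls

/-- Module Wth (150 lines; adapt TP/Kth: the same proof with v in place of η). Uses: KtopStmt. -/
def WthStmt : Prop := ∀ (θ v : ℝ) (Cls : ℝ → ℕ → Prop), GryV θ v Cls → KthV θ v Cls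

/-- the hypothesis: the off-diagonal estimate of TV with the factor f, all exponents -/
def OffGAll : Prop := ∀ δ v ε : ℝ, 0 ≤ δ → 0 ≤ v → 0 < ε → 2 * δ + v + ε ≤ 1 / 2 - 7 * δ - 2 * v - ε →
  Pool.Agent.Lib.TV.OffGAt δ v 0 ε (2 * δ + v + ε) (1 / 2 - 7 * δ - 2 * v - ε)

/-- Module Wfi (80 lines; compare TP/Rfi). THEOREM W. Uses: OffGAll, WofStmt, WinStmt, WbyStmt, WgrStmt, WloStmt, WthStmt.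
Proof. If 2δ + v + ε > 1/2 - 7δ - 2v - ε then no d is in Cv for x ≥ 2: RS = 0, C = 1, Bad d = ∅ (K ≥ 1). Otherwise δ ≤ 1/18, v ≤ 1/6 and OffGAll with ε/2, Wof, Win, Wby (θ = 1/2 + δ), Wgr (κ = ρ: Clow κ' (Cv ..) x d implies Rx ρ x d, so Rgh ⌊x^ρ⌋₊ d), Wlo, Wth. -/
def WStmt : Prop := ∀ δ v ε ρ : ℝ, 0 ≤ δ → 0 ≤ v → 0 < ε → 0 < ρ → KthV (1 / 2 + δ) v (Cv δ v ε ρ)

end Pool.Agent.Lib.TP
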