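import Pool.Agent.Lib.TB.Stm2
import Pool.Agent.Lib.KF.Defs

/-!
MP_00e23e_nt, directory Lib/TP (theorem P: moduli without small prime factors, bounded exceptional set; plan: note 2384 of
helper64 and mail of helper81): definitions and interfaces between the parts.

Part O (helper81): `OffVStmt`. Part S (helper81): `SelStmt`, `SvpStmt`, `RgsStmt`, `RgdStmt`. Part D (helper64): `DiaVStmt`.
Part A (helper64): `PStmt` from `OffVStmt`, `DiaVStmt`, `SelStmt`, `LpSStmt`, Bombieri-Vinogradov, Brun-Titchmarsh.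
-/

namespace Pool.Agent.Lib.TP

open Finset Pool.Agent.Lib.EH3 Pool.Agent.Lib.TB Pool.Agent.Results.MP_00e23e_nt

/-- all prime factors of d are larger than z -/
def Rgh (z d : ℕ) : Prop := ∀ p : ℕ, p.Prime → p ∣ d → z < p

noncomputable instance (z d : ℕ) : Decidable (Rgh z d) := Classical.dec _

/-- the square of the sieve weight: (∑_{e ≤ E, e | n} λ_e)^2 -/
noncomputable def nu (lam : ℕ → ℝ) (E : ℕ) (n : ℤ) : ℝ :=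
  (∑ e ∈ Icc 1 E, if (e : ℤ) ∣ n then lam e else 0) ^ 2

/-- F(m) = ∑_{R < d ≤ D} c_d (1_{d | m} - l_d(m)) for m ≠ 0 and F(0) = 0 (the whole range of moduli) -/
noncomputable def GF (R D : ℕ) (c : ℕ → ℝ) (m : ℤ) : ℝ :=
  if m = 0 then 0 else ∑ d ∈ Ioc R D, c d * dd R d m

/-- Selberg weights of level E -/
structure IsSel (lam : ℕ → ℝ) (E : ℕ) : Prop where
  one : lam 1 = 1
  le : ∀ e, |lam e| ≤ 1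
  quad : ∑ e ∈ Icc 1 E, ∑ e' ∈ Icc 1 E, lam e * lam e' / (Nat.lcm e e' : ℝ) ≤ 1 / Real.log E

/-- (SEL) Selberg weights exist -/
def SelStmt : Prop := ∀ E : ℕ, 2 ≤ E → ∃ lam : ℕ → ℝ, IsSel lam E

/-- (SVP) the sieve weight in a progression -/
def SvpStmt : Prop := ∀ (N E q : ℕ) (lam : ℕ → ℝ) (a : ℤ), 1 ≤ N → 2 ≤ E → 1 ≤ q → IsSel lam E → Rgh E q →
  ∑ n ∈ Icc (-(N : ℤ)) N, tri N n * nu lam E n * (if (q : ℤ) ∣ n - a then 1 else 0) ≤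
    (N : ℝ) / (q * Real.log E) + q * (E : ℝ) ^ 4 / N

/-- (RGS) the sum of the reciprocals of the rough integers -/
def RgsStmt : Prop := ∃ C : ℝ, ∀ z X : ℕ, 2 ≤ z → 2 ≤ X →
  ∑ d ∈ (Icc 1 X).filter (Rgh z), 1 / (d : ℝ) ≤ C * (1 + Real.log X / Real.log z)

/-- (RGD) the number of rough divisors -/
def RgdStmt : Prop := ∀ z m : ℕ, 2 ≤ z → 1 ≤ m →
  (((m.divisors).filter (Rgh z)).card : ℝ) ≤ (2 : ℝ) ^ (Real.log m / Real.log z)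

/-- (OFFV) almost orthogonality with the sieve weight, for different integers a and b -/
def OffVStmt : Prop := ∃ C η κ : ℝ, 0 < η ∧ 0 < κ ∧ ∀ (N E D : ℕ) (lam c c' : ℕ → ℝ) (a b : ℤ), 1 ≤ N → 1 ≤ E →
  (E : ℝ) ≤ (N : ℝ) ^ κ → (D : ℝ) ≤ 2 * (N : ℝ) ^ ((1 : ℝ) / 2 + 1 / 1000) → (∀ e, |lam e| ≤ 1) →
  (∀ d, |c d| ≤ 1) → (∀ d, |c' d| ≤ 1) → (∀ d, c d ≠ 0 → Rgh (4 * E ^ 2) d) →
  (∀ d, c' d ≠ 0 → Rgh (4 * E ^ 2) d) → a ≠ b → |a| ≤ (N : ℤ) → |b| ≤ (N : ℤ) →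
  |∑ n ∈ Icc (-(N : ℤ)) N, tri N n * nu lam E n * (GF (RR N) D c (n - a) * GF (RR N) D c' (n - b))| ≤
    C * (N : ℝ) ^ (1 - η)

/-- (DIAV) the diagonal moment with the sieve weight (any cut R, any level up to 3/4) -/
def DiaVStmt : Prop := ∀ κ : ℝ, 0 < κ → ∃ C : ℝ, ∀ (N R E D : ℕ) (lam : ℕ → ℝ) (c : ℤ → ℕ → ℝ) (A : Finset ℤ) (W : ℝ),
  2 ≤ N → 1 ≤ R → 2 ≤ E → (N : ℝ) ^ κ ≤ E → (E : ℝ) ≤ (N : ℝ) ^ ((1 : ℝ) / 10) → IsSel lam E →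
  (D : ℝ) ≤ 2 * (N : ℝ) ^ ((3 : ℝ) / 4) → (∀ a d, c a d ≠ 0 → Rgh E d) →
  (∀ d, ∑ a ∈ A, c a d ^ 2 ≤ W) → (∀ a ∈ A, |a| ≤ (N : ℤ)) →
  ∑ a ∈ A, ∑ n ∈ Icc (-(N : ℤ)) N, tri N n * nu lam E n * GF R D (c a) (n - a) ^ 2 ≤
    C * W * (N : ℝ) / Real.log N

open Classical in
/-- the sum of |E(y(d); d, s(d))| over the moduli d ≤ x^(1/2+1/1000) prime to s(d) all of whose prime factors are > x^ρ -/
noncomputable def RSum (ρ x : ℝ) (y : ℕ → ℝ) (s : ℕ → ℤ) : ℝ :=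
  ∑ d ∈ (Icc 1 ⌊x ^ ((1 : ℝ) / 2 + 1 / 1000)⌋₊).filter
    (fun d : ℕ => Int.gcd (s d) d = 1 ∧ ∀ p : ℕ, p.Prime → p ∣ d → x ^ ρ < (p : ℝ)), |resErr (y d) d (s d)|

/-- a family of selectors: integers in [-x, x], at most x^η values each, pairwise different at every modulus -/
def IsFam (η x : ℝ) (J : Finset ℕ) (s : ℕ → ℕ → ℤ) : Prop :=
  (∀ i ∈ J, ∀ d ∈ Icc 1 ⌊x ^ ((1 : ℝ) / 2 + 1 / 1000)⌋₊, |(s i d : ℝ)| ≤ x) ∧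
  (∀ i ∈ J, (((Icc 1 ⌊x ^ ((1 : ℝ) / 2 + 1 / 1000)⌋₊).image (s i)).card : ℝ) ≤ x ^ η) ∧
  (∀ i ∈ J, ∀ j ∈ J, i ≠ j → ∀ d ∈ Icc 1 ⌊x ^ ((1 : ℝ) / 2 + 1 / 1000)⌋₊, s i d ≠ s j d)

/-- **THEOREM P.** -/
def PStmt : Prop := ∀ ρ : ℝ, 0 < ρ → ∃ C η : ℝ, 0 < η ∧
  (∀ B : ℝ, ∃ x0 : ℝ, ∀ x : ℝ, x0 ≤ x → ∀ (J : Finset ℕ) (s : ℕ → ℕ → ℤ), IsFam η x J s →
    (J.card : ℝ) ≤ (Real.log x) ^ B →
    ∑ i ∈ J, RSum ρ x (fun _ => x) (s i) ^ 2 ≤ C * (x / Real.log x) ^ 2) ∧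
  (∀ ε : ℝ, 0 < ε → ε ≤ 1 → ∃ x0 : ℝ, ∀ x : ℝ, x0 ≤ x → ∀ (J : Finset ℕ) (s : ℕ → ℕ → ℤ), IsFam η x J s →
    ∃ S ⊆ J, (S.card : ℝ) ≤ C / ε ^ 3 ∧ ∀ i ∈ J, i ∉ S → ∀ y : ℕ → ℝ, (∀ d, 2 ≤ y d ∧ y d ≤ x) →
      RSum ρ x y (s i) ≤ ε * (x / Real.log x))

end Pool.Agent.Lib.TP
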