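import Pool.Agent.Lib.TP.AllW

/-!
MP_00e23e_nt, directory Lib/TP, module Wga: the Bessel inequality for arbitrary points, x^v residues, without hypotheses.
-/

namespace Pool.Agent.Lib.TP

open Finset Pool.Agent.Lib.EH3 Pool.Agent.Lib.TB Pool.Agent.Results.MP_00e23e_nt

private theorem Wga_rgh (ρ x : ℝ) (d : ℕ) (h : Rx ρ x d) : Rgh ⌊x ^ ρ⌋₊ d := by
  intro p hp hd
  exact (Nat.floor_lt' hp.ne_zero).2 (h p hp hd)

/-- the class is empty if the interval of the convenient divisors is empty -/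
private theorem Wga_empty (δ v ε ρ x : ℝ) (d : ℕ) (hx : 1 < x)
    (hlt : 1 / 2 - 7 * δ - 2 * v - ε < 2 * δ + v + ε) : ¬ Cv δ v ε ρ x d := by
  rintro ⟨_, _, s, _, h1, h2⟩
  have h3 : x ^ ((1 : ℝ) / 2 - 7 * δ - 2 * v - ε) < x ^ (2 * δ + v + ε) :=
    Real.rpow_lt_rpow_of_exponent_lt hx hlt
  linarith

open Classical in
private theorem Wga_RS (θ : ℝ) (Cls : ℝ → ℕ → Prop) (x : ℝ) (y : ℕ → ℝ) (s : ℕ → ℤ)
    (h : ∀ d, ¬ Cls x d) : RS θ Cls x y s = 0 := by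
  unfold RS
  refine Finset.sum_eq_zero fun d hd => ?_
  exact absurd (Finset.mem_filter.1 hd).2.2 (h d)

/-- the Bessel inequality at the level 501/1000: all moduli without prime factors ≤ x^ρ -/
theorem aGryP (ρ : ℝ) (hρ : 0 < ρ) : GryStmt (501 / 1000) (Rx ρ) :=
  aRgr (501 / 1000) ρ 0 (Rx ρ) (by norm_num) (by norm_num) hρ
    (fun _ _ _ hd p hp hpd => (Nat.floor_lt' hp.ne_zero).2 (hd p hp hpd))
    (aRby (501 / 1000) (Rx ρ) (by norm_num) (by norm_num) (tPin aOffV aDiaV aSel ρ hρ))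

/-- the Bessel inequality for x^v residues -/
theorem aGryV (δ v ε ρ : ℝ) (hδ : 0 ≤ δ) (hv : 0 ≤ v) (hε : 0 < ε) (hρ : 0 < ρ) :
    GryV (1 / 2 + δ) v (Cv δ v ε ρ) := by
  by_cases hle : 2 * δ + v + ε ≤ 1 / 2 - 7 * δ - 2 * v - ε
  · have g1 := tOffGAll Pool.Agent.Lib.TVf.tUpf δ v (ε / 2) hδ hv (by linarith) (by linarith)
    have g2 := tWof tQnu tQbl δ v (ε / 2) _ _ hδ (by linarith) g1
    obtain ⟨κ, hκ, hin⟩ := tWin aDiaV aSel aWq δ v ε ρ hδ hv hε hle hρ g2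
    have b : BykV (1 / 2 + δ) v (Clow κ (Cv δ v ε ρ)) :=
      tWby (tWcu tWpu) (tRsp tOab) tRpt tLpS Pool.Agent.Lib.BV.aExt Pool.Agent.Lib.BV.aBtt
        (1 / 2 + δ) v _ (by linarith) (by linarith) hv (by linarith) hin
    have g : GryV (1 / 2 + δ) v (Clow κ (Cv δ v ε ρ)) :=
      tWgr (tRro (tPbt aSel (tSvt tSsbd)) (tPfr aRgs))
        (1 / 2 + δ) v ρ 0 _ (by linarith) (by linarith) hρ (fun x _ d hd => Wga_rgh ρ x d hd.2.1) b
    exact tWlo (tQsm Pool.Agent.Lib.BV.aExt) _ _ κ _ hκ g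
  · push Not at hle
    refine ⟨1, one_pos, fun B => ⟨2, fun x hx J s Y y _ _ _ _ => ?_⟩⟩
    have h1 : ∑ i ∈ J, RS (1 / 2 + δ) (Cv δ v ε ρ) x (y i) (s i) ^ 2 = 0 := by
      refine Finset.sum_eq_zero fun i _ => ?_
      rw [Wga_RS _ _ x _ (s i) (fun d => Wga_empty δ v ε ρ x d (by linarith) hle)]
      norm_num
    rw [h1]
    have h2 : 0 ≤ min (Y.card : ℝ) ((J.card : ℝ) ^ ((1 : ℝ) / 3)) :=
      le_min (Nat.cast_nonneg _) (Real.rpow_nonneg (Nat.cast_nonneg _) _)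
    positivity

end Pool.Agent.Lib.TP
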